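import Pool.Agent.Helper10.Sub.AppDefs
import Mathlib

/-!
# The coordinates are integral over the polynomials in the forms

Plan. Let `R = MvPolynomial (Fin (N + 1)) K`, `I = Ideal.span J₀`, `I' = Ideal.span (J₀ ∪ range F)`.
1. Nullstellensatz: every coordinate `X j` lies in the radical of `I'` (otherwise there is a prime,
   or a maximal ideal of the localization at `X j`, giving a zero `A ≠ 0` in `Ω`; Mathlib:
   `MvPolynomial.vanishingIdeal_zeroLocus_eq_radical` (check the version over a field `K` with an
   algebraically closed extension `Ω`), so `X j ^ e j ∈ I'`; hence every form of degree at least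
   `n = ∑ (e j + 1)` lies in `I'` (each monomial is divisible by some `X j ^ e j`).
2. Let `M ⊆ R` be the set of the polynomials which are congruent modulo `I` to a finite sum
   `∑ c_m(F) * m`, `m` monomials of degree `< n`, `c_m ∈ MvPolynomial (Fin 3) K`. By strong
   induction on the degree every homogeneous `g` is in `M`: if its degree is `≥ n`, then
   `g = ∑ h_f f + ∑ h_i F_i` (`f ∈ J₀`), and the homogeneous components of the right degree give
   `g ≡ ∑ h_i F_i` modulo `I` with `h_i` homogeneous of degree `deg g - d i < deg g`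
   (`MvPolynomial.homogeneousComponent`, `hJ₀`, `hd`).
3. So `R ⧸ I` is a finite module over `MvPolynomial (Fin 3) K` (algebra structure
   `(Ideal.Quotient.mk I).comp (aeval F)`), the class of `X k` is integral over it
   (`IsIntegral.of_finite` or `Algebra.IsIntegral.of_finite`), and evaluation at `x` (which factors
   through `R ⧸ I`) gives the equation.
-/

set_option autoImplicit false

namespace Pool.Agent.Helper38.TP

open Pool.Agent.Helper10.Sub MvPolynomial

section general

variable {K : Type} [Field K] {N : ℕ}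

theorem int_comp_mul {c g : MvPolynomial (Fin (N + 1)) K} {e : ℕ} (hg : g.IsHomogeneous e)
    (n : ℕ) : homogeneousComponent n (c * g) =
      if e ≤ n then g * homogeneousComponent (n - e) c else 0 := by
  classical
  have h1 : homogeneousComponent n (c * g) = ∑ m ∈ Finset.range (c.totalDegree + 1),
      homogeneousComponent n (homogeneousComponent m c * g) := by
    conv_lhs => rw [← sum_homogeneousComponent c, Finset.sum_mul, map_sum]
  have h2 : ∀ m, homogeneousComponent n (homogeneousComponent m c * g) =
      if n = m + e then homogeneousComponent m c * g else 0 := fun m =>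
    homogeneousComponent_of_mem ((homogeneousComponent_isHomogeneous m c).mul hg)
  rw [h1]
  simp only [h2]
  by_cases he : e ≤ n
  · rw [if_pos he]
    have h3 : ∀ m, (if n = m + e then homogeneousComponent m c * g else 0) =
        if m = n - e then homogeneousComponent (n - e) c * g else 0 := by
      intro m
      by_cases hm : m = n - e
      · rw [if_pos hm, if_pos (by omega), hm]
      · rw [if_neg hm, if_neg (by omega)]
    simp only [h3]
    rw [Finset.sum_ite_eq']
    by_cases h4 : n - e ∈ Finset.range (c.totalDegree + 1)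
    · rw [if_pos h4, mul_comm]
    · rw [if_neg h4, homogeneousComponent_eq_zero _ _ (by
        rw [Finset.mem_range] at h4
        omega), mul_zero]
  · rw [if_neg he]
    exact Finset.sum_eq_zero fun m _ => if_neg (by omega)

/-- an ideal generated by forms is homogeneous -/
theorem int_span_hom (J₀ : Set (MvPolynomial (Fin (N + 1)) K))
    (hJ₀ : ∀ f ∈ J₀, ∃ e, f.IsHomogeneous e) (f : MvPolynomial (Fin (N + 1)) K)
    (hf : f ∈ Ideal.span J₀) (n : ℕ) : homogeneousComponent n f ∈ Ideal.span J₀ := by
  have key : ∀ a : MvPolynomial (Fin (N + 1)) K, ∀ n,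
      homogeneousComponent n (a * f) ∈ Ideal.span J₀ := by
    refine Submodule.span_induction (p := fun f _ => ∀ a : MvPolynomial (Fin (N + 1)) K, ∀ n,
      homogeneousComponent n (a * f) ∈ Ideal.span J₀) ?_ ?_ ?_ ?_ hf
    · intro f hf a n
      obtain ⟨e, he⟩ := hJ₀ f hf
      rw [int_comp_mul he]
      split_ifs
      · exact Ideal.mul_mem_right _ _ (Ideal.subset_span hf)
      · exact Ideal.zero_mem _
    · intro a n
      rw [mul_zero, map_zero]
      exact Ideal.zero_mem _
    · intro f g _ _ hf hg a n
      rw [mul_add, map_add]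
      exact Ideal.add_mem _ (hf a n) (hg a n)
    · intro b f _ hf a n
      rw [smul_eq_mul, ← mul_assoc]
      exact hf (a * b) n
  have h := key 1 n
  rwa [one_mul] at h

/-- the Nullstellensatz: a power of every coordinate lies in the ideal -/
theorem int_pow_mem {ι : Type} (I : Ideal (MvPolynomial (Fin (N + 1)) K))
    (h : ι → MvPolynomial (Fin (N + 1)) K) {Ω : Type} [Field Ω] [IsAlgClosed Ω] [Algebra K Ω]
    (h0 : ∀ x : Fin (N + 1) → Ω, (∀ f ∈ I, aeval x f = 0) → (∀ i, aeval x (h i) = 0) → x = 0) :
    ∃ k : ℕ, ∀ i, (X i : MvPolynomial (Fin (N + 1)) K) ^ k ∈ I ⊔ Ideal.span (Set.range h) := by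
  classical
  set J := I ⊔ Ideal.span (Set.range h) with hJ
  have h1 : ∀ i, (X i : MvPolynomial (Fin (N + 1)) K) ∈ J.radical := by
    intro i
    rw [← vanishingIdeal_zeroLocus_eq_radical (K := Ω) J, mem_vanishingIdeal_iff]
    intro x hx
    have h2 : x = 0 := by
      refine h0 x (fun f hf => hx f (Ideal.mem_sup_left hf)) fun i =>
        hx (h i) (Ideal.mem_sup_right (Ideal.subset_span ⟨i, rfl⟩))
    rw [h2]
    simp
  choose k hk using h1
  refine ⟨∑ i, k i, fun i => ?_⟩
  exact Ideal.pow_mem_of_pow_mem J (hk i) (Finset.single_le_sum (f := k)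
    (fun _ _ => Nat.zero_le _) (Finset.mem_univ i))

/-- The homogeneous coordinate ring is generated, as a module over the ring generated by the
forms, by finitely many monomials. -/
theorem int_span_top {ι : Type} [Finite ι] (I : Ideal (MvPolynomial (Fin (N + 1)) K))
    (hI : ∀ f ∈ I, ∀ n, homogeneousComponent n f ∈ I)
    (h : ι → MvPolynomial (Fin (N + 1)) K) (e : ι → ℕ) (he : ∀ i, 0 < e i)
    (hh : ∀ i, (h i).IsHomogeneous (e i)) {Ω : Type} [Field Ω] [IsAlgClosed Ω] [Algebra K Ω]
    (h0 : ∀ x : Fin (N + 1) → Ω, (∀ f ∈ I, aeval x f = 0) → (∀ i, aeval x (h i) = 0) → x = 0) :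
    Module.Finite (Algebra.adjoin K (Set.range fun i => Ideal.Quotient.mk I (h i)))
      (MvPolynomial (Fin (N + 1)) K ⧸ I) := by
  classical
  have := Fintype.ofFinite ι
  obtain ⟨k, hk⟩ := int_pow_mem I h h0
  set A := Algebra.adjoin K (Set.range fun i => Ideal.Quotient.mk I (h i)) with hA
  set M := (N + 1) * k with hM
  set T : Submodule A (MvPolynomial (Fin (N + 1)) K ⧸ I) := Submodule.span A
    ((fun μ : Fin (N + 1) →₀ ℕ => Ideal.Quotient.mk I (monomial μ (1 : K))) ''
      {μ | μ.degree ≤ M}) with hT
  have hC : ∀ (c : K) (z : MvPolynomial (Fin (N + 1)) K ⧸ I), z ∈ T →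
      Ideal.Quotient.mk I (C c) * z ∈ T := by
    intro c z hz
    have h1 : (algebraMap K A c) • z ∈ T := T.smul_mem _ hz
    exact h1
  have hH : ∀ (i : ι) (z : MvPolynomial (Fin (N + 1)) K ⧸ I), z ∈ T →
      Ideal.Quotient.mk I (h i) * z ∈ T := by
    intro i z hz
    have h2 : Ideal.Quotient.mk I (h i) ∈ A := Algebra.subset_adjoin ⟨i, rfl⟩
    have h1 : (⟨_, h2⟩ : A) • z ∈ T := T.smul_mem _ hz
    exact h1
  have key : ∀ n : ℕ, ∀ f : MvPolynomial (Fin (N + 1)) K, f.IsHomogeneous n →
      Ideal.Quotient.mk I f ∈ T := by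
    intro n
    induction n using Nat.strong_induction_on with
    | _ n ih =>
      intro f hf
      rw [f.as_sum, map_sum]
      refine T.sum_mem fun μ hμ => ?_
      have hμn : μ.degree = n := by
        have h2 := hf (mem_support_iff.1 hμ)
        rw [Finsupp.degree_eq_weight_one]
        exact h2
      have h3 : monomial μ (coeff μ f) = C (coeff μ f) * monomial μ (1 : K) := by
        rw [C_mul_monomial, mul_one]
      rw [h3, map_mul]
      apply hC
      by_cases hle : μ.degree ≤ M
      · exact Submodule.subset_span ⟨μ, hle, rfl⟩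
      · have h4 : ∃ i, k ≤ μ i := by
          by_contra hcon
          push Not at hcon
          apply hle
          rw [Finsupp.degree_eq_sum]
          calc ∑ i, μ i ≤ ∑ _i : Fin (N + 1), k := Finset.sum_le_sum fun i _ => (hcon i).le
            _ = M := by simp [hM]
        obtain ⟨i, hi⟩ := h4
        have h5 : monomial μ (1 : K) ∈ I ⊔ Ideal.span (Set.range h) := by
          have h6 : monomial μ (1 : K) =
              monomial (μ - Finsupp.single i k) 1 * X i ^ k := by
            rw [X_pow_eq_monomial, monomial_mul, mul_one, tsub_add_cancel_of_le]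
            rw [Finsupp.single_le_iff]
            exact hi
          rw [h6]
          exact Ideal.mul_mem_left _ _ (hk i)
        obtain ⟨g, hg, g', hg', hgg⟩ := Submodule.mem_sup.1 h5
        obtain ⟨c, hc⟩ := (Ideal.mem_span_range_iff_exists_fun).1 hg'
        have h7 : monomial μ (1 : K) = homogeneousComponent n (monomial μ (1 : K)) := by
          rw [homogeneousComponent_of_mem (isHomogeneous_monomial (1 : K) hμn), if_pos rfl]
        have h8 : homogeneousComponent n (monomial μ (1 : K)) = homogeneousComponent n g +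
            ∑ j, homogeneousComponent n (c j * h j) := by
          rw [← hgg, map_add, ← hc, map_sum]
        rw [h7, h8, map_add, map_sum]
        refine T.add_mem ?_ (T.sum_mem fun j _ => ?_)
        · rw [Ideal.Quotient.eq_zero_iff_mem.2 (hI g hg n)]
          exact T.zero_mem
        · by_cases hj : e j ≤ n
          · have h9 : homogeneousComponent n (c j * h j) =
                h j * homogeneousComponent (n - e j) (c j) := by
              rw [int_comp_mul (hh j), if_pos hj]
            rw [h9, map_mul]
            apply hH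
            exact ih (n - e j) (by have := he j; omega) _ (homogeneousComponent_isHomogeneous _ _)
          · have h9 : homogeneousComponent n (c j * h j) = 0 := by
              rw [int_comp_mul (hh j), if_neg hj]
            rw [h9, map_zero]
            exact T.zero_mem
  have htop : T = ⊤ := by
    rw [eq_top_iff]
    rintro z -
    obtain ⟨f, rfl⟩ := Ideal.Quotient.mk_surjective z
    rw [← sum_homogeneousComponent f, map_sum]
    exact T.sum_mem fun n _ => key n _ (homogeneousComponent_isHomogeneous _ _)
  have hfin : ((fun μ : Fin (N + 1) →₀ ℕ => Ideal.Quotient.mk I (monomial μ (1 : K))) ''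
      {μ | μ.degree ≤ M}).Finite := (Finsupp.finite_of_degree_le M).image _
  refine ⟨⟨hfin.toFinset, ?_⟩⟩
  rw [Set.Finite.coe_toFinset, ← hT, htop]

end general

theorem int_eq {K : Type} [Field K] {N : ℕ} (J₀ : Set (MvPolynomial (Fin (N + 1)) K))
    (hJ₀ : ∀ f ∈ J₀, ∃ e, f.IsHomogeneous e)
    (F : Fin 3 → MvPolynomial (Fin (N + 1)) K) (d : Fin 3 → ℕ) (hd : ∀ i, 1 ≤ d i)
    (hF : ∀ i, (F i).IsHomogeneous (d i))
    {Ω : Type} [Field Ω] [IsAlgClosed Ω] [Algebra K Ω]
    (hempty : ∀ A : Fin (N + 1) → Ω, OnV J₀ A → (∀ i, aeval A (F i) = 0) → A = 0)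
    (k : Fin (N + 1)) :
    ∃ (e : ℕ) (c : ℕ → MvPolynomial (Fin 3) K), ∀ x : Fin (N + 1) → K,
      (∀ f ∈ J₀, eval x f = 0) →
      x k ^ e + ∑ i ∈ Finset.range e, eval (fun j => eval x (F j)) (c i) * x k ^ i = 0 := by
  classical
  set I : Ideal (MvPolynomial (Fin (N + 1)) K) := Ideal.span J₀ with hIdef
  have hfin := int_span_top (Ω := Ω) I (fun f hf n => int_span_hom J₀ hJ₀ f hf n) F d hd hF
    (fun x hx hx' => hempty x (fun f hf => hx f (Ideal.subset_span hf)) hx')
  have hint : IsIntegral (Algebra.adjoin K (Set.range fun i => Ideal.Quotient.mk I (F i)))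
      (Ideal.Quotient.mk I (X k)) := by
    have h1 : Algebra.IsIntegral (Algebra.adjoin K (Set.range fun i => Ideal.Quotient.mk I (F i)))
      (MvPolynomial (Fin (N + 1)) K ⧸ I) := Algebra.IsIntegral.of_finite _ _
    exact h1.isIntegral _
  obtain ⟨p, hp, hp0⟩ := hint
  have hc : ∀ i, ∃ c : MvPolynomial (Fin 3) K,
      Ideal.Quotient.mk I (aeval F c) = (p.coeff i : MvPolynomial (Fin (N + 1)) K ⧸ I) := by
    intro i
    have h1 : ∀ z : MvPolynomial (Fin (N + 1)) K ⧸ I,
        z ∈ Algebra.adjoin K (Set.range fun i => Ideal.Quotient.mk I (F i)) →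
        ∃ c : MvPolynomial (Fin 3) K, aeval (fun i => Ideal.Quotient.mk I (F i)) c = z := by
      intro z hz
      rw [Algebra.adjoin_range_eq_range_aeval, AlgHom.mem_range] at hz
      exact hz
    obtain ⟨c, hc⟩ := h1 _ (p.coeff i).2
    refine ⟨c, ?_⟩
    rw [← hc]
    have h6 : (Ideal.Quotient.mkₐ K I) (aeval F c) =
        aeval (fun i => Ideal.Quotient.mk I (F i)) c := by
      rw [← AlgHom.comp_apply, comp_aeval]
      rfl
    exact h6
  choose c hc using hc
  refine ⟨p.natDegree, c, fun x hx => ?_⟩
  have hI0 : ∀ f ∈ I, eval x f = 0 := by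
    intro f hf
    have h1 : I ≤ RingHom.ker (eval x : MvPolynomial (Fin (N + 1)) K →+* K) := by
      rw [hIdef, Ideal.span_le]
      intro g hg
      exact hx g hg
    exact h1 hf
  set ev : MvPolynomial (Fin (N + 1)) K ⧸ I →+* K := Ideal.Quotient.lift I (eval x) hI0 with hev
  have hev1 : ∀ f, ev (Ideal.Quotient.mk I f) = eval x f := fun f => Ideal.Quotient.lift_mk _ _ _
  have h2 : ∀ i, ev (p.coeff i : MvPolynomial (Fin (N + 1)) K ⧸ I) =
      eval (fun j => eval x (F j)) (c i) := by
    intro i
    rw [← hc i, hev1]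
    have h3 : ∀ q : MvPolynomial (Fin 3) K, eval x (aeval F q) =
        eval (fun j => eval x (F j)) q := by
      intro q
      induction q using MvPolynomial.induction_on with
      | C a => rw [algHom_C, MvPolynomial.algebraMap_eq, eval_C, eval_C]
      | add f g hf hg => rw [map_add, map_add, map_add, hf, hg]
      | mul_X f j hf => rw [map_mul, map_mul, map_mul, hf, aeval_X, eval_X]
    exact h3 _
  have h4 := congrArg ev hp0
  rw [Polynomial.eval₂_eq_sum_range, map_sum, map_zero, Finset.sum_range_succ] at h4
  have h5 : ev ((algebraMap (Algebra.adjoin K (Set.range fun i => Ideal.Quotient.mk I (F i)))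
      (MvPolynomial (Fin (N + 1)) K ⧸ I)) (p.coeff p.natDegree) *
        Ideal.Quotient.mk I (X k) ^ p.natDegree) = x k ^ p.natDegree := by
    have h6 : p.coeff p.natDegree = 1 := hp
    rw [h6, map_one, one_mul, map_pow, hev1, eval_X]
  rw [h5] at h4
  rw [add_comm, ← h4]
  congr 1
  refine Finset.sum_congr rfl fun i _ => ?_
  rw [map_mul, map_pow, hev1, eval_X, ← h2 i]
  rfl

end Pool.Agent.Helper38.TP
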