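import Pool.Agent.Helper38.TP.Defs

/-!
# The height
-/

set_option autoImplicit false

namespace Pool.Agent.Helper38.TP

open Pool.Agent.Helper10.Sub MvPolynomial

section ht
variable {K : Type} [Field K] {Λ : Type} [Fintype Λ] (L : Λ → Type)
  [∀ s, NontriviallyNormedField (L s)] [∀ s, Algebra K (L s)] {N : ℕ}

/-- The height. -/
noncomputable def Ht (x : Fin (N + 1) → K) : ℝ := ∏ s, nrm (L s) x

variable {L}

lemma one_le_Ht (Z : MP K L) {x : Fin (N + 1) → K} (hO : ∀ k, x k ∈ Z.O) (hx : x ≠ 0) :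
    1 ≤ Ht L x := by
  obtain ⟨k, hk⟩ := Function.ne_iff.mp hx
  refine (Z.one_le (x k) (hO k) hk).trans ?_
  exact Finset.prod_le_prod (fun _ _ => norm_nonneg _) fun s _ => le_nrm x k

end ht

end Pool.Agent.Helper38.TP
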