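import Pool.Agent.Helper10.Sub.PlaceExp

/-!
# Expansions of arbitrary order at one place, without conditions away from the corner
-/

set_option autoImplicit false

namespace Pool.Agent.Helper38.TP

open Pool.Agent.Helper10.Sub MvPolynomial

section exp
open Pool.Agent.Helper85.Sub Pool.Agent.Helper81.Sub Filter Topology

theorem expansionB {K : Type} [Field K] [CharZero K] {L : Type} [NontriviallyNormedField L]
    [ProperSpace L] [Algebra K L]
    {κ I : Type} [Fintype κ] [DecidableEq κ] [Fintype I] [DecidableEq I]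
    (J : Set (MvPolynomial κ K))
    (G : I → MvPolynomial κ K) (e : I → ℕ) (he : ∀ i, 1 ≤ e i) (c : I → K) (hc : ∀ i, c i ≠ 0)
    (j : κ)
    (hJac : ∀ A : κ → L, A j = 1 → OnV (J ∪ Set.range G) A → Jac (J ∪ Set.range G) A) (R : ℝ) (m : ℕ) :
    ∃ (C : ℝ) (Ty : Finset (κ → MvPolynomial I (algebraicClosure K L))), 0 < C ∧
      ∀ z : κ → L, z j = 1 → ‖z‖ ≤ R → OnV J z → ∀ u : I → L,
        (∀ i, aeval z (G i) = algebraMap K L (c i) * u i ^ e i) →
        ∃ P ∈ Ty, ∀ k, ‖z k - aeval u (P k)‖ ≤ C * ‖u‖ ^ (m + 1) := by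
  classical
  have hK : IsCompact (Metric.closedBall (0 : κ → L) R ∩ {z | z j = 1}) :=
    (isCompact_closedBall _ _).inter_right (isClosed_eq (continuous_apply j) continuous_const)
  have main := hK.induction_on (p := fun s => ∃ (C : ℝ)
      (Ty : Finset (κ → MvPolynomial I (algebraicClosure K L))), 0 < C ∧
      ∀ z ∈ s, ‖z‖ ≤ R → ∀ u : I → L, Rel J G e c j z u →
        ∃ P ∈ Ty, ∀ k, ‖z k - aeval u (P k)‖ ≤ C * ‖u‖ ^ (m + 1))
    ⟨1, ∅, one_pos, fun z hz => absurd hz id⟩
    (fun s t hst ⟨C, Ty, h1, h2⟩ => ⟨C, Ty, h1, fun z hz => h2 z (hst hz)⟩)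
    (fun s t ⟨C, Ty, h1, h2⟩ ⟨C', Ty', h1', h2'⟩ => by
      refine ⟨max C C', Ty ∪ Ty', lt_max_of_lt_left h1, ?_⟩
      intro z hz hzR u hrel
      rcases hz with hz | hz
      · obtain ⟨P, hP, hP'⟩ := h2 z hz hzR u hrel
        exact ⟨P, Finset.mem_union_left _ hP, fun k => (hP' k).trans
          (mul_le_mul_of_nonneg_right (le_max_left _ _) (by positivity))⟩
      · obtain ⟨P, hP, hP'⟩ := h2' z hz hzR u hrel
        exact ⟨P, Finset.mem_union_right _ hP, fun k => (hP' k).trans
          (mul_le_mul_of_nonneg_right (le_max_right _ _) (by positivity))⟩)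
    (by
      rintro z0 ⟨hz0n, hz0j⟩
      have hz0j' : z0 j = 1 := hz0j
      by_cases hJ0 : OnV J z0
      · by_cases hG : ∃ i, aeval z0 (G i) ≠ 0
        · obtain ⟨i, hi⟩ := hG
          obtain ⟨U, hU, D, hD0, hD⟩ := away_exp J G e he c hc j R m z0 i hi
          refine ⟨U, mem_nhdsWithin_of_mem_nhds hU, D + 1, {fun _ => 0}, by positivity, ?_⟩
          intro z hz hzR u hrel
          refine ⟨_, Finset.mem_singleton_self _, fun k => ?_⟩
          rw [map_zero, sub_zero]
          refine (hD z hz hzR u hrel k).trans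
            (mul_le_mul_of_nonneg_right (by linarith) (by positivity))
        · push Not at hG
          have hOn : OnV (J ∪ Set.range G) z0 := by
            intro f hf
            rcases hf with hf | ⟨i, hi⟩
            · exact hJ0 f hf
            · rw [← hi]; exact hG i
          obtain ⟨U, hU, hUm⟩ := local_exp J G e he c hc j z0 hz0j' hOn (hJac z0 hz0j' hOn)
          obtain ⟨D, P, hD0, -, -, hD⟩ := hUm m
          refine ⟨U, mem_nhdsWithin_of_mem_nhds hU, D + 1, {P}, by positivity, ?_⟩
          intro z hz _ u hrel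
          refine ⟨_, Finset.mem_singleton_self _, fun k => ?_⟩
          exact (hD z hz u hrel k).trans
            (mul_le_mul_of_nonneg_right (by linarith) (by positivity))
      · refine ⟨{z | OnV J z}ᶜ, mem_nhdsWithin_of_mem_nhds
          ((isClosed_onV J).isOpen_compl.mem_nhds hJ0), 1, ∅, one_pos, ?_⟩
        intro z hz _ u hrel
        exact absurd hrel.2.1 hz)
  obtain ⟨C, Ty, h1, h2⟩ := main
  refine ⟨C, Ty, h1, fun z hzj hzR hzJ u hu => h2 z ⟨?_, hzj⟩ hzR u ⟨hzj, hzJ, hu⟩⟩
  rwa [mem_closedBall_zero_iff]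


end exp

section place
variable {K : Type} [Field K] [CharZero K] {L : Type} [NontriviallyNormedField L] [ProperSpace L]
  [Algebra K L] {N r : ℕ}

theorem placeExpB (J₀ : Set (MvPolynomial (Fin (N + 1)) K))
    (hJ₀ : ∀ f ∈ J₀, ∃ e, f.IsHomogeneous e)
    (F : Fin r → MvPolynomial (Fin (N + 1)) K) (d : Fin r → ℕ) (hd : ∀ i, 1 ≤ d i)
    (hF : ∀ i, (F i).IsHomogeneous (d i)) (D : Fin r → K) (hD : ∀ i, D i ≠ 0)
    (a : Fin r) (I : Finset (Fin r))
    (hred : ∀ A : Fin (N + 1) → L, A ≠ 0 → OnV (J₀ ∪ F '' I) A → Jac (J₀ ∪ F '' I) A)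
    (R : ℝ) (m : ℕ) :
    ∃ (C : ℝ) (Ty : Finset (Fin (N + 1) → MvPolynomial I (algebraicClosure K L))), 0 < C ∧
      ∀ x : Fin (N + 1) → K, (∀ f ∈ J₀, eval x f = 0) → ∀ w : Fin r → K, w a ≠ 0 →
        (∀ i, eval x (F i) = D i * w i ^ d i) → nrm L x ≤ R * ‖algebraMap K L (w a)‖ →
        ∃ P ∈ Ty, ∀ n, ‖algebraMap K L (x n / w a) -
          aeval (fun i : I => algebraMap K L (w i / w a)) (P n)‖ ≤
            C * ‖fun i : I => algebraMap K L (w i / w a)‖ ^ (m + 1) := by
  classical
  set T : MvPolynomial (Option (Fin (N + 1))) K := rename some (F a) - C (D a) * X none ^ d a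
    with hT
  set J : Set (MvPolynomial (Option (Fin (N + 1))) K) := rename some '' J₀ ∪ {T} with hJ
  set G : I → MvPolynomial (Option (Fin (N + 1))) K := fun i => rename some (F i) with hG
  have hinj : Function.Injective (algebraMap K L) := (algebraMap K L).injective
  have : CharZero L := charZero_of_injective_algebraMap hinj
  -- the Jacobian condition for the enlarged system
  have hJac : ∀ A : Option (Fin (N + 1)) → L, A none = 1 →
      OnV (J ∪ Set.range G) A → Jac (J ∪ Set.range G) A := by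
    intro A hA1 hOn
    set A0 : Fin (N + 1) → L := A ∘ some with hA0
    have hOn0 : OnV (J₀ ∪ F '' I) A0 := by
      rintro f (hf | ⟨i, hi, rfl⟩)
      · have := hOn (rename some f) (Or.inl (Or.inl ⟨f, hf, rfl⟩))
        rwa [aeval_rename] at this
      · have := hOn (rename some (F i)) (Or.inr ⟨⟨i, hi⟩, rfl⟩)
        rwa [aeval_rename] at this
    have hFa : aeval A0 (F a) = algebraMap K L (D a) * A none ^ d a := by
      have := hOn T (Or.inl (Or.inr rfl))
      rw [hT, map_sub, aeval_rename, map_mul, map_pow, aeval_X, aeval_C, sub_eq_zero] at this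
      exact this
    have hDa : algebraMap K L (D a) ≠ 0 := by
      rw [Ne, map_eq_zero_iff _ hinj]; exact hD a
    have hda : d a ≠ 0 := by have := hd a; omega
    have hAn : A none ≠ 0 := by
      rw [hA1]
      exact one_ne_zero
    have hFa0 : aeval A0 (F a) ≠ 0 := by
      rw [hFa]
      exact mul_ne_zero hDa (pow_ne_zero _ hAn)
    have hA0ne : A0 ≠ 0 := by
      intro h0
      apply hFa0
      rw [h0]
      have h2 := dif_euler (hF a) (0 : Fin (N + 1) → L)
      have h3 : dif (F a) (0 : Fin (N + 1) → L) 0 = 0 := by simp [dif]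
      rw [h3] at h2
      rcases mul_eq_zero.mp h2.symm with h4 | h4
      · exact absurd h4 (Nat.cast_ne_zero.mpr hda)
      · exact h4
    intro v hv
    obtain ⟨e, he⟩ := hred A0 hA0ne hOn0 (v ∘ some) (by
      have h1 : ∀ f ∈ J₀ ∪ F '' I, dif f A0 (v ∘ some) = 0 := by
        rintro f (hf | ⟨i, hi, rfl⟩)
        · have := hv (rename some f) (Or.inl (Or.inl ⟨f, hf, rfl⟩))
          rwa [dif_rename_some] at this
        · have := hv (rename some (F i)) (Or.inr ⟨⟨i, hi⟩, rfl⟩)
          rwa [dif_rename_some] at this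
      exact h1)
    refine ⟨e, ?_⟩
    have h2 := hv T (Or.inl (Or.inr rfl))
    rw [hT, dif_sub, dif_rename_some, he, dif_smul_right, dif_mul, dif_C, dif_pow, dif_X,
      dif_euler (hF a), hFa, aeval_X, aeval_C, mul_zero, add_zero] at h2
    have h3 : A none ^ d a = A none ^ (d a - 1) * A none := by
      rw [← pow_succ]; congr 1; omega
    rw [h3] at h2
    have h4 : algebraMap K L (D a) * (d a : L) * A none ^ (d a - 1) *
        (v none - e * A none) = 0 := by
      linear_combination -h2
    have h5 : v none = e * A none := by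
      have h6 : algebraMap K L (D a) * (d a : L) * A none ^ (d a - 1) ≠ 0 :=
        mul_ne_zero (mul_ne_zero hDa (Nat.cast_ne_zero.mpr hda)) (pow_ne_zero _ hAn)
      rcases mul_eq_zero.mp h4 with h7 | h7
      · exact absurd h7 h6
      · exact sub_eq_zero.mp h7
    funext k
    rcases k with _ | k
    · simpa using h5
    · exact congrFun he k
  obtain ⟨E, Ty, hE, hest⟩ := expansionB J G (fun i => d i) (fun i => hd i) (fun i => D i)
    (fun i => hD i) none hJac (max 1 R) m
  refine ⟨E, Ty.image (fun P n => P (some n)), hE, ?_⟩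
  intro x hx w hwa hw hR
  set z : Option (Fin (N + 1)) → L := fun k => k.elim 1
    (fun n => algebraMap K L (x n / w a)) with hz
  have hsm : (fun n => x n / w a) = (w a)⁻¹ • x := by
    funext n
    rw [Pi.smul_apply, smul_eq_mul, div_eq_inv_mul]
  have hzs : z ∘ some = fun n => algebraMap K L (x n / w a) := rfl
  have hwn : 0 < ‖algebraMap K L (w a)‖ := norm_pos_iff.mpr
    (by rw [Ne, map_eq_zero_iff _ hinj]; exact hwa)
  have hev : ∀ (f : MvPolynomial (Fin (N + 1)) K) (e : ℕ), f.IsHomogeneous e →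
      aeval (z ∘ some) f = algebraMap K L ((w a)⁻¹ ^ e * eval x f) := by
    intro f e hf
    rw [hzs, aeval_alg, hsm, hf.eval_smul']
  obtain ⟨P, hP, hk⟩ := hest z rfl (by
      rw [pi_norm_le_iff_of_nonneg (by positivity)]
      intro k
      rcases k with _ | n
      · simp [hz]
      · change ‖algebraMap K L (x n / w a)‖ ≤ _
        rw [map_div₀, norm_div, div_le_iff₀ hwn]
        refine (le_nrm x n).trans (hR.trans ?_)
        exact mul_le_mul_of_nonneg_right (le_max_right _ _) hwn.le) (by
      rintro f (⟨g, hg, rfl⟩ | hf)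
      · obtain ⟨e, he⟩ := hJ₀ g hg
        rw [aeval_rename, hev g e he, hx g hg, mul_zero, map_zero]
      · rw [Set.mem_singleton_iff] at hf
        rw [hf, hT, map_sub, aeval_rename, hev _ _ (hF a), hw a]
        have h1 : (w a)⁻¹ ^ d a * (D a * w a ^ d a) = D a := by
          rw [mul_left_comm, ← mul_pow, inv_mul_cancel₀ hwa, one_pow, mul_one]
        rw [h1]
        simp [hz]) (fun i : I => algebraMap K L (w i / w a)) (by
      intro i
      rw [hG]
      simp only
      rw [aeval_rename, hev _ _ (hF i), hw i, ← map_pow, ← map_mul]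
      congr 1
      rw [div_pow, inv_pow]
      ring)
  refine ⟨fun n => P (some n), Finset.mem_image_of_mem _ hP, fun n => hk (some n)⟩

end place

end Pool.Agent.Helper38.TP
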