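import Pool.Agent.Helper38.TP.MonG

/-!
# The linear forms of arbitrary order at an arbitrary corner
-/

set_option autoImplicit false

namespace Pool.Agent.Helper38.TP

open Pool.Agent.Helper10.Sub MvPolynomial

section shift
variable {r : ℕ}

/-- The exponents after a substitution at the corner `I`. -/
noncomputable def shH (a : Fin r) (I : Finset (Fin r)) (α : Fin r →₀ ℕ)
    (j : {i // i ∈ I} →₀ ℕ) : Fin r →₀ ℕ :=
  Finsupp.equivFunOnFinite.symm fun i =>
    if h : i ∈ I then α i + j ⟨i, h⟩ else if i = a then α a + 1 - j.degree else α i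

lemma shH_a (a : Fin r) (I : Finset (Fin r)) (ha : a ∉ I) (α : Fin r →₀ ℕ)
    (j : {i // i ∈ I} →₀ ℕ) : shH a I α j a = α a + 1 - j.degree := by
  simp [shH, ha]

lemma shH_i (a : Fin r) (I : Finset (Fin r)) (α : Fin r →₀ ℕ) (j : {i // i ∈ I} →₀ ℕ)
    (i : {i // i ∈ I}) : shH a I α j i.1 = α i.1 + j i := by
  have := i.2
  simp only [shH, Finsupp.equivFunOnFinite_symm_apply_apply, this, dif_pos]

lemma shH_o (a : Fin r) (I : Finset (Fin r)) (α : Fin r →₀ ℕ) (j : {i // i ∈ I} →₀ ℕ)
    {i : Fin r} (hi : i ∉ I) (hia : i ≠ a) : shH a I α j i = α i := by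
  simp [shH, hi, hia]

lemma degH (I : Finset (Fin r)) (j : {i // i ∈ I} →₀ ℕ) :
    j.degree = ∑ i : {i // i ∈ I}, j i := by
  rw [Finsupp.degree_eq_sum]

lemma sum_splitH {R : Type} [AddCommMonoid R] (a : Fin r) (I : Finset (Fin r)) (ha : a ∉ I)
    (f : Fin r → R) :
    ∑ i, f i = (∑ i : {i // i ∈ I}, f i.1) + (f a + ∑ i ∈ Iᶜ.erase a, f i) := by
  rw [Finset.add_sum_erase _ _ (Finset.mem_compl.2 ha), Finset.sum_coe_sort I f,
    Finset.sum_add_sum_compl]

lemma prod_splitH {R : Type} [CommMonoid R] (a : Fin r) (I : Finset (Fin r)) (ha : a ∉ I)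
    (f : Fin r → R) :
    ∏ i, f i = (∏ i : {i // i ∈ I}, f i.1) * (f a * ∏ i ∈ Iᶜ.erase a, f i) := by
  rw [Finset.mul_prod_erase _ _ (Finset.mem_compl.2 ha), Finset.prod_coe_sort I f,
    Finset.prod_mul_prod_compl]

lemma shH_sum (a : Fin r) (I : Finset (Fin r)) (ha : a ∉ I) (α : Fin r →₀ ℕ)
    (j : {i // i ∈ I} →₀ ℕ)
    (h : j.degree ≤ α a + 1) : ∑ i, shH a I α j i = ∑ i, α i + 1 := by
  rw [sum_splitH a I ha, sum_splitH a I ha (fun i => α i), shH_a a I ha]
  simp only [shH_i]
  have h1 : ∑ i ∈ Iᶜ.erase a, shH a I α j i = ∑ i ∈ Iᶜ.erase a, α i := by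
    refine Finset.sum_congr rfl fun i hi => ?_
    rw [Finset.mem_erase, Finset.mem_compl] at hi
    exact shH_o a I α j hi.2 hi.1
  rw [h1, Finset.sum_add_distrib, ← degH]
  omega

lemma shH_mon {K : Type} [Field K] (w : Fin r → K) (a : Fin r) (I : Finset (Fin r)) (ha : a ∉ I)
    (hw : w a ≠ 0) (α : Fin r →₀ ℕ)
    (j : {i // i ∈ I} →₀ ℕ) (h : j.degree ≤ α a + 1) :
    mon w (shH a I α j) = mon w α * w a * ∏ i : {i // i ∈ I}, (w i.1 / w a) ^ j i := by
  unfold mon
  rw [prod_splitH a I ha, prod_splitH a I ha (fun i => w i ^ α i), shH_a a I ha]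
  have h0 : ∏ i ∈ Iᶜ.erase a, w i ^ shH a I α j i = ∏ i ∈ Iᶜ.erase a, w i ^ α i := by
    refine Finset.prod_congr rfl fun i hi => ?_
    rw [Finset.mem_erase, Finset.mem_compl] at hi
    rw [shH_o a I α j hi.2 hi.1]
  rw [h0]
  simp only [shH_i, pow_add, div_pow]
  rw [Finset.prod_mul_distrib, Finset.prod_div_distrib, Finset.prod_pow_eq_pow_sum, ← degH]
  have h1 : w a ^ (α a + 1) = w a ^ (α a + 1 - j.degree) * w a ^ j.degree := by
    rw [← pow_add]
    congr 1
    omega
  have h2 : w a ^ j.degree ≠ 0 := pow_ne_zero _ hw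
  rw [mul_div_assoc', eq_div_iff h2]
  rw [pow_succ] at h1
  linear_combination (-(∏ i : {i // i ∈ I}, w i.1 ^ α i.1) * (∏ i : {i // i ∈ I}, w i.1 ^ j i) *
    ∏ i ∈ Iᶜ.erase a, w i ^ α i) * h1

end shift

section forms
variable {K L : Type} [Field K] [Field L] [Algebra K L] {r M : ℕ} {A B : Type}
  [DecidableEq A] [DecidableEq B]

/-- The forms. -/
noncomputable def vH (c : Cls K r M A B) (a : Fin r) (I : Finset (Fin r))
    (p : MvPolynomial {i // i ∈ I} (algebraicClosure K L)) : A ⊕ B → A ⊕ B → L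
  | Sum.inl α, Sum.inl α' => if α' = α then 1 else 0
  | Sum.inl α, Sum.inr β => - ∑ j ∈ p.support.filter (fun j => j.degree ≤ c.rep a α a + 1),
      if β = c.cl (shH a I (c.rep a α) j) then algebraMap (algebraicClosure K L) L (coeff j p) *
        algebraMap K L ((c.κ a α)⁻¹ * c.κ' (shH a I (c.rep a α) j)) else 0
  | Sum.inr _, Sum.inl _ => 0
  | Sum.inr β, Sum.inr β' => if β' = β then 1 else 0

variable (c : Cls K r M A B) (a : Fin r) (I : Finset (Fin r))
  (p : MvPolynomial {i // i ∈ I} (algebraicClosure K L))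

lemma vH_alg (i m : A ⊕ B) : IsAlgebraic K (vH c a I p i m) := by
  rcases i with α | β
  · rcases m with α' | β'
    · change IsAlgebraic K (if α' = α then (1 : L) else 0)
      split_ifs
      · exact isAlgebraic_one
      · exact isAlgebraic_zero
    · change IsAlgebraic K (- ∑ j ∈ p.support.filter (fun j => j.degree ≤ c.rep a α a + 1),
        if β' = c.cl (shH a I (c.rep a α) j) then algebraMap (algebraicClosure K L) L (coeff j p) *
        algebraMap K L ((c.κ a α)⁻¹ * c.κ' (shH a I (c.rep a α) j)) else 0)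
      rw [← mem_algebraicClosure_iff]
      refine neg_mem (sum_mem fun j _ => ?_)
      split_ifs
      · exact mul_mem (coeff j p).2 ((algebraicClosure K L).algebraMap_mem _)
      · exact zero_mem _
  · rcases m with α' | β'
    · exact isAlgebraic_zero
    · change IsAlgebraic K (if β' = β then (1 : L) else 0)
      split_ifs
      · exact isAlgebraic_one
      · exact isAlgebraic_zero

variable [Fintype A] [Fintype B]

lemma lf_vH_inr (β : B) (y : A ⊕ B → K) :
    lf (vH c a I p (Sum.inr β)) y = algebraMap K L (y (Sum.inr β)) := by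
  unfold lf
  rw [Finset.sum_eq_single (Sum.inr β)]
  · simp [vH]
  · rintro (α | β') _ h
    · simp [vH]
    · have : β' ≠ β := fun h' => h (by rw [h'])
      simp [vH, this]
  · intro h
    exact absurd (Finset.mem_univ _) h

lemma lf_vH_inl (α : A) (y : A ⊕ B → K) :
    lf (vH c a I p (Sum.inl α)) y = algebraMap K L (y (Sum.inl α)) +
      ∑ β : B, vH c a I p (Sum.inl α) (Sum.inr β) * algebraMap K L (y (Sum.inr β)) := by
  unfold lf
  rw [Fintype.sum_sum_type]
  congr 1
  rw [Finset.sum_eq_single α]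
  · simp [vH]
  · intro α' _ h
    simp [vH, h]
  · intro h
    exact absurd (Finset.mem_univ _) h

lemma lf_vH_zero (α : A) (y : A ⊕ B → K) :
    lf (vH c a I (0 : MvPolynomial {i // i ∈ I} (algebraicClosure K L)) (Sum.inl α)) y =
      algebraMap K L (y (Sum.inl α)) := by
  rw [lf_vH_inl]
  simp [vH]

lemma lf_vH_y (ha : a ∉ I) {w : Fin r → K} {χ : A → K} {χ' : B → K} (hc : c.Val w χ χ')
    (α : A) (z : K) :
    lf (vH c a I p (Sum.inl α)) (Sum.elim (fun α => z * χ α) χ') =
      algebraMap K L (c.κ a α)⁻¹ * (algebraMap K L (z * mon w (c.rep a α)) -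
      ∑ j ∈ p.support.filter (fun j => j.degree ≤ c.rep a α a + 1),
        algebraMap (algebraicClosure K L) L (coeff j p) *
          algebraMap K L (mon w (shH a I (c.rep a α) j))) := by
  rw [lf_vH_inl, sub_eq_add_neg, mul_add]
  congr 1
  · rw [← map_mul, hc.val]
    congr 1
    have := hc.ne a α
    simp only [Sum.elim_inl]
    field_simp
  have h1 : ∀ β : B, vH c a I p (Sum.inl α) (Sum.inr β) *
      algebraMap K L ((Sum.elim (fun α => z * χ α) χ' : A ⊕ B → K) (Sum.inr β)) =
      - ∑ j ∈ p.support.filter (fun j => j.degree ≤ c.rep a α a + 1),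
        if β = c.cl (shH a I (c.rep a α) j) then algebraMap (algebraicClosure K L) L (coeff j p) *
          algebraMap K L ((c.κ a α)⁻¹ * mon w (shH a I (c.rep a α) j)) else 0 := by
    intro β
    change (- ∑ j ∈ p.support.filter (fun j => j.degree ≤ c.rep a α a + 1),
      if β = c.cl (shH a I (c.rep a α) j) then algebraMap (algebraicClosure K L) L (coeff j p) *
        algebraMap K L ((c.κ a α)⁻¹ * c.κ' (shH a I (c.rep a α) j)) else 0) *
      algebraMap K L (χ' β) = _
    rw [neg_mul, Finset.sum_mul]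
    congr 1
    refine Finset.sum_congr rfl fun j hj => ?_
    have hj' := (Finset.mem_filter.1 hj).2
    split_ifs with h
    · rw [hc.val' _ (by rw [shH_sum a I ha _ j hj', c.rep_sum]), ← h]
      simp only [map_mul]
      ring
    · rw [zero_mul]
  simp only [h1]
  rw [Finset.sum_neg_distrib, Finset.sum_comm, mul_neg, Finset.mul_sum]
  congr 1
  refine Finset.sum_congr rfl fun j hj => ?_
  rw [Finset.sum_eq_single (c.cl (shH a I (c.rep a α) j))]
  · rw [if_pos rfl, map_mul]
    ring
  · intro β _ hβ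
    rw [if_neg hβ]
  · intro h
    exact absurd (Finset.mem_univ _) h

lemma vH_forms : Forms (⊤ : Submodule K (A ⊕ B → K)) (vH (L := L) c a I p)
    Finset.univ Finset.univ where
  hst := subset_rfl
  alg := vH_alg c a I p
  ind := by
    intro g hg
    have h1 : ∀ m, ∑ i, g i * vH (L := L) c a I p i m = 0 := by
      intro m
      have := hg (Pi.single m 1) Submodule.mem_top
      simpa only [lf_single'] using this
    have hl : ∀ α, g (Sum.inl α) = 0 := by
      intro α
      have h2 := h1 (Sum.inl α)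
      rw [Fintype.sum_sum_type, Finset.sum_eq_single α] at h2
      · simpa [vH] using h2
      · intro α' _ h
        simp [vH, Ne.symm h]
      · intro h
        exact absurd (Finset.mem_univ _) h
    rintro (α | β) -
    · exact hl α
    · have h2 := h1 (Sum.inr β)
      rw [Fintype.sum_sum_type] at h2
      simp only [hl, zero_mul, Finset.sum_const_zero, zero_add] at h2
      rw [Finset.sum_eq_single β] at h2
      · simpa [vH] using h2
      · intro β' _ h
        simp [vH, Ne.symm h]
      · intro h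
        exact absurd (Finset.mem_univ _) h
  spn := by
    rintro (α | β)
    · refine ⟨Sum.elim (fun α' => if α' = α then 1 else 0)
        (fun β => - vH c a I p (Sum.inl α) (Sum.inr β)), fun y _ => ?_⟩
      rw [Fintype.sum_sum_type]
      simp only [Sum.elim_inl, Sum.elim_inr, lf_vH_inr]
      rw [Finset.sum_eq_single α]
      · rw [if_pos rfl, one_mul, lf_vH_inl]
        simp only [neg_mul]
        rw [Finset.sum_neg_distrib]
        ring
      · intro α' _ h
        rw [if_neg h, zero_mul]
      · intro h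
        exact absurd (Finset.mem_univ _) h
    · refine ⟨Pi.single (Sum.inr β) 1, fun y _ => ?_⟩
      rw [Finset.sum_eq_single (Sum.inr β)]
      · rw [Pi.single_eq_same, one_mul, lf_vH_inr]
      · intro m _ h
        rw [Pi.single_eq_of_ne h, zero_mul]
      · intro h
        exact absurd (Finset.mem_univ _) h

end forms

end Pool.Agent.Helper38.TP
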