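import Pool.Agent.Helper38.TP.RelG2

/-!
# A linear relation between the monomials: the theorem
-/

set_option autoImplicit false
set_option linter.unusedSectionVars false

namespace Pool.Agent.Helper38.TP

open Pool.Agent.Helper10.Sub Pool.Agent.Helper94.Sub MvPolynomial

section rel
variable {K : Type} [Field K] [CharZero K] {Λ : Type} [Fintype Λ] [DecidableEq Λ] {L : Λ → Type}
  [∀ s, NontriviallyNormedField (L s)] [∀ s, ProperSpace (L s)] [∀ s, Algebra K (L s)] {N r : ℕ}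
  {Z : MP K L} {𝔅 : LN (Fin (N + 1) → K)} {J₀ : Set (MvPolynomial (Fin (N + 1)) K)}
    {F : Fin r → MvPolynomial (Fin (N + 1)) K} {d : Fin r → ℕ} {D : Fin r → K}
    {w : (Fin (N + 1) → K) → Fin r → K} {C₁ ε C₂ : ℝ} {E : Set (Fin (N + 1) → K)}

/-- The contradiction with the Subspace theorem. -/
lemma relG_top (h : Pts Z 𝔅 J₀ F d D w C₁ ε C₂ E) (hr : 2 ≤ r)
    {M S₀ : ℕ} {A B : Type} [Fintype A] [DecidableEq A] [Nonempty A] [Fintype B] [DecidableEq B]
    [Nonempty B]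
    (c : Cls K r M A B) (χ : (Fin (N + 1) → K) → A → K) (χ' : (Fin (N + 1) → K) → B → K)
    (hχ : ∀ x ∈ E, c.Val (w x) (χ x) (χ' x)) (hU : ∀ x ∈ E, ∀ α, Z.U (χ x α))
    (hU' : ∀ x ∈ E, ∀ β, Z.U (χ' x β))
    (hcl : ∀ β, ∃ m : Fin r →₀ ℕ, ∑ i, m i = M + 1 ∧ c.cl m = β)
    (hS : ∀ a, S₀ ≤ ∑ α, c.rep a α a) (hS₀ : 2 * (Fintype.card A : ℝ) ≤ ε * S₀)
    (k : Fin (N + 1)) (hmin : ∀ E' ⊆ E, 𝔅.Big E' → Submodule.span K
      ((fun x => (Sum.elim (fun α => x k * χ x α) (χ' x) : A ⊕ B → K)) '' E') = ⊤) : False := by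
  classical
  have hC₁ := h.hC₁
  set y : (Fin (N + 1) → K) → A ⊕ B → K := fun x => Sum.elim (fun α => x k * χ x α) (χ' x) with hy
  -- the largest unit at each place
  obtain ⟨a, ha⟩ := 𝔅.partition' h.big (fun (a : Λ → Fin r) x => ∀ s,
    nrm (L s) x ≤ C₁ * ‖algebraMap K (L s) (w x (a s))‖) (by
      intro x hx
      choose a ha using h.low x hx
      exact ⟨a, ha⟩)
  choose Cs Ty hCs hest using fun (s : Λ) (a : Fin r) =>
    estG (L := L s) J₀ h.hJ₀ F d h.hd h.hF D h.hD a (h.hempty s) (h.hred s a) (C₁ ^ 2)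
      (one_le_pow₀ hC₁) M
  obtain ⟨t, ht, hG⟩ := 𝔅.partition (Fintype.piFinset fun s => Ty s (a s)) ha
    (fun t x => ∀ s α, ‖lf (vG c (a s) (t s k) (Sum.inl α)) (y x)‖ ≤
      Cs s (a s) * ‖algebraMap K (L s) (χ x α)‖ * ‖algebraMap K (L s) (w x (a s))‖ *
        dl (L s) (w x) (a s) ^ (c.rep (a s) α (a s) + 2)) (by
      rintro x ⟨hx, hxa⟩
      choose t ht h1 using fun s => hest s (a s) x (h.onV x hx) (w x) (h.unit x hx _).ne
        (h.ev x hx) (by
          refine (hxa s).trans (mul_le_mul_of_nonneg_right ?_ (norm_nonneg _))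
          exact le_self_pow₀ hC₁ (by norm_num)) (h.dl_le hx (hxa s))
      refine ⟨t, Fintype.mem_piFinset.mpr ht, fun s α => ?_⟩
      exact h1 s k A B c (χ x) (χ' x) (hχ x hx) α)
  set G : Set (Fin (N + 1) → K) := _ with hGdef
  change 𝔅.Big G at hG
  have hGE : G ⊆ E := fun x hx => hx.1.1
  have hGa : ∀ x ∈ G, ∀ s, nrm (L s) x ≤ C₁ * ‖algebraMap K (L s) (w x (a s))‖ :=
    fun x hx => hx.1.2
  have hGe : ∀ x ∈ G, ∀ s α, ‖lf (vG c (a s) (t s k) (Sum.inl α)) (y x)‖ ≤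
      Cs s (a s) * ‖algebraMap K (L s) (χ x α)‖ * ‖algebraMap K (L s) (w x (a s))‖ *
        dl (L s) (w x) (a s) ^ (c.rep (a s) α (a s) + 2) := fun x hx => hx.2
  have hP := h.mono hGE hG
  -- constants
  set C : ℝ := 1 + ∑ s, Cs s (a s) with hC
  have hCsum : 0 ≤ ∑ s, Cs s (a s) := Finset.sum_nonneg fun s _ => (hCs s (a s)).le
  have hC1 : 1 ≤ C := by linarith
  have hCsC : ∀ s, Cs s (a s) ≤ C := by
    intro s
    have : Cs s (a s) ≤ ∑ s, Cs s (a s) :=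
      Finset.single_le_sum (f := fun s => Cs s (a s)) (fun s _ => (hCs s (a s)).le)
        (Finset.mem_univ s)
    linarith
  choose mβ hmβ hmβ' using hcl
  set K₁ : ℝ := ∑ s, ∑ α, ‖algebraMap K (L s) (c.κ (a s) α)⁻¹‖ with hK₁
  set K₂ : ℝ := ∑ s, ∑ β, ‖algebraMap K (L s) (c.κ' (mβ β))⁻¹‖ with hK₂
  have hK₁s : ∀ s α, ‖algebraMap K (L s) (c.κ (a s) α)⁻¹‖ ≤ K₁ := by
    intro s α
    have h1 : ‖algebraMap K (L s) (c.κ (a s) α)⁻¹‖ ≤
        ∑ α, ‖algebraMap K (L s) (c.κ (a s) α)⁻¹‖ :=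
      Finset.single_le_sum (f := fun α => ‖algebraMap K (L s) (c.κ (a s) α)⁻¹‖)
        (fun _ _ => norm_nonneg _) (Finset.mem_univ α)
    exact h1.trans (Finset.single_le_sum
      (f := fun s => ∑ α, ‖algebraMap K (L s) (c.κ (a s) α)⁻¹‖)
        (fun _ _ => Finset.sum_nonneg fun _ _ => norm_nonneg _) (Finset.mem_univ s))
  have hK₂s : ∀ s β, ‖algebraMap K (L s) (c.κ' (mβ β))⁻¹‖ ≤ K₂ := by
    intro s β
    have h1 : ‖algebraMap K (L s) (c.κ' (mβ β))⁻¹‖ ≤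
        ∑ β, ‖algebraMap K (L s) (c.κ' (mβ β))⁻¹‖ :=
      Finset.single_le_sum (f := fun β => ‖algebraMap K (L s) (c.κ' (mβ β))⁻¹‖)
        (fun _ _ => norm_nonneg _) (Finset.mem_univ β)
    exact h1.trans (Finset.single_le_sum
      (f := fun s => ∑ β, ‖algebraMap K (L s) (c.κ' (mβ β))⁻¹‖)
        (fun _ _ => Finset.sum_nonneg fun _ _ => norm_nonneg _) (Finset.mem_univ s))
  set Q₀ : ℝ := max (max C₁ C) (max K₁ K₂) with hQ₀
  set G' : Set (Fin (N + 1) → K) := {x | x ∈ G ∧ Q₀ ≤ Ht L x} with hG'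
  have hG'B : 𝔅.Big G' := hP.large Q₀
  have hP' := hP.mono (fun x (hx : x ∈ G') => hx.1) hG'B
  have hQC₁ : ∀ x ∈ G', C₁ ≤ Ht L x := fun x hx =>
    (le_max_left _ _).trans ((le_max_left _ _).trans hx.2)
  have hQC : ∀ x ∈ G', C ≤ Ht L x := fun x hx =>
    (le_max_right _ _).trans ((le_max_left _ _).trans hx.2)
  have hQK₁ : ∀ x ∈ G', K₁ ≤ Ht L x := fun x hx =>
    (le_max_left _ _).trans ((le_max_right _ _).trans hx.2)
  have hQK₂ : ∀ x ∈ G', K₂ ≤ Ht L x := fun x hx =>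
    (le_max_right _ _).trans ((le_max_right _ _).trans hx.2)
  have hG'E : G' ⊆ E := fun x hx => hGE hx.1
  -- bounds for the characters
  set e₁ : ℕ := 3 * (M + 1) + 1 with he₁
  set E₁ : ℝ := (e₁ : ℝ) * Fintype.card Λ + e₁ with hE₁
  set E₀ : ℝ := 3 * Fintype.card Λ + 3 with hE₀
  have hE₀0 : 0 ≤ E₀ := by positivity
  have hE₁0 : 0 ≤ E₁ := by positivity
  have hpbχ : ∀ x ∈ G', ∀ s α, PB (Ht L x) E₁ ‖algebraMap K (L s) (χ x α)‖ := by
    intro x hx s α
    have hQ := hP'.one_le hx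
    refine unit_pb Z (hU x (hG'E hx) α) hQ (Nat.cast_nonneg _) (fun s => ?_) s
    exact hP'.chi_up hx (hQC₁ x hx) s (c.rep (a s) α) ((hχ x (hG'E hx)).val (a s) α)
      ((hχ x (hG'E hx)).ne (a s) α) ((hK₁s s α).trans (hQK₁ x hx))
      (by rw [c.rep_sum]; omega)
  have hpbχ' : ∀ x ∈ G', ∀ s β, PB (Ht L x) E₁ ‖algebraMap K (L s) (χ' x β)‖ := by
    intro x hx s β
    have hQ := hP'.one_le hx
    refine unit_pb Z (hU' x (hG'E hx) β) hQ (Nat.cast_nonneg _) (fun s => ?_) s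
    have h1 := (hχ x (hG'E hx)).val' (mβ β) (hmβ β)
    rw [hmβ'] at h1
    refine hP'.chi_up hx (hQC₁ x hx) s (mβ β) h1 ?_ ((hK₂s s β).trans (hQK₂ x hx))
      (by rw [hmβ])
    intro h0
    rw [h0, zero_mul] at h1
    have h2 : mon (w x) (mβ β) ≠ 0 := by
      unfold mon
      exact Finset.prod_ne_zero_iff.2 fun i _ => pow_ne_zero _ (hP'.unit x hx i).ne
    exact h2 h1
  -- apply the Subspace theorem
  set b : (Fin (N + 1) → K) → Λ → A ⊕ B → ℝ := fun x s => Sum.elim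
    (fun α => C * ‖algebraMap K (L s) (χ x α)‖ * ‖algebraMap K (L s) (w x (a s))‖ *
        dl (L s) (w x) (a s) ^ (c.rep (a s) α (a s) + 2))
    (fun β => ‖algebraMap K (L s) (χ' x β)‖) with hb
  have hle : ∀ a α, c.rep a α a ≤ M := by
    intro a α
    have h1 := c.rep_sum a α
    have h2 := Finset.single_le_sum (f := fun i => c.rep a α i) (fun i _ => Nat.zero_le _)
      (Finset.mem_univ a)
    omega
  obtain ⟨x₀, hx₀⟩ := 𝔅.nonempty hG'B
  have hC₂ : 0 ≤ C₂ := by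
    have h1 := hP'.gap x₀ hx₀ a (hGa x₀ hx₀.1)
    have h2 : 0 < Ht L x₀ := by linarith [hP'.one_le hx₀]
    have h3 : 0 ≤ ∏ s, (‖fun i : Ix (a s) => algebraMap K (L s) (w x₀ i.1)‖ / nrm (L s) x₀) :=
      Finset.prod_nonneg fun s _ => div_nonneg (norm_nonneg _) (nrm_nonneg _)
    exact nonneg_of_mul_nonneg_left (h3.trans h1) (Real.rpow_pos_of_pos h2 _)
  have hdl0 : ∀ x s, 0 ≤ dl (L s) (w x) (a s) := fun x s => norm_nonneg _
  refine Z.apply 𝔅 y G' hG'B ⊤ (fun E' hE' hE'B => hmin E' (hE'.trans hG'E) hE'B) ?_ ?_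
    (fun x => Ht L x) (fun B => hP'.large B) (fun s => vG c (a s) (t s k))
    (fun _ => Finset.univ) (fun _ => Finset.univ) (fun s => vG_forms c (a s) (t s k)) b
    (1 + E₁ + E₀ + (M + 2 : ℕ) * (2 * E₀)) ?_ ?_
    ((C ^ Fintype.card A * (C₁ ^ 2) ^ (Fintype.card A * (M + 2))) ^ Fintype.card Λ *
      (C₁ ^ Fintype.card Λ) ^ Fintype.card A * (C₁ ^ Fintype.card Λ * C₂) ^ S₀) 1 one_pos ?_
  · rw [finrank_top, Module.finrank_fintype_fun_eq_card, Fintype.card_sum]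
    have h1 : 0 < Fintype.card A := Fintype.card_pos
    have h2 : 0 < Fintype.card B := Fintype.card_pos
    omega
  · rintro x hx (α | β)
    · exact Z.O.mul_mem (hP'.O x hx k) (hU x (hG'E hx) α).mem
    · exact (hU' x (hG'E hx) β).mem
  · rintro x hx s (α | β)
    · refine (hGe x hx.1 s α).trans ?_
      simp only [hb, Sum.elim_inl]
      refine mul_le_mul_of_nonneg_right ?_ (pow_nonneg (hdl0 x s) _)
      refine mul_le_mul_of_nonneg_right ?_ (norm_nonneg _)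
      exact mul_le_mul_of_nonneg_right (hCsC s) (norm_nonneg _)
    · rw [lf_vG_inr]
      exact le_rfl
  · intro x hx s i
    have hQ := hP'.one_le hx
    have hdlpb := hP'.dl_pb hr hx (hQC₁ x hx) s (a s)
    have hwpb := hP'.pb hx (hQC₁ x hx) s (a s)
    rcases i with α | β
    · have h1 : PB (Ht L x) 1 C := Rg.of_one hC1 (hQC x hx)
      have h2 := ((h1.mul hQ (hpbχ x hx s α)).mul hQ hwpb).mul hQ
        (pbPow hQ hdlpb (c.rep (a s) α (a s) + 2))
      refine h2.mono hQ ?_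
      have h3 : ((c.rep (a s) α (a s) + 2 : ℕ) : ℝ) ≤ (M + 2 : ℕ) := by
        exact_mod_cast Nat.add_le_add_right (hle (a s) α) 2
      have h4 : ((c.rep (a s) α (a s) + 2 : ℕ) : ℝ) * (2 * E₀) ≤ (M + 2 : ℕ) * (2 * E₀) :=
        mul_le_mul_of_nonneg_right h3 (by positivity)
      linarith
    · refine (hpbχ' x hx s β).mono hQ ?_
      have h4 : 0 ≤ ((M + 2 : ℕ) : ℝ) * (2 * E₀) := by positivity
      linarith
  · intro x hx ρ hρ
    have hQ := hP'.one_le hx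
    have hQ0 : 0 < Ht L x := by linarith
    have hρu : ∀ s, ρ s = Finset.univ := fun s => Finset.univ_subset_iff.1 (hρ s).1
    have hCC : C₁ ≤ C₁ ^ 2 := le_self_pow₀ hC₁ (by norm_num)
    have h1 : ∏ s, ∏ i ∈ ρ s, b x s i = ∏ s, ((∏ α, C * ‖algebraMap K (L s) (χ x α)‖ *
        ‖algebraMap K (L s) (w x (a s))‖ * dl (L s) (w x) (a s) ^ (c.rep (a s) α (a s) + 2)) *
        ∏ β, ‖algebraMap K (L s) (χ' x β)‖) := by
      refine Finset.prod_congr rfl fun s _ => ?_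
      rw [hρu, Fintype.prod_sum_type]
      rfl
    rw [h1]
    refine (relG_prod C (C₁ ^ 2) (by linarith) (one_le_pow₀ hC₁)
      (fun s => ‖algebraMap K (L s) (w x (a s))‖) (fun s => dl (L s) (w x) (a s))
      (fun s α => ‖algebraMap K (L s) (χ x α)‖) (fun s β => ‖algebraMap K (L s) (χ' x β)‖)
      (fun s α => c.rep (a s) α (a s)) M S₀ (fun s => norm_nonneg _) (hdl0 x)
      (fun s => hP'.dl_le hx (hGa x hx.1 s)) (fun s α => norm_nonneg _) (fun s β => norm_nonneg _)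
      (fun α => (hU x (hG'E hx) α).pf) (fun β => (hU' x (hG'E hx) β).pf)
      (fun s α => hle (a s) α) (fun s => hS (a s))).trans ?_
    have h2 : ∏ s, ‖algebraMap K (L s) (w x (a s))‖ ≤ C₁ ^ Fintype.card Λ * Ht L x := by
      calc ∏ s, ‖algebraMap K (L s) (w x (a s))‖ ≤ ∏ s, (C₁ * nrm (L s) x) :=
            Finset.prod_le_prod (fun s _ => norm_nonneg _) fun s _ => hP'.up x hx s (a s)
        _ = _ := by
            rw [Finset.prod_mul_distrib, Finset.prod_const, Finset.card_univ]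
            rfl
    have h3 : ∏ s, dl (L s) (w x) (a s) ≤ C₁ ^ Fintype.card Λ * C₂ * Ht L x ^ (-ε) := by
      calc ∏ s, dl (L s) (w x) (a s) ≤ ∏ s, (C₁ *
            (‖fun i : Ix (a s) => algebraMap K (L s) (w x i.1)‖ / nrm (L s) x)) :=
            Finset.prod_le_prod (fun s _ => hdl0 x s) fun s _ => hP'.dl_le' hx (hGa x hx.1 s)
        _ = C₁ ^ Fintype.card Λ *
            ∏ s, (‖fun i : Ix (a s) => algebraMap K (L s) (w x i.1)‖ / nrm (L s) x) := by
            rw [Finset.prod_mul_distrib, Finset.prod_const, Finset.card_univ]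
        _ ≤ C₁ ^ Fintype.card Λ * (C₂ * Ht L x ^ (-ε)) :=
            mul_le_mul_of_nonneg_left (hP'.gap x hx a (hGa x hx.1)) (by positivity)
        _ = _ := by ring
    have h4 : 0 ≤ ∏ s, ‖algebraMap K (L s) (w x (a s))‖ :=
      Finset.prod_nonneg fun s _ => norm_nonneg _
    have h5 : 0 ≤ ∏ s, dl (L s) (w x) (a s) := Finset.prod_nonneg fun s _ => hdl0 x s
    have h6 : Ht L x ^ Fintype.card A * (Ht L x ^ (-ε)) ^ S₀ ≤ Ht L x ^ (-(1 : ℝ)) := by
      rw [← Real.rpow_natCast, ← Real.rpow_natCast, ← Real.rpow_mul hQ0.le, ← Real.rpow_add hQ0]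
      apply Real.rpow_le_rpow_of_exponent_le hQ
      have h7 : (1 : ℝ) ≤ Fintype.card A := by exact_mod_cast Fintype.card_pos
      nlinarith
    calc (C ^ Fintype.card A * (C₁ ^ 2) ^ (Fintype.card A * (M + 2))) ^ Fintype.card Λ *
        (∏ s, ‖algebraMap K (L s) (w x (a s))‖) ^ Fintype.card A *
        (∏ s, dl (L s) (w x) (a s)) ^ S₀
        ≤ (C ^ Fintype.card A * (C₁ ^ 2) ^ (Fintype.card A * (M + 2))) ^ Fintype.card Λ *
        (C₁ ^ Fintype.card Λ * Ht L x) ^ Fintype.card A *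
        (C₁ ^ Fintype.card Λ * C₂ * Ht L x ^ (-ε)) ^ S₀ := by
          have hCn : 0 ≤ C := by linarith
          have hC₁n : 0 ≤ C₁ := by linarith
          apply mul_le_mul _ (pow_le_pow_left₀ h5 h3 _) (pow_nonneg h5 _) (by positivity)
          apply mul_le_mul_of_nonneg_left (pow_le_pow_left₀ h4 h2 _) (by positivity)
      _ = (C ^ Fintype.card A * (C₁ ^ 2) ^ (Fintype.card A * (M + 2))) ^ Fintype.card Λ *
          (C₁ ^ Fintype.card Λ) ^ Fintype.card A * (C₁ ^ Fintype.card Λ * C₂) ^ S₀ *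
          (Ht L x ^ Fintype.card A * (Ht L x ^ (-ε)) ^ S₀) := by
          rw [mul_pow (C₁ ^ Fintype.card Λ) (Ht L x), mul_pow (C₁ ^ Fintype.card Λ * C₂)]
          ring
      _ ≤ _ := by
          have hCn : 0 ≤ C := by linarith
          have hC₁n : 0 ≤ C₁ := by linarith
          apply mul_le_mul_of_nonneg_left h6 (by positivity)

/-- **A linear relation.** -/
theorem relG (h : Pts Z 𝔅 J₀ F d D w C₁ ε C₂ E) (hr : 2 ≤ r)
    {M S₀ : ℕ} {A B : Type} [Fintype A] [DecidableEq A] [Nonempty A] [Fintype B] [DecidableEq B]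
    [Nonempty B]
    (c : Cls K r M A B) (χ : (Fin (N + 1) → K) → A → K) (χ' : (Fin (N + 1) → K) → B → K)
    (hχ : ∀ x ∈ E, c.Val (w x) (χ x) (χ' x)) (hU : ∀ x ∈ E, ∀ α, Z.U (χ x α))
    (hU' : ∀ x ∈ E, ∀ β, Z.U (χ' x β))
    (hcl : ∀ β, ∃ m : Fin r →₀ ℕ, ∑ i, m i = M + 1 ∧ c.cl m = β)
    (hS : ∀ a, S₀ ≤ ∑ α, c.rep a α a) (hS₀ : 2 * (Fintype.card A : ℝ) ≤ ε * S₀)
    (k : Fin (N + 1)) :
    ∃ E' ⊆ E, 𝔅.Big E' ∧ ∃ g : A ⊕ B → K, g ≠ 0 ∧ ∀ x ∈ E',
      x k * ∑ α, g (Sum.inl α) * χ x α + ∑ β, g (Sum.inr β) * χ' x β = 0 := by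
  classical
  set y : (Fin (N + 1) → K) → A ⊕ B → K := fun x => Sum.elim (fun α => x k * χ x α) (χ' x) with hy
  obtain ⟨E', hE'E, hE'B, hmin⟩ := 𝔅.exists_minimal (K := K) h.big y
  by_cases hV : Submodule.span K (y '' E') = ⊤
  · exact (relG_top (h.mono hE'E hE'B) hr c χ χ' (fun x hx => hχ x (hE'E hx))
      (fun x hx => hU x (hE'E hx)) (fun x hx => hU' x (hE'E hx)) hcl hS hS₀ k
      (fun E'' h1 h2 => (hmin E'' h1 h2).trans hV)).elim
  · obtain ⟨f, hf0, hf⟩ := Submodule.exists_le_ker_of_lt_top _ (lt_top_iff_ne_top.2 hV)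
    have hrep : ∀ z : A ⊕ B → K, f z = ∑ m, f (Pi.single m 1) * z m := by
      intro z
      conv_lhs => rw [← Finset.univ_sum_single z]
      rw [map_sum]
      refine Finset.sum_congr rfl fun m _ => ?_
      have : (Pi.single m (z m) : A ⊕ B → K) = z m • Pi.single m 1 := by
        rw [← Pi.single_smul, smul_eq_mul, mul_one]
      rw [this, map_smul, smul_eq_mul, mul_comm]
    refine ⟨E', hE'E, hE'B, fun m => f (Pi.single m 1), ?_, fun x hx => ?_⟩
    · intro h0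
      apply hf0
      refine LinearMap.ext fun z => ?_
      rw [hrep z]
      simp only [congrFun h0, Pi.zero_apply, zero_mul, Finset.sum_const_zero,
        LinearMap.zero_apply]
    · have h1 : f (y x) = 0 := hf (Submodule.subset_span ⟨x, hx, rfl⟩)
      rw [hrep, Fintype.sum_sum_type] at h1
      rw [← h1, Finset.mul_sum]
      congr 1
      refine Finset.sum_congr rfl fun α _ => ?_
      simp only [hy, Sum.elim_inl]
      ring

end rel

end Pool.Agent.Helper38.TP
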