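import Pool.Agent.Helper38.TP.EstH
import Pool.Agent.Helper38.TP.RelG3

/-!
# A linear relation between the monomials, arbitrary corners
-/

set_option autoImplicit false
set_option linter.unusedSectionVars false

namespace Pool.Agent.Helper38.TP

open Pool.Agent.Helper10.Sub Pool.Agent.Helper94.Sub MvPolynomial

section good
variable {K : Type} [Field K] {N r : ℕ}

/-- The forms in `I` have reduced isolated common zeros, where the form `a` does not vanish. -/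
structure GoodC (J₀ : Set (MvPolynomial (Fin (N + 1)) K))
    (F : Fin r → MvPolynomial (Fin (N + 1)) K) (L : Type) [Field L] [Algebra K L]
    (I : Finset (Fin r)) (a : Fin r) : Prop where
  mem : a ∉ I
  ne : I.Nonempty
  red : ∀ A : Fin (N + 1) → L, A ≠ 0 → OnV (J₀ ∪ F '' (I : Set (Fin r))) A →
    Jac (J₀ ∪ F '' (I : Set (Fin r))) A

/-- The distance to a corner. -/
noncomputable def facN (L : Type) [NontriviallyNormedField L] [Algebra K L] (w : Fin r → K)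
    (n : ℝ) : Option (Finset (Fin r) × Fin r) → ℝ
  | none => 1
  | some (I, _) => ‖fun i : {i // i ∈ I} => algebraMap K L (w i.1)‖ / n

/-- The distance to a corner, in terms of the largest unit. -/
noncomputable def facW (L : Type) [NontriviallyNormedField L] [Algebra K L] (w : Fin r → K)
    (a : Fin r) : Option (Finset (Fin r)) → ℝ
  | none => 1
  | some I => ‖fun i : {i // i ∈ I} => algebraMap K L (w i.1 / w a)‖

lemma facW_nonneg (L : Type) [NontriviallyNormedField L] [Algebra K L] (w : Fin r → K)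
    (a : Fin r) (o : Option (Finset (Fin r))) : 0 ≤ facW L w a o := by
  rcases o with _ | I
  · exact zero_le_one
  · exact norm_nonneg _

/-- The corner, or the empty set. -/
def toI (o : Option (Finset (Fin r))) : Finset (Fin r) := o.getD ∅

end good

section rel
variable {K : Type} [Field K] [CharZero K] {Λ : Type} [Fintype Λ] [DecidableEq Λ] {L : Λ → Type}
  [∀ s, NontriviallyNormedField (L s)] [∀ s, ProperSpace (L s)] [∀ s, Algebra K (L s)] {N r : ℕ}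

/-- The hypotheses on the points. -/
structure PtsH (Z : MP K L) (𝔅 : LN (Fin (N + 1) → K)) (J₀ : Set (MvPolynomial (Fin (N + 1)) K))
    (F : Fin r → MvPolynomial (Fin (N + 1)) K) (d : Fin r → ℕ) (D : Fin r → K)
    (w : (Fin (N + 1) → K) → Fin r → K) (C₁ ε C₂ : ℝ) (E : Set (Fin (N + 1) → K)) : Prop where
  hJ₀ : ∀ f ∈ J₀, ∃ e, f.IsHomogeneous e
  hd : ∀ i, 1 ≤ d i
  hF : ∀ i, (F i).IsHomogeneous (d i)
  hD : ∀ i, D i ≠ 0
  big : 𝔅.Big E
  unit : ∀ x ∈ E, ∀ i, Z.U (w x i)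
  ev : ∀ x ∈ E, ∀ i, eval x (F i) = D i * w x i ^ d i
  O : ∀ x ∈ E, ∀ k, x k ∈ Z.O
  ne : ∀ x ∈ E, x ≠ 0
  onV : ∀ x ∈ E, ∀ f ∈ J₀, eval x f = 0
  hC₁ : 1 ≤ C₁
  bal : ∀ x ∈ E, ∀ s, nrm (L s) x ≤ C₁ * Ht L x
  up : ∀ x ∈ E, ∀ s i, ‖algebraMap K (L s) (w x i)‖ ≤ C₁ * nrm (L s) x
  low : ∀ x ∈ E, ∀ s, ∃ i, nrm (L s) x ≤ C₁ * ‖algebraMap K (L s) (w x i)‖
  hε : 0 < ε
  gap : ∀ x ∈ E, ∃ o : Λ → Option (Finset (Fin r) × Fin r),
    (∀ s I a, o s = some (I, a) → GoodC J₀ F (L s) I a ∧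
      nrm (L s) x ≤ C₁ * ‖algebraMap K (L s) (w x a)‖) ∧
    ∏ s, facN (L s) (w x) (nrm (L s) x) (o s) ≤ C₂ * Ht L x ^ (-ε)

namespace PtsH
variable {Z : MP K L} {𝔅 : LN (Fin (N + 1) → K)} {J₀ : Set (MvPolynomial (Fin (N + 1)) K)}
    {F : Fin r → MvPolynomial (Fin (N + 1)) K} {d : Fin r → ℕ} {D : Fin r → K}
    {w : (Fin (N + 1) → K) → Fin r → K} {C₁ ε C₂ : ℝ} {E : Set (Fin (N + 1) → K)}

lemma mono (h : PtsH Z 𝔅 J₀ F d D w C₁ ε C₂ E) {E' : Set (Fin (N + 1) → K)} (hE : E' ⊆ E)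
    (hB : 𝔅.Big E') : PtsH Z 𝔅 J₀ F d D w C₁ ε C₂ E' where
  hJ₀ := h.hJ₀
  hd := h.hd
  hF := h.hF
  hD := h.hD
  big := hB
  unit := fun x hx => h.unit x (hE hx)
  ev := fun x hx => h.ev x (hE hx)
  O := fun x hx => h.O x (hE hx)
  ne := fun x hx => h.ne x (hE hx)
  onV := fun x hx => h.onV x (hE hx)
  hC₁ := h.hC₁
  bal := fun x hx => h.bal x (hE hx)
  up := fun x hx => h.up x (hE hx)
  low := fun x hx => h.low x (hE hx)
  hε := h.hε
  gap := fun x hx => h.gap x (hE hx)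

lemma large (h : PtsH Z 𝔅 J₀ F d D w C₁ ε C₂ E) (B : ℝ) : 𝔅.Big {x | x ∈ E ∧ B ≤ Ht L x} := by
  have hfin : {x : Fin (N + 1) → K | ∀ k, x k ∈ Z.O ∧
      ∀ s, ‖algebraMap K (L s) (x k)‖ ≤ C₁ * B}.Finite :=
    (Set.Finite.pi' (fun _ : Fin (N + 1) => Z.fin (C₁ * B))).subset fun x hx k => hx k
  have h1 := 𝔅.sdiff h.big hfin
  refine 𝔅.mono ?_ h1
  rintro x ⟨hx, hx'⟩
  refine ⟨hx, ?_⟩
  by_contra hcon
  push Not at hcon
  apply hx'
  intro k
  have := h.hC₁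
  refine ⟨h.O x hx k, fun s => (le_nrm x k).trans ((h.bal x hx s).trans ?_)⟩
  exact mul_le_mul_of_nonneg_left hcon.le (by linarith)

lemma one_le (h : PtsH Z 𝔅 J₀ F d D w C₁ ε C₂ E) {x : Fin (N + 1) → K} (hx : x ∈ E) :
    1 ≤ Ht L x := one_le_Ht Z (h.O x hx) (h.ne x hx)

/-- The sizes of the units. -/
lemma up3 (h : PtsH Z 𝔅 J₀ F d D w C₁ ε C₂ E) {x : Fin (N + 1) → K} (hx : x ∈ E)
    (hC : C₁ ≤ Ht L x) (s : Λ) (i : Fin r) :
    ‖algebraMap K (L s) (w x i)‖ ≤ Ht L x ^ (3 : ℝ) := by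
  have hQ0 : 0 < Ht L x := by linarith [h.one_le hx]
  have h3 : Ht L x ^ (3 : ℕ) = Ht L x ^ (3 : ℝ) := by
    rw [← Real.rpow_natCast]
    norm_num
  refine (h.up x hx s i).trans ?_
  rw [← h3]
  calc C₁ * nrm (L s) x ≤ Ht L x * (Ht L x * Ht L x) := by
        refine mul_le_mul hC ((h.bal x hx s).trans ?_) (nrm_nonneg _) hQ0.le
        exact mul_le_mul_of_nonneg_right hC hQ0.le
    _ = Ht L x ^ 3 := by ring

lemma pb (h : PtsH Z 𝔅 J₀ F d D w C₁ ε C₂ E) {x : Fin (N + 1) → K} (hx : x ∈ E)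
    (hC : C₁ ≤ Ht L x) (s : Λ) (i : Fin r) :
    PB (Ht L x) (3 * Fintype.card Λ + 3) ‖algebraMap K (L s) (w x i)‖ :=
  unit_pb Z (h.unit x hx i) (h.one_le hx) (by norm_num) (fun s => h.up3 hx hC s i) s

/-- Upper bound for the characters. -/
lemma chi_up (h : PtsH Z 𝔅 J₀ F d D w C₁ ε C₂ E) {x : Fin (N + 1) → K} (hx : x ∈ E)
    (hC : C₁ ≤ Ht L x) (s : Λ) (j : Fin r →₀ ℕ) {u κ : K} (hu : mon (w x) j = κ * u) (hκ : κ ≠ 0)
    (hκH : ‖algebraMap K (L s) κ⁻¹‖ ≤ Ht L x) {n : ℕ} (hn : ∑ i, j i ≤ n) :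
    ‖algebraMap K (L s) u‖ ≤ Ht L x ^ ((3 * n + 1 : ℕ) : ℝ) := by
  have hQ := h.one_le hx
  have hQ0 : 0 < Ht L x := by linarith
  have h1 : u = κ⁻¹ * mon (w x) j := by rw [hu, inv_mul_cancel_left₀ hκ]
  rw [h1, map_mul, norm_mul, Real.rpow_natCast]
  have h2 : ‖algebraMap K (L s) (mon (w x) j)‖ ≤ Ht L x ^ (3 * n) := by
    unfold mon
    rw [map_prod, norm_prod]
    calc ∏ i, ‖algebraMap K (L s) (w x i ^ j i)‖ ≤ ∏ i, (Ht L x ^ 3) ^ j i := by
          refine Finset.prod_le_prod (fun i _ => norm_nonneg _) fun i _ => ?_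
          rw [map_pow, norm_pow]
          refine pow_le_pow_left₀ (norm_nonneg _) ?_ _
          refine (h.up3 hx hC s i).trans_eq ?_
          rw [← Real.rpow_natCast]
          norm_num
      _ = Ht L x ^ (3 * ∑ i, j i) := by
          rw [Finset.prod_pow_eq_pow_sum, ← pow_mul]
      _ ≤ _ := pow_le_pow_right₀ hQ (by omega)
  calc ‖algebraMap K (L s) κ⁻¹‖ * ‖algebraMap K (L s) (mon (w x) j)‖
      ≤ Ht L x * Ht L x ^ (3 * n) := mul_le_mul hκH h2 (norm_nonneg _) hQ0.le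
    _ = _ := by ring

lemma facW_le (h : PtsH Z 𝔅 J₀ F d D w C₁ ε C₂ E) {x : Fin (N + 1) → K} (hx : x ∈ E) {s : Λ}
    {a : Fin r} (ha : nrm (L s) x ≤ C₁ * ‖algebraMap K (L s) (w x a)‖)
    (o : Option (Finset (Fin r))) : facW (L s) (w x) a o ≤ C₁ ^ 2 := by
  have hC := h.hC₁
  have hw := (h.unit x hx a).pos s
  rcases o with _ | I
  · exact one_le_pow₀ hC
  · change ‖fun i : {i // i ∈ I} => algebraMap K (L s) (w x i.1 / w x a)‖ ≤ _
    rw [pi_norm_le_iff_of_nonneg (by positivity)]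
    intro i
    rw [map_div₀, norm_div, div_le_iff₀ hw]
    refine (h.up x hx s i).trans ?_
    rw [pow_two, mul_assoc]
    exact mul_le_mul_of_nonneg_left ha (by linarith)

lemma facW_le' (h : PtsH Z 𝔅 J₀ F d D w C₁ ε C₂ E) {x : Fin (N + 1) → K} (hx : x ∈ E) {s : Λ}
    {a : Fin r} (ha : nrm (L s) x ≤ C₁ * ‖algebraMap K (L s) (w x a)‖)
    (o : Option (Finset (Fin r))) :
    facW (L s) (w x) a o ≤
      C₁ * facN (L s) (w x) (nrm (L s) x) (o.map fun I => (I, a)) := by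
  have hC := h.hC₁
  have hw := (h.unit x hx a).pos s
  have hn : 0 < nrm (L s) x := nrm_pos (h.ne x hx)
  rcases o with _ | I
  · change 1 ≤ C₁ * 1
    linarith
  · change ‖fun i : {i // i ∈ I} => algebraMap K (L s) (w x i.1 / w x a)‖ ≤
      C₁ * (‖fun i : {i // i ∈ I} => algebraMap K (L s) (w x i.1)‖ / nrm (L s) x)
    rw [pi_norm_le_iff_of_nonneg (by positivity)]
    intro i
    rw [map_div₀, norm_div, div_le_iff₀ hw, mul_assoc, div_mul_eq_mul_div, ← mul_div_assoc,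
      le_div_iff₀ hn]
    have h1 : ‖algebraMap K (L s) (w x i.1)‖ ≤
        ‖fun i : {i // i ∈ I} => algebraMap K (L s) (w x i.1)‖ :=
      norm_le_pi_norm (fun i : {i // i ∈ I} => algebraMap K (L s) (w x i.1)) i
    calc ‖algebraMap K (L s) (w x i.1)‖ * nrm (L s) x
        ≤ ‖fun i : {i // i ∈ I} => algebraMap K (L s) (w x i.1)‖ *
          (C₁ * ‖algebraMap K (L s) (w x a)‖) :=
          mul_le_mul h1 ha (nrm_nonneg _) (norm_nonneg _)
      _ = _ := by ring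

lemma facW_pb (h : PtsH Z 𝔅 J₀ F d D w C₁ ε C₂ E) {x : Fin (N + 1) → K}
    (hx : x ∈ E) (hC : C₁ ≤ Ht L x) (s : Λ) (a : Fin r) (o : Option (Finset (Fin r)))
    (ho : ∀ I, o = some I → I.Nonempty) :
    PB (Ht L x) (2 * (3 * Fintype.card Λ + 3)) (facW (L s) (w x) a o) := by
  have hQ := h.one_le hx
  have hQ0 : 0 < Ht L x := by linarith
  rcases o with _ | I
  · exact PB.one hQ (by positivity)
  have h1 : ∀ i : {i // i ∈ I}, PB (Ht L x) (2 * (3 * Fintype.card Λ + 3))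
      ‖algebraMap K (L s) (w x i.1 / w x a)‖ := by
    intro i
    rw [map_div₀, norm_div, two_mul]
    exact (h.pb hx hC s i).div hQ (h.pb hx hC s a)
  obtain ⟨b, hb⟩ := ho I rfl
  refine ⟨(h1 ⟨b, hb⟩).1.trans (norm_le_pi_norm
    (fun i : {i // i ∈ I} => algebraMap K (L s) (w x i.1 / w x a)) ⟨b, hb⟩), ?_⟩
  change ‖fun i : {i // i ∈ I} => algebraMap K (L s) (w x i.1 / w x a)‖ ≤ _
  rw [pi_norm_le_iff_of_nonneg (Real.rpow_nonneg hQ0.le _)]
  exact fun i => (h1 i).2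

end PtsH

/-- The estimate, for a corner or no corner. -/
lemma estO {L : Type} [NontriviallyNormedField L] [ProperSpace L] [Algebra K L]
    (J₀ : Set (MvPolynomial (Fin (N + 1)) K))
    (hJ₀ : ∀ f ∈ J₀, ∃ e, f.IsHomogeneous e)
    (F : Fin r → MvPolynomial (Fin (N + 1)) K) (d : Fin r → ℕ) (hd : ∀ i, 1 ≤ d i)
    (hF : ∀ i, (F i).IsHomogeneous (d i)) (D : Fin r → K) (hD : ∀ i, D i ≠ 0)
    (C₁ : ℝ) (hC₁ : 1 ≤ C₁) (M : ℕ) (a : Fin r) (o : Option (Finset (Fin r))) :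
    ∃ (C : ℝ) (Ty : Finset (Fin (N + 1) → MvPolynomial {i // i ∈ toI o} (algebraicClosure K L))),
      0 < C ∧ ((∀ I, o = some I → GoodC J₀ F L I a) →
      ∀ x : Fin (N + 1) → K, (∀ f ∈ J₀, eval x f = 0) → ∀ w : Fin r → K, w a ≠ 0 →
        (∀ i, eval x (F i) = D i * w i ^ d i) → nrm L x ≤ C₁ * ‖algebraMap K L (w a)‖ →
        facW L w a o ≤ C₁ ^ 2 →
        ∃ P ∈ Ty, ∀ k, ∀ (A B : Type) [Fintype A] [DecidableEq A] [Fintype B] [DecidableEq B]
          (c : Cls K r M A B) (χ : A → K) (χ' : B → K), c.Val w χ χ' → ∀ α : A,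
          ‖lf (vH c a (toI o) (P k) (Sum.inl α)) (Sum.elim (fun α => x k * χ α) χ')‖ ≤
            C * ‖algebraMap K L (χ α)‖ * ‖algebraMap K L (w a)‖ *
              facW L w a o ^ (c.rep a α a + 2)) := by
  classical
  rcases o with _ | I
  · refine ⟨C₁, {0}, by linarith, fun _ x hx w hwa hw hn _ => ⟨0, Finset.mem_singleton_self _, ?_⟩⟩
    intro k A B _ _ _ _ c χ χ' hc α
    have h1 : lf (vH c a (toI (none : Option (Finset (Fin r))))
        ((0 : Fin (N + 1) → MvPolynomial {i // i ∈ toI (none : Option (Finset (Fin r)))}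
          (algebraicClosure K L)) k)
        (Sum.inl α)) (Sum.elim (fun α => x k * χ α) χ') = algebraMap K L (x k * χ α) :=
      lf_vH_zero c a _ α _
    rw [h1, map_mul, norm_mul]
    change _ ≤ C₁ * ‖algebraMap K L (χ α)‖ * ‖algebraMap K L (w a)‖ * 1 ^ (c.rep a α a + 2)
    rw [one_pow, mul_one]
    calc ‖algebraMap K L (x k)‖ * ‖algebraMap K L (χ α)‖
        ≤ (C₁ * ‖algebraMap K L (w a)‖) * ‖algebraMap K L (χ α)‖ :=
          mul_le_mul_of_nonneg_right ((le_nrm x k).trans hn) (norm_nonneg _)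
      _ = _ := by ring
  · by_cases hg : GoodC J₀ F L I a
    · obtain ⟨C, Ty, hC, h⟩ := estH (L := L) J₀ hJ₀ F d hd hF D hD a I hg.mem hg.red
        (C₁ ^ 2) (one_le_pow₀ hC₁) M
      refine ⟨C, Ty, hC, fun _ x hx w hwa hw hn hf => ?_⟩
      exact h x hx w hwa hw (hn.trans (mul_le_mul_of_nonneg_right
        (le_self_pow₀ hC₁ (by norm_num)) (norm_nonneg _))) hf
    · exact ⟨1, ∅, one_pos, fun h => absurd (h I rfl) hg⟩

end rel

end Pool.Agent.Helper38.TP
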