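import Pool.Agent.Helper38.TP.LemU
import Pool.Agent.Helper10.Sub.Torus

/-!
# From linear relations to curves parametrised by the multiplicative group

As `Helper10.Sub.torus` (file `Helper10/Sub/Torus.lean`), with units `w x i` instead of
`ε ^ q x i`. Instead of `two_close` we use `unit_eq` with `u x α = ∏ i, w x i ^ α i`, `α` in the
support of `G`: on a large set `w ^ α = m w ^ β` with `α ≠ β` of the same degree, so with
`δ = α - β`, `δ 0 + δ 1 + δ 2 = 0`, `δ ≠ 0`: `(w 0 / w 2) ^ δ 0 * (w 1 / w 2) ^ δ 1 = m`. Instead of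
the congruence classes: let `g = gcd (δ 0) (δ 1)`, `δ i = g δ' i`; the value
`(w 0 / w 2) ^ δ' 0 * (w 1 / w 2) ^ δ' 1` is a root of `X ^ g - m`, so it takes finitely many values;
on a large set it is constant; fix `x₀` there. With `a δ' 0 + b δ' 1 = 1` (Bezout),
`v i = (w x i / w x 2) / (w x₀ i / w x₀ 2)`, `z = v 0 ^ b * v 1 ^ (-a)` we get `v 0 = z ^ δ' 1`,
`v 1 = z ^ (-δ' 0)`.
-/

set_option autoImplicit false

namespace Pool.Agent.Helper38.TP

open Pool.Agent.Helper10.Sub MvPolynomial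

lemma torus_bezout {K : Type*} [Field K] (v0 v1 : K) (h0 : v0 ≠ 0) (h1 : v1 ≠ 0)
    (p0 p1 a b : ℤ) (hab : a * p0 + b * p1 = 1) (h : v0 ^ p0 * v1 ^ p1 = 1) :
    (v0 ^ b * v1 ^ (-a)) ^ p1 = v0 ∧ (v0 ^ b * v1 ^ (-a)) ^ (-p0) = v1 := by
  constructor
  · rw [mul_zpow, ← zpow_mul, ← zpow_mul]
    have e1 : b * p1 = 1 + p0 * (-a) := by linear_combination hab
    have e2 : -a * p1 = p1 * (-a) := by ring
    rw [e1, e2, zpow_add₀ h0, zpow_one, zpow_mul, zpow_mul, mul_assoc, ← mul_zpow, h, one_zpow,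
      mul_one]
  · rw [mul_zpow, ← zpow_mul, ← zpow_mul]
    have e1 : b * (-p0) = p0 * (-b) := by ring
    have e2 : -a * (-p0) = 1 + p1 * (-b) := by linear_combination hab
    rw [e1, e2, zpow_add₀ h1, zpow_one, zpow_mul, zpow_mul, mul_left_comm, ← mul_zpow, h,
      one_zpow, mul_one]

theorem torusG {K : Type} [Field K] {Λ : Type} [Fintype Λ] [DecidableEq Λ] {L : Λ → Type}
    [∀ s, NontriviallyNormedField (L s)] [∀ s, Algebra K (L s)] (Z : MP K L) {N : ℕ}
    (J₀ : Set (MvPolynomial (Fin (N + 1)) K)) (hJ₀ : ∀ f ∈ J₀, ∃ e, f.IsHomogeneous e)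
    (F : Fin 3 → MvPolynomial (Fin (N + 1)) K) (d : Fin 3 → ℕ)
    (hF : ∀ i, (F i).IsHomogeneous (d i)) (D : Fin 3 → K) (hD : ∀ i, D i ≠ 0)
    (hdeg : ∀ l : Fin 3 → Fin (N + 1) → K,
      (∀ u : Fin 3 → K, ∀ f ∈ J₀, eval (∑ i, u i • l i) f = 0) →
      (∀ u : Fin 3 → K, ∀ i, eval (∑ i, u i • l i) (F i) = D i * u i ^ d i) → ∀ i, d i = 1)
    (E : Set (Fin (N + 1) → K)) (w : (Fin (N + 1) → K) → Fin 3 → K)
    (hw : ∀ x ∈ E, ∀ i, Z.U (w x i))
    (l : Fin 3 → Fin (N + 1) → K) (hx : ∀ x ∈ E, x = ∑ i, w x i • l i)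
    (hX : ∀ x ∈ E, ∀ f ∈ J₀, eval x f = 0)
    (hev : ∀ x ∈ E, ∀ i, eval x (F i) = D i * w x i ^ d i) :
    Small J₀ F d E := by
  by_contra hE
  change (bigLN J₀ F d).Big E at hE
  set 𝔅 := bigLN J₀ F d with h𝔅
  classical
  -- pull back to the plane
  set g : MvPolynomial (Fin (N + 1)) K → MvPolynomial (Fin 3) K :=
    fun f => aeval (fun k => ∑ i, C (l i k) * X i) f with hg
  have hgev : ∀ (f : MvPolynomial (Fin (N + 1)) K) (u : Fin 3 → K),
      eval u (g f) = eval (∑ i, u i • l i) f := by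
    intro f u
    have h2 := (map_aeval (fun k => ∑ i, C (l i k) * X i) (eval u) f)
    rw [hg]
    simp only
    have h3 : (∑ i, u i • l i) = fun k => eval u (∑ i, C (l i k) * X i) := by
      funext k
      simp [Finset.sum_apply, mul_comm]
    have h4 : (eval u).comp (algebraMap K (MvPolynomial (Fin 3) K)) = RingHom.id K := by
      ext a; simp
    rw [h2, h3, h4]
    rfl
  have hghom : ∀ (f : MvPolynomial (Fin (N + 1)) K) (e : ℕ), f.IsHomogeneous e →
      (g f).IsHomogeneous e := by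
    intro f e hf
    have := hf.aeval (fun k => ∑ i, C (l i k) * X i) (n := 1) (fun k => by
      apply IsHomogeneous.sum
      intro i _
      have := (isHomogeneous_C (Fin 3) (l i k)).mul (isHomogeneous_X K i)
      simpa using this)
    rwa [one_mul] at this
  by_cases hall : (∀ f ∈ J₀, g f = 0) ∧ ∀ i, g (F i) - C (D i) * X i ^ d i = 0
  · -- all identities hold on the plane
    have hU : ∀ u : Fin 3 → K, ∀ i, eval (∑ i, u i • l i) (F i) = D i * u i ^ d i := by
      intro u i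
      have h1 := hall.2 i
      rw [sub_eq_zero] at h1
      rw [← hgev (F i) u, h1]
      simp
    have hJ : ∀ u : Fin 3 → K, ∀ f ∈ J₀, eval (∑ i, u i • l i) f = 0 := by
      intro u f hf
      rw [← hgev, hall.1 f hf, map_zero]
    have hd1 := hdeg l hJ hU
    apply hE
    refine ⟨∅, ∅, {l}, Set.finite_empty, Set.finite_empty, Set.finite_singleton l,
      fun t ht => absurd ht (Set.notMem_empty t), ?_, fun x hxE => Or.inr (Or.inr ⟨l, rfl,
        w x, fun i => (hw x hxE i).ne, hx x hxE⟩)⟩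
    rintro _ rfl
    refine ⟨hd1, hJ, D, hD, fun u i => ?_⟩
    rw [hU, hd1 i, pow_one]
  · -- a non-trivial relation
    obtain ⟨G, e, hG0, hGe, hGx⟩ : ∃ (G : MvPolynomial (Fin 3) K) (e : ℕ), G ≠ 0 ∧
        G.IsHomogeneous e ∧ ∀ x ∈ E, eval (w x) G = 0 := by
      rw [not_and_or] at hall
      rcases hall with h | h
      · push Not at h
        obtain ⟨f, hf, hf0⟩ := h
        obtain ⟨e, he⟩ := hJ₀ f hf
        refine ⟨g f, e, hf0, hghom f e he, fun x hxE => ?_⟩
        rw [hgev, ← hx x hxE]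
        exact hX x hxE f hf
      · push Not at h
        obtain ⟨i, hi⟩ := h
        refine ⟨_, d i, hi, ?_, fun x hxE => ?_⟩
        · apply (hghom _ _ (hF i)).sub
          have := (isHomogeneous_C (Fin 3) (D i)).mul ((isHomogeneous_X K i).pow (d i))
          simpa using this
        · rw [map_sub, hgev, ← hx x hxE, hev x hxE i]
          simp
    have hne' : (Finset.univ : Finset {γ // γ ∈ G.support}).Nonempty := by
      have h1 : G.support.Nonempty := by
        rw [Finset.nonempty_iff_ne_empty, Ne, support_eq_empty]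
        exact hG0
      obtain ⟨γ, hγ⟩ := h1
      exact ⟨⟨γ, hγ⟩, Finset.mem_univ _⟩
    obtain ⟨α', -, β', -, hne0, m, hE₁⟩ := unit_eq Z 𝔅
      (fun x (γ : {γ // γ ∈ G.support}) => ∏ i, w x i ^ (γ.1 i)) E hE
      (fun x hxE γ => MP.U.prod _ fun i _ => (hw x hxE i).pow _)
      (fun γ => coeff γ.1 G) Finset.univ hne' (fun γ _ => mem_support_iff.mp γ.2) (by
        intro x hxE
        have h1 := hGx x hxE
        rw [eval_eq'] at h1
        rw [← h1]
        exact Finset.sum_coe_sort G.support (fun γ => coeff γ G * ∏ i, w x i ^ γ i))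
    obtain ⟨α, hα⟩ := α'
    obtain ⟨β, hβ⟩ := β'
    have hne : α ≠ β := fun h => hne0 (Subtype.ext h)
    simp only at hE₁
    set E₁ : Set (Fin (N + 1) → K) := _ with hE₁def
    change 𝔅.Big E₁ at hE₁
    have hE₁₀ : ∀ x ∈ E₁, x ∈ E := fun x hx => hx.1
    have hE₁m : ∀ x ∈ E₁, ∏ i, w x i ^ (α i) = m * ∏ i, w x i ^ (β i) := fun x hx => hx.2
    set δ : Fin 3 → ℤ := fun i => (α i : ℤ) - (β i : ℤ) with hδ
    have hδsum : δ 0 + δ 1 + δ 2 = 0 := by
      have h1 : ∀ γ ∈ G.support, ((γ 0 : ℤ) + γ 1 + γ 2) = e := by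
        intro γ hγ
        have := hGe (mem_support_iff.mp hγ)
        rw [Finsupp.weight_apply, Finsupp.sum_fintype _ _ (by simp), Fin.sum_univ_three] at this
        simp only [Pi.one_apply, smul_eq_mul, mul_one] at this
        exact_mod_cast this
      have h2 := h1 α hα
      have h3 := h1 β hβ
      simp only [hδ]
      omega
    have hδ0 : ¬ (δ 0 = 0 ∧ δ 1 = 0) := by
      rintro ⟨h0, h1⟩
      apply hne
      ext i
      have h2 : δ 2 = 0 := by omega
      simp only [hδ] at h0 h1 h2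
      fin_cases i
      · change α 0 = β 0; omega
      · change α 1 = β 1; omega
      · change α 2 = β 2; omega
    -- the relation between the quotients
    have hrel : ∀ x ∈ E₁, (w x 0 / w x 2) ^ δ 0 * (w x 1 / w x 2) ^ δ 1 = m := by
      intro x hxE
      have h1 := hE₁m x hxE
      have hn : ∀ i, w x i ≠ 0 := fun i => (hw x (hE₁₀ x hxE) i).ne
      have h2 : ∏ i, w x i ^ δ i = m := by
        have h3 : ∀ i, w x i ^ δ i = w x i ^ (α i) / w x i ^ (β i) := by
          intro i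
          simp only [hδ]
          rw [zpow_sub₀ (hn i), zpow_natCast, zpow_natCast]
        simp only [h3]
        rw [Finset.prod_div_distrib, h1, mul_div_cancel_right₀]
        exact Finset.prod_ne_zero_iff.mpr fun i _ => pow_ne_zero _ (hn i)
      rw [Fin.prod_univ_three] at h2
      rw [← h2, div_zpow, div_zpow]
      have h4 : δ 2 = -δ 0 + -δ 1 := by omega
      rw [h4, zpow_add₀ (hn 2), zpow_neg, zpow_neg]
      have h5 : w x 2 ^ δ 0 ≠ 0 := zpow_ne_zero _ (hn 2)
      have h6 : w x 2 ^ δ 1 ≠ 0 := zpow_ne_zero _ (hn 2)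
      field_simp
    -- the greatest common divisor
    set gd : ℕ := Int.gcd (δ 0) (δ 1) with hgd
    have hgd0 : 0 < gd := by
      rw [hgd, Int.gcd_pos_iff]
      by_contra hcon
      rw [not_or, not_not, not_not] at hcon
      exact hδ0 hcon
    obtain ⟨p0, hp0⟩ : (gd : ℤ) ∣ δ 0 := Int.gcd_dvd_left _ _
    obtain ⟨p1, hp1⟩ : (gd : ℤ) ∣ δ 1 := Int.gcd_dvd_right _ _
    set a : ℤ := Int.gcdA (δ 0) (δ 1) with ha
    set b : ℤ := Int.gcdB (δ 0) (δ 1) with hb
    have hab : a * p0 + b * p1 = 1 := by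
      have h1 : (gd : ℤ) = δ 0 * a + δ 1 * b := Int.gcd_eq_gcd_ab _ _
      have h2 : (gd : ℤ) * (a * p0 + b * p1) = gd * 1 := by
        rw [hp0, hp1] at h1
        linear_combination -h1
      exact mul_left_cancel₀ (by exact_mod_cast hgd0.ne') h2
    set ρ : (Fin (N + 1) → K) → K := fun x =>
      (w x 0 / w x 2) ^ p0 * (w x 1 / w x 2) ^ p1 with hρ
    have hρm : ∀ x ∈ E₁, ρ x ^ gd = m := by
      intro x hxE
      rw [← hrel x hxE, hρ]
      simp only
      rw [mul_pow, ← zpow_natCast, ← zpow_natCast, ← zpow_mul, ← zpow_mul, hp0, hp1,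
        mul_comm p0, mul_comm p1]
    obtain ⟨ρ₀, -, hE₂⟩ := 𝔅.partition (Polynomial.nthRoots gd m).toFinset hE₁
      (fun r x => ρ x = r) (by
      intro x hxE
      refine ⟨ρ x, ?_, rfl⟩
      rw [Multiset.mem_toFinset, Polynomial.mem_nthRoots hgd0]
      exact hρm x hxE)
    set E₂ : Set (Fin (N + 1) → K) := _ with hE₂def
    change 𝔅.Big E₂ at hE₂
    obtain ⟨x₀, hx₀⟩ := 𝔅.nonempty hE₂
    have hE₂₀ : ∀ x ∈ E₂, x ∈ E := fun x hx => hx.1.1
    have hE₂ρ : ∀ x ∈ E₂, ρ x = ρ₀ := fun x hx => hx.2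
    have hwn : ∀ x ∈ E₂, ∀ i, w x i ≠ 0 := fun x hxE i => (hw x (hE₂₀ x hxE) i).ne
    set p : Fin 3 → ℤ := ![p1, -p0, 0] with hp
    set l' : Fin 3 → Fin (N + 1) → K := fun i => w x₀ i • l i with hl'
    set μ : (Fin (N + 1) → K) → K := fun x => w x 2 / w x₀ 2 with hμ
    have hμ0 : ∀ x ∈ E₂, μ x ≠ 0 := fun x hxE => div_ne_zero (hwn x hxE 2) (hwn x₀ hx₀ 2)
    have hkey : ∀ x ∈ E₂, ∃ z : K, z ≠ 0 ∧ ∀ i, w x i = μ x * z ^ p i * w x₀ i := by
      intro x hxE
      set v0 : K := (w x 0 / w x 2) / (w x₀ 0 / w x₀ 2) with hv0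
      set v1 : K := (w x 1 / w x 2) / (w x₀ 1 / w x₀ 2) with hv1
      have n0 := hwn x hxE 0
      have n1 := hwn x hxE 1
      have n2 := hwn x hxE 2
      have m0 := hwn x₀ hx₀ 0
      have m1 := hwn x₀ hx₀ 1
      have m2 := hwn x₀ hx₀ 2
      have hv0n : v0 ≠ 0 := div_ne_zero (div_ne_zero n0 n2) (div_ne_zero m0 m2)
      have hv1n : v1 ≠ 0 := div_ne_zero (div_ne_zero n1 n2) (div_ne_zero m1 m2)
      have hv : v0 ^ p0 * v1 ^ p1 = 1 := by
        have h1 : ρ x = ρ x₀ := by rw [hE₂ρ x hxE, hE₂ρ x₀ hx₀]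
        have h2 : v0 ^ p0 * v1 ^ p1 = ρ x / ρ x₀ := by
          rw [hv0, hv1, div_zpow, div_zpow (w x 1 / w x 2), div_mul_div_comm]
        rw [h2, h1, div_self]
        exact mul_ne_zero (zpow_ne_zero _ (div_ne_zero m0 m2)) (zpow_ne_zero _ (div_ne_zero m1 m2))
      obtain ⟨hz0, hz1⟩ := torus_bezout v0 v1 hv0n hv1n p0 p1 a b hab hv
      set z : K := v0 ^ b * v1 ^ (-a) with hz
      refine ⟨z, mul_ne_zero (zpow_ne_zero _ hv0n) (zpow_ne_zero _ hv1n), fun i => ?_⟩
      fin_cases i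
      · change w x 0 = μ x * z ^ p1 * w x₀ 0
        rw [hz0, hv0, hμ]
        field_simp
      · change w x 1 = μ x * z ^ (-p0) * w x₀ 1
        rw [hz1, hv1, hμ]
        field_simp
      · change w x 2 = μ x * z ^ (0 : ℤ) * w x₀ 2
        rw [zpow_zero, hμ]
        field_simp
    choose! z hz0 hz using hkey
    have hxc : ∀ x ∈ E₂, x = μ x • cpt l' p (z x) := by
      intro x hxE
      conv_lhs => rw [hx x (hE₂₀ x hxE)]
      rw [cpt, Finset.smul_sum]
      apply Finset.sum_congr rfl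
      intro i _
      rw [hl', hz x hxE i, smul_smul, smul_smul]
    set 𝒵 : Set K := z '' E₂ with h𝒵
    have hZinf : 𝒵.Infinite := by
      intro hfin
      apply hE₂
      refine ⟨(fun z => cpt l' p z) '' 𝒵, ∅, ∅, hfin.image _, Set.finite_empty, Set.finite_empty,
        fun t ht => absurd ht (Set.notMem_empty t), fun t ht => absurd ht (Set.notMem_empty t),
        fun x hxE => Or.inl ⟨_, ⟨_, ⟨x, hxE, rfl⟩, rfl⟩, μ x, hμ0 x hxE, hxc x hxE⟩⟩
    have hscale : ∀ (f : MvPolynomial (Fin (N + 1)) K) (e : ℕ), f.IsHomogeneous e →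
        ∀ x ∈ E₂, eval x f = (μ x) ^ e * eval (cpt l' p (z x)) f := by
      intro f e hf x hxE
      conv_lhs => rw [hxc x hxE]
      exact hf.eval_smul' _ _
    apply hE₂
    refine ⟨∅, {(l', p)}, ∅, Set.finite_empty, Set.finite_singleton _, Set.finite_empty, ?_,
      fun t ht => absurd ht (Set.notMem_empty t),
      fun x hxE => Or.inr (Or.inl ⟨_, rfl, μ x, z x, hμ0 x hxE, hz0 x hxE, hxc x hxE⟩)⟩
    rintro _ rfl
    refine ⟨?_, ?_, fun i => eval x₀ (F i), ?_, ?_⟩
    · by_contra hcon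
      push Not at hcon
      have h1 := hcon 0 2
      have h2 := hcon 1 2
      rw [hp] at h1 h2
      simp only [Matrix.cons_val_zero, Matrix.cons_val_one, Matrix.cons_val] at h1 h2
      have h3 : p0 = 0 := by linarith
      rw [h1, h3] at hab
      norm_num at hab
    · intro y hy f hf
      obtain ⟨e, he⟩ := hJ₀ f hf
      have := identity l' p f e he 0 0 𝒵 hZinf (by
        rintro _ ⟨x, hxE, rfl⟩ -
        have h1 := hscale f e he x hxE
        rw [hX x (hE₂₀ x hxE) f hf] at h1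
        rw [zero_mul]
        exact (mul_eq_zero.mp h1.symm).resolve_left (pow_ne_zero _ (hμ0 x hxE))) y hy
      rw [zero_mul] at this
      exact this
    · intro i
      simp only
      rw [hev x₀ (hE₂₀ x₀ hx₀) i]
      exact mul_ne_zero (hD i) (pow_ne_zero _ (hwn x₀ hx₀ i))
    · intro y hy i
      refine identity l' p (F i) (d i) (hF i) _ i 𝒵 hZinf ?_ y hy
      rintro _ ⟨x, hxE, rfl⟩ -
      have h1 := hscale (F i) (d i) (hF i) x hxE
      rw [hev x (hE₂₀ x hxE) i, hz x hxE i] at h1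
      have h2 : (μ x) ^ d i ≠ 0 := pow_ne_zero _ (hμ0 x hxE)
      apply mul_left_cancel₀ h2
      beta_reduce
      rw [← h1, hev x₀ (hE₂₀ x₀ hx₀) i, mul_pow, mul_pow]
      have h3 : (z x) ^ ((d i : ℤ) * p i) = ((z x) ^ (p i)) ^ d i := by
        rw [← zpow_natCast ((z x) ^ (p i)), ← zpow_mul, mul_comm]
      rw [h3]
      ring

end Pool.Agent.Helper38.TP
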