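import Pool.Agent.Helper38.TP.CoreEps
import Pool.Agent.Helper38.TP.Torus
import Pool.Agent.Helper10.Sub.NonInf

/-!
# Points near the corners are covered by finitely many points, curves and planes
-/

set_option autoImplicit false
set_option linter.unusedSectionVars false

namespace Pool.Agent.Helper38.TP

open Pool.Agent.Helper10.Sub MvPolynomial

variable {K : Type} [Field K] [CharZero K] {Λ : Type} [Fintype Λ] [DecidableEq Λ] {L : Λ → Type}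
  [∀ s, NontriviallyNormedField (L s)] [∀ s, ProperSpace (L s)] [∀ s, Algebra K (L s)] {N : ℕ}

/-- The constants. -/
lemma consts (J₀ : Set (MvPolynomial (Fin (N + 1)) K))
    (hJ₀ : ∀ f ∈ J₀, ∃ e, f.IsHomogeneous e)
    (F : Fin 3 → MvPolynomial (Fin (N + 1)) K) (d : Fin 3 → ℕ) (hd : ∀ i, 1 ≤ d i)
    (hF : ∀ i, (F i).IsHomogeneous (d i)) (D : Fin 3 → K) (hD : ∀ i, D i ≠ 0)
    (hempty : ∀ s, ∀ A : Fin (N + 1) → L s, OnV J₀ A → (∀ i, aeval A (F i) = 0) → A = 0) :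
    ∃ C₁ : ℝ, 1 ≤ C₁ ∧ ∀ x : Fin (N + 1) → K, x ≠ 0 → OnV J₀ x → ∀ w : Fin 3 → K,
      (∀ i, eval x (F i) = D i * w i ^ d i) →
      (∀ s i, ‖algebraMap K (L s) (w i)‖ ≤ C₁ * nrm (L s) x) ∧
      ∀ s, ∃ i, nrm (L s) x ≤ C₁ * ‖algebraMap K (L s) (w i)‖ := by
  classical
  have hup : ∀ (s : Λ) (i : Fin 3), ∃ C : ℝ, 0 ≤ C ∧ ∀ x : Fin (N + 1) → K, ∀ w : Fin 3 → K,
      (∀ i, eval x (F i) = D i * w i ^ d i) →
      ‖algebraMap K (L s) (w i)‖ ≤ C * nrm (L s) x := by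
    intro s i
    obtain ⟨C, hC, h⟩ := aeval_le (L := L s) (F i) (d i) (hF i)
    have hDi : 0 < ‖algebraMap K (L s) (D i)‖ := norm_pos_iff.mpr
      (by rw [Ne, map_eq_zero_iff _ (algebraMap K (L s)).injective]; exact hD i)
    refine ⟨max 1 (C / ‖algebraMap K (L s) (D i)‖), by positivity, fun x w hev => ?_⟩
    apply root_le (Nat.one_le_iff_ne_zero.mp (hd i)) (norm_nonneg _) (nrm_nonneg _)
    have h1 := h (fun k => algebraMap K (L s) (x k))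
    rw [aeval_alg, hev i, map_mul, map_pow, norm_mul, norm_pow] at h1
    rw [div_mul_eq_mul_div, le_div_iff₀ hDi, mul_comm]
    exact h1
  have hlow : ∀ s : Λ, ∃ C : ℝ, 0 ≤ C ∧ ∀ x : Fin (N + 1) → K, x ≠ 0 → OnV J₀ x →
      ∀ w : Fin 3 → K, (∀ i, eval x (F i) = D i * w i ^ d i) →
      ∃ i, nrm (L s) x ≤ C * ‖algebraMap K (L s) (w i)‖ := by
    intro s
    obtain ⟨η, hη, h⟩ := lowerJ (L := L s) J₀ hJ₀ F d hF (hempty s)
    refine ⟨∑ i, max 1 (‖algebraMap K (L s) (D i)‖ / η),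
      Finset.sum_nonneg fun _ _ => by positivity, fun x hx hxJ w hev => ?_⟩
    obtain ⟨i, hi⟩ := h x hx hxJ
    refine ⟨i, ?_⟩
    have h1 : nrm (L s) x ≤ max 1 (‖algebraMap K (L s) (D i)‖ / η) *
        ‖algebraMap K (L s) (w i)‖ := by
      apply root_le (Nat.one_le_iff_ne_zero.mp (hd i)) (nrm_nonneg _) (norm_nonneg _)
      rw [hev i, map_mul, map_pow, norm_mul, norm_pow] at hi
      rw [div_mul_eq_mul_div, le_div_iff₀ hη, mul_comm]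
      exact hi
    refine h1.trans (mul_le_mul_of_nonneg_right ?_ (norm_nonneg _))
    exact Finset.single_le_sum (f := fun i => max 1 (‖algebraMap K (L s) (D i)‖ / η))
      (fun _ _ => by positivity) (Finset.mem_univ i)
  choose Cu hCu hu using hup
  choose Cl hCl hl using hlow
  have h1 : 0 ≤ ∑ s, ∑ i, Cu s i :=
    Finset.sum_nonneg fun s _ => Finset.sum_nonneg fun i _ => hCu s i
  have h2 : 0 ≤ ∑ s, Cl s := Finset.sum_nonneg fun s _ => hCl s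
  refine ⟨1 + (∑ s, ∑ i, Cu s i) + ∑ s, Cl s, by linarith, fun x hx hxJ w hev => ⟨?_, ?_⟩⟩
  · intro s i
    refine (hu s i x w hev).trans (mul_le_mul_of_nonneg_right ?_ (nrm_nonneg _))
    have h3 : Cu s i ≤ ∑ i, Cu s i :=
      Finset.single_le_sum (f := fun i => Cu s i) (fun i _ => hCu s i) (Finset.mem_univ i)
    have h4 : ∑ i, Cu s i ≤ ∑ s, ∑ i, Cu s i :=
      Finset.single_le_sum (f := fun s => ∑ i, Cu s i)
        (fun s _ => Finset.sum_nonneg fun i _ => hCu s i) (Finset.mem_univ s)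
    linarith
  · intro s
    obtain ⟨i, hi⟩ := hl s x hx hxJ w hev
    refine ⟨i, hi.trans (mul_le_mul_of_nonneg_right ?_ (norm_nonneg _))⟩
    have h3 : Cl s ≤ ∑ s, Cl s :=
      Finset.single_le_sum (f := fun s => Cl s) (fun s _ => hCl s) (Finset.mem_univ s)
    linarith

/-- **Points near the corners**, abstract form. -/
theorem smallG (Z : MP K L) {Ω : Type} [Field Ω] [IsAlgClosed Ω] [Algebra K Ω]
    (J₀ : Set (MvPolynomial (Fin (N + 1)) K)) (hJ₀ : ∀ f ∈ J₀, ∃ e, f.IsHomogeneous e)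
    (F : Fin 3 → MvPolynomial (Fin (N + 1)) K) (d : Fin 3 → ℕ) (hd : ∀ i, 1 ≤ d i)
    (hF : ∀ i, (F i).IsHomogeneous (d i))
    (hempty : ∀ A : Fin (N + 1) → Ω, OnV J₀ A → (∀ i, aeval A (F i) = 0) → A = 0)
    (hred : ∀ i j, i ≠ j → ∀ A : Fin (N + 1) → Ω, A ≠ 0 → OnV (J₀ ∪ {F i, F j}) A →
      Jac (J₀ ∪ {F i, F j}) A)
    (E : Set (Fin (N + 1) → K)) (hO : ∀ x ∈ E, ∀ k, x k ∈ Z.O) (hx0 : ∀ x ∈ E, x ≠ 0)
    (hX : ∀ x ∈ E, ∀ f ∈ J₀, eval x f = 0)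
    (𝒟 : Finset K) (h𝒟 : ∀ D ∈ 𝒟, D ≠ 0)
    (hint : ∀ x ∈ E, ∀ i, ∃ D ∈ 𝒟, ∃ w : K, Z.U w ∧ eval x (F i) = D * w ^ d i)
    (C₀ : ℝ) (hbal : ∀ x ∈ E, ∀ s, nrm (L s) x ≤ C₀ * Ht L x)
    (θ : ℝ) (hθ : 0 < θ)
    (hgap : ∀ (D : Fin 3 → K) (C₁ : ℝ), (∀ i, D i ≠ 0) → 1 ≤ C₁ → ∃ C₂ : ℝ, ∀ x ∈ E,
      ∀ w : Fin 3 → K, (∀ i, Z.U (w i)) → (∀ i, eval x (F i) = D i * w i ^ d i) →
      ∀ a : Λ → Fin 3, (∀ s, nrm (L s) x ≤ C₁ * ‖algebraMap K (L s) (w (a s))‖) →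
      (∀ s i, ‖algebraMap K (L s) (w i)‖ ≤ C₁ * nrm (L s) x) →
      ∏ s, (max ‖algebraMap K (L s) (w (a s + 1))‖
        ‖algebraMap K (L s) (w (a s + 2))‖ / nrm (L s) x) ≤ C₂ * Ht L x ^ (-θ)) :
    Small J₀ F d E := by
  classical
  by_contra hE
  change (bigLN J₀ F d).Big E at hE
  set 𝔅 := bigLN J₀ F d with h𝔅
  have hOn : ∀ x ∈ E, OnV J₀ x := by
    intro x hx f hf
    rw [aeval_self']
    exact hX x hx f hf
  have hE0 : ∀ A : Fin (N + 1) → Ω, OnV (J₀ ∪ Set.range F) A → A = 0 :=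
    fun A hA => hempty A (fun f hf => hA f (Or.inl hf)) (fun i => hA _ (Or.inr ⟨i, rfl⟩))
  have hempty' : ∀ s, ∀ A : Fin (N + 1) → L s, OnV J₀ A → (∀ i, aeval A (F i) = 0) →
      A = 0 := by
    intro s A hA hAF
    apply transfer0 _ hE0 A
    rintro f (hf | ⟨i, rfl⟩)
    · exact hA f hf
    · exact hAF i
  have hred' : ∀ s, ∀ i j, i ≠ j → ∀ A : Fin (N + 1) → L s, A ≠ 0 →
      OnV (J₀ ∪ {F i, F j}) A → Jac (J₀ ∪ {F i, F j}) A :=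
    fun s i j hij A hA hOn => transfer _ (hred i j hij) A hA hOn
  -- fix the constants
  obtain ⟨D, hD𝒟, hE₁⟩ := 𝔅.partition (Fintype.piFinset (fun _ : Fin 3 => 𝒟)) hE
    (fun D x => ∀ i, ∃ w : K, Z.U w ∧ eval x (F i) = D i * w ^ d i) (by
      intro x hx
      choose D hD w hw h using hint x hx
      exact ⟨D, Fintype.mem_piFinset.mpr hD, fun i => ⟨w i, hw i, h i⟩⟩)
  rw [Fintype.mem_piFinset] at hD𝒟
  have hD : ∀ i, D i ≠ 0 := fun i => h𝒟 _ (hD𝒟 i)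
  set E₁ : Set (Fin (N + 1) → K) := _ with hE₁def
  change 𝔅.Big E₁ at hE₁
  have hE₁E : ∀ x ∈ E₁, x ∈ E := fun x hx => hx.1
  have hw' : ∀ x ∈ E₁, ∀ i, ∃ w : K, Z.U w ∧ eval x (F i) = D i * w ^ d i := fun x hx => hx.2
  choose! w hw hev using hw'
  obtain ⟨C₁, hC₁, hcon⟩ := consts (L := L) J₀ hJ₀ F d hd hF D hD hempty'
  have hC₀C : ∀ x ∈ E₁, ∀ s, nrm (L s) x ≤ max C₀ C₁ * Ht L x := by
    intro x hx s
    refine (hbal x (hE₁E x hx) s).trans (mul_le_mul_of_nonneg_right (le_max_left _ _) ?_)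
    exact zero_le_one.trans (one_le_Ht Z (hO x (hE₁E x hx)) (hx0 x (hE₁E x hx)))
  have hup : ∀ x ∈ E₁, ∀ s i, ‖algebraMap K (L s) (w x i)‖ ≤ max C₀ C₁ * nrm (L s) x := by
    intro x hx s i
    refine ((hcon x (hx0 x (hE₁E x hx)) (hOn x (hE₁E x hx)) (w x) (hev x hx)).1 s i).trans ?_
    exact mul_le_mul_of_nonneg_right (le_max_right _ _) (nrm_nonneg _)
  have hlow : ∀ x ∈ E₁, ∀ s, ∃ i, nrm (L s) x ≤ max C₀ C₁ * ‖algebraMap K (L s) (w x i)‖ := by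
    intro x hx s
    obtain ⟨i, hi⟩ := (hcon x (hx0 x (hE₁E x hx)) (hOn x (hE₁E x hx)) (w x) (hev x hx)).2 s
    exact ⟨i, hi.trans (mul_le_mul_of_nonneg_right (le_max_right _ _) (norm_nonneg _))⟩
  have hC : 1 ≤ max C₀ C₁ := hC₁.trans (le_max_right _ _)
  obtain ⟨C₂, hC₂⟩ := hgap D (max C₀ C₁) hD hC
  obtain ⟨E₂, hE₂, hE₂b, l, hl⟩ := coreM Z 𝔅 J₀ hJ₀ F d hd hF D hD (Ω := Ω) hempty hempty' hred' E₁
    hE₁ w hw hev
    (fun x hx => hO x (hE₁E x hx)) (fun x hx => hx0 x (hE₁E x hx))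
    (fun x hx => hOn x (hE₁E x hx)) (max C₀ C₁) hC hC₀C hup hlow θ C₂ hθ
    (fun x hx a ha => hC₂ x (hE₁E x hx) (w x) (hw x hx) (hev x hx) a ha (hup x hx))
  apply hE₂b
  exact torusG Z J₀ hJ₀ F d hF D hD (fun l' hJ hU => plane_deg (Ω := Ω) J₀ F d hd hred D hD l' hJ hU)
    E₂ w (fun x hx => hw x (hE₂ hx)) l hl (fun x hx => hX x (hE₁E x (hE₂ hx)))
    (fun x hx => hev x (hE₂ hx))

end Pool.Agent.Helper38.TP
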