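import Pool.Agent.Helper38.TP.Defs

/-!
# Linear equations in units

Plan. Choose `m` minimal such that there are a large `E' ⊆ E`, a set `I ⊆ S` with `m` elements and
coefficients `g'`, all non-zero on `I`, with `∑ i ∈ I, g' i * u x i = 0` on `E'`. Then `m ≥ 2`, and
if `m = 2` we are done. Let `m ≥ 3`. Dividing by the coordinate `j₀ ∈ I` we may replace `u x j` by
`r x j = u x j / u x j₀` (units). Put `I' = I \ {j₀}` (`M = m - 1 ≥ 2` elements) and
`H x = ∏ s, max (1, max over I' of ‖r x j‖_s) ≥ 1`. All `‖r x j‖_s` lie in `[1/H x, H x]` (product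
formula `U.pf`). If `{x ∈ E' | H x ≤ B}` is large for some `B`, then `r x j` takes only finitely
many values there (`Z.fin`), so by `LN.partition` it is constant on a large set: relation with two
terms. Otherwise `{x ∈ E' | B ≤ H x}` is large for all `B` (`LN.union`). By minimality of `m` the
vectors `(r x j)_{j ∈ I'}`, `x` in a large subset of `E'`, always span `V = ⊤` of `I' → K`
(`Submodule.exists_le_ker_of_lt_top` or similar gives a linear relation otherwise, which has at
most `m - 1` non-zero terms). Choose for every `x` and `s` the index in `I` of largest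
`‖u x j‖_s`; by `LN.partition` it depends on `s` only on a large subset. The forms at `s` are the
other coordinates in `I` (the coordinate `j₀` is `- g' j₀⁻¹ ∑ g' j r x j`), the product of their
sizes over all `s` is `1 / H x`; this contradicts `MP.apply` (`I := I` subtype or `J`,
`lo = hi = I.erase (j s)`, `X = H`, `B = 1`, `δ = 1`, `C = 1`).
-/

set_option autoImplicit false

namespace Pool.Agent.Helper38.TP

open Pool.Agent.Helper10.Sub

section aux

variable {K : Type} [Field K] {J : Type} [DecidableEq J]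

/-- The forms: coordinate `i`, or the dependent coordinate `j₀`. -/
def uform (L : Type) [Field L] [Algebra K L] (g : J → K) (j₀ : J) (S' : Finset J) (i : J)
    (k : {j // j ∈ S'}) : L :=
  if i = j₀ then algebraMap K L (-(g j₀)⁻¹ * g k.1) else if k.1 = i then 1 else 0

variable {L : Type} [Field L] [Algebra K L] {g : J → K} {j₀ : J} {S' : Finset J}

lemma uform_j0 (y : {j // j ∈ S'} → K) : lf (uform L g j₀ S' j₀) y =
    algebraMap K L (-(g j₀)⁻¹ * ∑ k, g k.1 * y k) := by
  unfold lf uform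
  simp only [if_true]
  rw [Finset.mul_sum, map_sum]
  refine Finset.sum_congr rfl fun k _ => ?_
  rw [← map_mul]
  congr 1
  ring

lemma uform_mem {i : J} (hi : i ≠ j₀) (hiS : i ∈ S') (y : {j // j ∈ S'} → K) :
    lf (uform L g j₀ S' i) y = algebraMap K L (y ⟨i, hiS⟩) := by
  unfold lf uform
  simp only [hi, if_false]
  rw [Finset.sum_eq_single ⟨i, hiS⟩]
  · simp
  · rintro ⟨k, hk⟩ _ hne
    have : k ≠ i := fun h => hne (by simp [h])
    simp [this]
  · intro h
    exact absurd (Finset.mem_univ _) h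

lemma uform_not {i : J} (hi : i ≠ j₀) (hiS : i ∉ S') (y : {j // j ∈ S'} → K) :
    lf (uform L g j₀ S' i) y = 0 := by
  unfold lf uform
  simp only [hi, if_false]
  refine Finset.sum_eq_zero ?_
  rintro ⟨k, hk⟩ _
  have : k ≠ i := fun h => hiS (h ▸ hk)
  simp [this]

/-- The value of the forms. -/
def uval (g : J → K) (j₀ : J) (S' : Finset J) (y : {j // j ∈ S'} → K) (i : J) : K :=
  if i = j₀ then -(g j₀)⁻¹ * ∑ k, g k.1 * y k else if h : i ∈ S' then y ⟨i, h⟩ else 0

lemma lf_uform (y : {j // j ∈ S'} → K) (i : J) : lf (uform L g j₀ S' i) y =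
    algebraMap K L (uval g j₀ S' y i) := by
  unfold uval
  split_ifs with h1 h2
  · subst h1
    exact uform_j0 y
  · exact uform_mem h1 h2 y
  · rw [uform_not h1 h2, map_zero]

lemma uval_rel {S : Finset J} (hj0 : j₀ ∈ S) (hg : g j₀ ≠ 0) (y : {j // j ∈ S.erase j₀} → K) :
    ∑ i ∈ S, g i * uval g j₀ (S.erase j₀) y i = 0 := by
  rw [← Finset.add_sum_erase _ _ hj0]
  have h1 : ∑ i ∈ S.erase j₀, g i * uval g j₀ (S.erase j₀) y i =
      ∑ k : {j // j ∈ S.erase j₀}, g k.1 * y k := by
    rw [← Finset.sum_coe_sort]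
    refine Finset.sum_congr rfl ?_
    rintro ⟨k, hk⟩ _
    unfold uval
    simp only [Finset.ne_of_mem_erase hk, if_false, hk, dif_pos]
  rw [h1]
  unfold uval
  rw [if_pos rfl]
  field_simp
  ring

lemma uform_alg (i : J) (k : {j // j ∈ S'}) : IsAlgebraic K (uform L g j₀ S' i k) := by
  unfold uform
  split_ifs
  · exact isAlgebraic_algebraMap _
  · exact isAlgebraic_one
  · exact isAlgebraic_zero

/-- The forms without the index `p` are a basis. -/
lemma uform_forms [Fintype J] {S : Finset J} (hj0 : j₀ ∈ S) (hg : ∀ j ∈ S, g j ≠ 0) {p : J} (hp : p ∈ S) :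
    Forms (⊤ : Submodule K ({j // j ∈ S.erase j₀} → K)) (uform L g j₀ (S.erase j₀))
      (S.erase p) (S.erase p) where
  hst := subset_rfl
  alg := uform_alg
  ind := by
    intro c hc
    have hc' : ∀ y : {j // j ∈ S.erase j₀} → K,
        ∑ i ∈ S.erase p, c i * lf (uform L g j₀ (S.erase j₀) i) y = 0 :=
      fun y => hc y Submodule.mem_top
    have hj : j₀ ∈ S.erase p → c j₀ = 0 := by
      intro hj
      have hpj : p ≠ j₀ := (Finset.ne_of_mem_erase hj).symm
      have hpS : p ∈ S.erase j₀ := Finset.mem_erase.mpr ⟨hpj, hp⟩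
      have h1 := hc' (Pi.single ⟨p, hpS⟩ 1)
      rw [Finset.sum_eq_single j₀] at h1
      · rw [uform_j0, Finset.sum_eq_single ⟨p, hpS⟩] at h1
        · rw [Pi.single_eq_same, mul_one, mul_eq_zero] at h1
          rcases h1 with h1 | h1
          · exact h1
          · rw [map_eq_zero_iff _ (algebraMap K L).injective, mul_eq_zero, neg_eq_zero,
              inv_eq_zero] at h1
            rcases h1 with h1 | h1
            · exact absurd h1 (hg _ hj0)
            · exact absurd h1 (hg _ hp)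
        · intro k _ hk
          rw [Pi.single_eq_of_ne hk, mul_zero]
        · intro h
          exact absurd (Finset.mem_univ _) h
      · intro i hi hij
        have hiS : i ∈ S.erase j₀ :=
          Finset.mem_erase.mpr ⟨hij, Finset.mem_of_mem_erase hi⟩
        rw [uform_mem hij hiS, Pi.single_eq_of_ne, map_zero, mul_zero]
        intro h
        exact Finset.ne_of_mem_erase hi (congrArg Subtype.val h)
      · intro h
        exact absurd hj h
    intro i hi
    by_cases hij : i = j₀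
    · subst hij
      exact hj hi
    · have hiS : i ∈ S.erase j₀ := Finset.mem_erase.mpr ⟨hij, Finset.mem_of_mem_erase hi⟩
      have h1 := hc' (Pi.single ⟨i, hiS⟩ 1)
      rw [Finset.sum_eq_single i] at h1
      · rw [uform_mem hij hiS, Pi.single_eq_same, map_one, mul_one] at h1
        exact h1
      · intro k hk hki
        by_cases hkj : k = j₀
        · subst hkj
          rw [hj hk, zero_mul]
        · have hkS : k ∈ S.erase j₀ := Finset.mem_erase.mpr ⟨hkj, Finset.mem_of_mem_erase hk⟩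
          rw [uform_mem hkj hkS, Pi.single_eq_of_ne, map_zero, mul_zero]
          intro h
          exact hki (congrArg Subtype.val h)
      · intro h
        exact absurd hi h
  spn := by
    rintro ⟨m, hm⟩
    have hmS : m ∈ S := Finset.mem_of_mem_erase hm
    have hmj : m ≠ j₀ := Finset.ne_of_mem_erase hm
    by_cases hmp : m = p
    · subst hmp
      refine ⟨fun i => algebraMap K L (-(g m)⁻¹ * g i), fun y _ => ?_⟩
      have h1 : ∀ i, algebraMap K L (-(g m)⁻¹ * g i) * lf (uform L g j₀ (S.erase j₀) i) y =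
          algebraMap K L (-(g m)⁻¹ * (g i * uval g j₀ (S.erase j₀) y i)) := by
        intro i
        rw [lf_uform, ← map_mul, mul_assoc]
      simp only [h1]
      rw [← map_sum, ← Finset.mul_sum]
      congr 1
      have h2 := uval_rel hj0 (hg _ hj0) y
      rw [← Finset.add_sum_erase _ _ hmS] at h2
      have h3 : uval g j₀ (S.erase j₀) y m = y ⟨m, hm⟩ := by
        unfold uval
        rw [if_neg hmj, dif_pos hm]
      rw [h3] at h2
      have h4 := hg _ hmS
      rw [eq_comm, ← sub_eq_zero]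
      have h5 : ∑ x ∈ S.erase m, g x * uval g j₀ (S.erase j₀) y x = -(g m * y ⟨m, hm⟩) := by
        linear_combination h2
      rw [h5]
      field_simp
      ring
    · refine ⟨fun i => if i = m then 1 else 0, fun y _ => ?_⟩
      rw [Finset.sum_eq_single m]
      · simp only [if_true, one_mul]
        rw [uform_mem hmj hm]
      · intro i _ him
        simp only [him, if_false, zero_mul]
      · intro h
        exact absurd (Finset.mem_erase.mpr ⟨hmp, hmS⟩) h

/-- A linear relation with coefficients from a proper span. -/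
lemma exists_rel {β : Type} {j₀ : J} {S : Finset J} (u : β → J → K) (E : Set β)
    (hu : ∀ x ∈ E, u x j₀ ≠ 0)
    (h : Submodule.span K ((fun x (k : {j // j ∈ S.erase j₀}) => u x k.1 / u x j₀) '' E) ≠ ⊤) :
    ∃ S' ⊆ S.erase j₀, S'.Nonempty ∧ ∃ c : J → K, (∀ j ∈ S', c j ≠ 0) ∧
      ∀ x ∈ E, ∑ j ∈ S', c j * u x j = 0 := by
  classical
  obtain ⟨f, hf, hle⟩ := Submodule.exists_le_ker_of_lt_top _ (lt_top_iff_ne_top.mpr h)
  set c : J → K := fun j => if h : j ∈ S.erase j₀ then f (Pi.single ⟨j, h⟩ 1) else 0 with hc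
  have hfy : ∀ y, f y = ∑ k : {j // j ∈ S.erase j₀}, c k.1 * y k := by
    intro y
    conv_lhs => rw [LinearMap.pi_apply_eq_sum_univ f y]
    refine Finset.sum_congr rfl ?_
    rintro ⟨k, hk⟩ _
    rw [smul_eq_mul, mul_comm]
    congr 1
    simp only [hc, hk, dif_pos]
    congr 1
    funext i
    simp only [Pi.single_apply, eq_comm]
  refine ⟨(S.erase j₀).filter fun j => c j ≠ 0, Finset.filter_subset _ _, ?_, c, ?_, ?_⟩
  · by_contra hne
    rw [Finset.not_nonempty_iff_eq_empty, Finset.filter_eq_empty_iff] at hne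
    apply hf
    refine LinearMap.ext fun y => ?_
    rw [hfy, LinearMap.zero_apply]
    refine Finset.sum_eq_zero fun k _ => ?_
    have := hne k.2
    rw [not_not] at this
    rw [this, zero_mul]
  · intro j hj
    exact (Finset.mem_filter.mp hj).2
  · intro x hx
    have h1 : f (fun k : {j // j ∈ S.erase j₀} => u x k.1 / u x j₀) = 0 := by
      have := hle (Submodule.subset_span ⟨x, hx, rfl⟩)
      exact this
    rw [hfy, Finset.sum_coe_sort (S.erase j₀) (fun k => c k * (u x k / u x j₀))] at h1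
    have h2 : ∑ j ∈ (S.erase j₀).filter (fun j => c j ≠ 0), c j * u x j =
        ∑ j ∈ S.erase j₀, c j * u x j := by
      rw [Finset.sum_filter]
      refine Finset.sum_congr rfl fun j _ => ?_
      by_cases hcj : c j = 0
      · simp [hcj]
      · simp [hcj]
    rw [h2]
    have h3 : ∑ j ∈ S.erase j₀, c j * u x j =
        (∑ j ∈ S.erase j₀, c j * (u x j / u x j₀)) * u x j₀ := by
      rw [Finset.sum_mul]
      refine Finset.sum_congr rfl fun j _ => ?_
      rw [mul_assoc, div_mul_cancel₀ _ (hu x hx)]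
    rw [h3, h1, zero_mul]

end aux

section height

variable {K : Type} [Field K] {Λ : Type} [Fintype Λ] {L : Λ → Type}
    [∀ s, NontriviallyNormedField (L s)] [∀ s, Algebra K (L s)]
    {J : Type} [DecidableEq J]

/-- local height -/
noncomputable def hl (L : Λ → Type) [∀ s, NontriviallyNormedField (L s)] [∀ s, Algebra K (L s)]
    {S : Finset J} (hS : S.Nonempty) (r : J → K) (s : Λ) : ℝ :=
  S.sup' hS fun j => ‖algebraMap K (L s) (r j)‖

/-- height -/
noncomputable def hH (L : Λ → Type) [∀ s, NontriviallyNormedField (L s)] [∀ s, Algebra K (L s)]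
    {S : Finset J} (hS : S.Nonempty) (r : J → K) : ℝ :=
  ∏ s, hl L hS r s

lemma le_hl {S : Finset J} (hS : S.Nonempty) (r : J → K) (s : Λ) {j : J} (hj : j ∈ S) :
    ‖algebraMap K (L s) (r j)‖ ≤ hl L hS r s :=
  Finset.le_sup' (fun j => ‖algebraMap K (L s) (r j)‖) hj

lemma one_le_hl {S : Finset J} (hS : S.Nonempty) {r : J → K} {j₀ : J} (hj : j₀ ∈ S)
    (h1 : r j₀ = 1) (s : Λ) : 1 ≤ hl L hS r s := by
  have := le_hl (L := L) hS r s hj
  rwa [h1, map_one, norm_one] at this

lemma prod_erase_ge [DecidableEq Λ] {a : Λ → ℝ} (ha : ∀ s, 1 ≤ a s) (s : Λ) :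
    1 ≤ ∏ t ∈ Finset.univ.erase s, a t := by
  have := Finset.prod_le_prod (s := Finset.univ.erase s) (f := fun _ => (1 : ℝ)) (g := a)
    (fun _ _ => zero_le_one) (fun t _ => ha t)
  rwa [Finset.prod_const_one] at this

lemma hl_le_hH {S : Finset J} (hS : S.Nonempty) {r : J → K} {j₀ : J} (hj : j₀ ∈ S)
    (h1 : r j₀ = 1) (s : Λ) : hl L hS r s ≤ hH L hS r := by
  classical
  unfold hH
  rw [← Finset.mul_prod_erase _ _ (Finset.mem_univ s)]
  have h2 := prod_erase_ge (fun t => one_le_hl (L := L) hS hj h1 t) s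
  have h3 := one_le_hl (L := L) hS hj h1 s
  nlinarith

end height

theorem unit_eq {K : Type} [Field K] {Λ : Type} [Fintype Λ] [DecidableEq Λ] {L : Λ → Type}
    [∀ s, NontriviallyNormedField (L s)] [∀ s, Algebra K (L s)] (Z : MP K L)
    {β : Type} (𝔅 : LN β) {J : Type} [Fintype J] [DecidableEq J] (u : β → J → K) (E : Set β)
    (hE : 𝔅.Big E) (hu : ∀ x ∈ E, ∀ j, Z.U (u x j)) (g : J → K) (S : Finset J)
    (hS : S.Nonempty) (hg : ∀ j ∈ S, g j ≠ 0) (h0 : ∀ x ∈ E, ∑ j ∈ S, g j * u x j = 0) :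
    ∃ i ∈ S, ∃ j ∈ S, i ≠ j ∧ ∃ m : K, 𝔅.Big {x | x ∈ E ∧ u x i = m * u x j} := by
  classical
  suffices H : ∀ n : ℕ, ∀ S : Finset J, S.card = n → ∀ (g : J → K) (E : Set β), 𝔅.Big E →
      (∀ x ∈ E, ∀ j, Z.U (u x j)) → S.Nonempty → (∀ j ∈ S, g j ≠ 0) →
      (∀ x ∈ E, ∑ j ∈ S, g j * u x j = 0) →
      ∃ i ∈ S, ∃ j ∈ S, i ≠ j ∧ ∃ m : K, 𝔅.Big {x | x ∈ E ∧ u x i = m * u x j} from
    H _ S rfl g E hE hu hS hg h0
  clear h0 hg hS S g hu hE E
  intro n
  induction n using Nat.strong_induction_on with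
  | _ n ih =>
  intro S hn g E hE hu hS hg h0
  by_contra hcon
  push Not at hcon
  obtain ⟨j₀, hj0⟩ := hS
  have hSn : S.Nonempty := ⟨j₀, hj0⟩
  have hu0 : ∀ x ∈ E, u x j₀ ≠ 0 := fun x hx => (hu x hx j₀).ne
  -- the cardinality
  have hcard : 2 ≤ (S.erase j₀).card := by
    by_contra hlt
    obtain ⟨x, hx⟩ := 𝔅.nonempty hE
    have hc : (S.erase j₀).card = 0 ∨ (S.erase j₀).card = 1 := by omega
    rcases hc with hc | hc
    · rw [Finset.card_eq_zero] at hc
      have h1 := h0 x hx
      rw [← Finset.add_sum_erase _ _ hj0, hc, Finset.sum_empty, add_zero, mul_eq_zero] at h1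
      rcases h1 with h1 | h1
      · exact hg _ hj0 h1
      · exact hu0 x hx h1
    · obtain ⟨j₁, hj1⟩ := Finset.card_eq_one.mp hc
      have hj1m : j₁ ∈ S.erase j₀ := by
        rw [hj1]
        exact Finset.mem_singleton_self _
      refine hcon j₁ (Finset.mem_of_mem_erase hj1m) j₀ hj0 (Finset.ne_of_mem_erase hj1m)
        (-(g j₀) / g j₁) (𝔅.mono ?_ hE)
      intro x hx
      refine ⟨hx, ?_⟩
      have h1 := h0 x hx
      rw [← Finset.add_sum_erase _ _ hj0, hj1, Finset.sum_singleton] at h1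
      have h2 := hg _ (Finset.mem_of_mem_erase hj1m)
      field_simp
      linear_combination h1
  -- the span
  have hspan : ∀ E' ⊆ E, 𝔅.Big E' → Submodule.span K
      ((fun x (k : {j // j ∈ S.erase j₀}) => u x k.1 / u x j₀) '' E') = ⊤ := by
    intro E' hE' hB'
    by_contra hne
    obtain ⟨S', hS', hS'n, c, hc, hrel⟩ :=
      exists_rel u E' (fun x hx => hu0 x (hE' hx)) hne
    have hlt : S'.card < n := by
      have h1 := Finset.card_le_card hS'
      have h2 := Finset.card_erase_lt_of_mem hj0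
      omega
    obtain ⟨i, hi, j, hj, hij, m, hm⟩ := ih S'.card hlt S' rfl c E' hB'
      (fun x hx => hu x (hE' hx)) hS'n hc hrel
    exact hcon i (Finset.mem_of_mem_erase (hS' hi)) j (Finset.mem_of_mem_erase (hS' hj)) hij m
      (𝔅.mono (fun x hx => ⟨hE' hx.1, hx.2⟩) hm)
  -- the ratios
  set r : β → J → K := fun x j => u x j / u x j₀ with hr
  have hrU : ∀ x ∈ E, ∀ j, Z.U (r x j) := fun x hx j => (hu x hx j).div (hu x hx j₀)
  have hr0 : ∀ x ∈ E, r x j₀ = 1 := fun x hx => div_self (hu0 x hx)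
  -- choose the maximal index
  obtain ⟨φ, hφ⟩ := 𝔅.partition' (α := Λ → J) hE
    (fun φ x => ∀ s, φ s ∈ S ∧ hl L hSn (r x) s = ‖algebraMap K (L s) (r x (φ s))‖) (by
      intro x hx
      choose φ h1 h2 using fun s => Finset.exists_mem_eq_sup' hSn
        (fun j => ‖algebraMap K (L s) (r x j)‖)
      exact ⟨φ, fun s => ⟨h1 s, h2 s⟩⟩)
  set E₂ := {x | x ∈ E ∧ ∀ s, φ s ∈ S ∧ hl L hSn (r x) s = ‖algebraMap K (L s) (r x (φ s))‖}
    with hE₂
  have hφS : ∀ s, φ s ∈ S := by
    obtain ⟨x, hx⟩ := 𝔅.nonempty hφ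
    exact fun s => (hx.2 s).1
  -- large heights
  have hX : ∀ B : ℝ, 𝔅.Big {x | x ∈ E₂ ∧ B ≤ hH L hSn (r x)} := by
    intro B
    have h1 : E₂ ⊆ {x | x ∈ E₂ ∧ B ≤ hH L hSn (r x)} ∪ {x | x ∈ E₂ ∧ ¬ B ≤ hH L hSn (r x)} := by
      intro x hx
      by_cases h : B ≤ hH L hSn (r x)
      · exact Or.inl ⟨hx, h⟩
      · exact Or.inr ⟨hx, h⟩
    rcases 𝔅.union (𝔅.mono h1 hφ) with h2 | h2
    · exact h2
    · exfalso
      obtain ⟨j₁, hj1⟩ : (S.erase j₀).Nonempty := by
        rw [← Finset.card_pos]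
        omega
      have hj1S := Finset.mem_of_mem_erase hj1
      obtain ⟨m, -, hm⟩ := 𝔅.partition (Z.fin B).toFinset h2 (fun m x => r x j₁ = m) (by
        rintro x ⟨hx, hxB⟩
        refine ⟨r x j₁, ?_, rfl⟩
        rw [Set.Finite.mem_toFinset]
        refine ⟨(hrU x hx.1 j₁).mem, fun s => ?_⟩
        push Not at hxB
        exact ((le_hl hSn (r x) s hj1S).trans (hl_le_hH hSn hj0 (hr0 x hx.1) s)).trans hxB.le)
      refine hcon j₁ hj1S j₀ hj0 (Finset.ne_of_mem_erase hj1) m (𝔅.mono ?_ hm)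
      rintro x ⟨⟨hx, -⟩, hxm⟩
      refine ⟨hx.1, ?_⟩
      rw [← hxm, hr]
      exact (div_mul_cancel₀ _ (hu0 x hx.1)).symm
  -- facts at the points
  have hval : ∀ x ∈ E, ∀ i ∈ S, uval g j₀ (S.erase j₀)
      (fun k : {j // j ∈ S.erase j₀} => r x k.1) i = r x i := by
    intro x hx i hi
    by_cases hij : i = j₀
    · subst hij
      have h1 := uval_rel hj0 (hg _ hj0) (fun k : {j // j ∈ S.erase i} => r x k.1)
      have h2 : ∑ j ∈ S, g j * r x j = 0 := by
        have h3 : ∑ j ∈ S, g j * r x j = (∑ j ∈ S, g j * u x j) / u x i := by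
          rw [Finset.sum_div]
          refine Finset.sum_congr rfl fun j _ => ?_
          simp only [hr]
          ring
        rw [h3, h0 x hx, zero_div]
      rw [← Finset.add_sum_erase _ _ hj0] at h1 h2
      have h4 : ∑ j ∈ S.erase i, g j * uval g i (S.erase i)
          (fun k : {j // j ∈ S.erase i} => r x k.1) j = ∑ j ∈ S.erase i, g j * r x j := by
        refine Finset.sum_congr rfl fun j hj => ?_
        unfold uval
        rw [if_neg (Finset.ne_of_mem_erase hj), dif_pos hj]
      rw [h4] at h1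
      have h5 : g i * (uval g i (S.erase i) (fun k : {j // j ∈ S.erase i} => r x k.1) i -
          r x i) = 0 := by
        linear_combination h1 - h2
      rcases mul_eq_zero.mp h5 with h6 | h6
      · exact absurd h6 (hg _ hj0)
      · exact sub_eq_zero.mp h6
    · unfold uval
      rw [if_neg hij, dif_pos (Finset.mem_erase.mpr ⟨hij, hi⟩)]
  have hnot : ∀ (y : {j // j ∈ S.erase j₀} → K), ∀ i ∉ S, uval g j₀ (S.erase j₀) y i = 0 := by
    intro y i hi
    have hij : i ≠ j₀ := by
      rintro rfl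
      exact hi hj0
    unfold uval
    rw [if_neg hij, dif_neg (fun h => hi (Finset.mem_of_mem_erase h))]
  have h1H : ∀ x ∈ E, 1 ≤ hH L hSn (r x) := by
    intro x hx
    have := Finset.prod_le_prod (s := (Finset.univ : Finset Λ)) (f := fun _ => (1 : ℝ))
      (g := fun s => hl L hSn (r x) s) (fun _ _ => zero_le_one)
      (fun s _ => one_le_hl hSn hj0 (hr0 x hx) s)
    rwa [Finset.prod_const_one] at this
  have hlow : ∀ x ∈ E, ∀ s, ∀ i ∈ S, (hH L hSn (r x))⁻¹ ≤ ‖algebraMap K (L s) (r x i)‖ := by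
    intro x hx s i hi
    have h1 := (hrU x hx i).pf
    rw [← Finset.mul_prod_erase _ _ (Finset.mem_univ s)] at h1
    have h2 : ∏ t ∈ Finset.univ.erase s, ‖algebraMap K (L t) (r x i)‖ ≤
        ∏ t ∈ Finset.univ.erase s, hl L hSn (r x) t :=
      Finset.prod_le_prod (fun _ _ => norm_nonneg _) (fun t _ => le_hl hSn (r x) t hi)
    have h3 : ∏ t ∈ Finset.univ.erase s, hl L hSn (r x) t ≤ hH L hSn (r x) := by
      unfold hH
      rw [← Finset.mul_prod_erase _ _ (Finset.mem_univ s)]
      have h4 := one_le_hl (L := L) hSn hj0 (hr0 x hx) s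
      have h5 := prod_erase_ge (fun t => one_le_hl (L := L) hSn hj0 (hr0 x hx) t) s
      nlinarith
    have h6 : 0 < ‖algebraMap K (L s) (r x i)‖ := (hrU x hx i).pos s
    have h7 := h1H x hx
    rw [inv_le_iff_one_le_mul₀ (by linarith)]
    calc (1 : ℝ) = ‖algebraMap K (L s) (r x i)‖ *
          ∏ t ∈ Finset.univ.erase s, ‖algebraMap K (L t) (r x i)‖ := h1.symm
      _ ≤ ‖algebraMap K (L s) (r x i)‖ * hH L hSn (r x) := by
          gcongr
          exact h2.trans h3
  -- the Subspace theorem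
  refine MP.apply Z 𝔅 (Y := {j // j ∈ S.erase j₀}) (I := J)
    (fun x (k : {j // j ∈ S.erase j₀}) => r x k.1) E₂ hφ ⊤
    (fun E' hE' hB' => hspan E' (hE'.trans fun x hx => hx.1) hB')
    ?_ ?_ (fun x => hH L hSn (r x)) hX (fun s => uform (L s) g j₀ (S.erase j₀))
    (fun s => S.erase (φ s)) (fun s => S.erase (φ s)) (fun s => uform_forms hj0 hg (hφS s))
    (fun x s i => if i ∈ S then ‖algebraMap K (L s) (r x i)‖ else 1) 1 ?_ ?_ 1 1 one_pos ?_
  · rw [finrank_top, Module.finrank_fintype_fun_eq_card, Fintype.card_coe]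
    exact hcard
  · exact fun x hx k => (hrU x hx.1 k.1).mem
  · intro x hx s i
    rw [lf_uform]
    by_cases hi : i ∈ S
    · rw [if_pos hi, hval x hx.1 i hi]
    · rw [if_neg hi, hnot _ i hi, map_zero, norm_zero]
      exact zero_le_one
  · intro x hx s i
    rw [Real.rpow_neg_one, Real.rpow_one]
    have h1 := h1H x hx.1
    by_cases hi : i ∈ S
    · rw [if_pos hi]
      exact ⟨hlow x hx.1 s i hi,
        (le_hl hSn (r x) s hi).trans (hl_le_hH hSn hj0 (hr0 x hx.1) s)⟩
    · rw [if_neg hi]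
      exact ⟨inv_le_one_of_one_le₀ h1, h1⟩
  · intro x hx ρ hρ
    have hρ' : ∀ s, ρ s = S.erase (φ s) := fun s => subset_antisymm (hρ s).2.1 (hρ s).1
    rw [Real.rpow_neg_one, one_mul]
    have h1 : ∏ s, ∏ i ∈ ρ s, (if i ∈ S then ‖algebraMap K (L s) (r x i)‖ else 1) =
        ∏ s, ∏ i ∈ S.erase (φ s), ‖algebraMap K (L s) (r x i)‖ := by
      refine Finset.prod_congr rfl fun s _ => ?_
      rw [hρ' s]
      refine Finset.prod_congr rfl fun i hi => ?_
      rw [if_pos (Finset.mem_of_mem_erase hi)]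
    rw [h1]
    have h2 : (∏ s, ∏ i ∈ S.erase (φ s), ‖algebraMap K (L s) (r x i)‖) * hH L hSn (r x) = 1 := by
      unfold hH
      rw [← Finset.prod_mul_distrib]
      have h3 : ∀ s, (∏ i ∈ S.erase (φ s), ‖algebraMap K (L s) (r x i)‖) * hl L hSn (r x) s =
          ∏ i ∈ S, ‖algebraMap K (L s) (r x i)‖ := by
        intro s
        rw [(hx.2 s).2, Finset.prod_erase_mul _ _ (hφS s)]
      simp only [h3]
      rw [Finset.prod_comm]
      exact Finset.prod_eq_one fun i _ => (hrU x hx.1 i).pf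
    have h4 := h1H x hx.1
    have h5 : hH L hSn (r x) ≠ 0 := by linarith
    exact (eq_inv_of_mul_eq_one_left h2).le

end Pool.Agent.Helper38.TP
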