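import Mathlib

/-!
# Algebra for the nondegenerate case
-/

set_option autoImplicit false

namespace Pool.Agent.Helper38.TP

open MvPolynomial

section pw
variable {K σ : Type} [Field K]

/-- A polynomial on a line through the origin. -/
noncomputable def pw (w : σ → K) (P : MvPolynomial σ K) : Polynomial K :=
  aeval (fun j => Polynomial.C (w j) * Polynomial.X) P

lemma pw_eval (w : σ → K) (P : MvPolynomial σ K) (t : K) :
    (pw w P).eval t = eval (fun j => w j * t) P := by
  unfold pw
  have h := MvPolynomial.comp_aeval_apply (R := K) (f := fun j => Polynomial.C (w j) * Polynomial.X)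
    (Polynomial.aeval t : Polynomial K →ₐ[K] K) P
  rw [Polynomial.coe_aeval_eq_eval] at h
  rw [h]
  simp only [Polynomial.eval_mul, Polynomial.eval_C, Polynomial.eval_X]
  rw [← MvPolynomial.coe_aeval_eq_eval]
  rfl

lemma pw_coeff (w : σ → K) (P : MvPolynomial σ K) (t : ℕ) :
    (pw w P).coeff t = eval w (homogeneousComponent t P) := by
  classical
  unfold pw
  rw [aeval_def, eval₂_eq, Polynomial.finset_sum_coeff, homogeneousComponent_apply, map_sum,
    Finset.sum_filter]
  refine Finset.sum_congr rfl fun m _ => ?_
  have h1 : ∏ i ∈ m.support, (Polynomial.C (w i) * Polynomial.X) ^ m i =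
      Polynomial.C (∏ i ∈ m.support, w i ^ m i) * Polynomial.X ^ m.degree := by
    simp only [mul_pow]
    rw [Finset.prod_mul_distrib, Finset.prod_pow_eq_pow_sum]
    simp only [map_prod, map_pow]
    rfl
  rw [h1, ← mul_assoc, Polynomial.algebraMap_eq, ← Polynomial.C_mul, Polynomial.coeff_C_mul_X_pow]
  by_cases h : m.degree = t
  · rw [if_pos h.symm, if_pos h, eval_monomial]
    rfl
  · rw [if_neg (Ne.symm h), if_neg h]

/-- A polynomial identity on all multiples of a vector. -/
lemma hc_of_all [Infinite K] (w : σ → K) (P : MvPolynomial σ K) (n : ℕ) (c : K)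
    (h : ∀ t : K, t ≠ 0 → eval (fun j => w j * t) P = c * t ^ n) :
    eval w (homogeneousComponent n P) = c := by
  have h1 : pw w P = Polynomial.C c * Polynomial.X ^ n := by
    refine Polynomial.eq_of_infinite_eval_eq _ _ ?_
    refine Set.Infinite.mono (s := {t : K | t ≠ 0}) ?_ ?_
    · intro t ht
      change (pw w P).eval t = _
      rw [pw_eval, h t ht]
      simp
    · have : {t : K | t ≠ 0} = ({0} : Set K)ᶜ := rfl
      rw [this]
      exact (Set.finite_singleton 0).infinite_compl
  rw [← pw_coeff, h1, Polynomial.coeff_C_mul, Polynomial.coeff_X_pow_self, mul_one]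

/-- The homogeneous part of an integral equation. -/
lemma hc_int [Infinite K] (w : σ → K) (c : ℕ → MvPolynomial σ K) (e : ℕ) (z : K)
    (h : ∀ t : K, (z * t) ^ e + ∑ i ∈ Finset.range e, eval (fun j => w j * t) (c i) * (z * t) ^ i = 0) :
    z ^ e + ∑ i ∈ Finset.range e, eval w (homogeneousComponent (e - i) (c i)) * z ^ i = 0 := by
  have h1 : Polynomial.C (z ^ e) * Polynomial.X ^ e + ∑ i ∈ Finset.range e,
      pw w (c i) * (Polynomial.C (z ^ i) * Polynomial.X ^ i) = 0 := by
    refine Polynomial.funext fun t => ?_
    rw [Polynomial.eval_zero, Polynomial.eval_add, Polynomial.eval_finset_sum]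
    simp only [Polynomial.eval_mul, Polynomial.eval_C, Polynomial.eval_pow, Polynomial.eval_X,
      pw_eval]
    rw [← h t, mul_pow]
    simp only [mul_pow]
  have h2 := congrArg (fun p => Polynomial.coeff p e) h1
  simp only [Polynomial.coeff_zero, Polynomial.coeff_add, Polynomial.finset_sum_coeff,
    Polynomial.coeff_C_mul, Polynomial.coeff_X_pow_self, mul_one] at h2
  rw [← h2]
  congr 1
  refine Finset.sum_congr rfl fun i hi => ?_
  have hi' : i < e := Finset.mem_range.1 hi
  rw [← mul_assoc, Polynomial.coeff_mul_X_pow', if_pos hi'.le, Polynomial.coeff_mul_C, pw_coeff]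

/-- Divisibility from an integral equation. -/
lemma dvd_of_int {R : Type} [CommRing R] [IsDomain R] [IsIntegrallyClosed R] (A B : R)
    (hA : A ≠ 0) (e : ℕ) (h : ℕ → R)
    (hrel : B ^ e + ∑ i ∈ Finset.range e, h i * B ^ i * A ^ (e - i) = 0) : ∃ q, A * q = B := by
  set Fr := FractionRing R with hFr
  have hA' : algebraMap R Fr A ≠ 0 := by
    rw [Ne, map_eq_zero_iff _ (IsFractionRing.injective R Fr)]
    exact hA
  set z : Fr := algebraMap R Fr B / algebraMap R Fr A with hz
  have hzA : algebraMap R Fr A * z = algebraMap R Fr B := by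
    rw [hz, mul_div_cancel₀ _ hA']
  have hint : IsIntegral R z := by
    refine ⟨Polynomial.X ^ e + ∑ i ∈ Finset.range e, Polynomial.C (h i) * Polynomial.X ^ i,
      ?_, ?_⟩
    · refine Polynomial.monic_X_pow_add ?_
      rw [Polynomial.degree_lt_iff_coeff_zero]
      intro m hm
      rw [Polynomial.finset_sum_coeff]
      refine Finset.sum_eq_zero fun i hi => ?_
      have hi' := Finset.mem_range.1 hi
      rw [Polynomial.coeff_C_mul_X_pow, if_neg (by omega)]
    · rw [← Polynomial.aeval_def, map_add, map_pow, Polynomial.aeval_X, map_sum]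
      simp only [map_mul, Polynomial.aeval_C, map_pow, Polynomial.aeval_X]
      have h1 := congrArg (algebraMap R Fr) hrel
      rw [map_add, map_pow, map_sum, map_zero] at h1
      simp only [map_mul, map_pow, ← hzA] at h1
      have h2 : algebraMap R Fr A ^ e * (z ^ e + ∑ i ∈ Finset.range e,
          algebraMap R Fr (h i) * z ^ i) = 0 := by
        rw [← h1, mul_add, Finset.mul_sum, mul_pow]
        congr 1
        refine Finset.sum_congr rfl fun i hi => ?_
        have hi' := Finset.mem_range.1 hi
        have h3 : algebraMap R Fr A ^ e = algebraMap R Fr A ^ i * algebraMap R Fr A ^ (e - i) := by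
          rw [← pow_add]
          congr 1
          omega
        rw [h3, mul_pow]
        ring
      exact (mul_eq_zero.1 h2).resolve_left (pow_ne_zero _ hA')
  obtain ⟨q, hq⟩ := (IsIntegrallyClosed.isIntegral_iff (R := R) (K := Fr)).1 hint
  refine ⟨q, IsFractionRing.injective R Fr ?_⟩
  rw [map_mul, hq, hzA]

end pw

example (K : Type) [Field K] : IsIntegrallyClosed (MvPolynomial (Fin 3) K) := inferInstance

end Pool.Agent.Helper38.TP
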