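import Mathlib

/-!
# A unit with given sizes at all infinite places, up to a constant

Plan: `NumberField.Units.dirichletUnitTheorem`: the lattice `unitLattice K` spans `logSpace K`
(`unitLattice_span_eq_top`), so it has a bounded fundamental domain (`ZSpan.fract`,
`ZSpan.norm_fract_le`, basis from `unitLattice`/`basisUnitLattice`). Apply this to the vector
`(mult w * Real.log (R w))` for `w ≠ w₀`; the place `w₀` follows from the product formula for
units and `∏ w, R w ^ w.mult = 1`.
-/

set_option autoImplicit false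

namespace Pool.Agent.Helper38.TP

open NumberField

open scoped Classical in
/-- the fundamental domain of the unit lattice is bounded -/
theorem Bal_near (K : Type) [Field K] [NumberField K] :
    ∃ M : ℝ, 0 ≤ M ∧ ∀ v : Units.dirichletUnitTheorem.logSpace K,
      ∃ u : (𝓞 K)ˣ, ∀ w, |v w - Units.logEmbedding K (Additive.ofMul u) w| ≤ M := by
  let b := (Units.basisUnitLattice K).ofZLatticeBasis ℝ (Units.unitLattice K)
  refine ⟨∑ i, ‖b i‖, Finset.sum_nonneg fun i _ => norm_nonneg _, fun v => ?_⟩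
  have h1 : ((ZSpan.floor b v : _) : Units.dirichletUnitTheorem.logSpace K) ∈
      Units.unitLattice K := by
    have h2 := Module.Basis.ofZLatticeBasis_span ℝ (Units.unitLattice K)
      (Units.basisUnitLattice K)
    exact h2.le (ZSpan.floor b v).2
  obtain ⟨x, -, hx⟩ := h1
  refine ⟨x.toMul, fun w => ?_⟩
  have h3 := ZSpan.norm_fract_le (K := ℝ) b v
  have h4 : ZSpan.fract b v w = v w - Units.logEmbedding K (Additive.ofMul x.toMul) w := by
    rw [ZSpan.fract, ← hx]
    rfl
  rw [← h4, ← Real.norm_eq_abs]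
  exact (norm_le_pi_norm _ w).trans h3

theorem exists_balanced (K : Type) [Field K] [NumberField K] :
    ∃ C : ℝ, 1 ≤ C ∧ ∀ R : InfinitePlace K → ℝ, (∀ w, 0 < R w) → ∏ w, R w ^ w.mult = 1 →
      ∃ u : (𝓞 K)ˣ, ∀ w : InfinitePlace K, w ((u : 𝓞 K) : K) ≤ C * R w := by
  classical
  obtain ⟨M, hM, hv⟩ := Bal_near K
  obtain ⟨n, hn⟩ : ∃ n : ℝ, n = Fintype.card (InfinitePlace K) := ⟨_, rfl⟩
  have hn1 : 1 ≤ n := by
    rw [hn]
    exact_mod_cast Fintype.card_pos
  refine ⟨Real.exp (n * M), Real.one_le_exp (by positivity), fun R hR hprod => ?_⟩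
  obtain ⟨u, hu⟩ := hv fun w => w.1.mult * Real.log (R w.1)
  refine ⟨u, fun w => ?_⟩
  have hpos : 0 < w ((u : 𝓞 K) : K) := Units.pos_at_place u w
  have hm1 : (1 : ℝ) ≤ w.mult := by exact_mod_cast InfinitePlace.one_le_mult
  -- it is enough to compare `mult * log`
  suffices h : w.mult * (Real.log (w ((u : 𝓞 K) : K)) - Real.log (R w)) ≤ n * M by
    rw [← Real.exp_log hpos, ← Real.exp_log (hR w), ← Real.exp_add, Real.exp_le_exp]
    by_cases h0 : Real.log (w ((u : 𝓞 K) : K)) - Real.log (R w) ≤ 0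
    · have : 0 ≤ n * M := by positivity
      linarith
    · have := le_mul_of_one_le_left (not_le.1 h0).le hm1
      linarith
  have key : ∀ w : {w : InfinitePlace K // w ≠ Units.dirichletUnitTheorem.w₀},
      |w.1.mult * (Real.log (w.1 ((u : 𝓞 K) : K)) - Real.log (R w.1))| ≤ M := by
    intro w
    have h1 := hu w
    rw [Units.dirichletUnitTheorem.logEmbedding_component, ← mul_sub] at h1
    rw [mul_sub, abs_sub_comm, ← mul_sub]
    exact h1
  by_cases hw : w = Units.dirichletUnitTheorem.w₀
  · have h1 : ∑ w : InfinitePlace K, (w.mult : ℝ) * Real.log (w ((u : 𝓞 K) : K)) = 0 :=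
      Units.sum_mult_mul_log u
    have h2 : ∑ w : InfinitePlace K, (w.mult : ℝ) * Real.log (R w) = 0 := by
      have h3 := congrArg Real.log hprod
      rw [Real.log_one, Real.log_prod (fun w _ => (pow_pos (hR w) _).ne')] at h3
      rw [← h3]
      exact Finset.sum_congr rfl fun w _ => (Real.log_pow _ _).symm
    have h3 : ∑ w : InfinitePlace K,
        (w.mult : ℝ) * (Real.log (w ((u : 𝓞 K) : K)) - Real.log (R w)) = 0 := by
      rw [← sub_zero (0 : ℝ)]
      nth_rewrite 1 [← h1]
      rw [← h2, ← Finset.sum_sub_distrib]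
      exact Finset.sum_congr rfl fun w _ => mul_sub _ _ _
    rw [Fintype.sum_eq_add_sum_subtype_ne _ Units.dirichletUnitTheorem.w₀, ← hw] at h3
    have h4 : |∑ w' : {w' : InfinitePlace K // w' ≠ w},
        (w'.1.mult : ℝ) * (Real.log (w'.1 ((u : 𝓞 K) : K)) - Real.log (R w'.1))| ≤ n * M := by
      refine (Finset.abs_sum_le_sum_abs _ _).trans ?_
      refine (Finset.sum_le_sum fun w' _ => key ⟨w'.1, by rw [← hw]; exact w'.2⟩).trans ?_
      rw [Finset.sum_const, nsmul_eq_mul]
      refine mul_le_mul_of_nonneg_right ?_ hM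
      rw [hn]
      exact_mod_cast (Finset.card_univ.trans_le (Fintype.card_subtype_le _))
    have h5 := (abs_le.1 h4).1
    linarith
  · have h1 := (abs_le.1 (key ⟨w, hw⟩)).2
    refine h1.trans ?_
    nlinarith

end Pool.Agent.Helper38.TP
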