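import Mathlib

/-!
# The distance to the corners

Elementary properties. For finite infima and suprema of reals use `ciInf_le`, `le_ciSup`,
`exists_eq_ciInf_of_finite`, `exists_eq_ciSup_of_finite`, `Set.finite_range _ |>.bddAbove`, ...
-/

set_option autoImplicit false

namespace Pool.Agent.Helper38.TP

open MvPolynomial

variable {K : Type} [Field K] {N : ℕ}

/-- The size of the form `f` of degree `e` at the point `x`, normalised. -/
noncomputable def prox (v : K → ℝ) (f : MvPolynomial (Fin (N + 1)) K) (e : ℕ)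
    (x : Fin (N + 1) → K) : ℝ :=
  (v (eval x f) / (⨆ k, v (x k)) ^ e) ^ ((1 : ℝ) / e)

/-- The distance to the corners. -/
noncomputable def cornerDist (v : K → ℝ) (F : Fin 3 → MvPolynomial (Fin (N + 1)) K)
    (d : Fin 3 → ℕ) (x : Fin (N + 1) → K) : ℝ :=
  ⨅ i : Fin 3, ⨆ j : {j : Fin 3 // j ≠ i}, prox v (F j) (d j) x

variable (v u : K → ℝ) (F : Fin 3 → MvPolynomial (Fin (N + 1)) K) (d : Fin 3 → ℕ)
  (x : Fin (N + 1) → K)

lemma CD_fin (i : Fin 3) : Nonempty {j : Fin 3 // j ≠ i} := by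
  fin_cases i
  · exact ⟨⟨1, by decide⟩⟩
  · exact ⟨⟨0, by decide⟩⟩
  · exact ⟨⟨0, by decide⟩⟩

lemma cd_le_iff {t : ℝ} :
    cornerDist v F d x ≤ t ↔ ∃ i, ∀ j, j ≠ i → prox v (F j) (d j) x ≤ t := by
  unfold cornerDist
  constructor
  · intro h
    obtain ⟨i, hi⟩ := exists_eq_ciInf_of_finite
      (f := fun i : Fin 3 => ⨆ j : {j : Fin 3 // j ≠ i}, prox v (F j) (d j) x)
    refine ⟨i, fun j hj => ?_⟩
    have h1 : prox v (F j) (d j) x ≤ ⨆ j : {j : Fin 3 // j ≠ i}, prox v (F j) (d j) x :=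
      le_ciSup (f := fun j : {j : Fin 3 // j ≠ i} => prox v (F j) (d j) x)
        (Set.finite_range _).bddAbove ⟨j, hj⟩
    have h2 : (⨆ j : {j : Fin 3 // j ≠ i}, prox v (F j) (d j) x) =
      ⨅ i : Fin 3, ⨆ j : {j : Fin 3 // j ≠ i}, prox v (F j) (d j) x := hi
    exact h1.trans (h2.le.trans h)
  · rintro ⟨i, hi⟩
    have : Nonempty {j : Fin 3 // j ≠ i} := CD_fin i
    have h1 : (⨆ j : {j : Fin 3 // j ≠ i}, prox v (F j) (d j) x) ≤ t :=
      ciSup_le fun j => hi j.1 j.2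
    exact (ciInf_le (f := fun i : Fin 3 => ⨆ j : {j : Fin 3 // j ≠ i}, prox v (F j) (d j) x)
      (Set.finite_range _).bddBelow i).trans h1

lemma le_cd_iff {t : ℝ} :
    t ≤ cornerDist v F d x ↔ ∀ i, ∃ j, j ≠ i ∧ t ≤ prox v (F j) (d j) x := by
  unfold cornerDist
  constructor
  · intro h i
    have : Nonempty {j : Fin 3 // j ≠ i} := CD_fin i
    obtain ⟨j, hj⟩ := exists_eq_ciSup_of_finite
      (f := fun j : {j : Fin 3 // j ≠ i} => prox v (F j) (d j) x)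
    refine ⟨j.1, j.2, ?_⟩
    have h1 := ciInf_le (f := fun i : Fin 3 => ⨆ j : {j : Fin 3 // j ≠ i}, prox v (F j) (d j) x)
      (Set.finite_range _).bddBelow i
    have h2 : prox v (F j.1) (d j.1) x = ⨆ j : {j : Fin 3 // j ≠ i}, prox v (F j) (d j) x := hj
    rw [h2]
    exact h.trans h1
  · intro h
    refine le_ciInf fun i => ?_
    obtain ⟨j, hj, hj1⟩ := h i
    exact hj1.trans (le_ciSup (f := fun j : {j : Fin 3 // j ≠ i} => prox v (F j) (d j) x)
      (Set.finite_range _).bddAbove ⟨j, hj⟩)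

lemma prox_nonneg (hv : ∀ y, 0 ≤ v y) (f : MvPolynomial (Fin (N + 1)) K) (e : ℕ) :
    0 ≤ prox v f e x := by
  unfold prox
  have h1 : 0 ≤ ⨆ k, v (x k) := Real.iSup_nonneg fun k => hv _
  exact Real.rpow_nonneg (div_nonneg (hv _) (pow_nonneg h1 e)) _

lemma cd_nonneg (hv : ∀ y, 0 ≤ v y) : 0 ≤ cornerDist v F d x := by
  rw [le_cd_iff]
  intro i
  obtain ⟨j⟩ := CD_fin i
  exact ⟨j.1, j.2, prox_nonneg v x hv _ _⟩

lemma CD_eval (f : MvPolynomial (Fin (N + 1)) K) (e : ℕ) (hf : f.IsHomogeneous e) (μ : K) :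
    eval (μ • x) f = μ ^ e * eval x f := by
  rw [eval_eq', eval_eq', Finset.mul_sum]
  refine Finset.sum_congr rfl fun m hm => ?_
  have h1 : ∑ i, m i = e := by
    have h2 := hf (mem_support_iff.1 hm)
    rw [Finsupp.weight_apply, Finsupp.sum_fintype _ _ (by simp)] at h2
    simpa using h2
  have h3 : ∏ i, (μ • x) i ^ m i = μ ^ e * ∏ i, x i ^ m i := by
    rw [← h1, ← Finset.prod_pow_eq_pow_sum, ← Finset.prod_mul_distrib]
    refine Finset.prod_congr rfl fun i _ => ?_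
    rw [Pi.smul_apply, smul_eq_mul, mul_pow]
  rw [h3]
  ring

lemma CD_pow (hm : ∀ y z, v (y * z) = v y * v z) (h1 : v 1 = 1) (μ : K) (e : ℕ) :
    v (μ ^ e) = v μ ^ e := by
  induction e with
  | zero => rw [pow_zero, pow_zero, h1]
  | succ e ih => rw [pow_succ, pow_succ, hm, ih]

lemma prox_smul (hv : ∀ y, 0 ≤ v y) (hm : ∀ y z, v (y * z) = v y * v z) (h1 : v 1 = 1)
    (f : MvPolynomial (Fin (N + 1)) K) (e : ℕ) (hf : f.IsHomogeneous e) (μ : K) (hμ : v μ ≠ 0) :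
    prox v f e (μ • x) = prox v f e x := by
  unfold prox
  have h2 : (⨆ k, v ((μ • x) k)) = v μ * ⨆ k, v (x k) := by
    rw [Real.mul_iSup_of_nonneg (hv μ)]
    refine iSup_congr fun k => ?_
    rw [Pi.smul_apply, smul_eq_mul, hm]
  rw [h2, CD_eval x f e hf μ, hm, CD_pow v hm h1, mul_pow,
    mul_div_mul_left _ _ (pow_ne_zero e hμ)]

lemma cd_smul (hv : ∀ y, 0 ≤ v y) (hm : ∀ y z, v (y * z) = v y * v z) (h1 : v 1 = 1)
    (hF : ∀ i, (F i).IsHomogeneous (d i)) (μ : K) (hμ : v μ ≠ 0) :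
    cornerDist v F d (μ • x) = cornerDist v F d x := by
  unfold cornerDist
  refine iInf_congr fun i => iSup_congr fun j => ?_
  exact prox_smul v x hv hm h1 _ _ (hF j) μ hμ

lemma prox_pow (n : ℕ) (hn : n ≠ 0) (h : ∀ y, v y = u y ^ n) (hu : ∀ y, 0 ≤ u y)
    (f : MvPolynomial (Fin (N + 1)) K) (e : ℕ) : prox v f e x = prox u f e x ^ n := by
  unfold prox
  have h1 : (⨆ k, v (x k)) = (⨆ k, u (x k)) ^ n := by
    rw [Real.iSup_pow (fun k => hu _)]
    exact iSup_congr fun k => h _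
  have h2 : 0 ≤ ⨆ k, u (x k) := Real.iSup_nonneg fun k => hu _
  have h3 : 0 ≤ u (eval x f) / (⨆ k, u (x k)) ^ e := div_nonneg (hu _) (pow_nonneg h2 e)
  rw [h1, h, ← pow_mul, mul_comm n e, pow_mul, ← div_pow, ← Real.rpow_natCast _ n,
    ← Real.rpow_mul h3, ← Real.rpow_natCast _ n, ← Real.rpow_mul h3, mul_comm]

lemma cd_pow (n : ℕ) (hn : n ≠ 0) (h : ∀ y, v y = u y ^ n) (hu : ∀ y, 0 ≤ u y) :
    cornerDist v F d x = cornerDist u F d x ^ n := by
  have h0 : 0 ≤ cornerDist u F d x := cd_nonneg u F d x hu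
  apply le_antisymm
  · rw [cd_le_iff]
    obtain ⟨i, hi⟩ := (cd_le_iff u F d x).1 (le_refl (cornerDist u F d x))
    refine ⟨i, fun j hj => ?_⟩
    rw [prox_pow v u x n hn h hu]
    exact pow_le_pow_left₀ (prox_nonneg u x hu _ _) (hi j hj) n
  · rw [le_cd_iff]
    intro i
    obtain ⟨j, hj, hj1⟩ := (le_cd_iff u F d x).1 (le_refl (cornerDist u F d x)) i
    refine ⟨j, hj, ?_⟩
    rw [prox_pow v u x n hn h hu]
    exact pow_le_pow_left₀ h0 hj1 n

end Pool.Agent.Helper38.TP
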