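import Pool.Agent.Helper38.TP.Num
import Pool.Agent.Helper38.TP.LemU
import Pool.Agent.Helper38.TP.Ht
import Pool.Agent.Helper10.Sub.Main4

/-!
# The points are combinations of the three units
-/

set_option autoImplicit false
set_option linter.unusedSectionVars false

namespace Pool.Agent.Helper38.TP

open Pool.Agent.Helper10.Sub MvPolynomial

section ht
variable {K : Type} [Field K] {Λ : Type} [Fintype Λ] (L : Λ → Type)
  [∀ s, NontriviallyNormedField (L s)] [∀ s, Algebra K (L s)] {N : ℕ}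

variable {L}

/-- Large subsets contain large subsets of points of large height. -/
lemma large_Ht (Z : MP K L) (𝔅 : LN (Fin (N + 1) → K)) {E : Set (Fin (N + 1) → K)}
    (hE : 𝔅.Big E) (hO : ∀ x ∈ E, ∀ k, x k ∈ Z.O) (C₀ : ℝ) (hC₀ : 1 ≤ C₀)
    (hbal : ∀ x ∈ E, ∀ s, nrm (L s) x ≤ C₀ * Ht L x) (B : ℝ) :
    𝔅.Big {x | x ∈ E ∧ B ≤ Ht L x} := by
  have hfin : {x : Fin (N + 1) → K | ∀ k, x k ∈ Z.O ∧
      ∀ s, ‖algebraMap K (L s) (x k)‖ ≤ C₀ * B}.Finite :=
    (Set.Finite.pi' (fun _ : Fin (N + 1) => Z.fin (C₀ * B))).subset fun x hx k => hx k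
  have h1 := 𝔅.sdiff hE hfin
  refine 𝔅.mono ?_ h1
  rintro x ⟨hx, hx'⟩
  refine ⟨hx, ?_⟩
  by_contra hcon
  push Not at hcon
  apply hx'
  intro k
  refine ⟨hO x hx k, fun s => (le_nrm x k).trans ((hbal x hx s).trans ?_)⟩
  exact mul_le_mul_of_nonneg_left hcon.le (by linarith)

/-- The shape of the small forms. -/
def Shape {F : Type} [Field F] (a b c : Fin 3)
    (t : Option (Fin (N + 1)) × (Option (Fin (N + 1)) → YN N → F)) : Prop :=
  ∀ k, ∃ c₀ c₁ c₂ : F, t.2 k = Pi.single (emb a k) 1 - c₀ • Pi.single (emb a t.1) 1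
    - c₁ • Pi.single (Sum.inr b) 1 - c₂ • Pi.single (Sum.inr c) 1

lemma Shape.swap {F : Type} [Field F] {a b c : Fin 3}
    {t : Option (Fin (N + 1)) × (Option (Fin (N + 1)) → YN N → F)} (ht : Shape a b c t) :
    Shape a c b t := by
  intro k
  obtain ⟨c₀, c₁, c₂, h⟩ := ht k
  exact ⟨c₀, c₂, c₁, by rw [h, sub_right_comm]⟩

lemma fin3_ord : ∀ a b c : Fin 3, a ≠ b → a ≠ c → b ≠ c →
    (b = a + 1 ∧ c = a + 2) ∨ (b = a + 2 ∧ c = a + 1) := by decide

lemma fin3_all : ∀ a b c : Fin 3, a ≠ b → a ≠ c → b ≠ c → ∀ i, i = a ∨ i = b ∨ i = c := by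
  decide

end ht

variable {K : Type} [Field K] [CharZero K] {Λ : Type} [Fintype Λ] {L : Λ → Type}
  [∀ s, NontriviallyNormedField (L s)] [∀ s, Algebra K (L s)] {N : ℕ}

/-- Everything known about a large set after fixing the types. -/
structure Dat (Z : MP K L) (𝔅 : LN (Fin (N + 1) → K)) (w : (Fin (N + 1) → K) → Fin 3 → K)
    (C : ℝ) (G : Set (Fin (N + 1) → K)) (V : Submodule K (YN N → K)) (a : Λ → Fin 3)
    (t : ∀ s, Option (Fin (N + 1)) × (Option (Fin (N + 1)) → YN N → L s)) : Prop where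
  hC : 1 ≤ C
  big : 𝔅.Big G
  O : ∀ x ∈ G, ∀ k, x k ∈ Z.O
  ne : ∀ x ∈ G, x ≠ 0
  unit : ∀ x ∈ G, ∀ i, Z.U (w x i)
  bal : ∀ x ∈ G, ∀ s, nrm (L s) x ≤ C * Ht L x
  up : ∀ x ∈ G, ∀ s i, ‖algebraMap K (L s) (w x i)‖ ≤ C * nrm (L s) x
  low : ∀ x ∈ G, ∀ s, nrm (L s) x ≤ C * ‖algebraMap K (L s) (w x (a s))‖
  span : ∀ G' ⊆ G, 𝔅.Big G' → Submodule.span K ((fun x => Sum.elim x (w x) : _ → YN N → K) '' G')
    = V
  alg : ∀ s k m, IsAlgebraic K ((t s).2 k m)
  frm : ∀ s, Shape (a s) (a s + 1) (a s + 2) (t s)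
  est : ∀ x ∈ G, ∀ s k, ‖lf ((t s).2 k) (Sum.elim x (w x) : YN N → K)‖ * nrm (L s) x ≤
    C * max ‖algebraMap K (L s) (w x (a s + 1))‖ ‖algebraMap K (L s) (w x (a s + 2))‖ ^ 2

namespace Dat
variable {Z : MP K L} {𝔅 : LN (Fin (N + 1) → K)} {w : (Fin (N + 1) → K) → Fin 3 → K}
    {C : ℝ} {G : Set (Fin (N + 1) → K)} {V : Submodule K (YN N → K)} {a : Λ → Fin 3}
    {t : ∀ s, Option (Fin (N + 1)) × (Option (Fin (N + 1)) → YN N → L s)}

/-- Enlarging the constant. -/
lemma mono (h : Dat Z 𝔅 w C G V a t) {C' : ℝ} (hC' : C ≤ C') : Dat Z 𝔅 w C' G V a t where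
  hC := h.hC.trans hC'
  big := h.big
  O := h.O
  ne := h.ne
  unit := h.unit
  bal := fun x hx s => (h.bal x hx s).trans
    (mul_le_mul_of_nonneg_right hC' (zero_le_one.trans (one_le_Ht Z (h.O x hx) (h.ne x hx))))
  up := fun x hx s i => (h.up x hx s i).trans (mul_le_mul_of_nonneg_right hC' (nrm_nonneg _))
  low := fun x hx s => (h.low x hx s).trans (mul_le_mul_of_nonneg_right hC' (norm_nonneg _))
  span := h.span
  alg := h.alg
  frm := h.frm
  est := fun x hx s k => (h.est x hx s k).trans (mul_le_mul_of_nonneg_right hC' (by positivity))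

/-- Passing to a large subset. -/
lemma sub (h : Dat Z 𝔅 w C G V a t) {G' : Set (Fin (N + 1) → K)} (hG : G' ⊆ G)
    (hB : 𝔅.Big G') : Dat Z 𝔅 w C G' V a t where
  hC := h.hC
  big := hB
  O := fun x hx => h.O x (hG hx)
  ne := fun x hx => h.ne x (hG hx)
  unit := fun x hx => h.unit x (hG hx)
  bal := fun x hx => h.bal x (hG hx)
  up := fun x hx => h.up x (hG hx)
  low := fun x hx => h.low x (hG hx)
  span := fun G'' hG'' hB'' => h.span G'' (hG''.trans hG) hB''
  alg := h.alg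
  frm := h.frm
  est := fun x hx => h.est x (hG hx)

lemma large (h : Dat Z 𝔅 w C G V a t) (B : ℝ) : 𝔅.Big {x | x ∈ G ∧ B ≤ Ht L x} :=
  large_Ht Z 𝔅 h.big h.O C h.hC h.bal B

lemma one_le (h : Dat Z 𝔅 w C G V a t) {x : Fin (N + 1) → K} (hx : x ∈ G) : 1 ≤ Ht L x :=
  one_le_Ht Z (h.O x hx) (h.ne x hx)

/-- The relations at one place. -/
lemma nm (h : Dat Z 𝔅 w C G V a t) {x : Fin (N + 1) → K} (hx : x ∈ G) (s : Λ) (b c : Fin 3) :
    Nm C (nrm (L s) x) ‖algebraMap K (L s) (w x (a s))‖ ‖algebraMap K (L s) (w x b)‖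
      ‖algebraMap K (L s) (w x c)‖ where
  hC := h.hC
  n0 := nrm_pos (h.ne x hx)
  a0 := (h.unit x hx _).pos s
  b0 := (h.unit x hx _).pos s
  c0 := (h.unit x hx _).pos s
  b1 := h.up x hx s b
  c1 := h.up x hx s c
  la := h.low x hx s

/-- The sizes are bounded by powers of the height. -/
lemma rg (h : Dat Z 𝔅 w C G V a t) {x : Fin (N + 1) → K} (hx : x ∈ G) (hCx : C ≤ Ht L x)
    (s : Λ) : Rg (Ht L x) (3 * Fintype.card Λ + 3) (nrm (L s) x) ∧
      ∀ i, Rg (Ht L x) (3 * Fintype.card Λ + 3) ‖algebraMap K (L s) (w x i)‖ := by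
  have hQ : 1 ≤ Ht L x := h.one_le hx
  have hQ0 : 0 < Ht L x := by linarith
  have hn : ∀ s, nrm (L s) x ≤ Ht L x ^ (2 : ℕ) := by
    intro s
    refine (h.bal x hx s).trans ?_
    rw [pow_two]
    exact mul_le_mul_of_nonneg_right hCx hQ0.le
  have hn3 : Ht L x ^ (2 : ℕ) ≤ Ht L x ^ (3 : ℕ) := pow_le_pow_right₀ hQ (by norm_num)
  have h3 : Ht L x ^ (3 : ℕ) = Ht L x ^ (3 : ℝ) := by
    rw [← Real.rpow_natCast]
    norm_num
  refine ⟨?_, fun i => ?_⟩
  · have := rg_of_prod (fun s => nrm (L s) x) hQ (by norm_num : (0 : ℝ) ≤ 3)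
      (fun s => nrm_pos (h.ne x hx)) (fun s => ((hn s).trans hn3).trans_eq h3) hQ s
    exact this
  · have := rg_of_prod (fun s => ‖algebraMap K (L s) (w x i)‖) hQ (by norm_num : (0 : ℝ) ≤ 3)
      (fun s => (h.unit x hx i).pos s) (fun s => by
        refine (h.up x hx s i).trans ?_
        rw [← h3]
        calc C * nrm (L s) x ≤ Ht L x * Ht L x ^ 2 :=
              mul_le_mul hCx (hn s) (nrm_nonneg _) hQ0.le
          _ = Ht L x ^ 3 := by ring) (h.unit x hx i).pf.ge s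
    exact this

/-- **The Subspace theorem for the forms at all places.** -/
lemma fin (h : Dat Z 𝔅 w C G V a t) (b c : Λ → Fin 3) (hab : ∀ s, a s ≠ b s)
    (hac : ∀ s, a s ≠ c s) (hbc : ∀ s, b s ≠ c s) (lo hi : Λ → Finset (IN N))
    (hf : ∀ s, Forms V (vf (a s) (b s) (c s) (t s)) (lo s) (hi s))
    (hV2 : 2 ≤ Module.finrank K V) (C' δ : ℝ) (hδ : 0 < δ)
    (hprod : ∀ x ∈ G, C ≤ Ht L x → ∀ r : Λ → Finset (IN N),
      (∀ s, lo s ⊆ r s ∧ r s ⊆ hi s ∧ (r s).card = Module.finrank K V) →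
      ∏ s, ∏ i ∈ r s, bet N C (nrm (L s) x) ‖algebraMap K (L s) (w x (b s))‖
        ‖algebraMap K (L s) (w x (c s))‖ i ≤ C' * Ht L x ^ (-δ)) : False := by
  classical
  set y : (Fin (N + 1) → K) → YN N → K := fun x => Sum.elim x (w x) with hy
  refine Z.apply 𝔅 y {x | x ∈ G ∧ C ≤ Ht L x} (h.large C) V
    (fun G' hG' hB => h.span G' (fun x hx => (hG' hx).1) hB) hV2 ?_ (Ht L)
    (fun B => (h.sub (fun x hx => hx.1) (h.large C)).large B)
    (fun s => vf (a s) (b s) (c s) (t s)) lo hi hf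
    (fun x s => bet N C (nrm (L s) x) ‖algebraMap K (L s) (w x (b s))‖
        ‖algebraMap K (L s) (w x (c s))‖) (3 * (3 * Fintype.card Λ + 3) + 1) ?_ ?_ C' δ hδ
    (fun x hx => hprod x hx.1 hx.2)
  · rintro x ⟨hx, -⟩ m
    rcases m with k | i
    · exact h.O x hx k
    · exact (h.unit x hx i).mem
  · rintro x ⟨hx, hCx⟩ s i
    have hN := h.nm hx s (b s) (c s)
    have hn := hN.n0
    rcases i with i | k
    · fin_cases i
      · have e : lf (vf (a s) (b s) (c s) (t s) (Sum.inl 0)) (y x) =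
            algebraMap K (L s) (w x (b s)) := by
          simp [vf, lf_single, hy]
        change ‖lf (vf (a s) (b s) (c s) (t s) (Sum.inl 0)) (y x)‖ ≤ _
        rw [e]
        exact le_rfl
      · have e : lf (vf (a s) (b s) (c s) (t s) (Sum.inl 1)) (y x) =
            algebraMap K (L s) (w x (c s)) := by
          simp [vf, lf_single, hy]
        change ‖lf (vf (a s) (b s) (c s) (t s) (Sum.inl 1)) (y x)‖ ≤ _
        rw [e]
        exact le_rfl
      · have e : lf (vf (a s) (b s) (c s) (t s) (Sum.inl 2)) (y x) =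
            algebraMap K (L s) (y x (emb (a s) (t s).1)) := by
          simp [vf, lf_single]
        change ‖lf (vf (a s) (b s) (c s) (t s) (Sum.inl 2)) (y x)‖ ≤ C * nrm (L s) x
        rw [e]
        rcases (t s).1 with _ | k
        · exact h.up x hx s (a s)
        · exact (le_nrm x k).trans (le_mul_of_one_le_left hn.le h.hC)
    · change ‖lf ((t s).2 k) (y x)‖ ≤ C * (max ‖algebraMap K (L s) (w x (b s))‖
        ‖algebraMap K (L s) (w x (c s))‖ ^ 2 / nrm (L s) x)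
      rw [← mul_div_assoc, le_div_iff₀ hn]
      have h1 := h.est x hx s k
      rcases fin3_ord (a s) (b s) (c s) (hab s) (hac s) (hbc s) with ⟨h2, h3⟩ | ⟨h2, h3⟩
      · rw [h2, h3]
        exact h1
      · rw [h2, h3, max_comm]
        exact h1
  · rintro x ⟨hx, hCx⟩ s i
    obtain ⟨h1, h2⟩ := h.rg hx hCx s
    exact (h.nm hx s (b s) (c s)).bet_rg hCx (by positivity) h1 (h2 _) (h2 _) i

/-- The three units are not all proportional. -/
lemma not_all (h : Dat Z 𝔅 w C G V a t) (i : Fin 3) (κ : Fin 3 → K)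
    (hκ : 𝔅.Big {x | x ∈ G ∧ ∀ j, w x j = κ j * w x i}) : False := by
  classical
  have h' := h.sub (fun x hx => hx.1) hκ
  set M : ℝ := C * (∑ s, ∑ j, ‖algebraMap K (L s) (κ j)‖ + 1) with hM
  have hS : 0 ≤ ∑ s, ∑ j, ‖algebraMap K (L s) (κ j)‖ :=
    Finset.sum_nonneg fun _ _ => Finset.sum_nonneg fun _ _ => norm_nonneg _
  obtain ⟨x, ⟨⟨hx, hxκ⟩, hxB⟩⟩ := 𝔅.nonempty (h'.large (M ^ Fintype.card Λ + 1))
  have h1 : ∀ s, nrm (L s) x ≤ M * ‖algebraMap K (L s) (w x i)‖ := by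
    intro s
    refine (h.low x hx s).trans ?_
    rw [hxκ (a s), map_mul, norm_mul, ← mul_assoc]
    apply mul_le_mul_of_nonneg_right _ (norm_nonneg _)
    rw [hM]
    apply mul_le_mul_of_nonneg_left _ (by linarith [h.hC])
    have h2 : ‖algebraMap K (L s) (κ (a s))‖ ≤ ∑ j, ‖algebraMap K (L s) (κ j)‖ :=
      Finset.single_le_sum (f := fun j => ‖algebraMap K (L s) (κ j)‖)
        (fun _ _ => norm_nonneg _) (Finset.mem_univ _)
    have h3 : ∑ j, ‖algebraMap K (L s) (κ j)‖ ≤ ∑ s, ∑ j, ‖algebraMap K (L s) (κ j)‖ :=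
      Finset.single_le_sum (f := fun s => ∑ j, ‖algebraMap K (L s) (κ j)‖)
        (fun _ _ => Finset.sum_nonneg fun _ _ => norm_nonneg _) (Finset.mem_univ _)
    linarith
  have h2 : Ht L x ≤ M ^ Fintype.card Λ := by
    calc Ht L x ≤ ∏ s, M * ‖algebraMap K (L s) (w x i)‖ :=
          Finset.prod_le_prod (fun _ _ => nrm_nonneg _) fun s _ => h1 s
      _ = M ^ Fintype.card Λ := by
          rw [Finset.prod_mul_distrib, (h.unit x hx i).pf, mul_one, Finset.prod_const,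
            Finset.card_univ]
  linarith

/-- Two proportional units: the rank. -/
lemma pair_rank (h : Dat Z 𝔅 w C G V a t) (i j : Fin 3) (hij : i ≠ j) (κ : K)
    (hκ : ∀ x ∈ G, w x j = κ * w x i) : Module.finrank K V ≤ 2 := by
  classical
  obtain ⟨k, hk, hik, hjk⟩ := third i j hij
  obtain ⟨x₀, hx₀⟩ := 𝔅.nonempty h.big
  by_contra hV
  obtain ⟨m, hm⟩ : ∃ m, Module.finrank K V = m + 3 := ⟨Module.finrank K V - 3, by omega⟩
  set S : ℝ := ∑ s, ‖algebraMap K (L s) κ‖ with hS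
  have hS0 : 0 ≤ S := Finset.sum_nonneg fun _ _ => norm_nonneg _
  have hSκ : ∀ s, ‖algebraMap K (L s) κ‖ ≤ S := fun s =>
    Finset.single_le_sum (f := fun s => ‖algebraMap K (L s) κ‖) (fun _ _ => norm_nonneg _)
      (Finset.mem_univ s)
  have hC0 : 0 < C := lt_of_lt_of_le one_pos h.hC
  set C₁ : ℝ := C * (1 + S) with hC₁
  have hCC : C ≤ C₁ := le_mul_of_one_le_right hC0.le (by linarith)
  have hκC : ∀ s, ‖algebraMap K (L s) κ‖ ≤ C₁ := by
    intro s
    have := hSκ s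
    have h1 := h.hC
    rw [hC₁]
    nlinarith
  have h₁ := h.mono hCC
  have hα : ∀ x ∈ G, ∀ s, ‖algebraMap K (L s) (w x j)‖ ≤
      C₁ * ‖algebraMap K (L s) (w x i)‖ := by
    intro x hx s
    rw [hκ x hx, map_mul, norm_mul]
    exact mul_le_mul_of_nonneg_right (hκC s) (norm_nonneg _)
  have hβ : ∀ x ∈ G, ∀ s, a s ≠ k → nrm (L s) x ≤ C₁ * ‖algebraMap K (L s) (w x i)‖ := by
    intro x hx s hs
    rcases hk (a s) with h1 | h1 | h1
    · have := h₁.low x hx s
      rwa [h1] at this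
    · have := h.low x hx s
      rw [h1, hκ x hx, map_mul, norm_mul, ← mul_assoc] at this
      refine this.trans (mul_le_mul_of_nonneg_right ?_ (norm_nonneg _))
      have := hSκ s
      rw [hC₁]
      exact mul_le_mul_of_nonneg_left (by linarith) hC0.le
    · exact absurd h1 hs
  -- the orders
  set b : Λ → Fin 3 := fun s => if a s = k then i else k with hb
  set c : Λ → Fin 3 := fun s => if a s = k then j else if a s = i then j else i with hc
  have hord : ∀ s, a s ≠ b s ∧ a s ≠ c s ∧ b s ≠ c s := by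
    intro s
    simp only [hb, hc]
    rcases hk (a s) with h1 | h1 | h1
    · rw [h1, if_neg hik, if_neg hik, if_pos rfl]
      exact ⟨hik, hij, hjk.symm⟩
    · rw [h1, if_neg hjk, if_neg hjk, if_neg hij.symm]
      exact ⟨hjk, hij.symm, hik.symm⟩
    · rw [h1, if_pos rfl, if_pos rfl]
      exact ⟨hik.symm, hjk.symm, hij⟩
  have hshape : ∀ s, Shape (a s) (b s) (c s) (t s) := by
    intro s
    obtain ⟨h1, h2, h3⟩ := hord s
    rcases fin3_ord _ _ _ h1 h2 h3 with ⟨h4, h5⟩ | ⟨h4, h5⟩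
    · rw [h4, h5]; exact h.frm s
    · rw [h4, h5]; exact (h.frm s).swap
  set y : (Fin (N + 1) → K) → YN N → K := fun x => Sum.elim x (w x) with hy
  have hyV : ∀ x ∈ G, y x ∈ V := by
    intro x hx
    rw [← h.span G subset_rfl h.big]
    exact Submodule.subset_span ⟨x, hx, rfl⟩
  have hrelV : ∀ z ∈ V, z (Sum.inr j) = κ * z (Sum.inr i) := by
    intro z hz
    rw [← h.span G subset_rfl h.big] at hz
    have := rel_on_span y (Pi.single (Sum.inr j) 1 - κ • Pi.single (Sum.inr i) 1) (by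
      intro x hx
      rw [rel_sum i j hij, sub_eq_zero]
      exact hκ x hx) z hz
    rw [rel_sum i j hij, sub_eq_zero] at this
    exact this
  refine h₁.fin b c (fun s => (hord s).1) (fun s => (hord s).2.1) (fun s => (hord s).2.2)
    (fun _ => {Sum.inl 0}) (fun s => if a s = k then Finset.univ.erase (Sum.inl 1) else
      Finset.univ) ?_ (by omega) ((C₁ ^ (5 * m + 9)) ^ Fintype.card Λ) 1 one_pos ?_
  · intro s
    obtain ⟨h1, h2, h3⟩ := hord s
    by_cases hs : a s = k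
    · rw [if_pos hs]
      have hbi : b s = i := by simp only [hb]; rw [if_pos hs]
      have hcj : c s = j := by simp only [hc]; rw [if_pos hs]
      exact forms_prop V (fin3_all _ _ _ h1 h2 h3) (h.alg s) (hshape s) (y x₀) (hyV x₀ hx₀)
        (h.unit x₀ hx₀ _).ne κ (by rw [hbi, hcj]; exact hrelV)
    · rw [if_neg hs]
      exact forms_one V (fin3_all _ _ _ h1 h2 h3) (h.alg s) (hshape s) (y x₀) (hyV x₀ hx₀)
        (h.unit x₀ hx₀ _).ne
  · intro x hx hCx r hr
    have hs : ∀ s, ∏ i' ∈ r s, bet N C₁ (nrm (L s) x) ‖algebraMap K (L s) (w x (b s))‖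
        ‖algebraMap K (L s) (w x (c s))‖ i' ≤ C₁ ^ (5 * m + 9) *
        (‖algebraMap K (L s) (w x i)‖ ^ (2 * m + 3) * ‖algebraMap K (L s) (w x k)‖ *
          (nrm (L s) x ^ (m + 1))⁻¹) := by
      intro s
      obtain ⟨hlo, hhi, hcard⟩ := hr s
      have hN := h₁.nm hx s (b s) (c s)
      by_cases hs : a s = k
      · have hbi : b s = i := by simp only [hb]; rw [if_pos hs]
        have hcj : c s = j := by simp only [hc]; rw [if_pos hs]
        rw [if_pos hs] at hhi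
        rw [hbi, hcj, hs] at hN
        rw [hbi, hcj]
        exact hN.prodA (hα x hx s) (r s) hlo hhi m (by omega)
      · have hbk : b s = k := by simp only [hb]; rw [if_neg hs]
        rw [hbk] at hN
        rw [hbk]
        exact hN.prodB _ (hβ x hx s hs) (r s) hlo m (by omega)
    have hQ := h.one_le hx
    have hQ0 : 0 < Ht L x := by linarith
    calc ∏ s, ∏ i' ∈ r s, bet N C₁ (nrm (L s) x) ‖algebraMap K (L s) (w x (b s))‖
          ‖algebraMap K (L s) (w x (c s))‖ i'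
        ≤ ∏ s, (C₁ ^ (5 * m + 9) *
        (‖algebraMap K (L s) (w x i)‖ ^ (2 * m + 3) * ‖algebraMap K (L s) (w x k)‖ *
          (nrm (L s) x ^ (m + 1))⁻¹)) := Finset.prod_le_prod
            (fun s _ => Finset.prod_nonneg fun i' _ => (h₁.nm hx s (b s) (c s)).bet_nonneg i')
            (fun s _ => hs s)
      _ = (C₁ ^ (5 * m + 9)) ^ Fintype.card Λ * (Ht L x ^ (m + 1))⁻¹ := by
          rw [Finset.prod_mul_distrib, Finset.prod_const, Finset.card_univ,
            Finset.prod_mul_distrib, Finset.prod_mul_distrib,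
            Finset.prod_inv_distrib, Finset.prod_pow, Finset.prod_pow, (h.unit x hx i).pf,
            (h.unit x hx k).pf, one_pow, one_mul, one_mul]
          rfl
      _ ≤ (C₁ ^ (5 * m + 9)) ^ Fintype.card Λ * Ht L x ^ (-1 : ℝ) := by
          apply mul_le_mul_of_nonneg_left _ (by positivity)
          rw [Real.rpow_neg_one]
          exact inv_anti₀ hQ0 (le_self_pow₀ hQ (by omega))

/-- The general case: the rank. -/
lemma gen_rank (h : Dat Z 𝔅 w C G V a t)
    (hno : ∀ i j, i ≠ j → ¬ ∃ κ : K, 𝔅.Big {x | x ∈ G ∧ w x j = κ * w x i})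
    (ε C₂ : ℝ) (hε : 0 < ε)
    (hgap : ∀ x ∈ G, ∏ s, (max ‖algebraMap K (L s) (w x (a s + 1))‖
      ‖algebraMap K (L s) (w x (a s + 2))‖ / nrm (L s) x) ≤ C₂ * Ht L x ^ (-(1 / 2 + ε))) :
    Module.finrank K V ≤ 3 := by
  classical
  by_contra hV
  obtain ⟨m, hm⟩ : ∃ m, Module.finrank K V = (m + 1) + 3 :=
    ⟨Module.finrank K V - 4, by omega⟩
  have hne : ∀ i : Fin 3, i ≠ i + 1 ∧ i ≠ i + 2 ∧ i + 1 ≠ i + 2 := by decide
  set y : (Fin (N + 1) → K) → YN N → K := fun x => Sum.elim x (w x) with hy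
  have hyV : ∀ x ∈ G, y x ∈ V := by
    intro x hx
    rw [← h.span G subset_rfl h.big]
    exact Submodule.subset_span ⟨x, hx, rfl⟩
  refine h.fin (fun s => a s + 1) (fun s => a s + 2) (fun s => (hne _).1) (fun s => (hne _).2.1)
    (fun s => (hne _).2.2) (fun _ => {Sum.inl 0, Sum.inl 1}) (fun _ => Finset.univ) ?_ (by omega)
    ((C ^ 4 * C ^ (m + 1)) ^ Fintype.card Λ * (C₂ ^ 2) ^ (m + 1)) (2 * ε) (by positivity) ?_
  · intro s
    refine forms_two V (fin3_all _ _ _ (hne _).1 (hne _).2.1 (hne _).2.2) (h.alg s) (h.frm s)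
      G y hyV (𝔅.nonempty h.big) (fun x hx => (h.unit x hx _).ne) ?_
    rintro ⟨κ, hκ⟩
    exact hno _ _ (hne (a s)).2.2 ⟨κ, 𝔅.mono (fun x hx => ⟨hx, hκ x hx⟩) h.big⟩
  · intro x hx hCx r hr
    have hQ := h.one_le hx
    have hQ0 : 0 < Ht L x := by linarith
    set W : Λ → ℝ := fun s => max ‖algebraMap K (L s) (w x (a s + 1))‖
      ‖algebraMap K (L s) (w x (a s + 2))‖ with hW
    have hn0 : ∀ s, 0 < nrm (L s) x := fun s => nrm_pos (h.ne x hx)
    have hW0 : ∀ s, 0 < W s := fun s => lt_of_lt_of_le ((h.unit x hx _).pos s) (le_max_left _ _)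
    have hs : ∀ s, ∏ i' ∈ r s, bet N C (nrm (L s) x) ‖algebraMap K (L s) (w x (a s + 1))‖
        ‖algebraMap K (L s) (w x (a s + 2))‖ i' ≤ C ^ 4 * C ^ (m + 1) *
        ((∏ i, ‖algebraMap K (L s) (w x i)‖) * ((W s / nrm (L s) x) ^ 2 * nrm (L s) x) ^ (m + 1)) := by
      intro s
      obtain ⟨hlo, -, hcard⟩ := hr s
      have h1 := (h.nm hx s (a s + 1) (a s + 2)).prodC (r s) hlo (m + 1) (by omega)
      have h2 : ∀ (f : Fin 3 → ℝ) (i : Fin 3), ∏ j, f j = f i * f (i + 1) * f (i + 2) := by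
        intro f i
        rw [Fin.prod_univ_three]
        fin_cases i
        · rfl
        · change _ = f 1 * f 2 * f 0
          ring
        · change _ = f 2 * f 0 * f 1
          ring
      rw [h2 (fun i => ‖algebraMap K (L s) (w x i)‖) (a s)]
      have h3 : (W s / nrm (L s) x) ^ 2 * nrm (L s) x = W s ^ 2 / nrm (L s) x := by
        have := (hn0 s).ne'
        field_simp
      rw [h3]
      exact h1
    have hΔ0 : 0 ≤ ∏ s, W s / nrm (L s) x :=
      Finset.prod_nonneg fun s _ => (div_pos (hW0 s) (hn0 s)).le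
    have hΔ : (∏ s, W s / nrm (L s) x) ^ 2 * Ht L x ≤ C₂ ^ 2 * Ht L x ^ (-(2 * ε)) := by
      have h1 := pow_le_pow_left₀ hΔ0 (hgap x hx) 2
      calc (∏ s, W s / nrm (L s) x) ^ 2 * Ht L x
          ≤ (C₂ * Ht L x ^ (-(1 / 2 + ε))) ^ 2 * Ht L x :=
            mul_le_mul_of_nonneg_right h1 hQ0.le
        _ = C₂ ^ 2 * (Ht L x ^ (-(1 / 2 + ε)) * Ht L x ^ (-(1 / 2 + ε)) * Ht L x) := by ring
        _ = C₂ ^ 2 * Ht L x ^ (-(2 * ε)) := by
            congr 1
            conv_lhs => rw [← Real.rpow_one (Ht L x), ← Real.rpow_mul hQ0.le,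
              ← Real.rpow_add hQ0, ← Real.rpow_add hQ0]
            congr 1
            ring
    have hle1 : Ht L x ^ (-(2 * ε)) ≤ 1 :=
      Real.rpow_le_one_of_one_le_of_nonpos hQ (by linarith)
    have hnn : 0 ≤ Ht L x ^ (-(2 * ε)) := Real.rpow_nonneg hQ0.le _
    have hunit : ∏ s, ∏ i, ‖algebraMap K (L s) (w x i)‖ = 1 := by
      rw [Finset.prod_comm]
      exact Finset.prod_eq_one fun i _ => (h.unit x hx i).pf
    calc ∏ s, ∏ i' ∈ r s, bet N C (nrm (L s) x) ‖algebraMap K (L s) (w x (a s + 1))‖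
          ‖algebraMap K (L s) (w x (a s + 2))‖ i'
        ≤ ∏ s, (C ^ 4 * C ^ (m + 1) *
        ((∏ i, ‖algebraMap K (L s) (w x i)‖) *
          ((W s / nrm (L s) x) ^ 2 * nrm (L s) x) ^ (m + 1))) := Finset.prod_le_prod
            (fun s _ => Finset.prod_nonneg fun i' _ => (h.nm hx s _ _).bet_nonneg i')
            (fun s _ => hs s)
      _ = (C ^ 4 * C ^ (m + 1)) ^ Fintype.card Λ *
          ((∏ s, W s / nrm (L s) x) ^ 2 * Ht L x) ^ (m + 1) := by
          rw [Finset.prod_mul_distrib, Finset.prod_const, Finset.card_univ,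
            Finset.prod_mul_distrib, hunit, one_mul,
            Finset.prod_pow, Finset.prod_mul_distrib, Finset.prod_pow]
          rfl
      _ ≤ (C ^ 4 * C ^ (m + 1)) ^ Fintype.card Λ *
          (C₂ ^ 2 * Ht L x ^ (-(2 * ε))) ^ (m + 1) := by
          have hC0 : 0 < C := lt_of_lt_of_le one_pos h.hC
          apply mul_le_mul_of_nonneg_left _ (by positivity)
          exact pow_le_pow_left₀ (by positivity) hΔ _
      _ ≤ (C ^ 4 * C ^ (m + 1)) ^ Fintype.card Λ * (C₂ ^ 2) ^ (m + 1) *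
          Ht L x ^ (-(2 * ε)) := by
          have hC0 : 0 < C := lt_of_lt_of_le one_pos h.hC
          have h9 : (C₂ ^ 2 * Ht L x ^ (-(2 * ε))) ^ (m + 1) ≤
              (C₂ ^ 2) ^ (m + 1) * Ht L x ^ (-(2 * ε)) := by
            rw [mul_pow (C₂ ^ 2)]
            apply mul_le_mul_of_nonneg_left _ (by positivity)
            exact pow_le_of_le_one hnn hle1 (by omega)
          rw [mul_assoc]
          exact mul_le_mul_of_nonneg_left h9 (by positivity)

end Dat

end Pool.Agent.Helper38.TP
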