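import Pool.Agent.Helper38.TP.Core

/-!
# The points are combinations of the three units: end
-/

set_option autoImplicit false
set_option linter.unusedSectionVars false

namespace Pool.Agent.Helper38.TP

open Pool.Agent.Helper10.Sub MvPolynomial

variable {K : Type} [Field K] [CharZero K] {Λ : Type} [Fintype Λ] [DecidableEq Λ] {L : Λ → Type}
  [∀ s, NontriviallyNormedField (L s)] [∀ s, ProperSpace (L s)] [∀ s, Algebra K (L s)] {N : ℕ}

/-- Fixing the types. -/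
theorem exists_dat (Z : MP K L) (𝔅 : LN (Fin (N + 1) → K))
    (J₀ : Set (MvPolynomial (Fin (N + 1)) K)) (hJ₀ : ∀ f ∈ J₀, ∃ e, f.IsHomogeneous e)
    (F : Fin 3 → MvPolynomial (Fin (N + 1)) K) (d : Fin 3 → ℕ) (hd : ∀ i, 1 ≤ d i)
    (hF : ∀ i, (F i).IsHomogeneous (d i)) (D : Fin 3 → K) (hD : ∀ i, D i ≠ 0)
    (hempty : ∀ s, ∀ A : Fin (N + 1) → L s, OnV J₀ A → (∀ i, aeval A (F i) = 0) → A = 0)
    (hred : ∀ s, ∀ i j, i ≠ j → ∀ A : Fin (N + 1) → L s, A ≠ 0 → OnV (J₀ ∪ {F i, F j}) A →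
      Jac (J₀ ∪ {F i, F j}) A)
    (E : Set (Fin (N + 1) → K)) (hE : 𝔅.Big E) (w : (Fin (N + 1) → K) → Fin 3 → K)
    (hw : ∀ x ∈ E, ∀ i, Z.U (w x i))
    (hev : ∀ x ∈ E, ∀ i, eval x (F i) = D i * w x i ^ d i)
    (hO : ∀ x ∈ E, ∀ k, x k ∈ Z.O) (hx0 : ∀ x ∈ E, x ≠ 0) (hX : ∀ x ∈ E, OnV J₀ x)
    (C₁ : ℝ) (hC₁ : 1 ≤ C₁) (hbal : ∀ x ∈ E, ∀ s, nrm (L s) x ≤ C₁ * Ht L x)
    (hup : ∀ x ∈ E, ∀ s i, ‖algebraMap K (L s) (w x i)‖ ≤ C₁ * nrm (L s) x)
    (hlow : ∀ x ∈ E, ∀ s, ∃ i, nrm (L s) x ≤ C₁ * ‖algebraMap K (L s) (w x i)‖) :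
    ∃ (C : ℝ) (G : Set (Fin (N + 1) → K)) (V : Submodule K (YN N → K)) (a : Λ → Fin 3)
      (t : ∀ s, Option (Fin (N + 1)) × (Option (Fin (N + 1)) → YN N → L s)),
      G ⊆ E ∧ (∀ x ∈ G, ∀ s, nrm (L s) x ≤ C₁ * ‖algebraMap K (L s) (w x (a s))‖) ∧
      Dat Z 𝔅 w C G V a t := by
  classical
  have hne : ∀ i : Fin 3, i ≠ i + 1 ∧ i ≠ i + 2 ∧ i + 1 ≠ i + 2 := by decide
  choose Es Ty hEs hTy hest using fun (s : Λ) (a : Fin 3) =>
    placeJ (L := L s) J₀ hJ₀ F d hd hF D hD a (a + 1) (a + 2)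
      (fin3_all _ _ _ (hne a).1 (hne a).2.1 (hne a).2.2) (hempty s)
      (hred s (a + 1) (a + 2) (hne a).2.2)
  set y : (Fin (N + 1) → K) → YN N → K := fun x => Sum.elim x (w x) with hy
  obtain ⟨E', hE'E, hE'D, hmin⟩ := 𝔅.exists_minimal (K := K) hE y
  obtain ⟨a, ha⟩ := 𝔅.partition' hE'D (fun (a : Λ → Fin 3) x => ∀ s,
    nrm (L s) x ≤ C₁ * ‖algebraMap K (L s) (w x (a s))‖) (by
      intro x hx
      choose a ha using hlow x (hE'E hx)
      exact ⟨a, ha⟩)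
  obtain ⟨t, ht, hG⟩ := 𝔅.partition (Fintype.piFinset fun s => Ty s (a s)) ha
    (fun t x => ∀ s k, ‖∑ m, (t s).2 k m * algebraMap K (L s) (Sum.elim x (w x) m)‖ *
        ‖fun j => algebraMap K (L s) (x j)‖ ≤ Es s (a s) *
        max ‖algebraMap K (L s) (w x (a s + 1))‖ ‖algebraMap K (L s) (w x (a s + 2))‖ ^ 2) (by
      rintro x ⟨hx, -⟩
      choose t ht h using fun s => hest s (a s) x (hx0 x (hE'E hx)) (hX x (hE'E hx)) (w x)
        (hev x (hE'E hx))
      exact ⟨t, Fintype.mem_piFinset.mpr ht, h⟩)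
  rw [Fintype.mem_piFinset] at ht
  set G : Set (Fin (N + 1) → K) := _ with hGdef
  change 𝔅.Big G at hG
  have hGE' : G ⊆ E' := fun x hx => hx.1.1
  have hGE : G ⊆ E := hGE'.trans hE'E
  set S : ℝ := ∑ s, Es s (a s) with hS
  have hS0 : 0 ≤ S := Finset.sum_nonneg fun s _ => (hEs s (a s)).le
  have hSle : ∀ s, Es s (a s) ≤ S := fun s =>
    Finset.single_le_sum (f := fun s => Es s (a s)) (fun s _ => (hEs s (a s)).le)
      (Finset.mem_univ s)
  have hCC : C₁ ≤ C₁ + S := by linarith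
  refine ⟨C₁ + S, G, Submodule.span K (y '' E'), a, t, hGE, fun x hx => hx.1.2, ?_⟩
  exact {
    hC := hC₁.trans hCC
    big := hG
    O := fun x hx => hO x (hGE hx)
    ne := fun x hx => hx0 x (hGE hx)
    unit := fun x hx => hw x (hGE hx)
    bal := fun x hx s => (hbal x (hGE hx) s).trans (mul_le_mul_of_nonneg_right hCC
      (zero_le_one.trans (one_le_Ht Z (hO x (hGE hx)) (hx0 x (hGE hx)))))
    up := fun x hx s i => (hup x (hGE hx) s i).trans
      (mul_le_mul_of_nonneg_right hCC (nrm_nonneg _))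
    low := fun x hx s => (hx.1.2 s).trans (mul_le_mul_of_nonneg_right hCC (norm_nonneg _))
    span := fun G' hG' hB => hmin G' (hG'.trans hGE') hB
    alg := fun s => (hTy s (a s) (t s) (ht s)).1
    frm := fun s => (hTy s (a s) (t s) (ht s)).2
    est := fun x hx s k => (hx.2 s k).trans (mul_le_mul_of_nonneg_right
      ((hSle s).trans (by linarith)) (by positivity)) }

/-- **The points are combinations of the units.** -/
theorem coreG (Z : MP K L) (𝔅 : LN (Fin (N + 1) → K))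
    (J₀ : Set (MvPolynomial (Fin (N + 1)) K)) (hJ₀ : ∀ f ∈ J₀, ∃ e, f.IsHomogeneous e)
    (F : Fin 3 → MvPolynomial (Fin (N + 1)) K) (d : Fin 3 → ℕ) (hd : ∀ i, 1 ≤ d i)
    (hF : ∀ i, (F i).IsHomogeneous (d i)) (D : Fin 3 → K) (hD : ∀ i, D i ≠ 0)
    (hempty : ∀ s, ∀ A : Fin (N + 1) → L s, OnV J₀ A → (∀ i, aeval A (F i) = 0) → A = 0)
    (hred : ∀ s, ∀ i j, i ≠ j → ∀ A : Fin (N + 1) → L s, A ≠ 0 → OnV (J₀ ∪ {F i, F j}) A →
      Jac (J₀ ∪ {F i, F j}) A)
    (E : Set (Fin (N + 1) → K)) (hE : 𝔅.Big E) (w : (Fin (N + 1) → K) → Fin 3 → K)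
    (hw : ∀ x ∈ E, ∀ i, Z.U (w x i))
    (hev : ∀ x ∈ E, ∀ i, eval x (F i) = D i * w x i ^ d i)
    (hO : ∀ x ∈ E, ∀ k, x k ∈ Z.O) (hx0 : ∀ x ∈ E, x ≠ 0) (hX : ∀ x ∈ E, OnV J₀ x)
    (C₁ : ℝ) (hC₁ : 1 ≤ C₁) (hbal : ∀ x ∈ E, ∀ s, nrm (L s) x ≤ C₁ * Ht L x)
    (hup : ∀ x ∈ E, ∀ s i, ‖algebraMap K (L s) (w x i)‖ ≤ C₁ * nrm (L s) x)
    (hlow : ∀ x ∈ E, ∀ s, ∃ i, nrm (L s) x ≤ C₁ * ‖algebraMap K (L s) (w x i)‖)
    (ε C₂ : ℝ) (hε : 0 < ε)
    (hgap : ∀ x ∈ E, ∀ a : Λ → Fin 3,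
      (∀ s, nrm (L s) x ≤ C₁ * ‖algebraMap K (L s) (w x (a s))‖) →
      ∏ s, (max ‖algebraMap K (L s) (w x (a s + 1))‖
        ‖algebraMap K (L s) (w x (a s + 2))‖ / nrm (L s) x) ≤ C₂ * Ht L x ^ (-(1 / 2 + ε))) :
    ∃ E' ⊆ E, 𝔅.Big E' ∧ ∃ l : Fin 3 → Fin (N + 1) → K, ∀ x ∈ E', x = ∑ i, w x i • l i := by
  classical
  obtain ⟨C, G, V, a, t, hGE, ha, h⟩ := exists_dat Z 𝔅 J₀ hJ₀ F d hd hF D hD hempty hred E hE w hw
    hev hO hx0 hX C₁ hC₁ hbal hup hlow
  have hsum : ∀ (c : Fin 3 → K) (l : Fin (N + 1) → Fin 3 → K) (x : Fin (N + 1) → K),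
      (∀ k, x k = ∑ i, l k i * c i) → x = ∑ i, c i • fun k => l k i := by
    intro c l x hx
    funext k
    rw [hx k, Finset.sum_apply]
    exact Finset.sum_congr rfl fun i _ => by simp [mul_comm]
  by_cases hP : ∃ i j, i ≠ j ∧ ∃ κ : K, 𝔅.Big {x | x ∈ G ∧ w x j = κ * w x i}
  · obtain ⟨i, j, hij, κ, hκ⟩ := hP
    obtain ⟨k, hk, hik, hjk⟩ := third i j hij
    have h' := h.sub (fun x hx => hx.1) hκ
    have hV := h'.pair_rank i j hij κ (fun x hx => hx.2)
    set G' : Set (Fin (N + 1) → K) := {x | x ∈ G ∧ w x j = κ * w x i} with hG'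
    have hyV : ∀ x ∈ G', (Sum.elim x (w x) : YN N → K) ∈ V := by
      intro x hx
      rw [← h'.span G' subset_rfl hκ]
      exact Submodule.subset_span ⟨x, hx, rfl⟩
    obtain ⟨x₀, hx₀⟩ := 𝔅.nonempty hκ
    have hsp := coords_span V (n := 2) ![Sum.inr i, Sum.inr k] (by
      intro e he
      have hrel : ∀ x ∈ G', e 0 * w x i + e 1 * w x k = 0 := fun x hx => by
        have := he _ (hyV x hx)
        simpa [Fin.sum_univ_two] using this
      have h1 : e 1 = 0 := by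
        by_contra h1
        refine h'.not_all i (fun m => if m = i then 1 else if m = j then κ else -(e 0) / e 1)
          (𝔅.mono ?_ hκ)
        intro x hx
        refine ⟨hx, fun m => ?_⟩
        rcases hk m with rfl | rfl | rfl
        · rw [if_pos rfl, one_mul]
        · rw [if_neg hij.symm, if_pos rfl]
          exact hx.2
        · rw [if_neg hik.symm, if_neg hjk.symm]
          have := hrel x hx
          field_simp
          linear_combination this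
      have h0 : e 0 = 0 := by
        have := hrel x₀ hx₀
        rw [h1, zero_mul, add_zero, mul_eq_zero] at this
        exact this.resolve_right (h'.unit x₀ hx₀ i).ne
      funext m
      fin_cases m
      · exact h0
      · exact h1) hV
    choose l hl using hsp
    refine ⟨G', fun x hx => hGE hx.1, hκ, _, fun x hx => hsum (w x)
      (fun k' m => if m = i then l (Sum.inl k') 0 else if m = k then l (Sum.inl k') 1 else 0) x
      (fun k' => ?_)⟩
    have h1 := hl (Sum.inl k') _ (hyV x hx)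
    rw [Fin.sum_univ_two] at h1
    have h2 : ∀ f : Fin 3 → K, ∑ m, f m = f i + f j + f k := by
      intro f
      have huniv : (Finset.univ : Finset (Fin 3)) = {i, j, k} := by
        ext m
        simp only [Finset.mem_univ, Finset.mem_insert, Finset.mem_singleton, true_iff]
        exact hk m
      rw [huniv, Finset.sum_insert (by simp [hij, hik]), Finset.sum_pair hjk]
      ring
    rw [h2, if_pos rfl, if_neg hij.symm, if_neg hjk, if_neg hik.symm, if_pos rfl, zero_mul,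
      add_zero]
    exact h1
  · push Not at hP
    have hno : ∀ i j, i ≠ j → ¬ ∃ κ : K, 𝔅.Big {x | x ∈ G ∧ w x j = κ * w x i} :=
      fun i j hij ⟨κ, hκ⟩ => hP i j hij κ hκ
    have hV := h.gen_rank hno ε C₂ hε (fun x hx => hgap x (hGE hx) a (ha x hx))
    have hyV : ∀ x ∈ G, (Sum.elim x (w x) : YN N → K) ∈ V := by
      intro x hx
      rw [← h.span G subset_rfl h.big]
      exact Submodule.subset_span ⟨x, hx, rfl⟩
    have hsp := coords_span V (n := 3) (fun i => Sum.inr i) (by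
      intro e he
      by_contra hne
      obtain ⟨i₀, hi₀⟩ := Function.ne_iff.mp hne
      obtain ⟨i, -, j, -, hij, m, hm⟩ := unit_eq Z 𝔅 w G h.big h.unit e
        (Finset.univ.filter fun i => e i ≠ 0) ⟨i₀, by simpa using hi₀⟩
        (fun i hi => (Finset.mem_filter.mp hi).2) (fun x hx => by
          have h1 := he _ (hyV x hx)
          rw [Finset.sum_filter_of_ne]
          · exact h1
          · intro i _ hi h0
            exact hi (by rw [h0, zero_mul]))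
      exact hno j i hij.symm ⟨m, hm⟩) hV
    choose l hl using hsp
    refine ⟨G, hGE, h.big, _, fun x hx => hsum (w x) (fun k' m => l (Sum.inl k') m) x
      (fun k' => hl (Sum.inl k') _ (hyV x hx))⟩

end Pool.Agent.Helper38.TP
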