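import Pool.Agent.Helper38.TP.Core2

/-!
# Multiplicatively dependent units

Plan. Let `γ i = α i - β i` (integers), `∑ γ i = 0`, `γ ≠ 0`. One index `j` is such that the two
others `b, c` have `γ b, γ c` both `≥ 0` or both `≤ 0` (not both zero), so
`κ' * W_j ^ (g b + g c) = W_b ^ g b * W_c ^ g c` for the sizes `W_i = ‖w x i‖_s`
(`g b = |γ b|`, `g c = |γ c|`, `g b + g c ≥ 1`, `κ' > 0` depends on `s` only): `W_j` is a weighted
geometric mean of `W_b` and `W_c` up to constants. Let `x ∈ E`, `s`, and `a` an index with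
`nrm ≤ C₁ * W_a`, so `W_i ≤ C₁ ^ 2 * W_a` for all `i`. Then both other sizes are
`≤ C * W_j`: for `a = j` this is clear; for `a = b` we have `W_c ≤ C₁ ^ 2 * W_b`, so
`W_c ^ (g b + g c) ≤ (C₁ ^ 2 * W_b) ^ g b * W_c ^ g c = C₁ ^ (2 * g b) * κ' * W_j ^ (g b + g c)`;
the same for `a = c`. Hence `∏ s, (max W_{a s + 1} W_{a s + 2} / nrm_s) ≤
C ^ card Λ * ∏ s, W_j / Ht = C ^ card Λ * Ht ^ (-1)` (`(hw x hx j).pf`). Apply `coreG` with
`ε = 1 / 2`.
-/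

set_option autoImplicit false
set_option linter.unusedSectionVars false

namespace Pool.Agent.Helper38.TP

open Pool.Agent.Helper10.Sub MvPolynomial

variable {K : Type} [Field K] [CharZero K] {Λ : Type} [Fintype Λ] [DecidableEq Λ] {L : Λ → Type}
  [∀ s, NontriviallyNormedField (L s)] [∀ s, ProperSpace (L s)] [∀ s, Algebra K (L s)] {N : ℕ}

theorem DegM_sum (j : Fin 3) (f : Fin 3 → ℝ) : ∑ i, f i = f j + f (j + 1) + f (j + 2) := by
  rw [Fin.sum_univ_three]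
  fin_cases j
  · rfl
  · change f 0 + f 1 + f 2 = f 1 + f 2 + f 0
    ring
  · change f 0 + f 1 + f 2 = f 2 + f 0 + f 1
    ring

theorem DegM_cases (j a : Fin 3) : a = j ∨ a = j + 1 ∨ a = j + 2 := by
  revert j a
  decide

/-- two of three integers with sum `0` have the same sign -/
theorem DegM_sign (γ : Fin 3 → ℤ) (h0 : γ 0 + γ 1 + γ 2 = 0) (hne : γ ≠ 0) :
    ∃ j : Fin 3, (0 ≤ γ (j + 1) ∧ 0 ≤ γ (j + 2) ∧ 1 ≤ γ (j + 1) + γ (j + 2)) ∨
      (γ (j + 1) ≤ 0 ∧ γ (j + 2) ≤ 0 ∧ γ (j + 1) + γ (j + 2) ≤ -1) := by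
  by_contra H
  push Not at H
  have H0 : (0 ≤ γ 1 → 0 ≤ γ 2 → γ 1 + γ 2 < 1) ∧ (γ 1 ≤ 0 → γ 2 ≤ 0 → -1 < γ 1 + γ 2) := H 0
  have H1 : (0 ≤ γ 2 → 0 ≤ γ 0 → γ 2 + γ 0 < 1) ∧ (γ 2 ≤ 0 → γ 0 ≤ 0 → -1 < γ 2 + γ 0) := H 1
  have H2 : (0 ≤ γ 0 → 0 ≤ γ 1 → γ 0 + γ 1 < 1) ∧ (γ 0 ≤ 0 → γ 1 ≤ 0 → -1 < γ 0 + γ 1) := H 2
  have e : γ 0 = 0 ∧ γ 1 = 0 ∧ γ 2 = 0 := by
    obtain ⟨a0, b0⟩ := H0
    obtain ⟨a1, b1⟩ := H1
    obtain ⟨a2, b2⟩ := H2
    omega
  apply hne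
  funext i
  fin_cases i
  · exact e.1
  · exact e.2.1
  · exact e.2.2

/-- real inequalities at one place -/
theorem DegM_pt (γ : Fin 3 → ℝ) (j : Fin 3) (h0 : γ j + γ (j + 1) + γ (j + 2) = 0)
    (hb : 0 ≤ γ (j + 1)) (hc : 0 ≤ γ (j + 2)) (hp : 1 ≤ γ (j + 1) + γ (j + 2)) (ω : Fin 3 → ℝ)
    (k c : ℝ) (hc0 : 0 ≤ c) (hrel : ∑ i, γ i * ω i = k) (a : Fin 3)
    (ha : ∀ i, ω i ≤ 2 * c + ω a) (i : Fin 3) (hi : i ≠ a) : ω i ≤ ω j + (2 * c + |k|) := by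
  rw [DegM_sum j] at hrel
  have hk : 0 ≤ |k| := abs_nonneg k
  have hk1 : k ≤ |k| := le_abs_self k
  have hjv : γ j = -(γ (j + 1) + γ (j + 2)) := by linarith
  rw [hjv] at hrel
  have hGk : |k| ≤ (γ (j + 1) + γ (j + 2)) * |k| := le_mul_of_one_le_left hk hp
  rcases DegM_cases j i with rfl | rfl | rfl
  · linarith
  · rcases DegM_cases j a with rfl | rfl | rfl
    · linarith [ha (a + 1)]
    · exact absurd rfl hi
    · have h1 := mul_le_mul_of_nonneg_left (ha (j + 1)) hc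
      have h2 : (γ (j + 1) + γ (j + 2)) * (ω (j + 1) - ω j - 2 * c - |k|) ≤ 0 := by
        nlinarith [mul_nonneg hc0 hb]
      have h3 : ω (j + 1) - ω j - 2 * c - |k| ≤ 0 := by
        by_contra h4
        push Not at h4
        have := mul_pos (lt_of_lt_of_le zero_lt_one hp) h4
        linarith
      linarith
  · rcases DegM_cases j a with rfl | rfl | rfl
    · linarith [ha (a + 2)]
    · have h1 := mul_le_mul_of_nonneg_left (ha (j + 2)) hb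
      have h2 : (γ (j + 1) + γ (j + 2)) * (ω (j + 2) - ω j - 2 * c - |k|) ≤ 0 := by
        nlinarith [mul_nonneg hc0 hc]
      have h3 : ω (j + 2) - ω j - 2 * c - |k| ≤ 0 := by
        by_contra h4
        push Not at h4
        have := mul_pos (lt_of_lt_of_le zero_lt_one hp) h4
        linarith
      linarith
    · exact absurd rfl hi

/-- the same with both signs -/
theorem DegM_pt2 (γ : Fin 3 → ℤ) (h0 : ∑ i, γ i = 0) (hne : γ ≠ 0) :
    ∃ j : Fin 3, ∀ (ω : Fin 3 → ℝ) (k c : ℝ), 0 ≤ c → ∑ i, (γ i : ℝ) * ω i = k → ∀ a : Fin 3,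
      (∀ i, ω i ≤ 2 * c + ω a) → ∀ i, i ≠ a → ω i ≤ ω j + (2 * c + |k|) := by
  rw [Fin.sum_univ_three] at h0
  obtain ⟨j, h | h⟩ := DegM_sign γ h0 hne
  · refine ⟨j, fun ω k c hc0 hrel a ha i hi => ?_⟩
    have h0' : (γ j : ℝ) + γ (j + 1) + γ (j + 2) = 0 := by
      have := DegM_sum j fun i => (γ i : ℝ)
      rw [← this, Fin.sum_univ_three]
      exact_mod_cast h0
    exact DegM_pt (fun i => (γ i : ℝ)) j h0' (by exact_mod_cast h.1) (by exact_mod_cast h.2.1)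
      (by exact_mod_cast h.2.2) ω k c hc0 hrel a ha i hi
  · refine ⟨j, fun ω k c hc0 hrel a ha i hi => ?_⟩
    have h0' : (γ j : ℝ) + γ (j + 1) + γ (j + 2) = 0 := by
      have := DegM_sum j fun i => (γ i : ℝ)
      rw [← this, Fin.sum_univ_three]
      exact_mod_cast h0
    have e1 : (γ (j + 1) : ℝ) ≤ 0 := by exact_mod_cast h.1
    have e2 : (γ (j + 2) : ℝ) ≤ 0 := by exact_mod_cast h.2.1
    have e3 : (γ (j + 1) : ℝ) + γ (j + 2) ≤ -1 := by exact_mod_cast h.2.2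
    have hrel' : ∑ i, -(γ i : ℝ) * ω i = -k := by
      rw [← hrel, ← Finset.sum_neg_distrib]
      exact Finset.sum_congr rfl fun i _ => by ring
    have := DegM_pt (fun i => -(γ i : ℝ)) j (by linarith) (by linarith) (by linarith)
      (by linarith) ω (-k) c hc0 hrel' a ha i hi
    rwa [abs_neg] at this

theorem degM (Z : MP K L) (𝔅 : LN (Fin (N + 1) → K))
    (J₀ : Set (MvPolynomial (Fin (N + 1)) K)) (hJ₀ : ∀ f ∈ J₀, ∃ e, f.IsHomogeneous e)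
    (F : Fin 3 → MvPolynomial (Fin (N + 1)) K) (d : Fin 3 → ℕ) (hd : ∀ i, 1 ≤ d i)
    (hF : ∀ i, (F i).IsHomogeneous (d i)) (D : Fin 3 → K) (hD : ∀ i, D i ≠ 0)
    (hempty : ∀ s, ∀ A : Fin (N + 1) → L s, OnV J₀ A → (∀ i, aeval A (F i) = 0) → A = 0)
    (hred : ∀ s, ∀ i j, i ≠ j → ∀ A : Fin (N + 1) → L s, A ≠ 0 → OnV (J₀ ∪ {F i, F j}) A →
      Jac (J₀ ∪ {F i, F j}) A)
    (E : Set (Fin (N + 1) → K)) (hE : 𝔅.Big E) (w : (Fin (N + 1) → K) → Fin 3 → K)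
    (hw : ∀ x ∈ E, ∀ i, Z.U (w x i))
    (hev : ∀ x ∈ E, ∀ i, eval x (F i) = D i * w x i ^ d i)
    (hO : ∀ x ∈ E, ∀ k, x k ∈ Z.O) (hx0 : ∀ x ∈ E, x ≠ 0) (hX : ∀ x ∈ E, OnV J₀ x)
    (C₁ : ℝ) (hC₁ : 1 ≤ C₁) (hbal : ∀ x ∈ E, ∀ s, nrm (L s) x ≤ C₁ * Ht L x)
    (hup : ∀ x ∈ E, ∀ s i, ‖algebraMap K (L s) (w x i)‖ ≤ C₁ * nrm (L s) x)
    (hlow : ∀ x ∈ E, ∀ s, ∃ i, nrm (L s) x ≤ C₁ * ‖algebraMap K (L s) (w x i)‖)
    (α β : Fin 3 → ℕ) (hαβ : α ≠ β) (hs : ∑ i, α i = ∑ i, β i) (κ : K)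
    (hrel : ∀ x ∈ E, ∏ i, w x i ^ α i = κ * ∏ i, w x i ^ β i) :
    ∃ E' ⊆ E, 𝔅.Big E' ∧ ∃ l : Fin 3 → Fin (N + 1) → K, ∀ x ∈ E', x = ∑ i, w x i • l i := by
  classical
  set γ : Fin 3 → ℤ := fun i => (α i : ℤ) - β i with hγ
  have hγ0 : ∑ i, γ i = 0 := by
    have h : ((∑ i, α i : ℕ) : ℤ) = ((∑ i, β i : ℕ) : ℤ) := by rw [hs]
    push_cast at h
    rw [hγ, Finset.sum_sub_distrib, h, sub_self]
  have hγne : γ ≠ 0 := by
    intro h
    apply hαβ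
    funext i
    have : γ i = 0 := by rw [h]; rfl
    rw [hγ] at this
    simp only at this
    omega
  obtain ⟨j, hj⟩ := DegM_pt2 γ hγ0 hγne
  have hC₁0 : 0 < C₁ := lt_of_lt_of_le zero_lt_one hC₁
  have hc0 : 0 ≤ Real.log C₁ := Real.log_nonneg hC₁
  refine coreG Z 𝔅 J₀ hJ₀ F d hd hF D hD hempty hred E hE w hw hev hO hx0 hX C₁ hC₁ hbal hup hlow
    (1 / 2) (∏ s, Real.exp (2 * Real.log C₁ + |Real.log ‖algebraMap K (L s) κ‖|)) (by norm_num) ?_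
  intro x hx a ha
  have hκ : κ ≠ 0 := by
    intro h
    have h1 := hrel x hx
    rw [h, zero_mul, Finset.prod_eq_zero_iff] at h1
    obtain ⟨i, -, hi⟩ := h1
    exact (hw x hx i).ne (pow_eq_zero_iff'.1 hi).1
  have hWpos : ∀ s i, 0 < ‖algebraMap K (L s) (w x i)‖ := fun s i => (hw x hx i).pos s
  have hn0 : ∀ s, 0 < nrm (L s) x := fun s => nrm_pos (hx0 x hx)
  have hlog : ∀ s, ∑ i, (γ i : ℝ) * Real.log ‖algebraMap K (L s) (w x i)‖ =
      Real.log ‖algebraMap K (L s) κ‖ := by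
    intro s
    have h := congrArg (fun z => Real.log ‖algebraMap K (L s) z‖) (hrel x hx)
    simp only [map_prod, map_mul, map_pow, norm_mul, norm_prod, norm_pow] at h
    have hκs : ‖algebraMap K (L s) κ‖ ≠ 0 := by
      rw [Ne, norm_eq_zero, map_eq_zero_iff _ (algebraMap K (L s)).injective]
      exact hκ
    rw [Real.log_mul hκs (Finset.prod_ne_zero_iff.2 fun i _ => pow_ne_zero _ (hWpos s i).ne'),
      Real.log_prod (fun i _ => pow_ne_zero _ (hWpos s i).ne'),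
      Real.log_prod (fun i _ => pow_ne_zero _ (hWpos s i).ne')] at h
    simp only [Real.log_pow] at h
    have e : ∑ i, (γ i : ℝ) * Real.log ‖algebraMap K (L s) (w x i)‖ =
        ∑ i, (α i : ℝ) * Real.log ‖algebraMap K (L s) (w x i)‖ -
        ∑ i, (β i : ℝ) * Real.log ‖algebraMap K (L s) (w x i)‖ := by
      rw [← Finset.sum_sub_distrib]
      refine Finset.sum_congr rfl fun i _ => ?_
      rw [hγ]
      push_cast
      ring
    rw [e, h]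
    ring
  have hle : ∀ s i, i ≠ a s → ‖algebraMap K (L s) (w x i)‖ ≤
      Real.exp (2 * Real.log C₁ + |Real.log ‖algebraMap K (L s) κ‖|) *
        ‖algebraMap K (L s) (w x j)‖ := by
    intro s i hi
    have h1 := hj (fun i => Real.log ‖algebraMap K (L s) (w x i)‖) _ (Real.log C₁) hc0 (hlog s)
      (a s) (by
        intro i
        have h2 : ‖algebraMap K (L s) (w x i)‖ ≤ C₁ * (C₁ * ‖algebraMap K (L s) (w x (a s))‖) :=
          (hup x hx s i).trans (mul_le_mul_of_nonneg_left (ha s) hC₁0.le)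
        have h3 := Real.log_le_log (hWpos s i) h2
        rw [Real.log_mul hC₁0.ne' (mul_pos hC₁0 (hWpos s _)).ne',
          Real.log_mul hC₁0.ne' (hWpos s _).ne'] at h3
        linarith) i hi
    have h4 := Real.exp_le_exp.2 h1
    rw [Real.exp_add, Real.exp_log (hWpos s i), Real.exp_log (hWpos s j), mul_comm] at h4
    exact h4
  have hadd : ∀ b : Fin 3, b + 1 ≠ b ∧ b + 2 ≠ b := by decide
  have hmax : ∀ s, max ‖algebraMap K (L s) (w x (a s + 1))‖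
      ‖algebraMap K (L s) (w x (a s + 2))‖ / nrm (L s) x ≤
      Real.exp (2 * Real.log C₁ + |Real.log ‖algebraMap K (L s) κ‖|) *
        (‖algebraMap K (L s) (w x j)‖ * (nrm (L s) x)⁻¹) := by
    intro s
    rw [← mul_assoc, ← div_eq_mul_inv]
    exact div_le_div_of_nonneg_right (max_le (hle s _ (hadd _).1) (hle s _ (hadd _).2)) (hn0 s).le
  refine (Finset.prod_le_prod (fun s _ => ?_) fun s _ => hmax s).trans ?_
  · exact div_nonneg ((norm_nonneg _).trans (le_max_left _ _)) (hn0 s).le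
  · rw [Finset.prod_mul_distrib, Finset.prod_mul_distrib, (hw x hx j).pf, one_mul,
      Finset.prod_inv_distrib]
    have e : (-(1 / 2 + 1 / 2) : ℝ) = -1 := by norm_num
    rw [e, Real.rpow_neg_one]
    exact le_rfl

end Pool.Agent.Helper38.TP
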