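import Pool.Agent.Helper38.TP.NdM
import Pool.Agent.Helper38.TP.DegM

/-!
# The points are combinations of the units, for every positive exponent
-/

set_option autoImplicit false
set_option linter.unusedSectionVars false

namespace Pool.Agent.Helper38.TP

open Pool.Agent.Helper10.Sub MvPolynomial

lemma erase3 (a : Fin 3) : ((Finset.univ.erase a : Finset (Fin 3)) : Set (Fin 3)) =
    {a + 1, a + 2} := by
  ext i
  simp only [Finset.coe_erase, Finset.coe_univ, Set.mem_diff, Set.mem_univ, true_and,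
    Set.mem_singleton_iff, Set.mem_insert_iff]
  revert a i
  decide

variable {K : Type} [Field K] [CharZero K] {Λ : Type} [Fintype Λ] [DecidableEq Λ] {L : Λ → Type}
  [∀ s, NontriviallyNormedField (L s)] [∀ s, ProperSpace (L s)] [∀ s, Algebra K (L s)] {N : ℕ}

/-- **The points are combinations of the units.** -/
theorem coreM (Z : MP K L) (𝔅 : LN (Fin (N + 1) → K))
    (J₀ : Set (MvPolynomial (Fin (N + 1)) K)) (hJ₀ : ∀ f ∈ J₀, ∃ e, f.IsHomogeneous e)
    (F : Fin 3 → MvPolynomial (Fin (N + 1)) K) (d : Fin 3 → ℕ) (hd : ∀ i, 1 ≤ d i)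
    (hF : ∀ i, (F i).IsHomogeneous (d i)) (D : Fin 3 → K) (hD : ∀ i, D i ≠ 0)
    {Ω : Type} [Field Ω] [IsAlgClosed Ω] [Algebra K Ω]
    (hΩ : ∀ A : Fin (N + 1) → Ω, OnV J₀ A → (∀ i, aeval A (F i) = 0) → A = 0)
    (hempty : ∀ s, ∀ A : Fin (N + 1) → L s, OnV J₀ A → (∀ i, aeval A (F i) = 0) → A = 0)
    (hred : ∀ s, ∀ i j, i ≠ j → ∀ A : Fin (N + 1) → L s, A ≠ 0 → OnV (J₀ ∪ {F i, F j}) A →
      Jac (J₀ ∪ {F i, F j}) A)
    (E : Set (Fin (N + 1) → K)) (hE : 𝔅.Big E) (w : (Fin (N + 1) → K) → Fin 3 → K)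
    (hw : ∀ x ∈ E, ∀ i, Z.U (w x i))
    (hev : ∀ x ∈ E, ∀ i, eval x (F i) = D i * w x i ^ d i)
    (hO : ∀ x ∈ E, ∀ k, x k ∈ Z.O) (hx0 : ∀ x ∈ E, x ≠ 0) (hX : ∀ x ∈ E, OnV J₀ x)
    (C₁ : ℝ) (hC₁ : 1 ≤ C₁) (hbal : ∀ x ∈ E, ∀ s, nrm (L s) x ≤ C₁ * Ht L x)
    (hup : ∀ x ∈ E, ∀ s i, ‖algebraMap K (L s) (w x i)‖ ≤ C₁ * nrm (L s) x)
    (hlow : ∀ x ∈ E, ∀ s, ∃ i, nrm (L s) x ≤ C₁ * ‖algebraMap K (L s) (w x i)‖)
    (ε C₂ : ℝ) (hε : 0 < ε)
    (hgap : ∀ x ∈ E, ∀ a : Λ → Fin 3,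
      (∀ s, nrm (L s) x ≤ C₁ * ‖algebraMap K (L s) (w x (a s))‖) →
      ∏ s, (max ‖algebraMap K (L s) (w x (a s + 1))‖
        ‖algebraMap K (L s) (w x (a s + 2))‖ / nrm (L s) x) ≤ C₂ * Ht L x ^ (-ε)) :
    ∃ E' ⊆ E, 𝔅.Big E' ∧ ∃ l : Fin 3 → Fin (N + 1) → K, ∀ x ∈ E', x = ∑ i, w x i • l i := by
  classical
  by_cases hn : NoRel 𝔅 w E
  · have h : Pts Z 𝔅 J₀ F d D w C₁ ε C₂ E := by
      refine ⟨hJ₀, hd, hF, hD, hempty, ?_, hE, hw, hev, hO, hx0, ?_, hC₁, hbal, hup, hlow, hε, ?_⟩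
      · intro s a
        have h1 : F '' ((Finset.univ.erase a : Finset (Fin 3)) : Set (Fin 3)) =
            {F (a + 1), F (a + 2)} := by
          rw [erase3, Set.image_pair]
        rw [h1]
        have h2 : ∀ a : Fin 3, a + 1 ≠ a + 2 := by decide
        exact hred s (a + 1) (a + 2) (h2 a)
      · intro x hx f hf
        have := hX x hx f hf
        rwa [aeval_self'] at this
      · intro x hx a ha
        refine le_trans ?_ (hgap x hx a ha)
        refine Finset.prod_le_prod (fun s _ => div_nonneg (norm_nonneg _) (nrm_nonneg _))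
          fun s _ => ?_
        refine div_le_div_of_nonneg_right ?_ (nrm_nonneg _)
        rw [pi_norm_le_iff_of_nonneg ((norm_nonneg _).trans (le_max_left _ _))]
        rintro ⟨i, hi⟩
        have h2 : i ∈ ((Finset.univ.erase (a s) : Finset (Fin 3)) : Set (Fin 3)) := hi
        rw [erase3] at h2
        rcases h2 with h2 | h2
        · subst h2
          exact le_max_left _ _
        · rw [Set.mem_singleton_iff] at h2
          subst h2
          exact le_max_right _ _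
    have key : ∀ T : Finset (Fin (N + 1)), ∃ E' ⊆ E, 𝔅.Big E' ∧ ∃ l : Fin (N + 1) → Fin 3 → K,
        ∀ x ∈ E', ∀ k ∈ T, x k = ∑ i, w x i * l k i := by
      intro T
      induction T using Finset.induction_on with
      | empty => exact ⟨E, subset_rfl, hE, 0, fun x _ k hk => absurd hk (Finset.notMem_empty k)⟩
      | insert k T hk ih =>
        obtain ⟨E', hE', hB', l, hl⟩ := ih
        obtain ⟨E'', hE'', hB'', l', hl'⟩ := ndM h hn hΩ k hE' hB'
        refine ⟨E'', hE''.trans hE', hB'', Function.update l k l', fun x hx k' hk' => ?_⟩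
        rcases Finset.mem_insert.1 hk' with hk'' | hk''
        · subst hk''
          rw [Function.update_self]
          exact hl' x hx
        · have hne : k' ≠ k := by
            rintro rfl
            exact hk hk''
          rw [Function.update_of_ne hne]
          exact hl x (hE'' hx) k' hk''
    obtain ⟨E', hE', hB', l, hl⟩ := key Finset.univ
    refine ⟨E', hE', hB', fun i k => l k i, fun x hx => ?_⟩
    funext k
    rw [hl x hx k (Finset.mem_univ k), Finset.sum_apply]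
    rfl
  · unfold NoRel at hn
    push Not at hn
    obtain ⟨α, β, hs, hne, κ, hκ⟩ := hn
    obtain ⟨E', hE', hB', l, hl⟩ := degM Z 𝔅 J₀ hJ₀ F d hd hF D hD hempty hred
      {x | x ∈ E ∧ mon (w x) α = κ * mon (w x) β} hκ w (fun x hx => hw x hx.1)
      (fun x hx => hev x hx.1) (fun x hx => hO x hx.1) (fun x hx => hx0 x hx.1)
      (fun x hx => hX x hx.1) C₁ hC₁ (fun x hx => hbal x hx.1) (fun x hx => hup x hx.1)
      (fun x hx => hlow x hx.1) (fun i => α i) (fun i => β i)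
      (fun h0 => hne (Finsupp.ext fun i => congrFun h0 i)) hs κ (fun x hx => hx.2)
    exact ⟨E', fun x hx => (hE' hx).1, hB', l, hl⟩

end Pool.Agent.Helper38.TP
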