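import Pool.Agent.Helper10.Sub.ApplyInf

/-!
# Finitely many embeddings of a field in local fields: definitions and application of the
Subspace theorem
-/

set_option autoImplicit false

namespace Pool.Agent.Helper38.TP

open Pool.Agent.Helper10.Sub

/-- A field `K` with finitely many embeddings in local fields `L s`, and a ring `O` of integers,
with the product inequality, the finiteness property and the Subspace theorem. -/
structure MP (K : Type) [Field K] {Λ : Type} [Fintype Λ] (L : Λ → Type)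
    [∀ s, NontriviallyNormedField (L s)] [∀ s, Algebra K (L s)] where
  O : Subring K
  one_le : ∀ x ∈ O, x ≠ 0 → 1 ≤ ∏ s, ‖algebraMap K (L s) x‖
  fin : ∀ B : ℝ, {x : K | x ∈ O ∧ ∀ s, ‖algebraMap K (L s) x‖ ≤ B}.Finite
  sub : ∀ (Y : Type) [Fintype Y] [DecidableEq Y] (V : Submodule K (Y → K)) (M : ℕ),
    Module.finrank K V = M → 2 ≤ M → ∀ l : ∀ s, Fin M → Y → L s,
    (∀ s i k, IsAlgebraic K (l s i k)) →
    (∀ s, ∀ c : Fin M → L s, (∀ y ∈ V, ∑ i, c i * lf (l s i) y = 0) → c = 0) →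
    ∀ δ B : ℝ, 0 < δ → ∃ 𝒲 : Finset (Submodule K (Y → K)), (∀ W ∈ 𝒲, W < V) ∧
      ∀ (Q : ℝ) (a : Λ → Fin M → ℝ), 1 ≤ Q → (∀ s i, Q ^ (-B) ≤ a s i ∧ a s i ≤ Q ^ B) →
        ∏ s, ∏ i, a s i ≤ Q ^ (-δ) →
        ∀ y ∈ V, (∀ k, y k ∈ O) → (∀ s i, ‖lf (l s i) y‖ ≤ a s i) → ∃ W ∈ 𝒲, y ∈ W

section units
variable {K : Type} [Field K] {Λ : Type} [Fintype Λ] {L : Λ → Type}
    [∀ s, NontriviallyNormedField (L s)] [∀ s, Algebra K (L s)] (Z : MP K L)

/-- Units of the ring. -/
structure MP.U (u : K) : Prop where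
  ne : u ≠ 0
  mem : u ∈ Z.O
  inv_mem : u⁻¹ ∈ Z.O

variable {Z}

lemma MP.U.mul {u v : K} (hu : Z.U u) (hv : Z.U v) : Z.U (u * v) :=
  ⟨mul_ne_zero hu.ne hv.ne, Z.O.mul_mem hu.mem hv.mem, by
    rw [mul_inv]; exact Z.O.mul_mem hu.inv_mem hv.inv_mem⟩

lemma MP.U.one : Z.U (1 : K) := ⟨one_ne_zero, Z.O.one_mem, by rw [inv_one]; exact Z.O.one_mem⟩

lemma MP.U.inv {u : K} (hu : Z.U u) : Z.U u⁻¹ :=
  ⟨inv_ne_zero hu.ne, hu.inv_mem, by rw [inv_inv]; exact hu.mem⟩

lemma MP.U.div {u v : K} (hu : Z.U u) (hv : Z.U v) : Z.U (u / v) := by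
  rw [div_eq_mul_inv]; exact hu.mul hv.inv

lemma MP.U.pow {u : K} (hu : Z.U u) (n : ℕ) : Z.U (u ^ n) := by
  induction n with
  | zero => rw [pow_zero]; exact MP.U.one
  | succ n ih => rw [pow_succ]; exact ih.mul hu

lemma MP.U.prod {α : Type*} (s : Finset α) {u : α → K} (hu : ∀ i ∈ s, Z.U (u i)) :
    Z.U (∏ i ∈ s, u i) := by
  classical
  induction s using Finset.induction_on with
  | empty => rw [Finset.prod_empty]; exact MP.U.one
  | insert a s ha ih =>
    rw [Finset.prod_insert ha]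
    exact (hu a (Finset.mem_insert_self _ _)).mul
      (ih fun i hi => hu i (Finset.mem_insert_of_mem hi))

lemma MP.U.pos {u : K} (hu : Z.U u) (s : Λ) : 0 < ‖algebraMap K (L s) u‖ := by
  rw [norm_pos_iff, Ne, map_eq_zero_iff _ (algebraMap K (L s)).injective]
  exact hu.ne

/-- The product formula for units. -/
lemma MP.U.pf {u : K} (hu : Z.U u) : ∏ s, ‖algebraMap K (L s) u‖ = 1 := by
  have h1 := Z.one_le u hu.mem hu.ne
  have h2 := Z.one_le u⁻¹ hu.inv_mem (inv_ne_zero hu.ne)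
  have h3 : (∏ s, ‖algebraMap K (L s) u‖) * ∏ s, ‖algebraMap K (L s) u⁻¹‖ = 1 := by
    rw [← Finset.prod_mul_distrib]
    apply Finset.prod_eq_one
    intro s _
    rw [← norm_mul, ← map_mul, mul_inv_cancel₀ hu.ne, map_one, norm_one]
  nlinarith

end units

section apply
variable {K : Type} [Field K] {Λ : Type} [Fintype Λ] {L : Λ → Type}
    [∀ s, NontriviallyNormedField (L s)] [∀ s, Algebra K (L s)]

/-- **Application of the Subspace theorem.** A large set all of whose large subsets span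
the same space `V` cannot have too small products of linear forms. -/
theorem MP.apply (Z : MP K L) {β : Type} (𝔅 : LN β)
    {Y I : Type} [Fintype Y] [DecidableEq Y]
    [Fintype I] [DecidableEq I] (y : β → Y → K) (E : Set β) (hE : 𝔅.Big E)
    (V : Submodule K (Y → K)) (hV : ∀ E' ⊆ E, 𝔅.Big E' → Submodule.span K (y '' E') = V)
    (hV2 : 2 ≤ Module.finrank K V)
    (hO : ∀ x ∈ E, ∀ k, y x k ∈ Z.O)
    (X : β → ℝ) (hX : ∀ B : ℝ, 𝔅.Big {x | x ∈ E ∧ B ≤ X x})
    (v : ∀ s, I → Y → L s) (lo hi : Λ → Finset I) (hf : ∀ s, Forms V (v s) (lo s) (hi s))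
    (b : β → Λ → I → ℝ) (B : ℝ)
    (hb : ∀ x ∈ E, ∀ s i, ‖lf (v s i) (y x)‖ ≤ b x s i)
    (hB : ∀ x ∈ E, ∀ s i, X x ^ (-B) ≤ b x s i ∧ b x s i ≤ X x ^ B)
    (C δ : ℝ) (hδ : 0 < δ) (hprod : ∀ x ∈ E, ∀ r : Λ → Finset I,
      (∀ s, lo s ⊆ r s ∧ r s ⊆ hi s ∧ (r s).card = Module.finrank K V) →
      ∏ s, ∏ i ∈ r s, b x s i ≤ C * X x ^ (-δ)) : False := by
  classical
  set M := Module.finrank K V with hM
  choose e he hlo hhi hi' using fun s =>
    basisSel V M rfl (v s) (lo s) (hi s) (hf s).hst (hf s).ind (hf s).spn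
  obtain ⟨𝒲, hW, hmain⟩ := Z.sub Y V M rfl hV2 (fun s j => v s (e s j))
    (fun s i k => (hf s).alg _ _) hi' (δ / 2) B (by positivity)
  set B0 : ℝ := max 1 ((max C 1) ^ (2 / δ)) with hB0
  have hD := hX B0
  obtain ⟨W, hWm, hWd⟩ := 𝔅.partition 𝒲 hD (fun W x => y x ∈ W) (by
    rintro x ⟨hx, hxB⟩
    have hX1 : 1 ≤ X x := (le_max_left _ _).trans hxB
    have hX0 : 0 < X x := by linarith
    apply hmain (X x) (fun s j => b x s (e s j)) hX1 (fun s j => hB x hx _ _)
    · have h3 : ∀ s, ∏ j, b x s (e s j) = ∏ i ∈ Finset.univ.image (e s), b x s i := by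
        intro s
        rw [Finset.prod_image (fun a _ b _ hab => he s hab)]
      simp only [h3]
      refine (hprod x hx _ ?_).trans ?_
      · intro s
        refine ⟨?_, ?_, ?_⟩
        · intro i hi
          obtain ⟨j, hj⟩ := hlo s i hi
          exact Finset.mem_image.mpr ⟨j, Finset.mem_univ _, hj⟩
        · intro i hi
          obtain ⟨j, -, hj⟩ := Finset.mem_image.mp hi
          rw [← hj]; exact hhi s j
        · rw [Finset.card_image_of_injective _ (he s), Finset.card_univ, Fintype.card_fin]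
      · have h5 : (max C 1) ^ (2 / δ) ≤ X x := (le_max_right _ _).trans hxB
        have h6 : max C 1 ≤ X x ^ (δ / 2) := by
          have h7 := Real.rpow_le_rpow (by positivity) h5 (by positivity : (0:ℝ) ≤ δ / 2)
          rw [← Real.rpow_mul (by positivity), show 2 / δ * (δ / 2) = 1 by field_simp,
            Real.rpow_one] at h7
          exact h7
        calc C * X x ^ (-δ) ≤ X x ^ (δ / 2) * X x ^ (-δ) := by
              apply mul_le_mul_of_nonneg_right _ (Real.rpow_nonneg hX0.le _)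
              exact (le_max_left _ _).trans h6
          _ = X x ^ (-(δ / 2)) := by
              rw [← Real.rpow_add hX0]; congr 1; ring
    · rw [← hV E subset_rfl hE]
      exact Submodule.subset_span ⟨x, hx, rfl⟩
    · exact hO x hx
    · exact fun s j => hb x hx _ _)
  have h8 := hV _ (fun x hx => hx.1.1) hWd
  have h9 : V ≤ W := by
    rw [← h8, Submodule.span_le]
    rintro _ ⟨x, hx, rfl⟩
    exact hx.2
  exact absurd h9 (not_le_of_gt (hW W hWm))

end apply

end Pool.Agent.Helper38.TP
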