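import Pool.Agent.Helper38.TP.Main

/-!
# Integral points near the corners of three hypersurface sections of a surface, over any number
field and for any finite set of places

All definitions used in the theorem are in this file.
-/

set_option autoImplicit false

namespace Pool.Agent.Results.MP_26d9ad_nt.ThreeComponents

open NumberField MvPolynomial
open scoped LinearAlgebra.Projectivization

section defs
variable {K : Type} [Field K] {N : ℕ}

/-- `(D, S)`-integral sets of points, for `D` the union of the hypersurfaces `F i = 0`: up to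
constants which are `1` at almost all places, every `F i` has the maximal possible absolute
value at all finite places outside `S`. -/
def IntegralSet [NumberField K] (S : Finset (FinitePlace K))
    (F : Fin 3 → MvPolynomial (Fin (N + 1)) K) (d : Fin 3 → ℕ)
    (T : Set (ℙ K (Fin (N + 1) → K))) : Prop :=
  ∃ c : FinitePlace K → ℝ, (∀ v, 0 < c v) ∧ {v | c v ≠ 1}.Finite ∧
    ∀ Q ∈ T, ∀ i, eval Q.rep (F i) ≠ 0 ∧
      ∀ v : FinitePlace K, v ∉ S → c v * (⨆ j, v (Q.rep j)) ^ d i ≤ v (eval Q.rep (F i))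

/-- Jacobian criterion: the only vectors killed by the differentials at `A` of all forms in `J`
are the multiples of `A`. For a common zero `A ≠ 0` of the forms in `J` this means that the
projective scheme cut out by `J` is reduced at the point `A`, and that `A` is an isolated point
of it. -/
def Reduced (J : Set (MvPolynomial (Fin (N + 1)) K)) (A : Fin (N + 1) → AlgebraicClosure K) :
    Prop :=
  ∀ v : Fin (N + 1) → AlgebraicClosure K, (∀ f ∈ J, ∑ i, aeval A (pderiv i f) * v i = 0) →
    ∃ c : AlgebraicClosure K, v = c • A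

/-- `z ↦ ∑ z ^ (p i) l i` defines a non-constant morphism from the multiplicative group to
`X ∖ D`, where `X` is cut out by `J` and `D` by the `F i`: its values lie on `X`, the function
`F i` is a non-zero constant times the `(d i) (p i)`-th power of the coordinate, and the integers
`p i` are not all equal. -/
structure IsGm (J : Set (MvPolynomial (Fin (N + 1)) K))
    (F : Fin 3 → MvPolynomial (Fin (N + 1)) K) (d : Fin 3 → ℕ)
    (l : Fin 3 → Fin (N + 1) → K) (p : Fin 3 → ℤ) : Prop where
  nonconst : ∃ i j, p i ≠ p j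
  onX : ∀ z : K, z ≠ 0 → ∀ f ∈ J, eval (∑ i, z ^ (p i) • l i) f = 0
  units : ∃ c : Fin 3 → K, (∀ i, c i ≠ 0) ∧ ∀ z : K, z ≠ 0 → ∀ i,
    eval (∑ i, z ^ (p i) • l i) (F i) = c i * z ^ ((d i : ℤ) * p i)

/-- `u ↦ ∑ (u i) l i` is a linear embedding of the projective plane in `X`, such that `F i` is
a non-zero constant times the `i`-th coordinate; in particular all degrees are one. -/
structure IsPlane (J : Set (MvPolynomial (Fin (N + 1)) K))
    (F : Fin 3 → MvPolynomial (Fin (N + 1)) K) (d : Fin 3 → ℕ)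
    (l : Fin 3 → Fin (N + 1) → K) : Prop where
  deg : ∀ i, d i = 1
  onX : ∀ u : Fin 3 → K, ∀ f ∈ J, eval (∑ i, u i • l i) f = 0
  units : ∃ c : Fin 3 → K, (∀ i, c i ≠ 0) ∧ ∀ u : Fin 3 → K, ∀ i,
    eval (∑ i, u i • l i) (F i) = c i * u i

/-- The point `Q` is a value of the morphism given by `l` and `p`. -/
def OnGm (l : Fin 3 → Fin (N + 1) → K) (p : Fin 3 → ℤ) (Q : ℙ K (Fin (N + 1) → K)) : Prop :=
  ∃ μ z : K, μ ≠ 0 ∧ z ≠ 0 ∧ Q.rep = μ • ∑ i, z ^ (p i) • l i

/-- The point `Q` lies on the plane given by `l`, outside the coordinate lines. -/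
def OnPlane (l : Fin 3 → Fin (N + 1) → K) (Q : ℙ K (Fin (N + 1) → K)) : Prop :=
  ∃ u : Fin 3 → K, (∀ i, u i ≠ 0) ∧ Q.rep = ∑ i, u i • l i

/-- Sets covered by finitely many points, finitely many images of the multiplicative group and
finitely many planes. -/
def Exceptional (J : Set (MvPolynomial (Fin (N + 1)) K))
    (F : Fin 3 → MvPolynomial (Fin (N + 1)) K) (d : Fin 3 → ℕ)
    (T : Set (ℙ K (Fin (N + 1) → K))) : Prop :=
  ∃ (A : Set (ℙ K (Fin (N + 1) → K))) (𝒯 : Set ((Fin 3 → Fin (N + 1) → K) × (Fin 3 → ℤ)))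
    (𝒬 : Set (Fin 3 → Fin (N + 1) → K)), A.Finite ∧ 𝒯.Finite ∧ 𝒬.Finite ∧
    (∀ t ∈ 𝒯, IsGm J F d t.1 t.2) ∧ (∀ l ∈ 𝒬, IsPlane J F d l) ∧
    ∀ Q ∈ T, Q ∈ A ∨ (∃ t ∈ 𝒯, OnGm t.1 t.2 Q) ∨ ∃ l ∈ 𝒬, OnPlane l Q

/-- The absolute value at `v` of the form `f` of degree `e` at the point `x`, divided by the
maximal possible size, and with the `e`-th root taken: the exponential of minus the local height
of `x` with respect to `f = 0`, divided by `e`. -/
noncomputable def prox (v : K → ℝ) (f : MvPolynomial (Fin (N + 1)) K) (e : ℕ)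
    (x : Fin (N + 1) → K) : ℝ :=
  (v (eval x f) / (⨆ k, v (x k)) ^ e) ^ ((1 : ℝ) / e)

/-- The distance to the corners at `v`: at least two of the three numbers `prox v (F j)` are at
most this number (it is the second largest of the three). -/
noncomputable def cornerDist (v : K → ℝ) (F : Fin 3 → MvPolynomial (Fin (N + 1)) K)
    (d : Fin 3 → ℕ) (x : Fin (N + 1) → K) : ℝ :=
  ⨅ i : Fin 3, ⨆ j : {j : Fin 3 // j ≠ i}, prox v (F j) (d j) x

/-- The product of the distances to the corners over the infinite places (with multiplicity) and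
the places in `S`. -/
noncomputable def cornerProd [NumberField K] (S : Finset (FinitePlace K))
    (F : Fin 3 → MvPolynomial (Fin (N + 1)) K) (d : Fin 3 → ℕ) (x : Fin (N + 1) → K) : ℝ :=
  (∏ w : InfinitePlace K, cornerDist w F d x ^ w.mult) * ∏ v ∈ S, cornerDist v F d x

/-- The point `x` is far from `D` (with constant `c`) at all infinite places and all places in
`S` with at most two exceptions, which may depend on `x`. -/
def AtMostTwo [NumberField K] (c : ℝ) (S : Finset (FinitePlace K))
    (F : Fin 3 → MvPolynomial (Fin (N + 1)) K) (d : Fin 3 → ℕ) (x : Fin (N + 1) → K) : Prop :=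
  ∃ (W : Finset (InfinitePlace K)) (V : Finset (FinitePlace K)), W.card + V.card ≤ 2 ∧
    (∀ w : InfinitePlace K, w ∉ W → ∀ i, c * (⨆ j, w (x j)) ^ d i ≤ w (eval x (F i))) ∧
    ∀ v ∈ S, v ∉ V → ∀ i, c * (⨆ j, v (x j)) ^ d i ≤ v (eval x (F i))

end defs

/-- Let `K` be a number field and `S` a finite set of finite places. Let `X` be a closed subscheme
of projective `N`-space over `K`, cut out by the forms in `J`, and let `F 0, F 1, F 2` be forms of
degrees `d i ≥ 1` without common zero on `X` over the algebraic closure, such that for `i ≠ j` the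
scheme `X ∩ {F i = F j = 0}` is finite and reduced over the algebraic closure. Let `D` be the union
of the hypersurfaces `F i = 0` and `T` a `(D, S)`-integral set of points of `X(K)`. Then
(1) the set of points of `T` whose product of the distances to the corners is at most
`C H(Q) ^ (-ε)`, and (2) the set of points of `T` which are near `D` at two infinite places or
places in `S` at most, are contained in the union of a finite set, of the images of finitely many
non-constant morphisms from the multiplicative group to `X ∖ D` over `K`, and of finitely many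
planes contained in `X` (the latter only if all `d i` are one). (3) If there is no such morphism,
then sets of this kind are finite. -/
theorem result (K : Type) [Field K] [NumberField K] (S : Finset (FinitePlace K)) (N : ℕ)
    (J : Set (MvPolynomial (Fin (N + 1)) K)) (hJ : ∀ f ∈ J, ∃ e, f.IsHomogeneous e)
    (F : Fin 3 → MvPolynomial (Fin (N + 1)) K) (d : Fin 3 → ℕ) (hd : ∀ i, 1 ≤ d i)
    (hF : ∀ i, (F i).IsHomogeneous (d i))
    (hempty : ∀ A : Fin (N + 1) → AlgebraicClosure K, (∀ f ∈ J, aeval A f = 0) →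
      (∀ i, aeval A (F i) = 0) → A = 0)
    (hred : ∀ i j, i ≠ j → ∀ A : Fin (N + 1) → AlgebraicClosure K, A ≠ 0 →
      (∀ f ∈ J ∪ {F i, F j}, aeval A f = 0) → Reduced (J ∪ {F i, F j}) A)
    (T : Set (ℙ K (Fin (N + 1) → K))) (hTX : ∀ Q ∈ T, ∀ f ∈ J, eval Q.rep f = 0)
    (hT : IntegralSet S F d T) :
    (∀ ε C : ℝ, 0 < ε → Exceptional J F d
      {Q | Q ∈ T ∧ cornerProd S F d Q.rep ≤ C * Height.mulHeight Q.rep ^ (-ε)}) ∧
    (∀ c : ℝ, 0 < c → Exceptional J F d {Q | Q ∈ T ∧ AtMostTwo c S F d Q.rep}) ∧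
    ((∀ l p, ¬ IsGm J F d l p) → ∀ A, Exceptional J F d A → A.Finite) := by
  have conv : ∀ A : Set (ℙ K (Fin (N + 1) → K)), Pool.Agent.Helper10.Sub.SmallP J F d A →
      Exceptional J F d A := by
    rintro A ⟨A₀, 𝒯, 𝒬, hA, h𝒯, h𝒬, h1, h2, h3⟩
    refine ⟨A₀, 𝒯, 𝒬, hA, h𝒯, h𝒬, ?_, ?_, h3⟩
    · intro t ht
      obtain ⟨a, b, c⟩ := h1 t ht
      exact ⟨a, b, c⟩
    · intro l hl
      obtain ⟨a, b, c⟩ := h2 l hl
      exact ⟨a, b, c⟩
  obtain ⟨h1, h2⟩ := Pool.Agent.Helper38.TP.mainG S J hJ F d hd hF (Ω := AlgebraicClosure K)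
    hempty hred T hTX hT
  refine ⟨fun ε C hε => conv _ (h1 ε C hε), fun c hc => conv _ (h2 c hc), ?_⟩
  rintro hno A ⟨A₀, 𝒯, 𝒬, hA, h𝒯, h𝒬, g1, g2, h3⟩
  refine hA.subset fun Q hQ => ?_
  rcases h3 Q hQ with h | ⟨t, ht, -⟩ | ⟨l, hl, -⟩
  · exact h
  · exact absurd (g1 t ht) (hno _ _)
  · -- a plane contains curves of the kind considered
    exfalso
    obtain ⟨hdeg, hon, c, hc, hu⟩ := g2 l hl
    apply hno l ![1, 0, 0]
    refine ⟨⟨0, 1, by simp⟩, fun z _ f hf => hon _ f hf, c, hc, fun z _ i => ?_⟩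
    rw [hu (fun i => z ^ ((![1, 0, 0] : Fin 3 → ℤ) i)) i, hdeg i]
    simp

end Pool.Agent.Results.MP_26d9ad_nt.ThreeComponents
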