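import Pool.Agent.Helper38.TP.MonG

/-!
# The estimate at one place
-/

set_option autoImplicit false

namespace Pool.Agent.Helper38.TP

open Pool.Agent.Helper10.Sub MvPolynomial

/-- Comparing powers of a bounded number. -/
lemma pow_cmp {z R : ℝ} (hz : 0 ≤ z) (hzR : z ≤ R) (hR : 1 ≤ R) {a b : ℕ} (hab : a ≤ b) :
    z ^ b ≤ R ^ b * z ^ a := by
  have h1 : z ^ b = z ^ (b - a) * z ^ a := by
    rw [← pow_add]
    congr 1
    omega
  rw [h1]
  apply mul_le_mul_of_nonneg_right _ (pow_nonneg hz a)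
  exact (pow_le_pow_left₀ hz hzR _).trans (pow_le_pow_right₀ hR (by omega))

section est
variable {K L : Type} [Field K] [NontriviallyNormedField L] [Algebra K L] {r : ℕ}

lemma trunc (a : Fin r) (p : MvPolynomial (Ix a) (algebraicClosure K L)) (R : ℝ) (hR : 1 ≤ R) :
    ∃ C : ℝ, 0 ≤ C ∧ ∀ z : Ix a → L, ‖z‖ ≤ R → ∀ t : ℕ,
      ‖aeval z p - ∑ j ∈ p.support.filter (fun j => j.degree ≤ t),
        algebraMap (algebraicClosure K L) L (coeff j p) * ∏ i, z i ^ j i‖ ≤
        C * ‖z‖ ^ (t + 1) := by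
  classical
  refine ⟨∑ j ∈ p.support, ‖algebraMap (algebraicClosure K L) L (coeff j p)‖ * R ^ j.degree,
    Finset.sum_nonneg fun j _ => by positivity, fun z hz t => ?_⟩
  have h1 : aeval z p - ∑ j ∈ p.support.filter (fun j => j.degree ≤ t),
        algebraMap (algebraicClosure K L) L (coeff j p) * ∏ i, z i ^ j i =
      ∑ j ∈ p.support.filter (fun j => ¬ j.degree ≤ t),
        algebraMap (algebraicClosure K L) L (coeff j p) * ∏ i, z i ^ j i := by
    rw [aeval_def, eval₂_eq', ← Finset.sum_filter_add_sum_filter_not p.support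
      (fun j => j.degree ≤ t), add_sub_cancel_left]
  rw [h1, Finset.sum_mul]
  refine (norm_sum_le _ _).trans ?_
  refine (Finset.sum_le_sum (g := fun j =>
    ‖algebraMap (algebraicClosure K L) L (coeff j p)‖ * R ^ j.degree * ‖z‖ ^ (t + 1)) ?_).trans ?_
  · intro j hj
    have hj' := (Finset.mem_filter.1 hj).2
    rw [norm_mul, mul_assoc]
    apply mul_le_mul_of_nonneg_left _ (norm_nonneg _)
    rw [norm_prod]
    calc ∏ i, ‖z i ^ j i‖ ≤ ∏ i, ‖z‖ ^ j i := by
          refine Finset.prod_le_prod (fun i _ => norm_nonneg _) fun i _ => ?_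
          rw [norm_pow]
          exact pow_le_pow_left₀ (norm_nonneg _) (norm_le_pi_norm z i) _
      _ = ‖z‖ ^ j.degree := by rw [Finset.prod_pow_eq_pow_sum, ← deg_I]
      _ ≤ R ^ j.degree * ‖z‖ ^ (t + 1) := pow_cmp (norm_nonneg _) hz hR (by omega)
  · apply Finset.sum_le_sum_of_subset_of_nonneg (Finset.filter_subset _ _)
    intro j _ _
    positivity

end est

section place
variable {K : Type} [Field K] [CharZero K] {L : Type} [NontriviallyNormedField L] [ProperSpace L]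
  [Algebra K L] {N r : ℕ}

/-- The estimate for the forms at one place. -/
theorem estG (J₀ : Set (MvPolynomial (Fin (N + 1)) K))
    (hJ₀ : ∀ f ∈ J₀, ∃ e, f.IsHomogeneous e)
    (F : Fin r → MvPolynomial (Fin (N + 1)) K) (d : Fin r → ℕ) (hd : ∀ i, 1 ≤ d i)
    (hF : ∀ i, (F i).IsHomogeneous (d i)) (D : Fin r → K) (hD : ∀ i, D i ≠ 0)
    (a : Fin r)
    (hempty : ∀ A : Fin (N + 1) → L, OnV J₀ A → (∀ i, aeval A (F i) = 0) → A = 0)
    (hred : ∀ A : Fin (N + 1) → L, A ≠ 0 → OnV (J₀ ∪ F '' ((Finset.univ.erase a : Finset (Fin r)) : Set (Fin r))) A →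
      Jac (J₀ ∪ F '' ((Finset.univ.erase a : Finset (Fin r)) : Set (Fin r))) A)
    (R : ℝ) (hR : 1 ≤ R) (M : ℕ) :
    ∃ (C : ℝ) (Ty : Finset (Fin (N + 1) → MvPolynomial (Ix a) (algebraicClosure K L))), 0 < C ∧
      ∀ x : Fin (N + 1) → K, (∀ f ∈ J₀, eval x f = 0) → ∀ w : Fin r → K, w a ≠ 0 →
        (∀ i, eval x (F i) = D i * w i ^ d i) → nrm L x ≤ R * ‖algebraMap K L (w a)‖ →
        ‖fun i : Ix a => algebraMap K L (w i.1 / w a)‖ ≤ R →
        ∃ P ∈ Ty, ∀ k, ∀ (A B : Type) [Fintype A] [DecidableEq A] [Fintype B] [DecidableEq B]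
          (c : Cls K r M A B) (χ : A → K) (χ' : B → K), c.Val w χ χ' → ∀ α : A,
          ‖lf (vG c a (P k) (Sum.inl α)) (Sum.elim (fun α => x k * χ α) χ')‖ ≤
            C * ‖algebraMap K L (χ α)‖ * ‖algebraMap K L (w a)‖ *
              ‖fun i : Ix a => algebraMap K L (w i.1 / w a)‖ ^ (c.rep a α a + 2) := by
  classical
  obtain ⟨C₀, Ty, hC₀, h⟩ := placeExp (L := L) J₀ hJ₀ F d hd hF D hD a (Finset.univ.erase a)
    (fun A hA h => hempty A hA fun i => h i (by
      rw [Finset.insert_erase (Finset.mem_univ a)]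
      exact Finset.mem_univ i)) hred R (M + 1)
  choose C₁ hC₁ hT using fun p : MvPolynomial (Ix a) (algebraicClosure K L) =>
    trunc a p R hR
  set C₂ : ℝ := ∑ P ∈ Ty, ∑ k, C₁ (P k) with hC₂
  have hC₂0 : 0 ≤ C₂ := Finset.sum_nonneg fun P _ => Finset.sum_nonneg fun k _ => hC₁ _
  refine ⟨C₀ * R ^ (M + 2) + C₂, Ty, by positivity, ?_⟩
  intro x hx w hwa hw hR' hz
  obtain ⟨P, hP, hPk⟩ := h x hx w hwa hw hR'
  refine ⟨P, hP, ?_⟩
  intro k A B _ _ _ _ c χ χ' hc α
  set z : Ix a → L := fun i => algebraMap K L (w i.1 / w a) with hzdef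
  have hle : c.rep a α a ≤ M := by
    have h1 := c.rep_sum a α
    have h2 := Finset.single_le_sum (f := fun i => c.rep a α i) (fun i _ => Nat.zero_le _)
      (Finset.mem_univ a)
    omega
  have hCle : C₁ (P k) ≤ C₂ := by
    have h1 : C₁ (P k) ≤ ∑ k, C₁ (P k) :=
      Finset.single_le_sum (f := fun k => C₁ (P k)) (fun k _ => hC₁ _) (Finset.mem_univ k)
    have h2 : ∑ k, C₁ (P k) ≤ C₂ :=
      Finset.single_le_sum (f := fun P => ∑ k, C₁ (P k))
        (fun P _ => Finset.sum_nonneg fun k _ => hC₁ _) hP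
    exact h1.trans h2
  rw [lf_vG_y c a (P k) hc α (x k)]
  have h1 : algebraMap K L (x k * mon w (c.rep a α)) -
      ∑ j ∈ (P k).support.filter (fun j => j.degree ≤ c.rep a α a + 1),
        algebraMap (algebraicClosure K L) L (coeff j (P k)) *
          algebraMap K L (mon w (sh a (c.rep a α) j)) =
      algebraMap K L (mon w (c.rep a α) * w a) * (algebraMap K L (x k / w a) -
        ∑ j ∈ (P k).support.filter (fun j => j.degree ≤ c.rep a α a + 1),
        algebraMap (algebraicClosure K L) L (coeff j (P k)) * ∏ i, z i ^ j i) := by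
    rw [mul_sub, ← map_mul, Finset.mul_sum]
    congr 1
    · congr 1
      field_simp
    · refine Finset.sum_congr rfl fun j hj => ?_
      rw [sh_mon w a hwa _ j (Finset.mem_filter.1 hj).2, map_mul, map_prod]
      simp only [map_pow, hzdef]
      ring
  rw [h1, ← mul_assoc, ← map_mul, ← mul_assoc, hc.val, inv_mul_cancel_left₀ (hc.ne a α),
    map_mul, norm_mul, norm_mul]
  have h2 : ‖algebraMap K L (x k / w a) -
        ∑ j ∈ (P k).support.filter (fun j => j.degree ≤ c.rep a α a + 1),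
        algebraMap (algebraicClosure K L) L (coeff j (P k)) * ∏ i, z i ^ j i‖ ≤
      (C₀ * R ^ (M + 2) + C₂) * ‖z‖ ^ (c.rep a α a + 2) := by
    have h3 := hPk k
    have h4 := hT (P k) z hz (c.rep a α a + 1)
    have h5 : ‖z‖ ^ (M + 1 + 1) ≤ R ^ (M + 2) * ‖z‖ ^ (c.rep a α a + 2) :=
      pow_cmp (norm_nonneg _) hz hR (by omega)
    calc ‖algebraMap K L (x k / w a) -
        ∑ j ∈ (P k).support.filter (fun j => j.degree ≤ c.rep a α a + 1),
        algebraMap (algebraicClosure K L) L (coeff j (P k)) * ∏ i, z i ^ j i‖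
        ≤ ‖algebraMap K L (x k / w a) - aeval z (P k)‖ + ‖aeval z (P k) -
        ∑ j ∈ (P k).support.filter (fun j => j.degree ≤ c.rep a α a + 1),
        algebraMap (algebraicClosure K L) L (coeff j (P k)) * ∏ i, z i ^ j i‖ :=
          norm_sub_le_norm_sub_add_norm_sub _ _ _
      _ ≤ C₀ * (R ^ (M + 2) * ‖z‖ ^ (c.rep a α a + 2)) +
          C₂ * ‖z‖ ^ (c.rep a α a + 2) := by
          refine add_le_add (h3.trans ?_) (h4.trans ?_)
          · exact mul_le_mul_of_nonneg_left h5 hC₀.le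
          · exact mul_le_mul_of_nonneg_right hCle (by positivity)
      _ = _ := by ring
  calc ‖algebraMap K L (χ α)‖ * ‖algebraMap K L (w a)‖ * _ ≤
      ‖algebraMap K L (χ α)‖ * ‖algebraMap K L (w a)‖ *
        ((C₀ * R ^ (M + 2) + C₂) * ‖z‖ ^ (c.rep a α a + 2)) :=
        mul_le_mul_of_nonneg_left h2 (by positivity)
    _ = _ := by ring

end place

end Pool.Agent.Helper38.TP
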