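import Pool.Agent.Helper85.RCSYS

/-!
# Products over all embeddings and products over places

Plan: `Helper85.Sub.card_fiber` (file `Helper85/SubLOCM2.lean`) and `Helper85.Sub.exists_pow`: for
`s = ⟨t, σ⟩` the place `plc s = FinitePlace.mk (qH (liftEquiv σ))`; `ST` is the image of `plc`. The
embeddings `s` with `plc s = v` all have the same prime `t` (two different primes do not lie in
the same prime ideal), and by `card_fiber` their number is the exponent `n` with `v x = ‖s.2 x‖ ^ n`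
(the exponent is unique: take `x = p`). As `ψ ≥ 0`, `ψ` is constant on the fibre, and the product
over the fibre is `φ v` (`Finset.prod_fiberwise` or similar). For the infinite places use
`InfinitePlace.card_filter_mk_eq`.
-/

set_option autoImplicit false

namespace Pool.Agent.Helper38.TP

open Pool.Agent.Helper85.Sub Pool.Agent.Helper85.RC NumberField

section
variable {K : Type} [Field K] [NumberField K] {T : Finset Nat.Primes}

/-- the finite place of an embedding -/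
noncomputable def plc (s : (Σ t : T, K →+* FF K (pr T t))) : FinitePlace K :=
  FinitePlace.mk (qH (liftEquiv s.2))

lemma plc_max (s : (Σ t : T, K →+* FF K (pr T t))) :
    (plc s).maximalIdeal = qH (liftEquiv s.2) := by
  unfold plc
  rw [FinitePlace.maximalIdeal_mk]

lemma plc_pow (s : (Σ t : T, K →+* FF K (pr T t))) :
    ∃ n : ℕ, n ≠ 0 ∧ ∀ x : K, plc s x = ‖s.2 x‖ ^ n := by
  obtain ⟨n, hn, h⟩ := exists_pow (liftEquiv s.2)
  exact ⟨n, hn, fun x => h x⟩

lemma plc_fst {s s' : (Σ t : T, K →+* FF K (pr T t))} (h : plc s = plc s') : s.1 = s'.1 := by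
  have h1 : qH (liftEquiv s.2) = qH (liftEquiv s'.2) := by
    rw [← plc_max s, ← plc_max s', h]
  have h2 : ((pr T s.1 : ℕ) : 𝓞 K) ∈ (qH (liftEquiv s.2)).asIdeal := p_mem_qH _
  have h3 : ((pr T s'.1 : ℕ) : 𝓞 K) ∈ (qH (liftEquiv s.2)).asIdeal := by
    rw [h1]; exact p_mem_qH _
  by_contra hne
  have h4 : Nat.Coprime (pr T s.1) (pr T s'.1) :=
    (Nat.coprime_primes (Fact.out (p := (pr T s.1).Prime)) (Fact.out (p := (pr T s'.1).Prime))).2
      (fun h => hne (pr_injective T h))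
  have h5 : IsCoprime ((pr T s.1 : ℕ) : ℤ) ((pr T s'.1 : ℕ) : ℤ) := Nat.isCoprime_iff_coprime.2 h4
  obtain ⟨a, b, hab⟩ := h5
  have h6 : (1 : 𝓞 K) ∈ (qH (liftEquiv s.2)).asIdeal := by
    have h7 : (1 : 𝓞 K) = (a : 𝓞 K) * ((pr T s.1 : ℕ) : 𝓞 K) +
        (b : 𝓞 K) * ((pr T s'.1 : ℕ) : 𝓞 K) := by
      have := congrArg (Int.cast : ℤ → 𝓞 K) hab
      push_cast at this
      exact this.symm
    rw [h7]
    exact Ideal.add_mem _ (Ideal.mul_mem_left _ _ h2) (Ideal.mul_mem_left _ _ h3)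
  exact (qH (liftEquiv s.2)).isPrime.ne_top ((Ideal.eq_top_iff_one _).2 h6)

lemma plc_fib (s₀ : (Σ t : T, K →+* FF K (pr T t))) :
    ∃ n : ℕ, n ≠ 0 ∧ (∀ s : (Σ t : T, K →+* FF K (pr T t)), plc s = plc s₀ →
      ∀ x : K, plc s₀ x = ‖s.2 x‖ ^ n) ∧
      Nat.card {s : (Σ t : T, K →+* FF K (pr T t)) // plc s = plc s₀} = n := by
  obtain ⟨t₀, σ₀⟩ := s₀
  obtain ⟨n, hn, -, hc, hall⟩ := card_fiber (p := pr T t₀) (qH (liftEquiv σ₀)) (p_mem_qH _)
  refine ⟨n, hn, ?_, ?_⟩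
  · rintro ⟨t, σ⟩ hs x
    have ht : t = t₀ := plc_fst hs
    subst ht
    have h1 : qH (liftEquiv σ) = qH (liftEquiv σ₀) := by
      have := plc_max (⟨t, σ⟩ : (Σ t : T, K →+* FF K (pr T t)))
      rw [hs, plc_max] at this
      exact this.symm
    exact hall (liftEquiv σ) h1 x
  · rw [← hc]
    symm
    refine Nat.card_congr (Equiv.ofBijective (fun σ => ⟨⟨t₀, liftEquiv.symm σ.1⟩, ?_⟩) ⟨?_, ?_⟩)
    · have h1 := σ.2
      unfold plc
      simp only [Equiv.apply_symm_apply, h1]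
    · rintro ⟨σ, hσ⟩ ⟨σ', hσ'⟩ h
      simp only [Subtype.mk.injEq, Sigma.mk.injEq, heq_eq_eq, true_and] at h
      exact Subtype.ext (liftEquiv.symm.injective h)
    · rintro ⟨⟨t, σ⟩, hs⟩
      have ht : t = t₀ := plc_fst hs
      subst ht
      have h1 : qH (liftEquiv σ) = qH (liftEquiv σ₀) := by
        have := plc_max (⟨t, σ⟩ : (Σ t : T, K →+* FF K (pr T t)))
        rw [hs, plc_max] at this
        exact this.symm
      refine ⟨⟨liftEquiv σ, h1⟩, ?_⟩
      simp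

end

theorem prod_lam (K : Type) [Field K] [NumberField K] (T : Finset Nat.Primes) :
    ∃ ST : Finset (FinitePlace K),
      (∀ v : FinitePlace K, (∃ t ∈ T, ((t : ℕ) : 𝓞 K) ∈ v.maximalIdeal.asIdeal) → v ∈ ST) ∧
      (∀ s : (Σ t : T, K →+* FF K (pr T t)), ∃ v ∈ ST, ∃ n : ℕ, n ≠ 0 ∧
        ∀ x : K, v x = ‖s.2 x‖ ^ n) ∧
      (∀ v ∈ ST, ∃ s : (Σ t : T, K →+* FF K (pr T t)), ∃ n : ℕ, n ≠ 0 ∧
        ∀ x : K, v x = ‖s.2 x‖ ^ n) ∧
      ∀ (ψ : Lam K T → ℝ) (φ' : InfinitePlace K → ℝ) (φ : FinitePlace K → ℝ),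
        (∀ s, 0 ≤ ψ s) → (∀ σ : K →+* ℂ, ψ (Sum.inl σ) = φ' (InfinitePlace.mk σ)) →
        (∀ (s : (Σ t : T, K →+* FF K (pr T t))) (v : FinitePlace K) (n : ℕ), n ≠ 0 →
          (∀ x : K, v x = ‖s.2 x‖ ^ n) → φ v = ψ (Sum.inr s) ^ n) →
        ∏ s, ψ s = (∏ w, φ' w ^ w.mult) * ∏ v ∈ ST, φ v := by
  classical
  refine ⟨Finset.univ.image (plc (K := K) (T := T)), ?_, ?_, ?_, ?_⟩
  · rintro v ⟨t, ht, hv⟩
    have : Fact (t : ℕ).Prime := ⟨t.2⟩
    obtain ⟨n, -, ⟨σ₀, hσ₀⟩, -, -⟩ := card_fiber (p := pr T ⟨t, ht⟩) v.maximalIdeal hv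
    refine Finset.mem_image.2 ⟨⟨⟨t, ht⟩, liftEquiv.symm σ₀⟩, Finset.mem_univ _, ?_⟩
    unfold plc
    simp only [Equiv.apply_symm_apply, hσ₀]
    exact FinitePlace.mk_maximalIdeal v
  · intro s
    obtain ⟨n, hn, h⟩ := plc_pow s
    exact ⟨plc s, Finset.mem_image_of_mem _ (Finset.mem_univ _), n, hn, h⟩
  · intro v hv
    obtain ⟨s, -, rfl⟩ := Finset.mem_image.1 hv
    obtain ⟨n, hn, h⟩ := plc_pow s
    exact ⟨s, n, hn, h⟩
  · intro ψ φ' φ h0 hinf hfin
    rw [Fintype.prod_sum_type]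
    congr 1
    · rw [← Finset.prod_fiberwise (s := Finset.univ) (g := fun σ : K →+* ℂ => InfinitePlace.mk σ)]
      refine Finset.prod_congr rfl fun w _ => ?_
      rw [← InfinitePlace.card_filter_mk_eq w]
      refine Finset.prod_eq_pow_card fun σ hσ => ?_
      rw [hinf, (Finset.mem_filter.1 hσ).2]
    · rw [← Finset.prod_fiberwise_of_maps_to (s := Finset.univ) (t := Finset.univ.image (plc (K := K) (T := T)))
        (g := plc) (fun s _ => Finset.mem_image_of_mem _ (Finset.mem_univ _))]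
      refine Finset.prod_congr rfl fun v hv => ?_
      obtain ⟨s₀, -, rfl⟩ := Finset.mem_image.1 hv
      obtain ⟨n, hn, hall, hc⟩ := plc_fib s₀
      have hcard : (Finset.univ.filter (fun s : (Σ t : T, K →+* FF K (pr T t)) =>
          plc s = plc s₀)).card = n := by
        rw [← hc, Nat.card_eq_fintype_card, Fintype.card_subtype]
      have hc0 : ∀ s : (Σ t : T, K →+* FF K (pr T t)), plc s = plc s₀ →
          ψ (Sum.inr s) = ψ (Sum.inr s₀) := by
        intro s hs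
        have h1 := hfin s (plc s₀) n hn (hall s hs)
        have h2 := hfin s₀ (plc s₀) n hn (hall s₀ rfl)
        rw [h1] at h2
        exact (pow_left_inj₀ (h0 _) (h0 _) hn).1 h2
      rw [Finset.prod_eq_pow_card (b := ψ (Sum.inr s₀)) (fun s hs => hc0 s (Finset.mem_filter.1 hs).2),
        hcard]
      exact (hfin s₀ (plc s₀) n hn (hall s₀ rfl)).symm

end Pool.Agent.Helper38.TP
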