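import Pool.Agent.Helper38.TP.LF
import Pool.Agent.Helper38.TP.Ht
import Pool.Agent.Helper38.TP.ProdLam
import Pool.Agent.Helper38.TP.CD

/-!
# The distance to the corners, in terms of the units

Plan. At an embedding `s` put `ν = ‖algebraMap K (LF K T s) ·‖`. As
`ν (F j x) / (⨆ k, ν (x k)) ^ d j = ν (D j) * (ν (w j) / nrm x) ^ d j`, we have
`prox ν (F j) (d j) x = ν (D j) ^ (1 / d j) * (ν (w j) / nrm x)`. With `a = a s`: for `i = a` the
maximum over `j ≠ i` of `ν (w j)` is the one in the claim, for `i ≠ a` it is at least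
`ν (w a) ≥ nrm x / C₁ ≥ ν (w j) / C₁ ^ 2` for all `j`; so (`le_cd_iff`)
`max .. / nrm x ≤ Cs * cornerDist ν F d x`. The product over `s` of `cornerDist ν_s F d x` is
`(∏ w, cornerDist w F d x ^ mult w) * ∏ v ∈ ST, cornerDist v F d x` by `prod_lam` and `cd_pow`,
`S ⊆ ST`, and for `v ∈ ST \ S` `cornerDist v F d x ≤ C_v` (as `v = ν_s ^ n` for some `s`,
`prox ν_s ..` is bounded: `Helper10.Sub.aeval_le`, or by the hypothesis on `‖w i‖_s`).
-/

set_option autoImplicit false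

namespace Pool.Agent.Helper38.TP

open Pool.Agent.Helper85.Sub Pool.Agent.Helper85.RC Pool.Agent.Helper10.Sub NumberField
open MvPolynomial

section local_field
variable {K : Type} [Field K] {N : ℕ} (L : Type) [NontriviallyNormedField L] [Algebra K L]

/-- The absolute value of the embedding. -/
noncomputable def gapNu : K → ℝ := fun y => ‖algebraMap K L y‖

lemma gapNu_sup (x : Fin (N + 1) → K) : (⨆ k, gapNu L (x k)) = nrm L x := by
  apply le_antisymm
  · exact ciSup_le fun k => le_nrm x k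
  · unfold nrm
    have h0 : 0 ≤ ⨆ k, gapNu L (x k) := Real.iSup_nonneg fun k => norm_nonneg _
    refine (pi_norm_le_iff_of_nonneg h0).2 fun k => ?_
    exact le_ciSup (f := fun k => gapNu L (x k)) (Set.finite_range _).bddAbove k

/-- The size of the root of the coefficient. -/
noncomputable def gapAl (D : Fin 3 → K) (d : Fin 3 → ℕ) (j : Fin 3) : ℝ :=
  gapNu L (D j) ^ ((1 : ℝ) / d j)

lemma gapAl_pos (D : Fin 3 → K) (hD : ∀ i, D i ≠ 0) (d : Fin 3 → ℕ) (j : Fin 3) :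
    0 < gapAl L D d j := by
  apply Real.rpow_pos_of_pos
  unfold gapNu
  rw [norm_pos_iff, Ne, map_eq_zero_iff _ (algebraMap K L).injective]
  exact hD j

lemma gap_prox (F : Fin 3 → MvPolynomial (Fin (N + 1)) K) (d : Fin 3 → ℕ) (hd : ∀ i, 1 ≤ d i)
    (D : Fin 3 → K) (x : Fin (N + 1) → K) (w : Fin 3 → K)
    (hF : ∀ i, eval x (F i) = D i * w i ^ d i) (j : Fin 3) :
    prox (gapNu L) (F j) (d j) x = gapAl L D d j * (gapNu L (w j) / nrm L x) := by
  unfold prox gapAl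
  rw [gapNu_sup, hF]
  have h1 : gapNu L (D j * w j ^ d j) / nrm L x ^ d j =
      gapNu L (D j) * (gapNu L (w j) / nrm L x) ^ d j := by
    unfold gapNu
    rw [map_mul, map_pow, norm_mul, norm_pow, div_pow, mul_div_assoc]
  have h2 : 0 ≤ gapNu L (w j) / nrm L x := div_nonneg (norm_nonneg _) (nrm_nonneg _)
  have h0 : 0 ≤ gapNu L (D j) := norm_nonneg _
  rw [h1, Real.mul_rpow h0 (pow_nonneg h2 _), one_div,
    Real.pow_rpow_inv_natCast h2 (by have := hd j; omega)]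

lemma gap_local (F : Fin 3 → MvPolynomial (Fin (N + 1)) K) (d : Fin 3 → ℕ) (hd : ∀ i, 1 ≤ d i)
    (D : Fin 3 → K) (hD : ∀ i, D i ≠ 0) (C₁ : ℝ) (hC₁ : 1 ≤ C₁) (x : Fin (N + 1) → K)
    (w : Fin 3 → K) (hx : x ≠ 0) (hF : ∀ i, eval x (F i) = D i * w i ^ d i) (a : Fin 3)
    (h₁ : nrm L x ≤ C₁ * ‖algebraMap K L (w a)‖)
    (h₂ : ∀ i, ‖algebraMap K L (w i)‖ ≤ C₁ * nrm L x) :
    max ‖algebraMap K L (w (a + 1))‖ ‖algebraMap K L (w (a + 2))‖ / nrm L x ≤
      (C₁ ^ 2 * ∑ j, (gapAl L D d j)⁻¹) * cornerDist (gapNu L) F d x := by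
  have hX : 0 < nrm L x := nrm_pos hx
  have hal := gapAl_pos L D hD d
  have hinv : ∀ j, (gapAl L D d j)⁻¹ ≤ ∑ j, (gapAl L D d j)⁻¹ := fun j =>
    Finset.single_le_sum (f := fun j => (gapAl L D d j)⁻¹)
      (fun i _ => (inv_pos.2 (hal i)).le) (Finset.mem_univ j)
  set sg : ℝ := ∑ j, (gapAl L D d j)⁻¹ with hsg
  have hsg0 : 0 < sg := lt_of_lt_of_le (inv_pos.2 (hal 0)) (hinv 0)
  have hC2 : 1 ≤ C₁ ^ 2 := one_le_pow₀ hC₁
  have hCs : 0 < C₁ ^ 2 * sg := by positivity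
  -- `C₁ ^ 2 ≤ Cs * α j`
  have hkey : ∀ j, C₁ ^ 2 ≤ (C₁ ^ 2 * sg) * gapAl L D d j := by
    intro j
    have h3 : 1 ≤ sg * gapAl L D d j := by
      have h4 := mul_le_mul_of_nonneg_right (hinv j) (hal j).le
      rwa [inv_mul_cancel₀ (hal j).ne'] at h4
    calc C₁ ^ 2 = C₁ ^ 2 * 1 := (mul_one _).symm
      _ ≤ C₁ ^ 2 * (sg * gapAl L D d j) := by gcongr
      _ = _ := by ring
  set m : ℝ := max ‖algebraMap K L (w (a + 1))‖ ‖algebraMap K L (w (a + 2))‖ with hm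
  have hm0 : 0 ≤ m := (norm_nonneg _).trans (le_max_left _ _)
  have hmle : m ≤ C₁ * nrm L x := max_le (h₂ _) (h₂ _)
  suffices h : m / nrm L x / (C₁ ^ 2 * sg) ≤ cornerDist (gapNu L) F d x by
    rwa [div_le_iff₀ hCs, mul_comm] at h
  rw [le_cd_iff]
  intro i
  by_cases hi : i = a
  · subst hi
    rcases max_choice ‖algebraMap K L (w (i + 1))‖ ‖algebraMap K L (w (i + 2))‖ with hmx | hmx
    · refine ⟨i + 1, by fin_cases i <;> decide, ?_⟩
      rw [gap_prox L F d hd D x w hF, div_le_iff₀ hCs]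
      have h5 : gapNu L (w (i + 1)) = m := hmx.symm
      rw [h5]
      calc m / nrm L x = 1 * (m / nrm L x) := (one_mul _).symm
        _ ≤ ((C₁ ^ 2 * sg) * gapAl L D d (i + 1)) * (m / nrm L x) := by
            gcongr
            exact hC2.trans (hkey _)
        _ = _ := by ring
    · refine ⟨i + 2, by fin_cases i <;> decide, ?_⟩
      rw [gap_prox L F d hd D x w hF, div_le_iff₀ hCs]
      have h5 : gapNu L (w (i + 2)) = m := hmx.symm
      rw [h5]
      calc m / nrm L x = 1 * (m / nrm L x) := (one_mul _).symm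
        _ ≤ ((C₁ ^ 2 * sg) * gapAl L D d (i + 2)) * (m / nrm L x) := by
            gcongr
            exact hC2.trans (hkey _)
        _ = _ := by ring
  · refine ⟨a, fun h => hi h.symm, ?_⟩
    rw [gap_prox L F d hd D x w hF, div_le_iff₀ hCs]
    have h6 : 1 ≤ C₁ * (gapNu L (w a) / nrm L x) := by
      rw [← mul_div_assoc, le_div_iff₀ hX, one_mul]
      exact h₁
    have h7 : m / nrm L x ≤ C₁ := by
      rw [div_le_iff₀ hX]
      exact hmle
    have h8 : 0 ≤ gapNu L (w a) / nrm L x := div_nonneg (norm_nonneg _) hX.le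
    calc m / nrm L x ≤ C₁ * 1 := by rw [mul_one]; exact h7
      _ ≤ C₁ * (C₁ * (gapNu L (w a) / nrm L x)) := by gcongr
      _ = C₁ ^ 2 * (gapNu L (w a) / nrm L x) := by ring
      _ ≤ ((C₁ ^ 2 * sg) * gapAl L D d a) * (gapNu L (w a) / nrm L x) := by
          gcongr
          exact hkey a
      _ = _ := by ring

lemma gap_bdd (F : Fin 3 → MvPolynomial (Fin (N + 1)) K) (d : Fin 3 → ℕ) (hd : ∀ i, 1 ≤ d i)
    (D : Fin 3 → K) (hD : ∀ i, D i ≠ 0) (C₁ : ℝ) (x : Fin (N + 1) → K)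
    (w : Fin 3 → K) (hx : x ≠ 0) (hF : ∀ i, eval x (F i) = D i * w i ^ d i)
    (h₂ : ∀ i, ‖algebraMap K L (w i)‖ ≤ C₁ * nrm L x) :
    cornerDist (gapNu L) F d x ≤ (∑ j, gapAl L D d j) * C₁ := by
  have hX : 0 < nrm L x := nrm_pos hx
  have hal := gapAl_pos L D hD d
  rw [cd_le_iff]
  refine ⟨0, fun j _ => ?_⟩
  rw [gap_prox L F d hd D x w hF]
  have h3 : gapNu L (w j) / nrm L x ≤ C₁ := by
    rw [div_le_iff₀ hX]
    exact h₂ j
  have h4 : 0 ≤ gapNu L (w j) / nrm L x := div_nonneg (norm_nonneg _) hX.le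
  have h5 : gapAl L D d j ≤ ∑ j, gapAl L D d j :=
    Finset.single_le_sum (f := fun j => gapAl L D d j) (fun i _ => (hal i).le) (Finset.mem_univ j)
  exact mul_le_mul h5 h3 h4 (Finset.sum_nonneg fun i _ => (hal i).le)

end local_field

theorem gap_le {K : Type} [Field K] [NumberField K] (T : Finset Nat.Primes)
    (S : Finset (FinitePlace K))
    (hS : ∀ v ∈ S, ∃ t ∈ T, ((t : ℕ) : 𝓞 K) ∈ v.maximalIdeal.asIdeal) {N : ℕ}
    (F : Fin 3 → MvPolynomial (Fin (N + 1)) K) (d : Fin 3 → ℕ) (hd : ∀ i, 1 ≤ d i)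
    (D : Fin 3 → K) (hD : ∀ i, D i ≠ 0) (C₁ : ℝ) (hC₁ : 1 ≤ C₁) :
    ∃ C' : ℝ, 0 ≤ C' ∧ ∀ (x : Fin (N + 1) → K) (w : Fin 3 → K), x ≠ 0 → (∀ i, w i ≠ 0) →
      (∀ i, eval x (F i) = D i * w i ^ d i) → ∀ a : Lam K T → Fin 3,
      (∀ s, nrm (LF K T s) x ≤ C₁ * ‖algebraMap K (LF K T s) (w (a s))‖) →
      (∀ s i, ‖algebraMap K (LF K T s) (w i)‖ ≤ C₁ * nrm (LF K T s) x) →
      ∏ s, (max ‖algebraMap K (LF K T s) (w (a s + 1))‖
        ‖algebraMap K (LF K T s) (w (a s + 2))‖ / nrm (LF K T s) x) ≤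
        C' * ((∏ w : InfinitePlace K, cornerDist w F d x ^ w.mult) *
          ∏ v ∈ S, cornerDist v F d x) := by
  classical
  obtain ⟨ST, hST1, -, hST3, hST4⟩ := prod_lam K T
  have hSST : S ⊆ ST := fun v hv => hST1 v (hS v hv)
  have hB : ∀ v : FinitePlace K, ∃ B : ℝ, 0 ≤ B ∧ (v ∈ ST →
      ∀ (x : Fin (N + 1) → K) (w : Fin 3 → K), x ≠ 0 → (∀ i, eval x (F i) = D i * w i ^ d i) →
      (∀ s i, ‖algebraMap K (LF K T s) (w i)‖ ≤ C₁ * nrm (LF K T s) x) →
      cornerDist v F d x ≤ B) := by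
    intro v
    by_cases hv : v ∈ ST
    · obtain ⟨s, n, hn, hs⟩ := hST3 v hv
      have h1 : 0 ≤ ∑ j, gapAl (LF K T (Sum.inr s)) D d j :=
        Finset.sum_nonneg fun j _ => (gapAl_pos _ D hD d j).le
      refine ⟨((∑ j, gapAl (LF K T (Sum.inr s)) D d j) * C₁) ^ n, by positivity, ?_⟩
      intro _ x w hx hF h₂
      have h3 := cd_pow v (gapNu (LF K T (Sum.inr s))) F d x n hn
        (fun y => hs y) (fun y => norm_nonneg _)
      rw [h3]
      exact pow_le_pow_left₀ (cd_nonneg _ F d x fun y => norm_nonneg _)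
        (gap_bdd (LF K T (Sum.inr s)) F d hd D hD C₁ x w hx hF (fun i => h₂ _ i)) _
    · exact ⟨0, le_rfl, fun h => absurd h hv⟩
  choose Bv hBv hBv' using hB
  -- the constants
  let Cs : Lam K T → ℝ := fun s => C₁ ^ 2 * ∑ j, (gapAl (LF K T s) D d j)⁻¹
  have hCs : ∀ s, 0 ≤ Cs s := fun s => by
    have := fun j => (gapAl_pos (LF K T s) D hD d j).le
    have h1 : 0 ≤ ∑ j, (gapAl (LF K T s) D d j)⁻¹ :=
      Finset.sum_nonneg fun j _ => inv_nonneg.2 (this j)
    show 0 ≤ C₁ ^ 2 * ∑ j, (gapAl (LF K T s) D d j)⁻¹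
    positivity
  refine ⟨(∏ s, Cs s) * ∏ v ∈ ST \ S, Bv v,
    mul_nonneg (Finset.prod_nonneg fun s _ => hCs s) (Finset.prod_nonneg fun v _ => hBv v), ?_⟩
  intro x w hx _ hF a h₁ h₂
  have hcd0 : ∀ s : Lam K T, 0 ≤ cornerDist (gapNu (LF K T s)) F d x := fun s =>
    cd_nonneg _ F d x fun y => norm_nonneg _
  have hcdF : ∀ v : FinitePlace K, 0 ≤ cornerDist v F d x := fun v =>
    cd_nonneg _ F d x fun y => apply_nonneg v y
  have hcdI : ∀ v : InfinitePlace K, 0 ≤ cornerDist v F d x := fun v =>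
    cd_nonneg _ F d x fun y => apply_nonneg v y
  have hprod : ∏ s, cornerDist (gapNu (LF K T s)) F d x =
      (∏ w : InfinitePlace K, cornerDist w F d x ^ w.mult) * ∏ v ∈ ST, cornerDist v F d x := by
    refine hST4 (fun s => cornerDist (gapNu (LF K T s)) F d x)
      (fun w => cornerDist w F d x) (fun v => cornerDist v F d x) hcd0 ?_ ?_
    · intro σ
      have h3 : (gapNu (LF K T (Sum.inl σ)) : K → ℝ) = (InfinitePlace.mk σ : K → ℝ) := by
        funext y
        exact (InfinitePlace.apply σ y).symm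
      show cornerDist (gapNu (LF K T (Sum.inl σ))) F d x = cornerDist (InfinitePlace.mk σ) F d x
      rw [h3]
    · intro s v n hn hv
      exact cd_pow v (gapNu (LF K T (Sum.inr s))) F d x n hn (fun y => hv y)
        (fun y => norm_nonneg _)
  have hbd : ∀ v ∈ ST, cornerDist v F d x ≤ Bv v := fun v hv => hBv' v hv x w hx hF h₂
  calc ∏ s, (max ‖algebraMap K (LF K T s) (w (a s + 1))‖
        ‖algebraMap K (LF K T s) (w (a s + 2))‖ / nrm (LF K T s) x)
      ≤ ∏ s, (Cs s * cornerDist (gapNu (LF K T s)) F d x) := by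
        apply Finset.prod_le_prod
        · intro s _
          exact div_nonneg ((norm_nonneg _).trans (le_max_left _ _)) (nrm_nonneg _)
        · intro s _
          exact gap_local (LF K T s) F d hd D hD C₁ hC₁ x w hx hF (a s) (h₁ s) (h₂ s)
    _ = (∏ s, Cs s) * ((∏ w : InfinitePlace K, cornerDist w F d x ^ w.mult) *
          ((∏ v ∈ ST \ S, cornerDist v F d x) * ∏ v ∈ S, cornerDist v F d x)) := by
        rw [Finset.prod_mul_distrib, hprod, Finset.prod_sdiff hSST]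
    _ ≤ (∏ s, Cs s) * ((∏ w : InfinitePlace K, cornerDist w F d x ^ w.mult) *
          ((∏ v ∈ ST \ S, Bv v) * ∏ v ∈ S, cornerDist v F d x)) := by
        have h4 : ∏ v ∈ ST \ S, cornerDist v F d x ≤ ∏ v ∈ ST \ S, Bv v :=
          Finset.prod_le_prod (fun v _ => hcdF v) fun v hv => hbd v (Finset.mem_sdiff.1 hv).1
        have h5 : 0 ≤ ∏ w : InfinitePlace K, cornerDist w F d x ^ w.mult :=
          Finset.prod_nonneg fun w _ => pow_nonneg (hcdI w) _
        have h6 : 0 ≤ ∏ v ∈ S, cornerDist v F d x := Finset.prod_nonneg fun v _ => hcdF v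
        have h7 : 0 ≤ ∏ s, Cs s := Finset.prod_nonneg fun s _ => hCs s
        gcongr
    _ = _ := by ring

end Pool.Agent.Helper38.TP
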