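import Pool.Agent.Helper38.TP.LF

/-!
# The system of all embeddings

Plan: `O = OP K (pprod (pr T))`; `one_le` is `Helper85.RC.one_le_prod`, `fin` is
`Helper85.RC.finite_le` (use `norm_av`); `sub` is as in `Helper94.Sub.subHyp_gen`
(`exists_coordsK`, `fmat`, `lf_eq`, `det_fmat`, `alg_fmat`) and `Helper85.RC.sub_av`
(`Helper98.Sub.subspaceK` with `Helper94.Sub.subspaceF_all`), but with the given forms at every
embedding (no roots, no trivial forms): the matrix at `s` is `fmat R (l s)`.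
-/

set_option autoImplicit false
set_option linter.unusedSectionVars false
set_option linter.style.haveILetI false

namespace Pool.Agent.Helper38.TP

open Pool.Agent.Helper85.Sub Pool.Agent.Helper85.RC Pool.Agent.Helper10.Sub NumberField
open Pool.Agent.Helper94.Sub

instance instC (K : Type) [Field K] [NumberField K] (T : Finset Nat.Primes) :
    ∀ s : Lam K T, CharZero (LF K T s)
  | Sum.inl _ => inferInstanceAs (CharZero ℂ)
  | Sum.inr s => inferInstanceAs (CharZero (FF K (pr T s.1)))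

section sub
variable {K : Type} [Field K] [NumberField K] {T : Finset Nat.Primes}
  {Y : Type} [Fintype Y] [DecidableEq Y] {V : Submodule K (Y → K)} {M : ℕ}

/-- The matrix at a complex embedding. -/
noncomputable def mC (R : Y → Fin M → K) (l : ∀ s, Fin M → Y → LF K T s) (σ : K →+* ℂ) :
    Matrix (Fin M) (Fin M) ℂ :=
  fmat (L := LF K T (Sum.inl σ)) R (l (Sum.inl σ))

/-- The matrix at a `p`-adic embedding. -/
noncomputable def mF (R : Y → Fin M → K) (l : ∀ s, Fin M → Y → LF K T s) (t : T)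
    (σ : K →+* FF K (pr T t)) : Matrix (Fin M) (Fin M) (FF K (pr T t)) :=
  fmat (L := LF K T (Sum.inr ⟨t, σ⟩)) R (l (Sum.inr ⟨t, σ⟩))

lemma mC_alg (R : Y → Fin M → K) (l : ∀ s, Fin M → Y → LF K T s)
    (halg : ∀ s i k, IsAlgebraic K (l s i k)) (σ : K →+* ℂ) (i j : Fin M) :
    IsAlgebraic ℚ (mC R l σ i j) :=
  alg_fmat (L := LF K T (Sum.inl σ)) (F := ℂ) (RingHom.id ℂ) R (l (Sum.inl σ))
    (halg (Sum.inl σ)) i j

lemma mF_alg (R : Y → Fin M → K) (l : ∀ s, Fin M → Y → LF K T s)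
    (halg : ∀ s i k, IsAlgebraic K (l s i k)) (t : T) (σ : K →+* FF K (pr T t)) (i j : Fin M) :
    IsAlgebraic ℚ (mF R l t σ i j) :=
  alg_fmat (L := LF K T (Sum.inr ⟨t, σ⟩)) (F := FF K (pr T t)) (RingHom.id _) R
    (l (Sum.inr ⟨t, σ⟩)) (halg (Sum.inr ⟨t, σ⟩)) i j

lemma mC_det (e : Fin M → Y) (R : Y → Fin M → K)
    (hR : ∀ y ∈ V, ∀ l, y l = ∑ k, R l k * y (e k)) (l : ∀ s, Fin M → Y → LF K T s)
    (hind : ∀ s, ∀ c : Fin M → LF K T s, (∀ y ∈ V, ∑ i, c i * lf (l s i) y = 0) → c = 0)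
    (σ : K →+* ℂ) : (mC R l σ).det ≠ 0 :=
  det_fmat (L := LF K T (Sum.inl σ)) e R hR (l (Sum.inl σ)) (hind (Sum.inl σ))

lemma mF_det (e : Fin M → Y) (R : Y → Fin M → K)
    (hR : ∀ y ∈ V, ∀ l, y l = ∑ k, R l k * y (e k)) (l : ∀ s, Fin M → Y → LF K T s)
    (hind : ∀ s, ∀ c : Fin M → LF K T s, (∀ y ∈ V, ∑ i, c i * lf (l s i) y = 0) → c = 0)
    (t : T) (σ : K →+* FF K (pr T t)) : (mF R l t σ).det ≠ 0 :=
  det_fmat (L := LF K T (Sum.inr ⟨t, σ⟩)) e R hR (l (Sum.inr ⟨t, σ⟩)) (hind (Sum.inr ⟨t, σ⟩))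

lemma mC_sum (e : Fin M → Y) (R : Y → Fin M → K)
    (hR : ∀ y ∈ V, ∀ l, y l = ∑ k, R l k * y (e k)) (l : ∀ s, Fin M → Y → LF K T s)
    (σ : K →+* ℂ) (y : Y → K) (hy : y ∈ V) (i : Fin M) :
    ‖∑ j, mC R l σ i j * σ (y (e j))‖ = ‖lf (l (Sum.inl σ) i) y‖ := by
  rw [lf_eq (L := LF K T (Sum.inl σ)) e R hR (l (Sum.inl σ)) y hy i]
  rfl

lemma mF_sum (e : Fin M → Y) (R : Y → Fin M → K)
    (hR : ∀ y ∈ V, ∀ l, y l = ∑ k, R l k * y (e k)) (l : ∀ s, Fin M → Y → LF K T s)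
    (t : T) (σ : K →+* FF K (pr T t)) (y : Y → K) (hy : y ∈ V) (i : Fin M) :
    ‖∑ j, mF R l t σ i j * σ (y (e j))‖ = ‖lf (l (Sum.inr ⟨t, σ⟩) i) y‖ := by
  rw [lf_eq (L := LF K T (Sum.inr ⟨t, σ⟩)) e R hR (l (Sum.inr ⟨t, σ⟩)) y hy i]
  rfl

end sub

theorem exists_mp (K : Type) [Field K] [NumberField K] (T : Finset Nat.Primes) :
    ∃ Z : MP K (LF K T), Z.O = OP K (pprod (pr T)) := by
  classical
  refine ⟨{ O := OP K (pprod (pr T)), one_le := ?_, fin := ?_, sub := ?_ }, rfl⟩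
  · intro x hx h0
    simp only [norm_av]
    exact one_le_prod hx h0
  · intro B
    simp only [norm_av]
    exact finite_le B
  · intro Y _ _ V M hVM hM l halg hind δ B hδ
    obtain ⟨e, R, hR, hR'⟩ := exists_coordsK V M hVM
    let Fl : T → Type := fun t => FF K (pr T t)
    letI : ∀ t, NontriviallyNormedField (Fl t) := fun t => instNNF
    letI : ∀ t, NormedAlgebra ℚ_[pr T t] (Fl t) := fun t => instNA
    haveI : ∀ t, FiniteDimensional ℚ_[pr T t] (Fl t) := fun t => ff_finite K (pr T t)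
    haveI : ∀ t, CharZero (Fl t) := fun t => inferInstanceAs (CharZero (FF K (pr T t)))
    letI : ∀ t, Fintype (K →+* Fl t) := fun t => inferInstanceAs (Fintype (K →+* FF K (pr T t)))
    obtain ⟨𝒲, h𝒲, hmain⟩ := Pool.Agent.Helper98.Sub.subspaceK Fl (fun t => card_emb) M hM δ B hδ
      (fun ι _ _ hι A A' algA algA' dA dA' =>
        Pool.Agent.Helper94.Sub.subspaceF_all Fl (fun t => ff_span) (δ / 2) (B + 1)
          (pr_injective T) hι (by positivity) A A' algA algA' dA dA')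
      (fun σ => mC R l σ) (fun t σ => mF R l t σ)
      (fun σ i j => mC_alg R l halg σ i j) (fun t σ i j => mF_alg R l halg t σ i j)
      (fun σ => mC_det e R hR l hind σ) (fun t σ => mF_det e R hR l hind t σ)
    refine ⟨𝒲.image fun W => V ⊓ W.comap (LinearMap.funLeft K K e), ?_, ?_⟩
    · intro W hW
      obtain ⟨W', hW', rfl⟩ := Finset.mem_image.1 hW
      refine lt_of_le_of_ne inf_le_left ?_
      intro heq
      apply h𝒲 W' hW'
      rw [eq_top_iff]
      intro x _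
      obtain ⟨h3, h4⟩ := hR' x
      rw [← heq] at h3
      have h5 := h3.2
      have h6 : LinearMap.funLeft K K e (fun l => ∑ k, R l k * x k) = x := by
        funext k
        exact h4 k
      rw [SetLike.mem_coe, Submodule.mem_comap, h6] at h5
      exact h5
    · intro Q a hQ ha hprod y hy hyO hya
      have hp : (∏ σ, ∏ i, a (Sum.inl σ) i) * ∏ t, ∏ σ, ∏ i, a (Sum.inr ⟨t, σ⟩) i ≤
          Q ^ (-δ) := by
        refine le_trans (le_of_eq ?_) hprod
        rw [Fintype.prod_sum_type, Fintype.prod_sigma]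
      obtain ⟨W, hW, hyW⟩ := hmain Q (fun σ => a (Sum.inl σ)) (fun t σ => a (Sum.inr ⟨t, σ⟩)) hQ
        (fun σ i => ha _ _) (fun t σ i => ha _ _) hp (fun k => y (e k))
        (fun k => hyO _)
        (fun σ i => by
          rw [mC_sum e R hR l σ y hy i]
          exact hya _ _)
        (fun t σ i => by
          have h1 := mF_sum e R hR l t σ y hy i
          have h2 := hya (Sum.inr ⟨t, σ⟩) i
          rw [← h1] at h2
          exact h2)
      exact ⟨_, Finset.mem_image_of_mem _ hW, hy, hyW⟩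

end Pool.Agent.Helper38.TP
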