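import Pool.Agent.Helper85.RCSYS
import Pool.Agent.Helper94.Sub.TwoSub
import Pool.Agent.Helper38.TP.Defs

/-!
# The local fields at all embeddings of a number field
-/

set_option autoImplicit false

namespace Pool.Agent.Helper38.TP

open Pool.Agent.Helper85.Sub Pool.Agent.Helper85.RC Pool.Agent.Helper10.Sub NumberField

/-- The local field of an embedding. -/
def LF (K : Type) [Field K] [NumberField K] (T : Finset Nat.Primes) : Lam K T → Type
  | Sum.inl _ => ℂ
  | Sum.inr s => FF K (pr T s.1)

variable (K : Type) [Field K] [NumberField K] (T : Finset Nat.Primes)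

noncomputable instance instN : ∀ s : Lam K T, NontriviallyNormedField (LF K T s)
  | Sum.inl _ => inferInstanceAs (NontriviallyNormedField ℂ)
  | Sum.inr s => inferInstanceAs (NontriviallyNormedField (FF K (pr T s.1)))

instance instP : ∀ s : Lam K T, ProperSpace (LF K T s)
  | Sum.inl _ => inferInstanceAs (ProperSpace ℂ)
  | Sum.inr s => by
    haveI := ff_finite K (pr T s.1)
    exact FiniteDimensional.proper ℚ_[pr T s.1] (FF K (pr T s.1))

noncomputable instance instA : ∀ s : Lam K T, Algebra K (LF K T s)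
  | Sum.inl σ => σ.toAlgebra
  | Sum.inr s => s.2.toAlgebra

variable {K T}

lemma norm_inl (σ : K →+* ℂ) (x : K) : ‖algebraMap K (LF K T (Sum.inl σ)) x‖ = ‖σ x‖ := rfl

lemma norm_inr (t : T) (σ : K →+* FF K (pr T t)) (x : K) :
    ‖algebraMap K (LF K T (Sum.inr ⟨t, σ⟩)) x‖ = ‖σ x‖ := rfl

lemma norm_av (s : Lam K T) (x : K) : ‖algebraMap K (LF K T s) x‖ = av K T s x := by
  rcases s with σ | ⟨t, σ⟩
  · rfl
  · rfl

end Pool.Agent.Helper38.TP
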