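import Pool.Agent.Helper38.TP.Defs

/-!
# Units modulo powers

The vectors `(log ‖u‖_s)_s` of the units span a subspace of `Λ → ℝ`, spanned by the vectors of
finitely many units `g v`. For a unit `u` with vector `∑ f_v v` let `w = ∏ (g v) ^ ⌊f_v / d⌋`: the
vector of `u / w ^ d` is `∑ (f_v - d ⌊f_v / d⌋) v`, which is bounded, and `Z.fin` gives the
finiteness of the set of these units.
-/

set_option autoImplicit false

namespace Pool.Agent.Helper38.TP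

theorem pow_zpow {K : Type} [Field K] {Λ : Type} [Fintype Λ] {L : Λ → Type}
    [∀ s, NontriviallyNormedField (L s)] [∀ s, Algebra K (L s)] {Z : MP K L} {u : K}
    (hu : Z.U u) (m : ℤ) : Z.U (u ^ m) := by
  obtain ⟨n, rfl | rfl⟩ := m.eq_nat_or_neg
  · rw [zpow_natCast]
    exact hu.pow n
  · rw [zpow_neg, zpow_natCast]
    exact (hu.pow n).inv

theorem pow_reps {K : Type} [Field K] {Λ : Type} [Fintype Λ] {L : Λ → Type}
    [∀ s, NontriviallyNormedField (L s)] [∀ s, Algebra K (L s)] (Z : MP K L) (d : ℕ)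
    (hd : 1 ≤ d) :
    ∃ 𝒞 : Finset K, (∀ c ∈ 𝒞, Z.U c) ∧ ∀ u : K, Z.U u → ∃ c ∈ 𝒞, ∃ w : K, Z.U w ∧
      u = c * w ^ d := by
  classical
  obtain ⟨ℓ, hℓ⟩ : ∃ ℓ : K → Λ → ℝ, ℓ = fun u s => Real.log ‖algebraMap K (L s) u‖ :=
    ⟨_, rfl⟩
  obtain ⟨S, hS⟩ : ∃ S : Set (Λ → ℝ), S = ℓ '' {u | Z.U u} := ⟨_, rfl⟩
  obtain ⟨t, htS, hspan⟩ := (Submodule.fg_span_iff_fg_span_finset_subset (R := ℝ) S).1
    (IsNoetherian.noetherian _)
  have hg : ∀ v, ∃ u, v ∈ t → Z.U u ∧ ℓ u = v := by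
    intro v
    by_cases hv : v ∈ t
    · have h1 := htS hv
      rw [hS] at h1
      obtain ⟨u, hu, hv'⟩ := h1
      exact ⟨u, fun _ => ⟨hu, hv'⟩⟩
    · exact ⟨1, fun h => absurd h hv⟩
  choose g hg using hg
  obtain ⟨R, hR⟩ : ∃ R : ℝ, R = ∑ v ∈ t, ∑ s, (d : ℝ) * |v s| := ⟨_, rfl⟩
  have hfin : {c : K | Z.U c ∧ ∀ s, ‖algebraMap K (L s) c‖ ≤ Real.exp R}.Finite :=
    (Z.fin (Real.exp R)).subset fun c hc => ⟨hc.1.mem, hc.2⟩
  refine ⟨hfin.toFinset, fun c hc => (hfin.mem_toFinset.1 hc).1, fun u hu => ?_⟩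
  have hmem : ℓ u ∈ Submodule.span ℝ (t : Set (Λ → ℝ)) := by
    rw [← hspan, hS]
    exact Submodule.subset_span ⟨u, hu, rfl⟩
  obtain ⟨f, -, hf⟩ := Submodule.mem_span_finset.1 hmem
  have hd0 : (0 : ℝ) < d := by exact_mod_cast hd
  obtain ⟨w, hw⟩ : ∃ w : K, w = ∏ v ∈ t, g v ^ ⌊f v / d⌋ := ⟨_, rfl⟩
  have hwU : Z.U w := by
    rw [hw]
    exact MP.U.prod t fun v hv => pow_zpow (hg v hv).1 _
  have hcU : Z.U (u / w ^ d) := hu.div (hwU.pow d)
  refine ⟨u / w ^ d, hfin.mem_toFinset.2 ⟨hcU, fun s => ?_⟩, w, hwU,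
    (div_mul_cancel₀ _ (pow_ne_zero d hwU.ne)).symm⟩
  rw [← Real.log_le_iff_le_exp (hcU.pos s)]
  have h1 : Real.log ‖algebraMap K (L s) w‖ = ∑ v ∈ t, (⌊f v / d⌋ : ℝ) * v s := by
    rw [hw, map_prod, norm_prod, Real.log_prod fun v hv => by
      have := (pow_zpow (hg v hv).1 ⌊f v / d⌋ : Z.U _).pos s
      exact this.ne']
    refine Finset.sum_congr rfl fun v hv => ?_
    rw [map_zpow₀, norm_zpow, Real.log_zpow]
    congr 1
    have h2 := congrFun (hg v hv).2 s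
    rw [hℓ] at h2
    exact h2
  have h3 : Real.log ‖algebraMap K (L s) u‖ = ∑ v ∈ t, f v * v s := by
    have h2 := congrFun hf s
    rw [Finset.sum_apply] at h2
    have h4 : ℓ u s = Real.log ‖algebraMap K (L s) u‖ := by rw [hℓ]
    rw [← h4, ← h2]
    exact Finset.sum_congr rfl fun v _ => by rw [Pi.smul_apply, smul_eq_mul]
  rw [map_div₀, map_pow, norm_div, norm_pow, Real.log_div (hu.pos s).ne'
    (pow_ne_zero d (hwU.pos s).ne'), Real.log_pow, h1, h3, Finset.mul_sum,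
    ← Finset.sum_sub_distrib, hR]
  refine Finset.sum_le_sum fun v _ => ?_
  have h5 : f v * v s - (d : ℝ) * ((⌊f v / d⌋ : ℝ) * v s) ≤ (d : ℝ) * |v s| := by
    have h6 : f v * v s - (d : ℝ) * ((⌊f v / d⌋ : ℝ) * v s) =
        (f v - d * (⌊f v / d⌋ : ℝ)) * v s := by ring
    have h7 := Int.floor_le (f v / d)
    have h8 := Int.lt_floor_add_one (f v / d)
    rw [le_div_iff₀ hd0] at h7
    rw [div_lt_iff₀ hd0] at h8
    have h9 : 0 ≤ f v - d * (⌊f v / d⌋ : ℝ) := by linarith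
    have h10 : f v - d * (⌊f v / d⌋ : ℝ) ≤ d := by linarith
    rw [h6]
    calc (f v - d * (⌊f v / d⌋ : ℝ)) * v s ≤ (f v - d * (⌊f v / d⌋ : ℝ)) * |v s| :=
          mul_le_mul_of_nonneg_left (le_abs_self _) h9
      _ ≤ (d : ℝ) * |v s| := mul_le_mul_of_nonneg_right h10 (abs_nonneg _)
  refine h5.trans ?_
  exact Finset.single_le_sum (f := fun s => (d : ℝ) * |v s|)
    (fun s _ => by positivity) (Finset.mem_univ s)

end Pool.Agent.Helper38.TP
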