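import Pool.Agent.Helper38.TP.Inst
import Pool.Agent.Helper38.TP.Ht
import Pool.Agent.Helper38.TP.Bal
import Pool.Agent.Helper38.TP.Pow
import Pool.Agent.Helper38.TP.ProdLam
import Pool.Agent.Helper65.Sub.SubREP
import Pool.Agent.Helper10.Sub.KStrong

/-!
# Scaling

`c₂` from `Helper65.Sub.repK`, `C₁ i` from `finite_upper (F i)` (KStrong). Bad places:
`S`, `c v ≠ 1`, `c₂ v ≠ 1`, `C₁ i v ≠ 1`; `T` = the primes below them
(`Helper85.RC.exists_prime_below`); `Z` from `exists_mp`. For `q`: `μ₀` from `repK`, `x₀ = μ₀ q`;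
the unit `u` from `exists_balanced`; `μ = u μ₀`.
-/

set_option autoImplicit false

namespace Pool.Agent.Helper38.TP

open Pool.Agent.Helper85.Sub Pool.Agent.Helper85.RC Pool.Agent.Helper10.Sub NumberField
open MvPolynomial

section aux
variable {K : Type} [Field K] [NumberField K] {T : Finset Nat.Primes} {N : ℕ}

lemma nrm_iSup (s : Lam K T) (x : Fin (N + 1) → K) :
    nrm (LF K T s) x = ⨆ j, av K T s (x j) := by
  unfold nrm
  apply le_antisymm
  · rw [pi_norm_le_iff_of_nonneg (Real.iSup_nonneg fun j => apply_nonneg _ _)]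
    intro j
    rw [norm_av]
    exact le_ciSup (f := fun j => av K T s (x j)) (Set.finite_range _).bddAbove j
  · refine ciSup_le fun j => ?_
    rw [← norm_av]
    exact norm_le_pi_norm (fun k => algebraMap K (LF K T s) (x k)) j

lemma nrm_inl (σ : K →+* ℂ) (x : Fin (N + 1) → K) :
    nrm (LF K T (Sum.inl σ)) x = ⨆ j, InfinitePlace.mk σ (x j) := by
  rw [nrm_iSup]
  rfl

lemma nrm_inr (s : (Σ t : T, K →+* FF K (pr T t))) (v : FinitePlace K) (n : ℕ)
    (h : ∀ x : K, v x = ‖s.2 x‖ ^ n) (x : Fin (N + 1) → K) :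
    (⨆ j, v (x j)) = nrm (LF K T (Sum.inr s)) x ^ n := by
  rw [nrm_iSup, Real.iSup_pow (fun j => apply_nonneg _ _)]
  exact iSup_congr fun j => h (x j)

lemma unit_prod (u : (𝓞 K)ˣ) : ∏ w : InfinitePlace K, w ((u : 𝓞 K) : K) ^ w.mult = 1 := by
  rw [InfinitePlace.prod_eq_abs_norm, Units.norm, Rat.cast_one]

lemma unit_fin (u : (𝓞 K)ˣ) (v : FinitePlace K) : v ((u : 𝓞 K) : K) = 1 := by
  have h1 : v ((u : 𝓞 K) : K) ≤ 1 := finitePlace_le_one v (u : 𝓞 K).2
  have h2 : v (((u⁻¹ : (𝓞 K)ˣ) : 𝓞 K) : K) ≤ 1 := finitePlace_le_one v ((u⁻¹ : (𝓞 K)ˣ) : 𝓞 K).2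
  have h3 : v ((u : 𝓞 K) : K) * v (((u⁻¹ : (𝓞 K)ˣ) : 𝓞 K) : K) = 1 := by
    rw [← map_mul]
    have h4 : ((u : 𝓞 K) : K) * (((u⁻¹ : (𝓞 K)ˣ) : 𝓞 K) : K) = 1 := by
      rw [← map_mul, Units.mul_inv, map_one]
    rw [h4, map_one]
  have h5 := apply_nonneg v ((u : 𝓞 K) : K)
  nlinarith

lemma prime_mem (s : (Σ t : T, K →+* FF K (pr T t))) (v : FinitePlace K) (n : ℕ) (hn : n ≠ 0)
    (h : ∀ x : K, v x = ‖s.2 x‖ ^ n) : ((s.1.1 : ℕ) : 𝓞 K) ∈ v.maximalIdeal.asIdeal := by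
  rw [← FinitePlace.norm_lt_one_iff_mem K v.maximalIdeal, ← FinitePlace.mk_apply,
    FinitePlace.mk_maximalIdeal, h]
  refine pow_lt_one₀ (norm_nonneg _) ?_ hn
  have h1 : ‖liftEquiv s.2 (((s.1.1 : ℕ) : 𝓞 K) : K)‖ = ((pr T s.1 : ℕ) : ℝ)⁻¹ := by
    have h2 : (((s.1.1 : ℕ) : 𝓞 K) : K) = ((pr T s.1 : ℕ) : K) :=
      map_natCast (algebraMap (𝓞 K) K) (pr T s.1)
    rw [h2]
    exact norm_p (liftEquiv s.2)
  change ‖liftEquiv s.2 (((s.1.1 : ℕ) : 𝓞 K) : K)‖ < 1
  rw [h1]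
  refine inv_lt_one_of_one_lt₀ ?_
  exact_mod_cast (Fact.out (p := (pr T s.1).Prime)).one_lt

end aux

theorem scal (K : Type) [Field K] [NumberField K] {N : ℕ} (S : Finset (FinitePlace K))
    (F : Fin 3 → MvPolynomial (Fin (N + 1)) K) (d : Fin 3 → ℕ) (hd : ∀ i, 1 ≤ d i)
    (hF : ∀ i, (F i).IsHomogeneous (d i)) (c : FinitePlace K → ℝ) (hc : ∀ v, 0 < c v)
    (hcf : {v | c v ≠ 1}.Finite) :
    ∃ (T : Finset Nat.Primes) (Z : MP K (LF K T)) (C : ℝ) (𝒟 : Finset K),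
      Z.O = OP K (pprod (pr T)) ∧
      (∀ v ∈ S, ∃ t ∈ T, ((t : ℕ) : 𝓞 K) ∈ v.maximalIdeal.asIdeal) ∧ 1 ≤ C ∧
      (∀ D ∈ 𝒟, Z.U D) ∧
      ∀ q : Fin (N + 1) → K, q ≠ 0 →
        (∀ i, eval q (F i) ≠ 0 ∧
          ∀ v : FinitePlace K, v ∉ S → c v * (⨆ j, v (q j)) ^ d i ≤ v (eval q (F i))) →
        ∃ μ : K, μ ≠ 0 ∧ (∀ k, (μ • q) k ∈ Z.O) ∧
          Height.mulHeight q = Ht (LF K T) (μ • q) ∧
          (∀ s, nrm (LF K T s) (μ • q) ≤ C * Ht (LF K T) (μ • q)) ∧
          ∀ i, ∃ D ∈ 𝒟, ∃ w : K, Z.U w ∧ eval (μ • q) (F i) = D * w ^ d i := by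
  classical
  obtain ⟨c₂, hc₂, hc₂f, hμ⟩ := Pool.Agent.Helper65.Sub.repK K (Fin (N + 1))
  choose C₁ hC₁ hC₁f hC₁' using fun i => finite_upper (F i)
  have hc₂1 : ∀ v, c₂ v ≤ 1 := by
    intro v
    obtain ⟨μ, -, h⟩ := hμ (fun _ => 1) (by
      intro h
      exact one_ne_zero (congrFun h 0))
    exact (h v).1.trans (h v).2
  have hC₁u : (⋃ i, {v | C₁ i v ≠ 1}).Finite := Set.finite_iUnion hC₁f
  choose p hp using fun v : FinitePlace K => exists_prime_below v
  set Bad : Finset (FinitePlace K) := S ∪ hcf.toFinset ∪ hc₂f.toFinset ∪ hC₁u.toFinset with hBad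
  set T : Finset Nat.Primes := Bad.image p with hT
  obtain ⟨Z, hZ⟩ := exists_mp K T
  choose 𝒞 h𝒞 h𝒞' using fun i => pow_reps Z (d i) (hd i)
  obtain ⟨ST, hST, hST1, hST2, hprod⟩ := prod_lam K T
  obtain ⟨Cb, hCb, hbal⟩ := exists_balanced K
  have hBadT : ∀ v ∈ Bad, p v ∈ T := fun v hv => Finset.mem_image_of_mem _ hv
  have hBST : ∀ v, v ∉ ST → v ∉ Bad := fun v hv hb => hv (hST v ⟨p v, hBadT v hb, hp v⟩)
  set P₂ : ℝ := ∏ v ∈ ST, c₂ v with hP₂
  have hP₂0 : 0 < P₂ := Finset.prod_pos fun v _ => hc₂ v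
  have hP₂1 : P₂ ≤ 1 := Finset.prod_le_one (fun v _ => (hc₂ v).le) fun v _ => hc₂1 v
  have hOmem : ∀ x : K, (∀ v : FinitePlace K, v ∉ ST → v x ≤ 1) → x ∈ Z.O := by
    intro x hx
    rw [hZ]
    exact mem_OP_of_le ST _ (fun v hv => by
      obtain ⟨s, n, hn, h⟩ := hST2 v hv
      exact pprod_mem T s.1.1 s.1.2 v (prime_mem s v n hn h)) x hx
  refine ⟨T, Z, Cb / P₂, Finset.univ.biUnion 𝒞, hZ, ?_, ?_, ?_, ?_⟩
  · intro v hv
    refine ⟨p v, hBadT v ?_, hp v⟩
    simp only [hBad, Finset.mem_union]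
    exact Or.inl (Or.inl (Or.inl hv))
  · rw [one_le_div hP₂0]
    exact hP₂1.trans hCb
  · intro D hD
    obtain ⟨i, -, hD⟩ := Finset.mem_biUnion.1 hD
    exact h𝒞 i D hD
  intro q hq hqF
  obtain ⟨μ₀, hμ₀, hμ₀v⟩ := hμ q hq
  set m : InfinitePlace K → ℝ := fun w => ⨆ j, w (μ₀ * q j) with hm
  have hq0 : (fun j => μ₀ * q j) ≠ 0 := by
    intro h
    apply hq
    funext j
    rcases mul_eq_zero.1 (congrFun h j) with h | h
    · exact absurd h hμ₀
    · exact h
  obtain ⟨j₀, hj₀⟩ := Function.ne_iff.1 hq0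
  have hm0 : ∀ w, 0 < m w := by
    intro w
    refine lt_of_lt_of_le ?_ (le_ciSup (f := fun j => w (μ₀ * q j))
      (Set.finite_range _).bddAbove j₀)
    exact InfinitePlace.pos_iff.2 hj₀
  set n : ℝ := ∑ w : InfinitePlace K, (w.mult : ℝ) with hn
  have hn1 : 1 ≤ n := by
    obtain ⟨w₀⟩ : Nonempty (InfinitePlace K) := inferInstance
    have h1 : (1 : ℝ) ≤ w₀.mult := by exact_mod_cast InfinitePlace.one_le_mult
    refine h1.trans ?_
    exact Finset.single_le_sum (f := fun w : InfinitePlace K => (w.mult : ℝ))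
      (fun w _ => Nat.cast_nonneg _) (Finset.mem_univ w₀)
  set P : ℝ := ∏ w : InfinitePlace K, m w ^ w.mult with hP
  have hP0 : 0 < P := Finset.prod_pos fun w _ => pow_pos (hm0 w) _
  obtain ⟨u, hu⟩ := hbal (fun w => P ^ (1 / n) / m w)
    (fun w => div_pos (Real.rpow_pos_of_pos hP0 _) (hm0 w)) (by
      simp only [div_pow]
      rw [Finset.prod_div_distrib, ← hP, div_eq_one_iff_eq hP0.ne']
      have h1 : ∀ w : InfinitePlace K, (P ^ (1 / n)) ^ w.mult = P ^ ((w.mult : ℝ) / n) := by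
        intro w
        rw [← Real.rpow_natCast, ← Real.rpow_mul hP0.le]
        congr 1
        ring
      simp only [h1]
      rw [← Real.rpow_sum_of_pos hP0, ← Finset.sum_div, ← hn, div_self (by linarith),
        Real.rpow_one])
  have hu0 : ((u : 𝓞 K) : K) ≠ 0 := Units.coe_ne_zero u
  set μ : K := ((u : 𝓞 K) : K) * μ₀ with hμdef
  have hμ00 : μ ≠ 0 := mul_ne_zero hu0 hμ₀
  set x : Fin (N + 1) → K := μ • q with hx
  have hxj : ∀ j, x j = ((u : 𝓞 K) : K) * (μ₀ * q j) := by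
    intro j
    simp only [hx, hμdef, Pi.smul_apply, smul_eq_mul]
    ring
  have hx0 : x ≠ 0 := smul_ne_zero hμ00 hq
  -- finite places
  have hvx : ∀ (v : FinitePlace K), (⨆ j, v (x j)) = ⨆ j, v (μ₀ * q j) := by
    intro v
    refine iSup_congr fun j => ?_
    rw [hxj, map_mul, unit_fin, one_mul]
  have hvx1 : ∀ (v : FinitePlace K) (j), v (x j) ≤ 1 := by
    intro v j
    refine (le_ciSup (f := fun j => v (x j)) (Set.finite_range _).bddAbove j).trans ?_
    rw [hvx]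
    exact (hμ₀v v).2
  have hvxST : ∀ v : FinitePlace K, v ∉ ST → (⨆ j, v (x j)) = 1 := by
    intro v hv
    have h1 := hBST v hv
    have h2 : c₂ v = 1 := by
      by_contra h
      apply h1
      simp only [hBad, Finset.mem_union, Set.Finite.mem_toFinset]
      exact Or.inl (Or.inr h)
    rw [hvx]
    exact le_antisymm (hμ₀v v).2 (h2 ▸ (hμ₀v v).1)
  -- the values of the forms
  have heval : ∀ i, eval x (F i) = μ ^ d i * eval q (F i) := fun i => (hF i).eval_smul' _ _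
  have hevne : ∀ i, eval x (F i) ≠ 0 := by
    intro i
    rw [heval]
    exact mul_ne_zero (pow_ne_zero _ hμ00) (hqF i).1
  have hev1 : ∀ i (v : FinitePlace K), v ∉ ST → v (eval x (F i)) = 1 := by
    intro i v hv
    have h1 := hBST v hv
    have h2 : c v = 1 := by
      by_contra h
      apply h1
      simp only [hBad, Finset.mem_union, Set.Finite.mem_toFinset]
      exact Or.inl (Or.inl (Or.inr h))
    have h3 : C₁ i v = 1 := by
      by_contra h
      apply h1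
      simp only [hBad, Finset.mem_union, Set.Finite.mem_toFinset]
      exact Or.inr (Set.mem_iUnion.2 ⟨i, h⟩)
    have h4 : v ∉ S := by
      intro h
      apply h1
      simp only [hBad, Finset.mem_union]
      exact Or.inl (Or.inl (Or.inl h))
    apply le_antisymm
    · rw [← h3]
      exact hC₁' i x v (hvx1 v)
    · have h5 := (hqF i).2 v h4
      rw [h2, one_mul] at h5
      rw [heval, map_mul, map_pow]
      have h6 : (⨆ j, v (x j)) = v μ * ⨆ j, v (q j) := by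
        have h7 : ∀ j, v (x j) = v μ * v (q j) := by
          intro j
          rw [hx, Pi.smul_apply, smul_eq_mul, map_mul]
        simp only [h7]
        rw [Real.mul_iSup_of_nonneg (apply_nonneg v _)]
      calc (1 : ℝ) = (v μ * ⨆ j, v (q j)) ^ d i := by rw [← h6, hvxST v hv, one_pow]
        _ = v μ ^ d i * (⨆ j, v (q j)) ^ d i := mul_pow _ _ _
        _ ≤ _ := mul_le_mul_of_nonneg_left h5 (pow_nonneg (apply_nonneg v _) _)
  have hunit : ∀ i, Z.U (eval x (F i)) := by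
    intro i
    refine ⟨hevne i, hOmem _ fun v hv => (hev1 i v hv).le, hOmem _ fun v hv => ?_⟩
    rw [map_inv₀, hev1 i v hv, inv_one]
  -- the height
  have hHt : Ht (LF K T) x = (∏ w : InfinitePlace K, (⨆ j, w (x j)) ^ w.mult) *
      ∏ v ∈ ST, ⨆ j, v (x j) := by
    refine hprod (fun s => nrm (LF K T s) x) (fun w => ⨆ j, w (x j)) (fun v => ⨆ j, v (x j))
      (fun s => nrm_nonneg _) (fun σ => nrm_inl σ x) ?_
    intro s v n hn h
    exact nrm_inr s v n h x
  have hHq : Height.mulHeight q = Ht (LF K T) x := by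
    rw [← Height.mulHeight_smul_eq_mulHeight q hμ00, ← hx, NumberField.mulHeight_eq hx0, hHt]
    congr 1
    refine finprod_eq_prod_of_mulSupport_subset _ ?_
    intro v hv
    by_contra h
    exact hv (hvxST v h)
  have hOx : ∀ k, x k ∈ Z.O := fun k => hOmem _ fun v _ => hvx1 v k
  have hHt1 : 1 ≤ Ht (LF K T) x := one_le_Ht Z hOx hx0
  refine ⟨μ, hμ00, hOx, hHq, ?_, ?_⟩
  · -- balanced
    have hPx : (∏ w : InfinitePlace K, (⨆ j, w (x j)) ^ w.mult) = P := by
      have h1 : ∀ w : InfinitePlace K, (⨆ j, w (x j)) = w ((u : 𝓞 K) : K) * m w := by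
        intro w
        simp only [hxj, map_mul, hm]
        rw [Real.mul_iSup_of_nonneg (apply_nonneg w _)]
      simp only [h1, mul_pow]
      rw [Finset.prod_mul_distrib, unit_prod, one_mul]
    have hPH : P * P₂ ≤ Ht (LF K T) x := by
      rw [hHt, hPx]
      apply mul_le_mul_of_nonneg_left _ hP0.le
      refine Finset.prod_le_prod (fun v _ => (hc₂ v).le) fun v _ => ?_
      rw [hvx]
      exact (hμ₀v v).1
    have hPH' : P ≤ Ht (LF K T) x / P₂ := by rwa [le_div_iff₀ hP₂0]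
    have hHP1 : 1 ≤ Ht (LF K T) x / P₂ := by
      rw [one_le_div hP₂0]
      exact hP₂1.trans hHt1
    rintro (σ | s)
    · rw [nrm_inl]
      have h1 : (⨆ j, (InfinitePlace.mk σ) (x j)) =
          (InfinitePlace.mk σ) ((u : 𝓞 K) : K) * m (InfinitePlace.mk σ) := by
        simp only [hxj, map_mul, hm]
        rw [Real.mul_iSup_of_nonneg (apply_nonneg _ _)]
      rw [h1]
      have h2 := hu (InfinitePlace.mk σ)
      have h3 := hm0 (InfinitePlace.mk σ)
      calc (InfinitePlace.mk σ) ((u : 𝓞 K) : K) * m (InfinitePlace.mk σ)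
          ≤ Cb * (P ^ (1 / n) / m (InfinitePlace.mk σ)) * m (InfinitePlace.mk σ) :=
            mul_le_mul_of_nonneg_right h2 h3.le
        _ = Cb * P ^ (1 / n) := by
            field_simp
        _ ≤ Cb * (Ht (LF K T) x / P₂) := by
            apply mul_le_mul_of_nonneg_left _ (by linarith)
            calc P ^ (1 / n) ≤ (Ht (LF K T) x / P₂) ^ (1 / n) :=
                  Real.rpow_le_rpow hP0.le hPH' (by positivity)
              _ ≤ (Ht (LF K T) x / P₂) ^ (1 : ℝ) := by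
                  apply Real.rpow_le_rpow_of_exponent_le hHP1
                  rw [div_le_one (by linarith)]
                  exact hn1
              _ = _ := Real.rpow_one _
        _ = Cb / P₂ * Ht (LF K T) x := by ring
    · have h1 : nrm (LF K T (Sum.inr s)) x ≤ 1 := by
        obtain ⟨v, -, k, hk, hv⟩ := hST1 s
        have h2 := nrm_inr s v k hv x
        have h3 : nrm (LF K T (Sum.inr s)) x ^ k ≤ 1 := by
          rw [← h2, hvx]
          exact (hμ₀v v).2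
        exact (pow_le_one_iff_of_nonneg (nrm_nonneg x) hk).1 h3
      have h2 : 1 ≤ Cb / P₂ := by
        rw [one_le_div hP₂0]
        exact hP₂1.trans hCb
      calc nrm (LF K T (Sum.inr s)) x ≤ 1 * 1 := by rw [one_mul]; exact h1
        _ ≤ Cb / P₂ * Ht (LF K T) x := mul_le_mul h2 hHt1 zero_le_one (by linarith)
  · intro i
    obtain ⟨C, hC, w, hw, h⟩ := h𝒞' i _ (hunit i)
    exact ⟨C, Finset.mem_biUnion.2 ⟨i, Finset.mem_univ _, hC⟩, w, hw, h⟩

end Pool.Agent.Helper38.TP
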