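import Mathlib

/-!
# Two active places: the real estimate

Plan. Let `R j = ∏ v, ρ j v ≤ C / H`. Outside `{v₁, v₂}` all factors are in `[C⁻¹, C]`, so
`ρ j v₁ * ρ j v₂ ≤ C' / H` if `v₁ ≠ v₂` (and `ρ j v₁ ≤ C' / H` if `v₁ = v₂`), `C' = C ^ (n + 1)`,
`n = card P`. Let `ρ a v₁ ≥ C⁻¹`, `ρ b v₂ ≥ C⁻¹`. If `v₁ = v₂` or `a = b` then `H ≤ C' C ^ 2` and the
claim follows from `m v ≤ C` (`m v ≤ max of ρ j v`). Otherwise `m v₁ ≤ max (ρ b v₁) (ρ c v₁)`,
`m v₂ ≤ max (ρ a v₂) (ρ c v₂)` with `c` the third index, `ρ b v₁ ≤ C' C / H`, `ρ a v₂ ≤ C' C / H`,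
`ρ c v₁ * ρ c v₂ ≤ C' / H`, and the four products are at most `C'' / H`.
-/

set_option autoImplicit false

namespace Pool.Agent.Helper38.TP

theorem two_real {P : Type} [Fintype P] [DecidableEq P] (C : ℝ) (hC : 1 ≤ C) :
    ∃ C' : ℝ, 0 ≤ C' ∧ ∀ (ρ : Fin 3 → P → ℝ) (m : P → ℝ) (H : ℝ), 1 ≤ H →
      (∀ j v, 0 < ρ j v) → (∀ j v, ρ j v ≤ C) → (∀ j, ∏ v, ρ j v ≤ C / H) →
      (∀ v, ∃ i, C⁻¹ ≤ ρ i v) →
      (∀ v, 0 ≤ m v) → (∀ v i, ∃ j, j ≠ i ∧ m v ≤ ρ j v) →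
      (∃ v₁ v₂ : P, ∀ v, v ≠ v₁ → v ≠ v₂ → ∀ j, C⁻¹ ≤ ρ j v) →
      ∏ v, m v ≤ C' / H := by
  obtain ⟨n, hn⟩ : ∃ n, n = Fintype.card P := ⟨_, rfl⟩
  refine ⟨C ^ (2 * n + 3), by positivity, ?_⟩
  rintro ρ m H hH hpos hle hprod hex hm0 hm ⟨v₁, v₂, hv⟩
  have hC0 : 0 < C := by linarith
  have hH0 : 0 < H := by linarith
  have hmC : ∀ v, m v ≤ C := fun v => by
    obtain ⟨j, -, hj⟩ := hm v 0
    exact hj.trans (hle j v)
  have hup : ∀ (S : Finset P), ∏ v ∈ S, m v ≤ C ^ n := by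
    intro S
    calc ∏ v ∈ S, m v ≤ ∏ _v ∈ S, C := Finset.prod_le_prod (fun v _ => hm0 v) fun v _ => hmC v
      _ = C ^ S.card := Finset.prod_const C
      _ ≤ C ^ n := pow_le_pow_right₀ hC (hn ▸ Finset.card_le_univ S)
  have hlow : ∀ (S : Finset P) (f : P → ℝ), (∀ v ∈ S, C⁻¹ ≤ f v) →
      (C ^ n)⁻¹ ≤ ∏ v ∈ S, f v := by
    intro S f h1
    calc (C ^ n)⁻¹ ≤ (C ^ S.card)⁻¹ := by
          have h2 : C ^ S.card ≤ C ^ n := pow_le_pow_right₀ hC (hn ▸ Finset.card_le_univ S)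
          have h3 : 0 < C ^ S.card := by positivity
          exact inv_anti₀ h3 h2
      _ = ∏ _v ∈ S, C⁻¹ := by rw [Finset.prod_const, inv_pow]
      _ ≤ ∏ v ∈ S, f v := Finset.prod_le_prod (fun _ _ => by positivity) h1
  have key : (∃ a, ∀ v, C⁻¹ ≤ ρ a v) → ∏ v, m v ≤ C ^ (2 * n + 3) / H := by
    rintro ⟨a, ha⟩
    have h1 := (hlow Finset.univ (ρ a) fun v _ => ha v).trans (hprod a)
    have h2 : H ≤ C * C ^ n := by
      rw [inv_le_iff_one_le_mul₀ (by positivity), div_mul_eq_mul_div, le_div_iff₀ hH0] at h1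
      linarith
    rw [le_div_iff₀ hH0]
    calc (∏ v, m v) * H ≤ C ^ n * (C * C ^ n) :=
          mul_le_mul (hup _) h2 hH0.le (by positivity)
      _ = C ^ (2 * n + 1) := by ring
      _ ≤ C ^ (2 * n + 3) := pow_le_pow_right₀ hC (by omega)
  obtain ⟨a, ha⟩ := hex v₁
  obtain ⟨b, hb⟩ := hex v₂
  by_cases hv12 : v₁ = v₂
  · refine key ⟨a, fun v => ?_⟩
    by_cases h : v = v₁
    · rw [h]; exact ha
    · exact hv v h (hv12 ▸ h) a
  by_cases hab : a = b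
  · refine key ⟨a, fun v => ?_⟩
    by_cases h : v = v₁
    · rw [h]; exact ha
    · by_cases h' : v = v₂
      · rw [h', hab]; exact hb
      · exact hv v h h' a
  -- the product over the two places
  have h12 : v₂ ∈ Finset.univ.erase v₁ := by
    simp only [Finset.mem_erase, Finset.mem_univ, and_true]
    exact fun h => hv12 h.symm
  have hsplit : ∀ f : P → ℝ, ∏ v, f v =
      f v₁ * f v₂ * ∏ v ∈ (Finset.univ.erase v₁).erase v₂, f v := by
    intro f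
    rw [← Finset.mul_prod_erase Finset.univ f (Finset.mem_univ v₁),
      ← Finset.mul_prod_erase _ f h12, mul_assoc]
  have hpair : ∀ j, ρ j v₁ * ρ j v₂ ≤ C * C ^ n / H := by
    intro j
    have h1 := hprod j
    rw [hsplit] at h1
    have h2 : (C ^ n)⁻¹ ≤ ∏ v ∈ (Finset.univ.erase v₁).erase v₂, ρ j v := by
      refine hlow _ _ fun v hv' => ?_
      simp only [Finset.mem_erase, Finset.mem_univ, and_true] at hv'
      exact hv v hv'.2 hv'.1 j
    have h3 : 0 < ρ j v₁ * ρ j v₂ := mul_pos (hpos _ _) (hpos _ _)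
    have h4 := (mul_le_mul_of_nonneg_left h2 h3.le).trans h1
    have h5 : (0:ℝ) < C ^ n := by positivity
    have h6 : ρ j v₁ * ρ j v₂ ≤ C / H * C ^ n := by
      have := mul_le_mul_of_nonneg_right h4 h5.le
      rwa [mul_assoc, inv_mul_cancel₀ h5.ne', mul_one] at this
    calc ρ j v₁ * ρ j v₂ ≤ C / H * C ^ n := h6
      _ = C * C ^ n / H := by ring
  have hb1 : ρ b v₁ ≤ C * (C * C ^ n / H) := by
    have h1 := hpair b
    have h2 : ρ b v₁ * C⁻¹ ≤ ρ b v₁ * ρ b v₂ := mul_le_mul_of_nonneg_left hb (hpos _ _).le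
    have h3 := h2.trans h1
    have h4 := mul_le_mul_of_nonneg_right h3 hC0.le
    rw [mul_assoc, inv_mul_cancel₀ hC0.ne', mul_one] at h4
    linarith
  have ha2 : ρ a v₂ ≤ C * (C * C ^ n / H) := by
    have h1 := hpair a
    have h2 : C⁻¹ * ρ a v₂ ≤ ρ a v₁ * ρ a v₂ := mul_le_mul_of_nonneg_right ha (hpos _ _).le
    have h3 := h2.trans h1
    have h4 := mul_le_mul_of_nonneg_left h3 hC0.le
    rw [← mul_assoc, mul_inv_cancel₀ hC0.ne', one_mul] at h4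
    exact h4
  have hE : 0 ≤ C * C ^ n / H := by positivity
  have hfin : m v₁ * m v₂ ≤ C ^ 2 * (C * C ^ n / H) := by
    obtain ⟨j, hja, hj⟩ := hm v₁ a
    obtain ⟨k, hkb, hk⟩ := hm v₂ b
    have h0 : m v₁ * m v₂ ≤ ρ j v₁ * ρ k v₂ := mul_le_mul hj hk (hm0 _) (hpos _ _).le
    refine h0.trans ?_
    by_cases hjb : j = b
    · rw [hjb]
      calc ρ b v₁ * ρ k v₂ ≤ C * (C * C ^ n / H) * C :=
            mul_le_mul hb1 (hle _ _) (hpos _ _).le (by positivity)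
        _ = C ^ 2 * (C * C ^ n / H) := by ring
    · by_cases hka : k = a
      · rw [hka]
        calc ρ j v₁ * ρ a v₂ ≤ C * (C * (C * C ^ n / H)) :=
              mul_le_mul (hle _ _) ha2 (hpos _ _).le hC0.le
          _ = C ^ 2 * (C * C ^ n / H) := by ring
      · have hjk : j = k := by
          revert hab hja hkb hjb hka
          clear * -
          revert a b j k
          decide
        rw [hjk]
        refine (hpair k).trans ?_
        have : (1:ℝ) ≤ C ^ 2 := one_le_pow₀ hC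
        nlinarith
  rw [hsplit m]
  have hrest : 0 ≤ ∏ v ∈ (Finset.univ.erase v₁).erase v₂, m v :=
    Finset.prod_nonneg fun v _ => hm0 v
  calc m v₁ * m v₂ * ∏ v ∈ (Finset.univ.erase v₁).erase v₂, m v
      ≤ C ^ 2 * (C * C ^ n / H) * C ^ n :=
        mul_le_mul hfin (hup _) hrest (by positivity)
    _ = C ^ (2 * n + 3) / H := by ring

end Pool.Agent.Helper38.TP
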