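import Pool.Agent.Helper38.TP.SmallG
import Pool.Agent.Helper38.TP.Scal
import Pool.Agent.Helper38.TP.Gap
import Pool.Agent.Helper38.TP.Two

/-!
# Integral points near the corners: final assembly
-/

set_option autoImplicit false

namespace Pool.Agent.Helper38.TP

open Pool.Agent.Helper85.Sub Pool.Agent.Helper85.RC Pool.Agent.Helper10.Sub
open Pool.Agent.Helper10 NumberField MvPolynomial
open scoped LinearAlgebra.Projectivization

variable {K : Type} [Field K] [NumberField K] {N : ℕ}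

/-- The product of the distances to the corners. -/
noncomputable def cornerProd (S : Finset (FinitePlace K))
    (F : Fin 3 → MvPolynomial (Fin (N + 1)) K) (d : Fin 3 → ℕ) (x : Fin (N + 1) → K) : ℝ :=
  (∏ w : InfinitePlace K, cornerDist w F d x ^ w.mult) * ∏ v ∈ S, cornerDist v F d x

lemma cornerProd_smul (S : Finset (FinitePlace K))
    (F : Fin 3 → MvPolynomial (Fin (N + 1)) K) (d : Fin 3 → ℕ)
    (hF : ∀ i, (F i).IsHomogeneous (d i)) (x : Fin (N + 1) → K) (μ : K) (hμ : μ ≠ 0) :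
    cornerProd S F d (μ • x) = cornerProd S F d x := by
  unfold cornerProd
  congr 1
  · refine Finset.prod_congr rfl fun w _ => ?_
    rw [cd_smul w F d x (fun y => apply_nonneg w y) (fun y z => map_mul w y z) (map_one w) hF μ
      (by simpa using hμ)]
  · refine Finset.prod_congr rfl fun v _ => ?_
    rw [cd_smul v F d x (fun y => apply_nonneg v y) (fun y z => map_mul v y z) (map_one v) hF μ
      (by simpa using hμ)]

/-- The point is close to the divisor at two places of `S` or infinity at most. -/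
def AtMostTwo (c₀ : ℝ) (S : Finset (FinitePlace K))
    (F : Fin 3 → MvPolynomial (Fin (N + 1)) K) (d : Fin 3 → ℕ) (x : Fin (N + 1) → K) : Prop :=
  ∃ (W : Finset (InfinitePlace K)) (V : Finset (FinitePlace K)), W.card + V.card ≤ 2 ∧
    (∀ w : InfinitePlace K, w ∉ W → ∀ i, c₀ * (⨆ j, w (x j)) ^ d i ≤ w (eval x (F i))) ∧
    ∀ v ∈ S, v ∉ V → ∀ i, c₀ * (⨆ j, v (x j)) ^ d i ≤ v (eval x (F i))


omit [NumberField K] in
lemma scale_low {v : K → ℝ} (hv : ∀ y, 0 ≤ v y) (hm : ∀ y z, v (y * z) = v y * v z)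
    (h1 : v 1 = 1) (f : MvPolynomial (Fin (N + 1)) K) (e : ℕ) (hf : f.IsHomogeneous e)
    (x : Fin (N + 1) → K) (μ : K) (c : ℝ) (h : c * (⨆ j, v (x j)) ^ e ≤ v (eval x f)) :
    c * (⨆ j, v ((μ • x) j)) ^ e ≤ v (eval (μ • x) f) := by
  have h2 : (⨆ k, v ((μ • x) k)) = v μ * ⨆ k, v (x k) := by
    rw [Real.mul_iSup_of_nonneg (hv μ)]
    exact iSup_congr fun k => by rw [Pi.smul_apply, smul_eq_mul, hm]
  rw [h2, CD_eval x f e hf μ, hm, CD_pow v hm h1 μ e, mul_pow]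
  calc c * (v μ ^ e * (⨆ j, v (x j)) ^ e) = v μ ^ e * (c * (⨆ j, v (x j)) ^ e) := by ring
    _ ≤ _ := mul_le_mul_of_nonneg_left h (pow_nonneg (hv μ) _)

theorem mainG (S : Finset (FinitePlace K))
    (J₀ : Set (MvPolynomial (Fin (N + 1)) K)) (hJ₀ : ∀ f ∈ J₀, ∃ e, f.IsHomogeneous e)
    (F : Fin 3 → MvPolynomial (Fin (N + 1)) K) (d : Fin 3 → ℕ) (hd : ∀ i, 1 ≤ d i)
    (hF : ∀ i, (F i).IsHomogeneous (d i))
    {Ω : Type} [Field Ω] [IsAlgClosed Ω] [Algebra K Ω]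
    (hempty : ∀ A : Fin (N + 1) → Ω, OnV J₀ A → (∀ i, aeval A (F i) = 0) → A = 0)
    (hred : ∀ i j, i ≠ j → ∀ A : Fin (N + 1) → Ω, A ≠ 0 → OnV (J₀ ∪ {F i, F j}) A →
      Jac (J₀ ∪ {F i, F j}) A)
    (T : Set (ℙ K (Fin (N + 1) → K))) (hTX : ∀ Q ∈ T, ∀ f ∈ J₀, eval Q.rep f = 0)
    (hT : LV.IntegralSet S F d T) :
    (∀ θ C : ℝ, 0 < θ → SmallP J₀ F d
      {Q | Q ∈ T ∧ cornerProd S F d Q.rep ≤ C * Height.mulHeight Q.rep ^ (-θ)}) ∧
    ∀ c₀ : ℝ, 0 < c₀ → SmallP J₀ F d {Q | Q ∈ T ∧ AtMostTwo c₀ S F d Q.rep} := by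
  classical
  obtain ⟨c, hc, hcf, hT⟩ := hT
  obtain ⟨P, Z, C₀, 𝒟, hZ, hSP, hC₀, h𝒟, hscal⟩ := scal K S F d hd hF c hc hcf
  have hμ : ∀ Q : ℙ K (Fin (N + 1) → K), Q ∈ T → ∃ μ : K, μ ≠ 0 ∧
      (∀ k, (μ • Q.rep) k ∈ Z.O) ∧
      Height.mulHeight Q.rep = Ht (LF K P) (μ • Q.rep) ∧
      (∀ s, nrm (LF K P s) (μ • Q.rep) ≤ C₀ * Ht (LF K P) (μ • Q.rep)) ∧
      ∀ i, ∃ D ∈ 𝒟, ∃ w : K, Z.U w ∧ eval (μ • Q.rep) (F i) = D * w ^ d i :=
    fun Q hQ => hscal Q.rep Q.rep_nonzero (hT Q hQ)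
  choose! μ hμ0 hμO hμH hμb hμD using hμ
  set ν : ℙ K (Fin (N + 1) → K) → K := fun Q => if Q ∈ T then μ Q else 1 with hν
  have hν0 : ∀ Q, ν Q ≠ 0 := by
    intro Q
    simp only [hν]
    split_ifs with h
    · exact hμ0 Q h
    · exact one_ne_zero
  have hνT : ∀ Q ∈ T, ν Q = μ Q := fun Q hQ => by simp only [hν]; rw [if_pos hQ]
  have hev0 : ∀ Q ∈ T, ∀ f ∈ J₀, eval (μ Q • Q.rep) f = 0 := by
    intro Q hQ f hf
    obtain ⟨e, he⟩ := hJ₀ f hf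
    rw [CD_eval Q.rep f e he, hTX Q hQ f hf, mul_zero]
  -- the main part
  have key : ∀ A : Set (ℙ K (Fin (N + 1) → K)), A ⊆ T → ∀ θ C : ℝ, 0 < θ →
      (∀ Q ∈ A, cornerProd S F d Q.rep ≤ C * Height.mulHeight Q.rep ^ (-θ)) →
      SmallP J₀ F d A := by
    intro A hA θ C hθ hgap
    apply smallP_of_small ν hν0
    refine smallG Z (Ω := Ω) J₀ hJ₀ F d hd hF hempty hred _ ?_ ?_ ?_ 𝒟
      (fun D hD => (h𝒟 D hD).ne) ?_ C₀ ?_ θ hθ ?_
    · rintro _ ⟨Q, hQ, rfl⟩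
      beta_reduce
      rw [hνT Q (hA hQ)]
      exact hμO Q (hA hQ)
    · rintro _ ⟨Q, hQ, rfl⟩
      exact smul_ne_zero (hν0 Q) Q.rep_nonzero
    · rintro _ ⟨Q, hQ, rfl⟩
      beta_reduce
      rw [hνT Q (hA hQ)]
      exact hev0 Q (hA hQ)
    · rintro _ ⟨Q, hQ, rfl⟩
      beta_reduce
      rw [hνT Q (hA hQ)]
      exact hμD Q (hA hQ)
    · rintro _ ⟨Q, hQ, rfl⟩
      beta_reduce
      rw [hνT Q (hA hQ)]
      exact hμb Q (hA hQ)
    · intro D C₁ hD hC₁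
      obtain ⟨C', hC', hle⟩ := gap_le P S hSP F d hd D hD C₁ hC₁
      refine ⟨C' * C, ?_⟩
      rintro _ ⟨Q, hQ, rfl⟩ w hw hev a ha hup
      beta_reduce at hev ha hup ⊢
      rw [hνT Q (hA hQ)] at hev ha hup ⊢
      refine (hle _ w (smul_ne_zero (hμ0 Q (hA hQ)) Q.rep_nonzero) (fun i => (hw i).ne) hev a ha
        hup).trans ?_
      have h1 := cornerProd_smul S F d hF Q.rep (μ Q) (hμ0 Q (hA hQ))
      have h2 := hgap Q hQ
      rw [← h1, hμH Q (hA hQ)] at h2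
      calc C' * cornerProd S F d (μ Q • Q.rep) ≤ C' * (C * Ht (LF K P) (μ Q • Q.rep) ^ (-θ)) :=
            mul_le_mul_of_nonneg_left h2 hC'
        _ = _ := by ring
  refine ⟨fun θ C hθ => key _ (fun Q hQ => hQ.1) θ C hθ (fun Q hQ => hQ.2), fun c₀ hc₀ => ?_⟩
  have hempty' : ∀ s, ∀ A : Fin (N + 1) → LF K P s, OnV J₀ A → (∀ i, aeval A (F i) = 0) →
      A = 0 := by
    intro s A hA hAF
    have hE0 : ∀ A : Fin (N + 1) → Ω, OnV (J₀ ∪ Set.range F) A → A = 0 :=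
      fun A hA => hempty A (fun f hf => hA f (Or.inl hf)) (fun i => hA _ (Or.inr ⟨i, rfl⟩))
    apply transfer0 _ hE0 A
    rintro f (hf | ⟨i, rfl⟩)
    · exact hA f hf
    · exact hAF i
  obtain ⟨C', hC', htwo⟩ := two_gap P Z S hSP J₀ hJ₀ F d hd hF hempty' c hc c₀ hc₀
  refine key _ (fun Q hQ => hQ.1) 1 C' (by norm_num) ?_
  rintro Q ⟨hQ, W, V, hWV, hW, hV⟩
  rw [← cornerProd_smul S F d hF Q.rep (μ Q) (hμ0 Q hQ), hμH Q hQ, Real.rpow_neg_one]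
  have h1 := htwo (μ Q • Q.rep) (smul_ne_zero (hμ0 Q hQ) Q.rep_nonzero)
    (fun f hf => by rw [aeval_self']; exact hev0 Q hQ f hf)
    (one_le_Ht Z (hμO Q hQ) (smul_ne_zero (hμ0 Q hQ) Q.rep_nonzero))
    (fun i => by
      obtain ⟨D, hD, w, hw, h⟩ := hμD Q hQ i
      rw [h]
      exact (h𝒟 D hD).mul (hw.pow _))
    (fun v hv i => scale_low (fun y => apply_nonneg v y) (fun y z => map_mul v y z) (map_one v)
      (F i) (d i) (hF i) Q.rep (μ Q) (c v) ((hT Q hQ i).2 v hv))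
    ⟨W, V, hWV, fun w hw i => scale_low (fun y => apply_nonneg w y) (fun y z => map_mul w y z)
      (map_one w) (F i) (d i) (hF i) Q.rep (μ Q) c₀ (hW w hw i),
      fun v hv hv' i => scale_low (fun y => apply_nonneg v y) (fun y z => map_mul v y z)
      (map_one v) (F i) (d i) (hF i) Q.rep (μ Q) c₀ (hV v hv hv' i)⟩
  rw [div_eq_mul_inv] at h1
  exact h1

end Pool.Agent.Helper38.TP
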