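import Pool.Agent.Helper10.Sub.PlaceExp
import Pool.Agent.Helper94.Sub.PB
import Pool.Agent.Helper38.TP.Ht

/-!
# Monomials modulo relations, and the linear forms of arbitrary order
-/

set_option autoImplicit false

namespace Pool.Agent.Helper38.TP

open Pool.Agent.Helper10.Sub MvPolynomial

/-- The indices different from `a`. -/
abbrev Ix {r : ℕ} (a : Fin r) : Type := {i // i ∈ (Finset.univ : Finset (Fin r)).erase a}

/-- The value of a monomial. -/
def mon {K : Type} [CommMonoid K] {r : ℕ} (w : Fin r → K) (j : Fin r →₀ ℕ) : K := ∏ i, w i ^ j i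

section shift
variable {r : ℕ}

/-- The exponents after a substitution. -/
noncomputable def sh (a : Fin r) (α : Fin r →₀ ℕ) (j : Ix a →₀ ℕ) : Fin r →₀ ℕ :=
  Finsupp.equivFunOnFinite.symm fun i =>
    if h : i ∈ Finset.univ.erase a then α i + j ⟨i, h⟩ else α a + 1 - j.degree

lemma sh_a (a : Fin r) (α : Fin r →₀ ℕ) (j : Ix a →₀ ℕ) :
    sh a α j a = α a + 1 - j.degree := by
  simp [sh]

lemma sh_i (a : Fin r) (α : Fin r →₀ ℕ) (j : Ix a →₀ ℕ) (i : Ix a) :
    sh a α j i.1 = α i.1 + j i := by
  have := i.2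
  simp only [sh, Finsupp.equivFunOnFinite_symm_apply_apply, this, dif_pos]

lemma deg_I (a : Fin r) (j : Ix a →₀ ℕ) : j.degree = ∑ i : Ix a, j i := by
  rw [Finsupp.degree_eq_sum]

lemma sum_erase {R : Type} [AddCommMonoid R] (a : Fin r) (f : Fin r → R) :
    ∑ i, f i = f a + ∑ i : Ix a, f i.1 := by
  rw [← Finset.add_sum_erase _ _ (Finset.mem_univ a), Finset.sum_coe_sort (Finset.univ.erase a) f]

lemma prod_erase {R : Type} [CommMonoid R] (a : Fin r) (f : Fin r → R) :
    ∏ i, f i = f a * ∏ i : Ix a, f i.1 := by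
  rw [← Finset.mul_prod_erase _ _ (Finset.mem_univ a), Finset.prod_coe_sort (Finset.univ.erase a) f]

lemma sh_sum (a : Fin r) (α : Fin r →₀ ℕ) (j : Ix a →₀ ℕ)
    (h : j.degree ≤ α a + 1) : ∑ i, sh a α j i = ∑ i, α i + 1 := by
  rw [sum_erase a, sum_erase a (fun i => α i), sh_a]
  simp only [sh_i]
  rw [Finset.sum_add_distrib, ← deg_I]
  omega

lemma sh_mon {K : Type} [Field K] (w : Fin r → K) (a : Fin r) (hw : w a ≠ 0) (α : Fin r →₀ ℕ)
    (j : Ix a →₀ ℕ) (h : j.degree ≤ α a + 1) :
    mon w (sh a α j) = mon w α * w a * ∏ i : Ix a, (w i.1 / w a) ^ j i := by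
  unfold mon
  rw [prod_erase a, prod_erase a (fun i => w i ^ α i), sh_a]
  simp only [sh_i, pow_add, div_pow]
  rw [Finset.prod_mul_distrib, Finset.prod_div_distrib, Finset.prod_pow_eq_pow_sum, ← deg_I]
  have h1 : w a ^ (α a + 1) = w a ^ (α a + 1 - j.degree) * w a ^ j.degree := by
    rw [← pow_add]
    congr 1
    omega
  have h2 : w a ^ j.degree ≠ 0 := pow_ne_zero _ hw
  rw [mul_div_assoc', eq_div_iff h2]
  rw [pow_succ] at h1
  linear_combination (-(∏ i : Ix a, w i.1 ^ α i.1) * ∏ i : Ix a, w i.1 ^ j i) * h1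

end shift

/-- Classes of monomials of degree `M` and `M + 1`, with the constants relating the monomials to
the characters. -/
structure Cls (K : Type) (r M : ℕ) (A B : Type) where
  rep : Fin r → A → (Fin r →₀ ℕ)
  rep_sum : ∀ a α, ∑ i, rep a α i = M
  κ : Fin r → A → K
  cl : (Fin r →₀ ℕ) → B
  κ' : (Fin r →₀ ℕ) → K

/-- The values of the characters. -/
structure Cls.Val {K : Type} [Field K] {r M : ℕ} {A B : Type} (c : Cls K r M A B)
    (w : Fin r → K) (χ : A → K) (χ' : B → K) : Prop where
  ne : ∀ a α, c.κ a α ≠ 0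
  val : ∀ a α, mon w (c.rep a α) = c.κ a α * χ α
  val' : ∀ m : Fin r →₀ ℕ, ∑ i, m i = M + 1 → mon w m = c.κ' m * χ' (c.cl m)

section forms
variable {K L : Type} [Field K] [Field L] [Algebra K L] {r M : ℕ} {A B : Type}
  [DecidableEq A] [DecidableEq B]

/-- The forms. -/
noncomputable def vG (c : Cls K r M A B) (a : Fin r)
    (p : MvPolynomial (Ix a) (algebraicClosure K L)) : A ⊕ B → A ⊕ B → L
  | Sum.inl α, Sum.inl α' => if α' = α then 1 else 0
  | Sum.inl α, Sum.inr β => - ∑ j ∈ p.support.filter (fun j => j.degree ≤ c.rep a α a + 1),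
      if β = c.cl (sh a (c.rep a α) j) then algebraMap (algebraicClosure K L) L (coeff j p) *
        algebraMap K L ((c.κ a α)⁻¹ * c.κ' (sh a (c.rep a α) j)) else 0
  | Sum.inr _, Sum.inl _ => 0
  | Sum.inr β, Sum.inr β' => if β' = β then 1 else 0

variable (c : Cls K r M A B) (a : Fin r) (p : MvPolynomial (Ix a) (algebraicClosure K L))

lemma vG_alg (i m : A ⊕ B) : IsAlgebraic K (vG c a p i m) := by
  rcases i with α | β
  · rcases m with α' | β'
    · change IsAlgebraic K (if α' = α then (1 : L) else 0)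
      split_ifs
      · exact isAlgebraic_one
      · exact isAlgebraic_zero
    · change IsAlgebraic K (- ∑ j ∈ p.support.filter (fun j => j.degree ≤ c.rep a α a + 1),
        if β' = c.cl (sh a (c.rep a α) j) then algebraMap (algebraicClosure K L) L (coeff j p) *
        algebraMap K L ((c.κ a α)⁻¹ * c.κ' (sh a (c.rep a α) j)) else 0)
      rw [← mem_algebraicClosure_iff]
      refine neg_mem (sum_mem fun j _ => ?_)
      split_ifs
      · exact mul_mem (coeff j p).2 ((algebraicClosure K L).algebraMap_mem _)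
      · exact zero_mem _
  · rcases m with α' | β'
    · exact isAlgebraic_zero
    · change IsAlgebraic K (if β' = β then (1 : L) else 0)
      split_ifs
      · exact isAlgebraic_one
      · exact isAlgebraic_zero

variable [Fintype A] [Fintype B]

lemma lf_single' (v : A ⊕ B → L) (m : A ⊕ B) : lf v (Pi.single m (1 : K)) = v m := by
  unfold lf
  rw [Finset.sum_eq_single m]
  · simp
  · intro m' _ h
    rw [Pi.single_eq_of_ne h, map_zero, mul_zero]
  · intro h
    exact absurd (Finset.mem_univ _) h

lemma lf_vG_inr (β : B) (y : A ⊕ B → K) :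
    lf (vG c a p (Sum.inr β)) y = algebraMap K L (y (Sum.inr β)) := by
  unfold lf
  rw [Finset.sum_eq_single (Sum.inr β)]
  · simp [vG]
  · rintro (α | β') _ h
    · simp [vG]
    · have : β' ≠ β := fun h' => h (by rw [h'])
      simp [vG, this]
  · intro h
    exact absurd (Finset.mem_univ _) h

lemma lf_vG_inl (α : A) (y : A ⊕ B → K) :
    lf (vG c a p (Sum.inl α)) y = algebraMap K L (y (Sum.inl α)) +
      ∑ β : B, vG c a p (Sum.inl α) (Sum.inr β) * algebraMap K L (y (Sum.inr β)) := by
  unfold lf
  rw [Fintype.sum_sum_type]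
  congr 1
  rw [Finset.sum_eq_single α]
  · simp [vG]
  · intro α' _ h
    simp [vG, h]
  · intro h
    exact absurd (Finset.mem_univ _) h

lemma lf_vG_y {w : Fin r → K} {χ : A → K} {χ' : B → K} (hc : c.Val w χ χ') (α : A) (z : K) :
    lf (vG c a p (Sum.inl α)) (Sum.elim (fun α => z * χ α) χ') =
      algebraMap K L (c.κ a α)⁻¹ * (algebraMap K L (z * mon w (c.rep a α)) -
      ∑ j ∈ p.support.filter (fun j => j.degree ≤ c.rep a α a + 1),
        algebraMap (algebraicClosure K L) L (coeff j p) *
          algebraMap K L (mon w (sh a (c.rep a α) j))) := by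
  rw [lf_vG_inl, sub_eq_add_neg, mul_add]
  congr 1
  · rw [← map_mul, hc.val]
    congr 1
    have := hc.ne a α
    simp only [Sum.elim_inl]
    field_simp
  have h1 : ∀ β : B, vG c a p (Sum.inl α) (Sum.inr β) *
      algebraMap K L ((Sum.elim (fun α => z * χ α) χ' : A ⊕ B → K) (Sum.inr β)) =
      - ∑ j ∈ p.support.filter (fun j => j.degree ≤ c.rep a α a + 1),
        if β = c.cl (sh a (c.rep a α) j) then algebraMap (algebraicClosure K L) L (coeff j p) *
          algebraMap K L ((c.κ a α)⁻¹ * mon w (sh a (c.rep a α) j)) else 0 := by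
    intro β
    change (- ∑ j ∈ p.support.filter (fun j => j.degree ≤ c.rep a α a + 1),
      if β = c.cl (sh a (c.rep a α) j) then algebraMap (algebraicClosure K L) L (coeff j p) *
        algebraMap K L ((c.κ a α)⁻¹ * c.κ' (sh a (c.rep a α) j)) else 0) *
      algebraMap K L (χ' β) = _
    rw [neg_mul, Finset.sum_mul]
    congr 1
    refine Finset.sum_congr rfl fun j hj => ?_
    have hj' := (Finset.mem_filter.1 hj).2
    split_ifs with h
    · rw [hc.val' _ (by rw [sh_sum a _ j hj', c.rep_sum]), ← h]
      simp only [map_mul]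
      ring
    · rw [zero_mul]
  simp only [h1]
  rw [Finset.sum_neg_distrib, Finset.sum_comm, mul_neg, Finset.mul_sum]
  congr 1
  refine Finset.sum_congr rfl fun j hj => ?_
  rw [Finset.sum_eq_single (c.cl (sh a (c.rep a α) j))]
  · rw [if_pos rfl, map_mul]
    ring
  · intro β _ hβ
    rw [if_neg hβ]
  · intro h
    exact absurd (Finset.mem_univ _) h

lemma vG_forms : Forms (⊤ : Submodule K (A ⊕ B → K)) (vG (L := L) c a p)
    Finset.univ Finset.univ where
  hst := subset_rfl
  alg := vG_alg c a p
  ind := by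
    intro g hg
    have h1 : ∀ m, ∑ i, g i * vG (L := L) c a p i m = 0 := by
      intro m
      have := hg (Pi.single m 1) Submodule.mem_top
      simpa only [lf_single'] using this
    have hl : ∀ α, g (Sum.inl α) = 0 := by
      intro α
      have h2 := h1 (Sum.inl α)
      rw [Fintype.sum_sum_type, Finset.sum_eq_single α] at h2
      · simpa [vG] using h2
      · intro α' _ h
        simp [vG, Ne.symm h]
      · intro h
        exact absurd (Finset.mem_univ _) h
    rintro (α | β) -
    · exact hl α
    · have h2 := h1 (Sum.inr β)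
      rw [Fintype.sum_sum_type] at h2
      simp only [hl, zero_mul, Finset.sum_const_zero, zero_add] at h2
      rw [Finset.sum_eq_single β] at h2
      · simpa [vG] using h2
      · intro β' _ h
        simp [vG, Ne.symm h]
      · intro h
        exact absurd (Finset.mem_univ _) h
  spn := by
    rintro (α | β)
    · refine ⟨Sum.elim (fun α' => if α' = α then 1 else 0)
        (fun β => - vG c a p (Sum.inl α) (Sum.inr β)), fun y _ => ?_⟩
      rw [Fintype.sum_sum_type]
      simp only [Sum.elim_inl, Sum.elim_inr, lf_vG_inr]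
      rw [Finset.sum_eq_single α]
      · rw [if_pos rfl, one_mul, lf_vG_inl]
        simp only [neg_mul]
        rw [Finset.sum_neg_distrib]
        ring
      · intro α' _ h
        rw [if_neg h, zero_mul]
      · intro h
        exact absurd (Finset.mem_univ _) h
    · refine ⟨Pi.single (Sum.inr β) 1, fun y _ => ?_⟩
      rw [Finset.sum_eq_single (Sum.inr β)]
      · rw [Pi.single_eq_same, one_mul, lf_vG_inr]
      · intro m _ h
        rw [Pi.single_eq_of_ne h, zero_mul]
      · intro h
        exact absurd (Finset.mem_univ _) h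

end forms

end Pool.Agent.Helper38.TP
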