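import Pool.Agent.Helper38.TP.RelG3
import Pool.Agent.Helper38.TP.AlgM
import Pool.Agent.Helper38.TP.LemU

/-!
# Monomials in three variables
-/

set_option autoImplicit false
set_option linter.unusedSectionVars false

namespace Pool.Agent.Helper38.TP

open Pool.Agent.Helper10.Sub MvPolynomial

/-- The monomials of degree `M`. -/
abbrev Mn (M : ℕ) : Type :=
  {j : Fin 3 →₀ ℕ // j ∈ (Finset.univ : Finset (Fin 3)).finsuppAntidiag M}

lemma mn_iff {M : ℕ} {j : Fin 3 →₀ ℕ} :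
    j ∈ (Finset.univ : Finset (Fin 3)).finsuppAntidiag M ↔ ∑ i, j i = M := by
  rw [Finset.mem_finsuppAntidiag]
  exact ⟨fun h => h.1, fun h => ⟨h, Finset.subset_univ _⟩⟩

/-- Permuting the variables. -/
noncomputable def mnPerm (M : ℕ) (e : Equiv.Perm (Fin 3)) : Mn M ≃ Mn M where
  toFun α := ⟨α.1.equivMapDomain e, by
    rw [mn_iff]
    refine Eq.trans ?_ (mn_iff.1 α.2)
    simp only [Finsupp.equivMapDomain_apply]
    exact Equiv.sum_comp e.symm (fun i => α.1 i)⟩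
  invFun α := ⟨α.1.equivMapDomain e.symm, by
    rw [mn_iff]
    refine Eq.trans ?_ (mn_iff.1 α.2)
    simp only [Finsupp.equivMapDomain_apply, Equiv.symm_symm]
    exact Equiv.sum_comp e (fun i => α.1 i)⟩
  left_inv α := by
    apply Subtype.ext
    ext i
    simp
  right_inv α := by
    apply Subtype.ext
    ext i
    simp

lemma mn_sum (M : ℕ) : ∃ S : ℕ, (∀ a : Fin 3, ∑ α : Mn M, α.1 a = S) ∧
    3 * S = Fintype.card (Mn M) * M := by
  have h1 : ∀ a : Fin 3, ∑ α : Mn M, α.1 a = ∑ α : Mn M, α.1 0 := by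
    intro a
    rw [← Equiv.sum_comp (mnPerm M (Equiv.swap 0 a))]
    refine Finset.sum_congr rfl fun α _ => ?_
    change (α.1.equivMapDomain (Equiv.swap 0 a)) a = _
    rw [Finsupp.equivMapDomain_apply, Equiv.symm_swap, Equiv.swap_apply_right]
  refine ⟨_, h1, ?_⟩
  have h2 : ∑ a : Fin 3, ∑ α : Mn M, α.1 a = Fintype.card (Mn M) * M := by
    rw [Finset.sum_comm]
    have : ∀ α : Mn M, ∑ a, α.1 a = M := fun α => mn_iff.1 α.2
    simp [this]
  rw [← h2]
  simp only [h1]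
  simp

instance (M : ℕ) : Nonempty (Mn M) :=
  ⟨⟨Finsupp.single 0 M, by rw [mn_iff]; simp [Finsupp.single_apply]⟩⟩

/-- The monomials without relations. -/
noncomputable def clsMn (K : Type) [Field K] (M : ℕ) : Cls K 3 M (Mn M) (Mn (M + 1)) where
  rep _ α := α.1
  rep_sum _ α := mn_iff.1 α.2
  κ _ _ := 1
  cl m := if h : m ∈ (Finset.univ : Finset (Fin 3)).finsuppAntidiag (M + 1) then ⟨m, h⟩ else
    Classical.arbitrary _
  κ' _ := 1

lemma clsMn_val (K : Type) [Field K] (M : ℕ) (w : Fin 3 → K) :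
    (clsMn K M).Val w (fun α => mon w α.1) (fun β => mon w β.1) where
  ne _ _ := one_ne_zero
  val _ _ := (one_mul _).symm
  val' m hm := by
    have hm' : m ∈ (Finset.univ : Finset (Fin 3)).finsuppAntidiag (M + 1) := mn_iff.2 hm
    have h1 : (clsMn K M).cl m = ⟨m, hm'⟩ := dif_pos hm'
    rw [h1]
    exact (one_mul _).symm

lemma clsMn_cl (K : Type) [Field K] (M : ℕ) (β : Mn (M + 1)) :
    ∃ m : Fin 3 →₀ ℕ, ∑ i, m i = M + 1 ∧ (clsMn K M).cl m = β :=
  ⟨β.1, mn_iff.1 β.2, dif_pos β.2⟩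

section hom
variable {K : Type} [Field K]

lemma hom_sum {σ : Type} [Fintype σ] {P : MvPolynomial σ K} {t : ℕ} (hP : P.IsHomogeneous t)
    {m : σ →₀ ℕ} (hm : coeff m P ≠ 0) : ∑ i, m i = t := by
  have h1 := hP hm
  rw [Finsupp.weight_apply] at h1
  rw [← h1, Finsupp.sum_fintype _ _ (by simp)]
  simp

lemma mon_eq {r : ℕ} (w : Fin r → K) (P : MvPolynomial (Fin r) K) :
    eval w P = ∑ m ∈ P.support, coeff m P * mon w m := eval_eq' w P

lemma U_mon {Λ : Type} [Fintype Λ] {L : Λ → Type} [∀ s, NontriviallyNormedField (L s)]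
    [∀ s, Algebra K (L s)] {Z : MP K L} {r : ℕ} {w : Fin r → K} (hw : ∀ i, Z.U (w i))
    (m : Fin r →₀ ℕ) : Z.U (mon w m) :=
  MP.U.prod _ fun i _ => (hw i).pow _

end hom

section nd
variable {K : Type} [Field K] [CharZero K] {Λ : Type} [Fintype Λ] [DecidableEq Λ] {L : Λ → Type}
  [∀ s, NontriviallyNormedField (L s)] [∀ s, ProperSpace (L s)] [∀ s, Algebra K (L s)] {N : ℕ}
  {Z : MP K L} {𝔅 : LN (Fin (N + 1) → K)} {J₀ : Set (MvPolynomial (Fin (N + 1)) K)}
    {F : Fin 3 → MvPolynomial (Fin (N + 1)) K} {d : Fin 3 → ℕ} {D : Fin 3 → K}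
    {w : (Fin (N + 1) → K) → Fin 3 → K} {C₁ ε C₂ : ℝ} {E : Set (Fin (N + 1) → K)}

/-- No relation between two monomials on a large set. -/
def NoRel (𝔅 : LN (Fin (N + 1) → K)) (w : (Fin (N + 1) → K) → Fin 3 → K)
    (E : Set (Fin (N + 1) → K)) : Prop :=
  ∀ α β : Fin 3 →₀ ℕ, ∑ i, α i = ∑ i, β i → α ≠ β → ∀ κ : K,
    ¬ 𝔅.Big {x | x ∈ E ∧ mon (w x) α = κ * mon (w x) β}

omit [CharZero K] [∀ s, ProperSpace (L s)] in
/-- Homogeneous polynomials in the units do not vanish on large sets. -/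
lemma poly_zero (Z : MP K L) (hU : ∀ x ∈ E, ∀ i, Z.U (w x i)) (hn : NoRel 𝔅 w E)
    {P : MvPolynomial (Fin 3) K} {t : ℕ} (hP : P.IsHomogeneous t) {E' : Set (Fin (N + 1) → K)}
    (hE : E' ⊆ E) (hB : 𝔅.Big E') (h0 : ∀ x ∈ E', eval (w x) P = 0) : P = 0 := by
  classical
  by_contra hne
  have hsup : P.support.Nonempty := by
    rw [Finset.nonempty_iff_ne_empty, Ne, support_eq_empty]
    exact hne
  obtain ⟨i, -, j, -, hij, m, hm⟩ := unit_eq Z 𝔅
    (fun x (j : {j // j ∈ P.support}) => mon (w x) j.1) E' hB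
    (fun x hx j => U_mon (hU x (hE hx)) j.1) (fun j => coeff j.1 P) Finset.univ
    (by obtain ⟨j, hj⟩ := hsup; exact ⟨⟨j, hj⟩, Finset.mem_univ _⟩)
    (fun j _ => mem_support_iff.1 j.2) (fun x hx => by
      have h1 := h0 x hx
      rw [mon_eq, ← Finset.sum_coe_sort P.support] at h1
      exact h1)
  refine hn i.1 j.1 ?_ (fun h => hij (Subtype.ext h)) m (𝔅.mono ?_ hm)
  · rw [hom_sum hP (mem_support_iff.1 i.2), hom_sum hP (mem_support_iff.1 j.2)]
  · rintro x ⟨hx, h⟩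
    exact ⟨hE hx, h⟩

/-- The polynomial with given coefficients. -/
noncomputable def polyMn (M : ℕ) (g : Mn M → K) : MvPolynomial (Fin 3) K :=
  ∑ α : Mn M, monomial α.1 (g α)

lemma polyMn_hom (M : ℕ) (g : Mn M → K) : (polyMn M g).IsHomogeneous M := by
  refine IsHomogeneous.sum _ _ _ fun α _ => ?_
  refine isHomogeneous_monomial _ ?_
  rw [Finsupp.degree_eq_sum]
  exact mn_iff.1 α.2

lemma polyMn_eval (M : ℕ) (g : Mn M → K) (w : Fin 3 → K) :
    eval w (polyMn M g) = ∑ α : Mn M, g α * mon w α.1 := by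
  unfold polyMn
  rw [map_sum]
  refine Finset.sum_congr rfl fun α _ => ?_
  rw [eval_monomial, Finsupp.prod_fintype _ _ (by simp)]
  rfl

lemma polyMn_coeff (M : ℕ) (g : Mn M → K) (α : Mn M) : coeff α.1 (polyMn M g) = g α := by
  classical
  unfold polyMn
  rw [coeff_sum, Finset.sum_eq_single α]
  · rw [coeff_monomial, if_pos rfl]
  · intro β _ hβ
    rw [coeff_monomial, if_neg]
    intro h
    exact hβ (Subtype.ext h)
  · intro h
    exact absurd (Finset.mem_univ _) h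

lemma polyMn_ne (M : ℕ) (g : Mn M → K) (hg : g ≠ 0) : polyMn M g ≠ 0 := by
  intro h
  apply hg
  funext α
  rw [← polyMn_coeff M g α, h, coeff_zero]
  rfl

end nd

end Pool.Agent.Helper38.TP
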