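import Pool.Agent.Helper38.TP.MonM
import Pool.Agent.Helper38.TP.Int

/-!
# The case without relations between the units
-/

set_option autoImplicit false
set_option linter.unusedSectionVars false

namespace Pool.Agent.Helper38.TP

open Pool.Agent.Helper10.Sub MvPolynomial

/-- Linear forms. -/
lemma eval_hom_one {K : Type} [Field K] {r : ℕ} {P : MvPolynomial (Fin r) K}
    (hP : P.IsHomogeneous 1) (w : Fin r → K) :
    eval w P = ∑ i, w i * coeff (Finsupp.single i 1) P := by
  classical
  rw [mon_eq]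
  have hsub : P.support ⊆ Finset.univ.image fun i : Fin r => Finsupp.single i 1 := by
    intro m hm
    have h1 := hom_sum hP (mem_support_iff.1 hm)
    obtain ⟨i, hi⟩ : ∃ i, m i ≠ 0 := by
      by_contra hcon
      push Not at hcon
      rw [Finset.sum_eq_zero fun i _ => hcon i] at h1
      exact absurd h1 (by norm_num)
    refine Finset.mem_image.2 ⟨i, Finset.mem_univ _, ?_⟩
    ext j
    rw [← Finset.add_sum_erase _ _ (Finset.mem_univ i)] at h1
    by_cases hj : j = i
    · subst hj
      rw [Finsupp.single_eq_same]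
      omega
    · rw [Finsupp.single_eq_of_ne hj]
      have h2 : m j ≤ ∑ k ∈ Finset.univ.erase i, m k :=
        Finset.single_le_sum (f := fun k => m k) (fun _ _ => Nat.zero_le _)
          (Finset.mem_erase.2 ⟨hj, Finset.mem_univ _⟩)
      omega
  rw [Finset.sum_subset hsub (fun m _ hm => by
    rw [notMem_support_iff.1 hm, zero_mul]), Finset.sum_image (fun i _ j _ h => by
    exact (Finsupp.single_left_inj (one_ne_zero)).1 h)]
  refine Finset.sum_congr rfl fun i _ => ?_
  have h1 : mon w (Finsupp.single i 1) = w i := by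
    unfold mon
    rw [Finset.prod_eq_single i]
    · rw [Finsupp.single_eq_same, pow_one]
    · intro j _ hj
      rw [Finsupp.single_eq_of_ne hj, pow_zero]
    · intro h
      exact absurd (Finset.mem_univ _) h
  rw [h1, mul_comm]

section nd
variable {K : Type} [Field K] [CharZero K] {Λ : Type} [Fintype Λ] [DecidableEq Λ] {L : Λ → Type}
  [∀ s, NontriviallyNormedField (L s)] [∀ s, ProperSpace (L s)] [∀ s, Algebra K (L s)] {N : ℕ}
  {Z : MP K L} {𝔅 : LN (Fin (N + 1) → K)} {J₀ : Set (MvPolynomial (Fin (N + 1)) K)}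
    {F : Fin 3 → MvPolynomial (Fin (N + 1)) K} {d : Fin 3 → ℕ} {D : Fin 3 → K}
    {w : (Fin (N + 1) → K) → Fin 3 → K} {C₁ ε C₂ : ℝ} {E : Set (Fin (N + 1) → K)}

theorem ndM (h : Pts Z 𝔅 J₀ F d D w C₁ ε C₂ E) (hn : NoRel 𝔅 w E)
    {Ω : Type} [Field Ω] [IsAlgClosed Ω] [Algebra K Ω]
    (hΩ : ∀ A : Fin (N + 1) → Ω, OnV J₀ A → (∀ i, aeval A (F i) = 0) → A = 0)
    (k : Fin (N + 1)) {E₁ : Set (Fin (N + 1) → K)} (hE₁ : E₁ ⊆ E) (hB₁ : 𝔅.Big E₁) :
    ∃ E' ⊆ E₁, 𝔅.Big E' ∧ ∃ l : Fin 3 → K, ∀ x ∈ E', x k = ∑ i, w x i * l i := by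
  classical
  have hε := h.hε
  obtain ⟨M, hM⟩ : ∃ M : ℕ, 6 / ε ≤ M := ⟨_, Nat.le_ceil _⟩
  obtain ⟨S, hS, hS3⟩ := mn_sum M
  have h3 : (3 : ℝ) * S = Fintype.card (Mn M) * M := by exact_mod_cast hS3
  have h6 : 6 ≤ ε * M := by
    rw [div_le_iff₀ hε] at hM
    linarith
  have hS₀ : 2 * (Fintype.card (Mn M) : ℝ) ≤ ε * S := by
    have h7 : (0 : ℝ) ≤ Fintype.card (Mn M) := Nat.cast_nonneg _
    nlinarith
  obtain ⟨E', hE', hB', g, hg, hrel⟩ := relG (h.mono hE₁ hB₁) (by norm_num) (clsMn K M)
    (fun x α => mon (w x) α.1) (fun x β => mon (w x) β.1) (fun x _ => clsMn_val K M (w x))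
    (fun x hx α => U_mon (h.unit x (hE₁ hx)) α.1) (fun x hx β => U_mon (h.unit x (hE₁ hx)) β.1)
    (clsMn_cl K M) (fun a => (hS a).ge) hS₀ k
  set A := polyMn M fun α => g (Sum.inl α) with hA
  set B := polyMn (M + 1) fun β => g (Sum.inr β) with hB
  have hAh : A.IsHomogeneous M := polyMn_hom _ _
  have hBh : B.IsHomogeneous (M + 1) := polyMn_hom _ _
  have hE'E : E' ⊆ E := hE'.trans hE₁
  have hAB : ∀ x ∈ E', x k * eval (w x) A + eval (w x) B = 0 := by
    intro x hx
    rw [hA, hB, polyMn_eval, polyMn_eval]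
    exact hrel x hx
  have hA0 : A ≠ 0 := by
    intro h0
    have h1 : B = 0 := poly_zero Z h.unit hn hBh hE'E hB' (fun x hx => by
      have := hAB x hx
      rwa [h0, map_zero, mul_zero, zero_add] at this)
    apply hg
    funext m
    rcases m with α | β
    · have := polyMn_coeff M (fun α => g (Sum.inl α)) α
      rw [← hA, h0, coeff_zero] at this
      exact this.symm
    · have := polyMn_coeff (M + 1) (fun β => g (Sum.inr β)) β
      rw [← hB, h1, coeff_zero] at this
      exact this.symm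
  -- the points with `A ≠ 0`
  set E₂ : Set (Fin (N + 1) → K) := {x | x ∈ E' ∧ eval (w x) A ≠ 0} with hE₂
  have hB₂ : 𝔅.Big E₂ := by
    rcases 𝔅.union (E := {x | x ∈ E' ∧ eval (w x) A = 0}) (E' := E₂) (𝔅.mono (fun x hx => by
      by_cases h0 : eval (w x) A = 0
      · exact Or.inl ⟨hx, h0⟩
      · exact Or.inr ⟨hx, h0⟩) hB') with h1 | h1
    · exact absurd (poly_zero Z h.unit hn hAh (fun x hx => hE'E hx.1) h1 (fun x hx => hx.2)) hA0
    · exact h1
  have hE₂E : E₂ ⊆ E := fun x hx => hE'E hx.1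
  -- integrality
  obtain ⟨e, c, hc⟩ := int_eq J₀ h.hJ₀ F d h.hd h.hF hΩ k
  set c' : ℕ → MvPolynomial (Fin 3) K := fun i =>
    aeval (fun j => C (D j) * X j ^ d j) (c i) with hc'
  have hc'e : ∀ i (v : Fin 3 → K), eval v (c' i) = eval (fun j => D j * v j ^ d j) (c i) := by
    intro i v
    have h1 := MvPolynomial.comp_aeval_apply (R := K)
      (f := fun j : Fin 3 => (C (D j) * X j ^ d j : MvPolynomial (Fin 3) K))
      (MvPolynomial.aeval v : MvPolynomial (Fin 3) K →ₐ[K] K) (c i)
    have h2 : ∀ (u : Fin 3 → K) (p : MvPolynomial (Fin 3) K), eval u p = aeval u p := by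
      intro u p
      rw [← MvPolynomial.coe_aeval_eq_eval]
      rfl
    rw [h2, h2]
    refine h1.trans ?_
    congr 2
    funext j
    simp
  have hint : ∀ x ∈ E, (x k) ^ e + ∑ i ∈ Finset.range e,
      eval (w x) (homogeneousComponent (e - i) (c' i)) * (x k) ^ i = 0 := by
    intro x hx
    apply hc_int (w x) c' e (x k)
    intro t
    have h1 := hc (t • x) (fun f hf => by
      obtain ⟨m, hm⟩ := h.hJ₀ f hf
      rw [hm.eval_smul', h.onV x hx f hf, mul_zero])
    have h2 : (fun j => eval (t • x) (F j)) = fun j => D j * (w x j * t) ^ d j := by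
      funext j
      rw [(h.hF j).eval_smul', h.ev x hx j, mul_pow]
      ring
    rw [h2] at h1
    simp only [hc'e]
    have h3 : (t • x) k = x k * t := by rw [Pi.smul_apply, smul_eq_mul, mul_comm]
    rw [h3] at h1
    exact h1
  have hQ : (-B) ^ e + ∑ i ∈ Finset.range e, homogeneousComponent (e - i) (c' i) * (-B) ^ i *
      A ^ (e - i) = 0 := by
    refine poly_zero (t := e * (M + 1)) Z h.unit hn ?_ hE₂E hB₂ ?_
    · refine IsHomogeneous.add ?_ (IsHomogeneous.sum _ _ _ fun i hi => ?_)
      · have := (hBh.neg).pow e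
        rwa [mul_comm] at this
      · have hi' := Finset.mem_range.1 hi
        have h1 := ((homogeneousComponent_isHomogeneous (e - i) (c' i)).mul
          ((hBh.neg).pow i)).mul (hAh.pow (e - i))
        have h2 : e - i + (M + 1) * i + M * (e - i) = e * (M + 1) := by
          obtain ⟨f, rfl⟩ : ∃ f, e = i + f := ⟨e - i, by omega⟩
          rw [Nat.add_sub_cancel_left]
          ring
        rwa [h2] at h1
    · intro x hx
      have h1 : -eval (w x) B = x k * eval (w x) A := by
        linear_combination -hAB x hx.1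
      rw [map_add, map_pow, map_neg, map_sum, h1]
      simp only [map_mul, map_pow, map_neg, h1]
      have h2 := hint x (hE₂E hx)
      have h3 : ∀ i ∈ Finset.range e, eval (w x) (homogeneousComponent (e - i) (c' i)) *
          (x k * eval (w x) A) ^ i * eval (w x) A ^ (e - i) =
          eval (w x) A ^ e * (eval (w x) (homogeneousComponent (e - i) (c' i)) * (x k) ^ i) := by
        intro i hi
        have hi' := Finset.mem_range.1 hi
        have h4 : eval (w x) A ^ e = eval (w x) A ^ i * eval (w x) A ^ (e - i) := by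
          rw [← pow_add]
          congr 1
          omega
        rw [h4, mul_pow]
        ring
      rw [Finset.sum_congr rfl h3, ← Finset.mul_sum, mul_pow]
      linear_combination eval (w x) A ^ e * h2
  obtain ⟨q, hq⟩ := dvd_of_int A (-B) hA0 e _ hQ
  refine ⟨E₂, fun x hx => hE' hx.1, hB₂,
    fun i => coeff (Finsupp.single i 1) (homogeneousComponent 1 q), fun x hx => ?_⟩
  rw [← eval_hom_one (homogeneousComponent_isHomogeneous 1 q)]
  symm
  apply hc_of_all
  intro t ht
  have h1 := congrArg (eval (t • w x)) hq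
  rw [map_mul, map_neg, hAh.eval_smul', hBh.eval_smul'] at h1
  have h2 : (t • w x) = fun j => w x j * t := by
    funext j
    rw [Pi.smul_apply, smul_eq_mul, mul_comm]
  rw [h2] at h1
  have h3 : t ^ M * eval (w x) A ≠ 0 := mul_ne_zero (pow_ne_zero _ ht) hx.2
  apply mul_left_cancel₀ h3
  rw [h1]
  have h4 := hAB x hx.1
  rw [pow_succ, pow_one]
  linear_combination (-(t ^ M * t)) * h4

end nd

end Pool.Agent.Helper38.TP
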