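import Pool.Agent.Helper10.Sub.CoreInf

/-!
# Estimates at one place
-/

set_option autoImplicit false

namespace Pool.Agent.Helper38.TP

open Pool.Agent.Helper10.Sub

/-- The number `a` lies between two powers of `Q`. -/
def Rg (Q B a : ℝ) : Prop := Q ^ (-B) ≤ a ∧ a ≤ Q ^ B

section rg
variable {Q B B' a b : ℝ}

lemma Rg.pos (hQ : 1 ≤ Q) (h : Rg Q B a) : 0 < a :=
  lt_of_lt_of_le (Real.rpow_pos_of_pos (by linarith) _) h.1

lemma Rg.mono (hQ : 1 ≤ Q) (hB : B ≤ B') (h : Rg Q B a) : Rg Q B' a :=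
  ⟨(Real.rpow_le_rpow_of_exponent_le hQ (by linarith)).trans h.1,
    h.2.trans (Real.rpow_le_rpow_of_exponent_le hQ hB)⟩

lemma Rg.mul (hQ : 1 ≤ Q) (h : Rg Q B a) (h' : Rg Q B' b) : Rg Q (B + B') (a * b) := by
  have hQ0 : 0 < Q := by linarith
  constructor
  · rw [neg_add, Real.rpow_add hQ0]
    exact mul_le_mul h.1 h'.1 (Real.rpow_nonneg hQ0.le _) (h.pos hQ).le
  · rw [Real.rpow_add hQ0]
    exact mul_le_mul h.2 h'.2 (h'.pos hQ).le (Real.rpow_nonneg hQ0.le _)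

lemma Rg.inv (hQ : 1 ≤ Q) (h : Rg Q B a) : Rg Q B a⁻¹ := by
  have hQ0 : 0 < Q := by linarith
  have ha := h.pos hQ
  constructor
  · rw [Real.rpow_neg hQ0.le]
    exact inv_anti₀ ha h.2
  · have h1 := inv_anti₀ (Real.rpow_pos_of_pos hQ0 _) h.1
    rwa [← Real.rpow_neg hQ0.le, neg_neg] at h1

lemma Rg.div (hQ : 1 ≤ Q) (h : Rg Q B a) (h' : Rg Q B' b) : Rg Q (B + B') (a / b) := by
  rw [div_eq_mul_inv]
  exact h.mul hQ (h'.inv hQ)

lemma Rg.max (h : Rg Q B a) (h' : Rg Q B b) : Rg Q B (max a b) :=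
  ⟨h.1.trans (le_max_left _ _), max_le h.2 h'.2⟩

lemma Rg.of_one (h1 : 1 ≤ a) (h2 : a ≤ Q) : Rg Q 1 a := by
  have hQ : 1 ≤ Q := h1.trans h2
  refine ⟨?_, by rw [Real.rpow_one]; exact h2⟩
  refine le_trans ?_ h1
  exact Real.rpow_le_one_of_one_le_of_nonpos hQ (by norm_num)

/-- A lower bound for a factor from an upper bound for all factors. -/
lemma lower_of_prod {Λ : Type} [Fintype Λ] (f : Λ → ℝ) (T : ℝ) (hT : 1 ≤ T)
    (hf0 : ∀ s, 0 < f s) (hf : ∀ s, f s ≤ T) (h1 : 1 ≤ ∏ s, f s) (s : Λ) :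
    (T ^ Fintype.card Λ)⁻¹ ≤ f s := by
  classical
  rw [inv_le_iff_one_le_mul₀ (by positivity)]
  rw [← Finset.mul_prod_erase _ _ (Finset.mem_univ s)] at h1
  refine h1.trans (mul_le_mul_of_nonneg_left ?_ (hf0 s).le)
  calc ∏ i ∈ Finset.univ.erase s, f i ≤ ∏ i ∈ Finset.univ.erase s, T :=
        Finset.prod_le_prod (fun i _ => (hf0 i).le) (fun i _ => hf i)
    _ = T ^ (Finset.univ.erase s).card := by rw [Finset.prod_const]
    _ ≤ T ^ Fintype.card Λ := by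
        apply pow_le_pow_right₀ hT
        exact (Finset.card_le_card (Finset.erase_subset _ _)).trans_eq Finset.card_univ

lemma rg_of_prod {Λ : Type} [Fintype Λ] (f : Λ → ℝ) (hQ : 1 ≤ Q) (hB : 0 ≤ B)
    (hf0 : ∀ s, 0 < f s) (hf : ∀ s, f s ≤ Q ^ B) (h1 : 1 ≤ ∏ s, f s) (s : Λ) :
    Rg Q (B * Fintype.card Λ + B) (f s) := by
  have hQ0 : 0 < Q := by linarith
  have hT : 1 ≤ Q ^ B := Real.one_le_rpow hQ hB
  have h2 := lower_of_prod f (Q ^ B) hT hf0 hf h1 s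
  constructor
  · refine le_trans ?_ h2
    rw [← Real.rpow_natCast, ← Real.rpow_mul hQ0.le, ← Real.rpow_neg hQ0.le]
    apply Real.rpow_le_rpow_of_exponent_le hQ
    linarith
  · refine (hf s).trans (Real.rpow_le_rpow_of_exponent_le hQ ?_)
    have : 0 ≤ B * Fintype.card Λ := by positivity
    linarith

end rg

/-- Bounds for the forms at one place. -/
noncomputable def bet (N : ℕ) (C n wb wc : ℝ) : IN N → ℝ :=
  Sum.elim ![wb, wc, C * n] fun _ => C * (max wb wc ^ 2 / n)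

/-- Relations between the sizes at one place. -/
structure Nm (C n wa wb wc : ℝ) : Prop where
  hC : 1 ≤ C
  n0 : 0 < n
  a0 : 0 < wa
  b0 : 0 < wb
  c0 : 0 < wc
  b1 : wb ≤ C * n
  c1 : wc ≤ C * n
  la : n ≤ C * wa

section nm
variable {C n wa wb wc : ℝ} (h : Nm C n wa wb wc)
include h

lemma Nm.C0 : 0 < C := lt_of_lt_of_le one_pos h.hC

lemma Nm.g0 : 0 ≤ C * (max wb wc ^ 2 / n) := by
  have := h.C0
  have := h.n0
  positivity

lemma Nm.g1 : C * (max wb wc ^ 2 / n) ≤ C ^ 3 * n := by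
  have hC := h.C0
  have hn := h.n0
  have h1 : max wb wc ≤ C * n := max_le h.b1 h.c1
  have h2 : 0 < max wb wc := lt_of_lt_of_le h.b0 (le_max_left _ _)
  have h3 : max wb wc ^ 2 / n ≤ C ^ 2 * n := by
    rw [div_le_iff₀ hn]
    calc max wb wc ^ 2 ≤ (C * n) ^ 2 := pow_le_pow_left₀ h2.le h1 2
      _ = C ^ 2 * n * n := by ring
  calc C * (max wb wc ^ 2 / n) ≤ C * (C ^ 2 * n) := mul_le_mul_of_nonneg_left h3 hC.le
    _ = _ := by ring

lemma Nm.le3 : C ≤ C ^ 3 := le_self_pow₀ h.hC (by norm_num)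

lemma Nm.bet_nonneg {N : ℕ} (i : IN N) : 0 ≤ bet N C n wb wc i := by
  rcases i with i | i
  · fin_cases i
    · exact h.b0.le
    · exact h.c0.le
    · exact (mul_pos h.C0 h.n0).le
  · exact h.g0

lemma Nm.bet_le {N : ℕ} (i : IN N) : bet N C n wb wc i ≤ C ^ 3 * n := by
  have h1 : C * n ≤ C ^ 3 * n := mul_le_mul_of_nonneg_right h.le3 h.n0.le
  rcases i with i | i
  · fin_cases i
    · exact h.b1.trans h1
    · exact h.c1.trans h1
    · exact h1
  · exact h.g1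

lemma Nm.prodC {N : ℕ} (r : Finset (IN N)) (hr : {Sum.inl 0, Sum.inl 1} ⊆ r) (m : ℕ)
    (hm : r.card = m + 3) :
    ∏ i ∈ r, bet N C n wb wc i ≤
      C ^ 4 * C ^ m * ((wa * wb * wc) * (max wb wc ^ 2 / n) ^ m) := by
  classical
  have hC := h.C0
  have hn := h.n0
  have hb := h.b0
  have hc := h.c0
  have h01 : (Sum.inl 0 : IN N) ≠ Sum.inl 1 := by simp
  have hcard : (r \ {Sum.inl 0, Sum.inl 1}).card = m + 1 := by
    rw [Finset.card_sdiff_of_subset hr, hm, Finset.card_pair h01]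
    omega
  have h1 := prod_bound {Sum.inl 0, Sum.inl 1} r hr (bet N C n wb wc) (C ^ 3 * n)
    (C * (max wb wc ^ 2 / n)) h.g0 h.g1 (Sum.inl 2) m hcard (fun i _ => h.bet_nonneg i) (by
      intro i hi h2
      rcases i with i | i
      · exfalso
        rw [Finset.mem_sdiff] at hi
        fin_cases i
        · exact hi.2 (by simp)
        · exact hi.2 (by simp)
        · exact h2 rfl
      · exact le_rfl) (h.bet_le _)
  rw [Finset.prod_pair h01] at h1
  refine h1.trans ?_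
  change wb * wc * (C ^ 3 * n * (C * (max wb wc ^ 2 / n)) ^ m) ≤ _
  have h4 : 0 ≤ wb * wc * C ^ 3 * C ^ m * (max wb wc ^ 2 / n) ^ m := by positivity
  calc wb * wc * (C ^ 3 * n * (C * (max wb wc ^ 2 / n)) ^ m)
      = (wb * wc * C ^ 3 * C ^ m * (max wb wc ^ 2 / n) ^ m) * n := by rw [mul_pow]; ring
    _ ≤ (wb * wc * C ^ 3 * C ^ m * (max wb wc ^ 2 / n) ^ m) * (C * wa) :=
        mul_le_mul_of_nonneg_left h.la h4
    _ = _ := by ring

lemma Nm.prodA {N : ℕ} (hcb : wc ≤ C * wb) (r : Finset (IN N)) (hr : {Sum.inl 0} ⊆ r)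
    (hr' : r ⊆ Finset.univ.erase (Sum.inl 1)) (m : ℕ) (hm : r.card = m + 3) :
    ∏ i ∈ r, bet N C n wb wc i ≤ C ^ (5 * m + 9) * (wb ^ (2 * m + 3) * wa * (n ^ (m + 1))⁻¹) := by
  classical
  have hC := h.C0
  have hn := h.n0
  have hb := h.b0
  have ha := h.a0
  have hcard : (r \ {Sum.inl 0}).card = m + 1 + 1 := by
    rw [Finset.card_sdiff_of_subset hr, hm, Finset.card_singleton]
    omega
  have h1 := prod_bound {Sum.inl 0} r hr (bet N C n wb wc) (C ^ 3 * n)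
    (C * (max wb wc ^ 2 / n)) h.g0 h.g1 (Sum.inl 2) (m + 1) hcard (fun i _ => h.bet_nonneg i) (by
      intro i hi h2
      rcases i with i | i
      · exfalso
        rw [Finset.mem_sdiff] at hi
        fin_cases i
        · exact hi.2 (by simp)
        · exact absurd (hr' hi.1) (by simp)
        · exact h2 rfl
      · exact le_rfl) (h.bet_le _)
  rw [Finset.prod_singleton] at h1
  refine h1.trans ?_
  change wb * (C ^ 3 * n * (C * (max wb wc ^ 2 / n)) ^ (m + 1)) ≤ _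
  have hW : max wb wc ≤ C * wb := max_le (le_mul_of_one_le_left hb.le h.hC) hcb
  have hW0 : 0 < max wb wc := lt_of_lt_of_le hb (le_max_left _ _)
  have h2 : C * (max wb wc ^ 2 / n) ≤ C ^ 3 * wb ^ 2 * n⁻¹ := by
    calc C * (max wb wc ^ 2 / n) ≤ C * ((C * wb) ^ 2 / n) := by
          apply mul_le_mul_of_nonneg_left _ hC.le
          apply div_le_div_of_nonneg_right _ hn.le
          exact pow_le_pow_left₀ hW0.le hW 2
      _ = _ := by rw [div_eq_mul_inv]; ring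
  have h3 : (C * (max wb wc ^ 2 / n)) ^ (m + 1) ≤ (C ^ 3 * wb ^ 2 * n⁻¹) ^ (m + 1) :=
    pow_le_pow_left₀ h.g0 h2 _
  have h5 : (C : ℝ) ^ (3 * m + 7) ≤ C ^ (5 * m + 9) := pow_le_pow_right₀ h.hC (by omega)
  calc wb * (C ^ 3 * n * (C * (max wb wc ^ 2 / n)) ^ (m + 1))
      ≤ wb * (C ^ 3 * (C * wa) * (C ^ 3 * wb ^ 2 * n⁻¹) ^ (m + 1)) := by
        apply mul_le_mul_of_nonneg_left _ hb.le
        apply mul_le_mul _ h3 (pow_nonneg h.g0 _) (by positivity)
        exact mul_le_mul_of_nonneg_left h.la (by positivity)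
    _ = C ^ (3 * m + 7) * (wb ^ (2 * m + 3) * wa * (n ^ (m + 1))⁻¹) := by
        rw [mul_pow, mul_pow, ← pow_mul, ← pow_mul, inv_pow]
        ring
    _ ≤ _ := mul_le_mul_of_nonneg_right h5 (by positivity)

lemma Nm.prodB {N : ℕ} (wi : ℝ) (hi : n ≤ C * wi) (r : Finset (IN N))
    (hr : {Sum.inl 0} ⊆ r) (m : ℕ) (hm : r.card = m + 3) :
    ∏ i ∈ r, bet N C n wb wc i ≤ C ^ (5 * m + 9) * (wi ^ (2 * m + 3) * wb * (n ^ (m + 1))⁻¹) := by
  classical
  have hC := h.C0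
  have hn := h.n0
  have hb := h.b0
  have hcard : (r \ {Sum.inl 0}).card = m + 1 + 1 := by
    rw [Finset.card_sdiff_of_subset hr, hm, Finset.card_singleton]
    omega
  have h1 := prod_bound {Sum.inl 0} r hr (bet N C n wb wc) (C ^ 3 * n)
    (C ^ 3 * n) (by positivity) le_rfl (Sum.inl 2) (m + 1) hcard (fun i _ => h.bet_nonneg i)
    (fun i _ _ => h.bet_le i) (h.bet_le _)
  rw [Finset.prod_singleton] at h1
  refine h1.trans ?_
  change wb * (C ^ 3 * n * (C ^ 3 * n) ^ (m + 1)) ≤ _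
  have h2 : n ^ (2 * m + 3) ≤ (C * wi) ^ (2 * m + 3) := pow_le_pow_left₀ hn.le hi _
  have h3 : n ^ (m + 2) = n ^ (2 * m + 3) * (n ^ (m + 1))⁻¹ := by
    rw [eq_mul_inv_iff_mul_eq₀ (by positivity), ← pow_add]
    congr 1
    omega
  calc wb * (C ^ 3 * n * (C ^ 3 * n) ^ (m + 1))
      = wb * C ^ (3 * m + 6) * n ^ (m + 2) := by rw [mul_pow, ← pow_mul]; ring
    _ = wb * C ^ (3 * m + 6) * (n ^ (2 * m + 3) * (n ^ (m + 1))⁻¹) := by rw [h3]
    _ ≤ wb * C ^ (3 * m + 6) * ((C * wi) ^ (2 * m + 3) * (n ^ (m + 1))⁻¹) := by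
        apply mul_le_mul_of_nonneg_left _ (by positivity)
        exact mul_le_mul_of_nonneg_right h2 (by positivity)
    _ = _ := by rw [mul_pow]; ring

lemma Nm.bet_rg {N : ℕ} {Q B : ℝ} (hQ : C ≤ Q) (hB : 0 ≤ B) (hn : Rg Q B n) (hb : Rg Q B wb)
    (hc : Rg Q B wc) (i : IN N) : Rg Q (3 * B + 1) (bet N C n wb wc i) := by
  have hQ1 : 1 ≤ Q := h.hC.trans hQ
  rcases i with i | i
  · fin_cases i
    · exact hb.mono hQ1 (by linarith)
    · exact hc.mono hQ1 (by linarith)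
    · exact ((Rg.of_one h.hC hQ).mul hQ1 hn).mono hQ1 (by linarith)
  · have h1 := hb.max hc
    have h2 : Rg Q (1 + (B + B + B)) (C * (max wb wc ^ 2 / n)) := by
      rw [pow_two]
      exact (Rg.of_one h.hC hQ).mul hQ1 ((h1.mul hQ1 h1).div hQ1 hn)
    exact h2.mono hQ1 (by linarith)

end nm

end Pool.Agent.Helper38.TP
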