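import Pool.Agent.Helper38.TP.EstG
import Pool.Agent.Helper38.TP.Num

/-!
# A linear relation between the monomials
-/

set_option autoImplicit false
set_option linter.unusedSectionVars false

namespace Pool.Agent.Helper38.TP

open Pool.Agent.Helper10.Sub Pool.Agent.Helper94.Sub MvPolynomial

lemma pbPow {Q E x : ℝ} (hQ : 1 ≤ Q) (h : PB Q E x) (n : ℕ) : PB Q (n * E) (x ^ n) := by
  have h1 := PB.prod hQ (Finset.range n) (fun _ => x) fun _ _ => h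
  simpa using h1

/-- Small values of unit products: both bounds. -/
lemma unit_pb {K : Type} [Field K] {Λ : Type} [Fintype Λ] {L : Λ → Type}
    [∀ s, NontriviallyNormedField (L s)] [∀ s, Algebra K (L s)] (Z : MP K L) {u : K} (hu : Z.U u)
    {Q B : ℝ} (hQ : 1 ≤ Q) (hB : 0 ≤ B) (h : ∀ s, ‖algebraMap K (L s) u‖ ≤ Q ^ B) (s : Λ) :
    PB Q (B * Fintype.card Λ + B) ‖algebraMap K (L s) u‖ :=
  rg_of_prod (fun s => ‖algebraMap K (L s) u‖) hQ hB hu.pos h hu.pf.ge s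

section rel
variable {K : Type} [Field K] [CharZero K] {Λ : Type} [Fintype Λ] [DecidableEq Λ] {L : Λ → Type}
  [∀ s, NontriviallyNormedField (L s)] [∀ s, ProperSpace (L s)] [∀ s, Algebra K (L s)] {N r : ℕ}

/-- The hypotheses on the points. -/
structure Pts (Z : MP K L) (𝔅 : LN (Fin (N + 1) → K)) (J₀ : Set (MvPolynomial (Fin (N + 1)) K))
    (F : Fin r → MvPolynomial (Fin (N + 1)) K) (d : Fin r → ℕ) (D : Fin r → K)
    (w : (Fin (N + 1) → K) → Fin r → K) (C₁ ε C₂ : ℝ) (E : Set (Fin (N + 1) → K)) : Prop where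
  hJ₀ : ∀ f ∈ J₀, ∃ e, f.IsHomogeneous e
  hd : ∀ i, 1 ≤ d i
  hF : ∀ i, (F i).IsHomogeneous (d i)
  hD : ∀ i, D i ≠ 0
  hempty : ∀ s, ∀ A : Fin (N + 1) → L s, OnV J₀ A → (∀ i, aeval A (F i) = 0) → A = 0
  hred : ∀ s, ∀ a : Fin r, ∀ A : Fin (N + 1) → L s, A ≠ 0 →
    OnV (J₀ ∪ F '' ((Finset.univ.erase a : Finset (Fin r)) : Set (Fin r))) A →
    Jac (J₀ ∪ F '' ((Finset.univ.erase a : Finset (Fin r)) : Set (Fin r))) A
  big : 𝔅.Big E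
  unit : ∀ x ∈ E, ∀ i, Z.U (w x i)
  ev : ∀ x ∈ E, ∀ i, eval x (F i) = D i * w x i ^ d i
  O : ∀ x ∈ E, ∀ k, x k ∈ Z.O
  ne : ∀ x ∈ E, x ≠ 0
  onV : ∀ x ∈ E, ∀ f ∈ J₀, eval x f = 0
  hC₁ : 1 ≤ C₁
  bal : ∀ x ∈ E, ∀ s, nrm (L s) x ≤ C₁ * Ht L x
  up : ∀ x ∈ E, ∀ s i, ‖algebraMap K (L s) (w x i)‖ ≤ C₁ * nrm (L s) x
  low : ∀ x ∈ E, ∀ s, ∃ i, nrm (L s) x ≤ C₁ * ‖algebraMap K (L s) (w x i)‖
  hε : 0 < ε
  gap : ∀ x ∈ E, ∀ a : Λ → Fin r,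
    (∀ s, nrm (L s) x ≤ C₁ * ‖algebraMap K (L s) (w x (a s))‖) →
    ∏ s, (‖fun i : Ix (a s) => algebraMap K (L s) (w x i.1)‖ / nrm (L s) x) ≤
      C₂ * Ht L x ^ (-ε)

namespace Pts
variable {Z : MP K L} {𝔅 : LN (Fin (N + 1) → K)} {J₀ : Set (MvPolynomial (Fin (N + 1)) K)}
    {F : Fin r → MvPolynomial (Fin (N + 1)) K} {d : Fin r → ℕ} {D : Fin r → K}
    {w : (Fin (N + 1) → K) → Fin r → K} {C₁ ε C₂ : ℝ} {E : Set (Fin (N + 1) → K)}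

lemma mono (h : Pts Z 𝔅 J₀ F d D w C₁ ε C₂ E) {E' : Set (Fin (N + 1) → K)} (hE : E' ⊆ E)
    (hB : 𝔅.Big E') : Pts Z 𝔅 J₀ F d D w C₁ ε C₂ E' where
  hJ₀ := h.hJ₀
  hd := h.hd
  hF := h.hF
  hD := h.hD
  hempty := h.hempty
  hred := h.hred
  big := hB
  unit := fun x hx => h.unit x (hE hx)
  ev := fun x hx => h.ev x (hE hx)
  O := fun x hx => h.O x (hE hx)
  ne := fun x hx => h.ne x (hE hx)
  onV := fun x hx => h.onV x (hE hx)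
  hC₁ := h.hC₁
  bal := fun x hx => h.bal x (hE hx)
  up := fun x hx => h.up x (hE hx)
  low := fun x hx => h.low x (hE hx)
  hε := h.hε
  gap := fun x hx => h.gap x (hE hx)

lemma large (h : Pts Z 𝔅 J₀ F d D w C₁ ε C₂ E) (B : ℝ) : 𝔅.Big {x | x ∈ E ∧ B ≤ Ht L x} := by
  have hfin : {x : Fin (N + 1) → K | ∀ k, x k ∈ Z.O ∧
      ∀ s, ‖algebraMap K (L s) (x k)‖ ≤ C₁ * B}.Finite :=
    (Set.Finite.pi' (fun _ : Fin (N + 1) => Z.fin (C₁ * B))).subset fun x hx k => hx k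
  have h1 := 𝔅.sdiff h.big hfin
  refine 𝔅.mono ?_ h1
  rintro x ⟨hx, hx'⟩
  refine ⟨hx, ?_⟩
  by_contra hcon
  push Not at hcon
  apply hx'
  intro k
  have := h.hC₁
  refine ⟨h.O x hx k, fun s => (le_nrm x k).trans ((h.bal x hx s).trans ?_)⟩
  exact mul_le_mul_of_nonneg_left hcon.le (by linarith)

lemma one_le (h : Pts Z 𝔅 J₀ F d D w C₁ ε C₂ E) {x : Fin (N + 1) → K} (hx : x ∈ E) :
    1 ≤ Ht L x := one_le_Ht Z (h.O x hx) (h.ne x hx)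

/-- The sizes of the units. -/
lemma up3 (h : Pts Z 𝔅 J₀ F d D w C₁ ε C₂ E) {x : Fin (N + 1) → K} (hx : x ∈ E)
    (hC : C₁ ≤ Ht L x) (s : Λ) (i : Fin r) :
    ‖algebraMap K (L s) (w x i)‖ ≤ Ht L x ^ (3 : ℝ) := by
  have hQ0 : 0 < Ht L x := by linarith [h.one_le hx]
  have h3 : Ht L x ^ (3 : ℕ) = Ht L x ^ (3 : ℝ) := by
    rw [← Real.rpow_natCast]
    norm_num
  refine (h.up x hx s i).trans ?_
  rw [← h3]
  calc C₁ * nrm (L s) x ≤ Ht L x * (Ht L x * Ht L x) := by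
        refine mul_le_mul hC ((h.bal x hx s).trans ?_) (nrm_nonneg _) hQ0.le
        exact mul_le_mul_of_nonneg_right hC hQ0.le
    _ = Ht L x ^ 3 := by ring

lemma pb (h : Pts Z 𝔅 J₀ F d D w C₁ ε C₂ E) {x : Fin (N + 1) → K} (hx : x ∈ E)
    (hC : C₁ ≤ Ht L x) (s : Λ) (i : Fin r) :
    PB (Ht L x) (3 * Fintype.card Λ + 3) ‖algebraMap K (L s) (w x i)‖ :=
  unit_pb Z (h.unit x hx i) (h.one_le hx) (by norm_num) (fun s => h.up3 hx hC s i) s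

/-- Upper bound for the characters. -/
lemma chi_up (h : Pts Z 𝔅 J₀ F d D w C₁ ε C₂ E) {x : Fin (N + 1) → K} (hx : x ∈ E)
    (hC : C₁ ≤ Ht L x) (s : Λ) (j : Fin r →₀ ℕ) {u κ : K} (hu : mon (w x) j = κ * u) (hκ : κ ≠ 0)
    (hκH : ‖algebraMap K (L s) κ⁻¹‖ ≤ Ht L x) {n : ℕ} (hn : ∑ i, j i ≤ n) :
    ‖algebraMap K (L s) u‖ ≤ Ht L x ^ ((3 * n + 1 : ℕ) : ℝ) := by
  have hQ := h.one_le hx
  have hQ0 : 0 < Ht L x := by linarith
  have h1 : u = κ⁻¹ * mon (w x) j := by rw [hu, inv_mul_cancel_left₀ hκ]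
  rw [h1, map_mul, norm_mul, Real.rpow_natCast]
  have h2 : ‖algebraMap K (L s) (mon (w x) j)‖ ≤ Ht L x ^ (3 * n) := by
    unfold mon
    rw [map_prod, norm_prod]
    calc ∏ i, ‖algebraMap K (L s) (w x i ^ j i)‖ ≤ ∏ i, (Ht L x ^ 3) ^ j i := by
          refine Finset.prod_le_prod (fun i _ => norm_nonneg _) fun i _ => ?_
          rw [map_pow, norm_pow]
          refine pow_le_pow_left₀ (norm_nonneg _) ?_ _
          refine (h.up3 hx hC s i).trans_eq ?_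
          rw [← Real.rpow_natCast]
          norm_num
      _ = Ht L x ^ (3 * ∑ i, j i) := by
          rw [Finset.prod_pow_eq_pow_sum, ← pow_mul]
      _ ≤ _ := pow_le_pow_right₀ hQ (by omega)
  calc ‖algebraMap K (L s) κ⁻¹‖ * ‖algebraMap K (L s) (mon (w x) j)‖
      ≤ Ht L x * Ht L x ^ (3 * n) := mul_le_mul hκH h2 (norm_nonneg _) hQ0.le
    _ = _ := by ring

end Pts

end rel

end Pool.Agent.Helper38.TP
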