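import Pool.Agent.Helper38.TP.RelG

/-!
# A linear relation between the monomials: end
-/

set_option autoImplicit false
set_option linter.unusedSectionVars false

namespace Pool.Agent.Helper38.TP

open Pool.Agent.Helper10.Sub Pool.Agent.Helper94.Sub MvPolynomial

/-- The product of the sizes of the forms. -/
lemma relG_prod {Λ A B : Type} [Fintype Λ] [Fintype A] [Fintype B] (C R : ℝ) (hC : 0 ≤ C)
    (hR : 1 ≤ R) (W Dl : Λ → ℝ) (X : Λ → A → ℝ) (X' : Λ → B → ℝ) (e : Λ → A → ℕ) (M S₀ : ℕ)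
    (hW : ∀ s, 0 ≤ W s) (hDl : ∀ s, 0 ≤ Dl s) (hDlR : ∀ s, Dl s ≤ R) (hX0 : ∀ s α, 0 ≤ X s α)
    (hX0' : ∀ s β, 0 ≤ X' s β)
    (hX : ∀ α, ∏ s, X s α = 1) (hX' : ∀ β, ∏ s, X' s β = 1) (he : ∀ s α, e s α ≤ M)
    (hS : ∀ s, S₀ ≤ ∑ α, e s α) :
    ∏ s, ((∏ α, C * X s α * W s * Dl s ^ (e s α + 2)) * ∏ β, X' s β) ≤
      (C ^ Fintype.card A * R ^ (Fintype.card A * (M + 2))) ^ Fintype.card Λ *
        (∏ s, W s) ^ Fintype.card A * (∏ s, Dl s) ^ S₀ := by
  classical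
  have h1 : ∀ s, (∏ α, C * X s α * W s * Dl s ^ (e s α + 2)) ≤
      (C ^ Fintype.card A * R ^ (Fintype.card A * (M + 2))) * ((∏ α, X s α) *
        (W s ^ Fintype.card A * Dl s ^ S₀)) := by
    intro s
    rw [Finset.prod_mul_distrib, Finset.prod_mul_distrib, Finset.prod_mul_distrib,
      Finset.prod_const, Finset.prod_const, Finset.card_univ, Finset.prod_pow_eq_pow_sum]
    have h2 : S₀ ≤ ∑ α, (e s α + 2) :=
      (hS s).trans (Finset.sum_le_sum fun α _ => Nat.le_add_right _ _)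
    have h3 := pow_cmp (hDl s) (hDlR s) hR h2
    have h4 : R ^ (∑ α, (e s α + 2)) ≤ R ^ (Fintype.card A * (M + 2)) := by
      apply pow_le_pow_right₀ hR
      calc ∑ α, (e s α + 2) ≤ ∑ _α : A, (M + 2) :=
            Finset.sum_le_sum fun α _ => by have := he s α; omega
        _ = _ := by rw [Finset.sum_const, Finset.card_univ, smul_eq_mul]
    have h5 : Dl s ^ (∑ α, (e s α + 2)) ≤ R ^ (Fintype.card A * (M + 2)) * Dl s ^ S₀ :=
      h3.trans (mul_le_mul_of_nonneg_right h4 (pow_nonneg (hDl s) _))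
    have h6 : 0 ≤ C ^ Fintype.card A * (∏ α, X s α) * W s ^ Fintype.card A :=
      mul_nonneg (mul_nonneg (pow_nonneg hC _) (Finset.prod_nonneg fun α _ => hX0 s α))
        (pow_nonneg (hW s) _)
    calc C ^ Fintype.card A * (∏ α, X s α) * W s ^ Fintype.card A *
          Dl s ^ (∑ α, (e s α + 2)) ≤ C ^ Fintype.card A * (∏ α, X s α) * W s ^ Fintype.card A *
          (R ^ (Fintype.card A * (M + 2)) * Dl s ^ S₀) := mul_le_mul_of_nonneg_left h5 h6
      _ = _ := by ring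
  calc ∏ s, ((∏ α, C * X s α * W s * Dl s ^ (e s α + 2)) * ∏ β, X' s β)
      ≤ ∏ s, ((C ^ Fintype.card A * R ^ (Fintype.card A * (M + 2))) * ((∏ α, X s α) *
        (W s ^ Fintype.card A * Dl s ^ S₀)) * ∏ β, X' s β) := by
        refine Finset.prod_le_prod (fun s _ => ?_) fun s _ => ?_
        · exact mul_nonneg (Finset.prod_nonneg fun α _ => mul_nonneg (mul_nonneg
            (mul_nonneg hC (hX0 s α)) (hW s)) (pow_nonneg (hDl s) _))
            (Finset.prod_nonneg fun β _ => hX0' s β)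
        · exact mul_le_mul_of_nonneg_right (h1 s) (Finset.prod_nonneg fun β _ => hX0' s β)
    _ = _ := by
        rw [Finset.prod_mul_distrib, Finset.prod_mul_distrib, Finset.prod_const, Finset.card_univ,
          Finset.prod_mul_distrib, Finset.prod_mul_distrib, Finset.prod_comm,
          Finset.prod_eq_one fun α _ => hX α, one_mul, Finset.prod_comm (f := fun s β => X' s β),
          Finset.prod_eq_one fun β _ => hX' β, mul_one, Finset.prod_pow, Finset.prod_pow]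
        ring

section rel
variable {K : Type} [Field K] [CharZero K] {Λ : Type} [Fintype Λ] [DecidableEq Λ] {L : Λ → Type}
  [∀ s, NontriviallyNormedField (L s)] [∀ s, ProperSpace (L s)] [∀ s, Algebra K (L s)] {N r : ℕ}
  {Z : MP K L} {𝔅 : LN (Fin (N + 1) → K)} {J₀ : Set (MvPolynomial (Fin (N + 1)) K)}
    {F : Fin r → MvPolynomial (Fin (N + 1)) K} {d : Fin r → ℕ} {D : Fin r → K}
    {w : (Fin (N + 1) → K) → Fin r → K} {C₁ ε C₂ : ℝ} {E : Set (Fin (N + 1) → K)}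

/-- The distance to the corner. -/
noncomputable def dl (L : Type) [NontriviallyNormedField L] [Algebra K L] (w : Fin r → K)
    (a : Fin r) : ℝ := ‖fun i : Ix a => algebraMap K L (w i.1 / w a)‖

lemma dl_eq {L : Type} [NontriviallyNormedField L] [Algebra K L] (w : Fin r → K) (a : Fin r) :
    dl L w a = ‖fun i : Ix a => algebraMap K L (w i.1)‖ / ‖algebraMap K L (w a)‖ := by
  have h1 : (fun i : Ix a => algebraMap K L (w i.1 / w a)) =
      (algebraMap K L (w a))⁻¹ • fun i : Ix a => algebraMap K L (w i.1) := by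
    funext i
    rw [Pi.smul_apply, smul_eq_mul, map_div₀, div_eq_inv_mul]
  rw [dl, h1, norm_smul, norm_inv, div_eq_inv_mul]

lemma Pts.dl_le (h : Pts Z 𝔅 J₀ F d D w C₁ ε C₂ E) {x : Fin (N + 1) → K} (hx : x ∈ E) {s : Λ}
    {a : Fin r} (ha : nrm (L s) x ≤ C₁ * ‖algebraMap K (L s) (w x a)‖) :
    dl (L s) (w x) a ≤ C₁ ^ 2 := by
  have hC := h.hC₁
  have hw := (h.unit x hx a).pos s
  rw [dl_eq, div_le_iff₀ hw, pi_norm_le_iff_of_nonneg (by positivity)]
  intro i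
  refine (h.up x hx s i).trans ?_
  rw [pow_two, mul_assoc]
  exact mul_le_mul_of_nonneg_left ha (by linarith)

lemma Pts.dl_le' (h : Pts Z 𝔅 J₀ F d D w C₁ ε C₂ E) {x : Fin (N + 1) → K} (hx : x ∈ E) {s : Λ}
    {a : Fin r} (ha : nrm (L s) x ≤ C₁ * ‖algebraMap K (L s) (w x a)‖) :
    dl (L s) (w x) a ≤
      C₁ * (‖fun i : Ix a => algebraMap K (L s) (w x i.1)‖ / nrm (L s) x) := by
  have hC := h.hC₁
  have hw := (h.unit x hx a).pos s
  have hn : 0 < nrm (L s) x := nrm_pos (h.ne x hx)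
  rw [dl_eq, div_le_iff₀ hw, mul_assoc, div_mul_eq_mul_div, ← mul_div_assoc, le_div_iff₀ hn]
  calc ‖fun i : Ix a => algebraMap K (L s) (w x i.1)‖ * nrm (L s) x
      ≤ ‖fun i : Ix a => algebraMap K (L s) (w x i.1)‖ * (C₁ * ‖algebraMap K (L s) (w x a)‖) :=
        mul_le_mul_of_nonneg_left ha (norm_nonneg _)
    _ = _ := by ring

lemma Pts.dl_pb (h : Pts Z 𝔅 J₀ F d D w C₁ ε C₂ E) (hr : 2 ≤ r) {x : Fin (N + 1) → K}
    (hx : x ∈ E) (hC : C₁ ≤ Ht L x) (s : Λ) (a : Fin r) :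
    PB (Ht L x) (2 * (3 * Fintype.card Λ + 3)) (dl (L s) (w x) a) := by
  have hQ := h.one_le hx
  have hQ0 : 0 < Ht L x := by linarith
  have h1 : ∀ i : Ix a, PB (Ht L x) (2 * (3 * Fintype.card Λ + 3))
      ‖algebraMap K (L s) (w x i.1 / w x a)‖ := by
    intro i
    rw [map_div₀, norm_div, two_mul]
    exact (h.pb hx hC s i).div hQ (h.pb hx hC s a)
  obtain ⟨b, hb⟩ : ∃ b : Fin r, b ≠ a := by
    have : Nontrivial (Fin r) := Fin.nontrivial_iff_two_le.2 hr
    exact exists_ne a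
  have hb' : b ∈ (Finset.univ : Finset (Fin r)).erase a :=
    Finset.mem_erase.2 ⟨hb, Finset.mem_univ _⟩
  refine ⟨(h1 ⟨b, hb'⟩).1.trans (norm_le_pi_norm
    (fun i : Ix a => algebraMap K (L s) (w x i.1 / w x a)) ⟨b, hb'⟩), ?_⟩
  rw [dl, pi_norm_le_iff_of_nonneg (Real.rpow_nonneg hQ0.le _)]
  exact fun i => (h1 i).2

end rel

end Pool.Agent.Helper38.TP
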